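import Pool.Agent.Two.DatA
import Pool.Agent.Two.TPEx
import Pool.Agent.Two.BlkA
import Pool.Agent.Fdf.Main

/-!
# Two stable factors: from the data to the algebra theorem
-/

set_option autoImplicit false

namespace Pool.Agent.Two

open Pool.Agent.Sig Pool.Agent.K9 Pool.Agent.Sqf Pool.Agent.Fdf Pool.Agent.Evn Pool.Agent.Lrg

/-- The exponent of `E` divides `p - 1`, and `P` is the product of two stable subgroups. -/
def Two2 (p : ℕ) (P E : Type) [Group P] [Group E] (act : E →* MulAut P) : Prop :=
  (∀ x : E, x ^ (p - 1) = 1) ∧ ∃ V W : Subgroup P, V ≠ ⊥ ∧ W ≠ ⊥ ∧ (∀ x, ∀ v ∈ V, act x v ∈ V) ∧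
    (∀ x, ∀ v ∈ W, act x v ∈ W) ∧ V ⊓ W = ⊥ ∧ V ⊔ W = ⊤

/-- THE MAIN THEOREM for the data (statement). -/
def MainT : Prop :=
  ∀ (K P E T A : Type) [Field K] [IsAlgClosed K] [CommGroup P] [Fintype P] [Nontrivial P] [Group E] [Fintype E]
    [Fintype T] [Ring A] [Algebra K A] [FiniteDimensional K A] (act : E →* MulAut P) (p : ℕ) [Fact p.Prime]
    (hp : p.Prime) (hc : CharP K p) (D : TP K act T p) (S : StEq K P E act A) (_ : Dat hp hc D S)
    (s : A →ₗ[K] K), IsPGroup p P → (Fintype.card E : K) ≠ 0 →
    (∀ x : E, x ≠ 1 → ∀ u : P, act x u = u → u = 1) →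
    (∀ a b, s (a * b) = s (b * a)) → (∀ a, (∀ b, s (a * b) = 0) → a = 0) →
    (∀ z : A, (∀ u : P, z * S.ρ (.inl u) = S.ρ (.inl u) * z) → IsUnit z ∨ IsNilpotent z) →
    ∀ x0 : ℕ, Fintype.card P = 1 + Fintype.card E * x0 → Fintype.card E + 2 ≤ x0 → 3 ≤ Fintype.card E →
    0 < lA K A → lA K A = Nat.card (ConjClasses E)

theorem lA_pos {k A : Type} [Field k] [IsAlgClosed k] [Ring A] [Algebra k A] [FiniteDimensional k A] [Nontrivial A] :
    0 < lA k A := by
  obtain ⟨D⟩ := exists_wd (k := k) (C := A)
  rw [lA_wd D]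
  by_contra h
  have h1 : IsEmpty D.I := Fintype.card_eq_zero_iff.1 (Nat.eq_zero_of_not_pos h)
  obtain ⟨N, hN⟩ := D.nil
  have h2 := hN (List.replicate N 1) (List.length_replicate) fun x _ i => (h1.false i).elim
  rw [List.prod_replicate, one_pow] at h2
  exact one_ne_zero h2

/-- A nontrivial stable subgroup has more than `|E|` elements. -/
theorem card_st {P E : Type} [Group P] [Finite P] [Group E] [Finite E] (act : E →* MulAut P)
    (hfree : ∀ x : E, x ≠ 1 → ∀ u : P, act x u = u → u = 1) (V : Subgroup P) (hV : V ≠ ⊥)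
    (hst : ∀ x, ∀ v ∈ V, act x v ∈ V) : Nat.card E + 1 ≤ Nat.card V := by
  classical
  obtain ⟨v, hv, hv1⟩ : ∃ v, v ∈ V ∧ v ≠ 1 := by
    obtain ⟨v, hv⟩ := Subgroup.ne_bot_iff_exists_ne_one.1 hV
    exact ⟨v.1, v.2, fun h => hv (Subtype.ext h)⟩
  let f : Option E → V := fun x => x.elim 1 fun x => ⟨act x v, hst x v hv⟩
  have hne : ∀ x : E, act x v ≠ 1 := fun x h => hv1 ((act x).injective (by rw [h, map_one]))
  have hf : Function.Injective f := by
    intro x y h
    rcases x with - | x <;> rcases y with - | y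
    · rfl
    · exact absurd (congrArg Subtype.val h).symm (hne y)
    · exact absurd (congrArg Subtype.val h) (hne x)
    · have h1 : act x v = act y v := congrArg Subtype.val h
      have h2 : y⁻¹ * x = 1 := by
        by_contra h3
        apply hv1
        refine hfree _ h3 v ?_
        rw [map_mul, MulAut.mul_apply, h1, map_inv, MulAut.inv_apply_self]
      rw [inv_mul_eq_one.1 h2]
  have h1 := Nat.card_le_card_of_injective f hf
  rwa [Finite.card_option] at h1

/-- The algebra theorem. -/
theorem algT (main : MainT) : AlgA Two2 := by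
  classical
  intro k P E _ _ p _ _ _ _ _ _ _ act hP hE hfree hQ A _ _ _ S s hs hnd hloc
  have hp : p.Prime := Fact.out
  rcases Nat.lt_or_ge (Fintype.card E) 3 with h3 | h3
  · -- `E` is commutative
    refine algF k P E p act hP hE hfree ?_ A S s hs hnd fun z hz => hloc z fun u => hz _
    have h4 : ∀ x y : E, x * y = y * x := by
      intro x y
      by_contra hne
      have h1 : x ≠ 1 := by
        rintro rfl
        exact hne (by rw [one_mul, mul_one])
      have h2 : y ≠ 1 := by
        rintro rfl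
        exact hne (by rw [one_mul, mul_one])
      have h5 : x ≠ y := by
        rintro rfl
        exact hne rfl
      have h6 : ({1, x, y} : Finset E).card = 3 := by
        rw [Finset.card_insert_of_notMem, Finset.card_insert_of_notMem, Finset.card_singleton]
        · rwa [Finset.mem_singleton]
        · rw [Finset.mem_insert, Finset.mem_singleton]
          rintro (h | h)
          · exact h1 h.symm
          · exact h2 h.symm
      have h7 : ({1, x, y} : Finset E).card ≤ Fintype.card E := Finset.card_le_univ _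
      omega
    have h5 : Subgroup.center E = ⊤ := by
      rw [eq_top_iff]
      intro x _
      exact Subgroup.mem_center_iff.2 fun y => h4 y x
    rw [h5, Subgroup.index_top]
    exact odd_one
  · obtain ⟨hexp, V, W, hV, hW, hsV, hsW, hinf, hsup⟩ := hQ
    have hE' : ¬ p ∣ Nat.card E := by
      rw [Nat.card_eq_fintype_card]
      intro h
      exact hE ((CharP.cast_eq_zero_iff k p _).2 h)
    have hVW : (Fintype.card E + 1) ^ 2 ≤ Fintype.card P := by
      have h1 := card_st act hfree V hV hsV
      have h2 := card_st act hfree W hW hsW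
      let g : V × W → P := fun x => x.1 * x.2
      have hg : Function.Injective g := by
        rintro ⟨v, w⟩ ⟨v', w'⟩ h
        have h' : (v : P) * w = v' * w' := h
        have h5 : (v' : P)⁻¹ * v = w' * (w : P)⁻¹ := by
          rw [inv_mul_eq_iff_eq_mul, ← mul_assoc, ← h', mul_inv_cancel_right]
        have h6 : (v' : P)⁻¹ * v ∈ V ⊓ W := ⟨V.mul_mem (V.inv_mem v'.2) v.2, by
          rw [h5]
          exact W.mul_mem w'.2 (W.inv_mem w.2)⟩
        rw [hinf, Subgroup.mem_bot] at h6
        have h7 : (w' : P) * (w : P)⁻¹ = 1 := by rw [← h5, h6]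
        exact Prod.ext (Subtype.ext (inv_mul_eq_one.1 h6).symm) (Subtype.ext (mul_inv_eq_one.1 h7).symm)
      have h4 := Nat.card_le_card_of_injective g hg
      rw [Nat.card_prod, Nat.card_eq_fintype_card (α := P)] at h4
      rw [Nat.card_eq_fintype_card] at h1 h2
      refine le_trans ?_ h4
      rw [pow_two]
      exact Nat.mul_le_mul h1 h2
    obtain ⟨T, _, _, ⟨D⟩⟩ := exists_TP (k := k) act hP hE' hfree hexp ![V, W] (fun i => by
      fin_cases i
      · exact hsV
      · exact hsW) (fun i => by
      fin_cases i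
      · exact hV
      · exact hW) hinf hsup
    obtain ⟨K, _, _, hc, A', _, _, _, D', S', s', hEK, hs', hnd', hloc', hl, ⟨d⟩⟩ :=
      exists_dat hp hP D hE hfree S s hs hnd hloc
    obtain ⟨O, _, _, r, hcO, rne, -, -⟩ := orb (fun (x : E) (u : P) => act x u) (fun y => by simp)
      (fun γ δ y => by simp) (1 : P) (fun γ => by simp) (fun γ y hy h => by
        by_contra hne
        exact hy (hfree γ hne y h))
    have hx : Fintype.card E + 2 ≤ Fintype.card O := by
      by_contra hlt
      push Not at hlt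
      have h3 : Fintype.card E * Fintype.card O < Fintype.card E * (Fintype.card E + 2) :=
        Nat.mul_lt_mul_of_pos_left hlt (by omega)
      have h4 : (Fintype.card E + 1) ^ 2 = 1 + Fintype.card E * (Fintype.card E + 2) := by ring
      omega
    have hnt : Nontrivial A' := by
      refine ⟨⟨1, 0, fun h => ?_⟩⟩
      have h1 : S'.io 1 = S'.io 0 := by rw [map_one, map_zero, h]
      have h2 : (1 : cAlg K act) = 0 := by
        rw [← S'.retr 1, h1, S'.retr]
      exact one_ne_zero h2
    rw [← hl]
    exact main K P E T A' act p hp hc D' S' d s' hP hEK hfree hs' hnd' hloc' (Fintype.card O) hcO hx h3 lA_pos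

/-- The condition is invariant. -/
theorem isoT (p : ℕ) (P P' E E' : Type) [Group P] [Group P'] [Group E] [Group E'] (act : E →* MulAut P)
    (act' : E' →* MulAut P') (f : P ≃* P') (e : E ≃* E') (hfe : ∀ x u, f (act x u) = act' (e x) (f u))
    (h : Two2 p P E act) : Two2 p P' E' act' := by
  obtain ⟨h1, V, W, hV, hW, hsV, hsW, hinf, hsup⟩ := h
  have hst : ∀ U : Subgroup P, (∀ x, ∀ v ∈ U, act x v ∈ U) → ∀ x, ∀ v ∈ U.map f.toMonoidHom,
      act' x v ∈ U.map f.toMonoidHom := by
    rintro U hU x _ ⟨v, hv, rfl⟩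
    refine ⟨act (e.symm x) v, hU _ _ hv, ?_⟩
    show f (act (e.symm x) v) = act' x (f v)
    rw [hfe, e.apply_symm_apply]
  have hne : ∀ U : Subgroup P, U ≠ ⊥ → U.map f.toMonoidHom ≠ ⊥ := by
    intro U hU h
    apply hU
    rwa [(Subgroup.map_eq_bot_iff_of_injective U f.injective)] at h
  refine ⟨fun x => ?_, V.map f.toMonoidHom, W.map f.toMonoidHom, hne V hV, hne W hW, hst V hsV, hst W hsW, ?_, ?_⟩
  · obtain ⟨y, rfl⟩ := e.surjective x
    rw [← map_pow, h1, map_one]
  · rw [← Subgroup.map_inf V W f.toMonoidHom f.injective, hinf, Subgroup.map_bot]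
  · rw [← Subgroup.map_sup, hsup, ← MonoidHom.range_eq_map, MonoidHom.range_eq_top]
    exact f.surjective

theorem qaT (main : MainT) : QA Two2 := ⟨isoT, algT main⟩

end Pool.Agent.Two
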