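import Pool.Agent.Two.Grc
import Pool.Agent.Lrg.Bet

/-!
# The action of the torus on `k P` and its lifts
-/

set_option autoImplicit false

namespace Pool.Agent.Two

open Pool.Agent.Sig Pool.Agent.K9 Pool.Agent.Sqf Pool.Agent.Fdf Pool.Agent.Evn Pool.Agent.Lrg

variable {k P E T : Type} [Field k] [CommGroup P] [Group E] {act : E →* MulAut P} [Fintype T]

/-- Substitution. -/
private theorem bt1_sub [Finite P] (D : LinG k act T) (y : T → MonoidAlgebra k P) (hy : ∀ t, y t ^ D.q t = 0) :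
    ∃ β : MonoidAlgebra k P →ₐ[k] MonoidAlgebra k P, ∀ t, β (D.x t) = y t := by
  classical
  obtain ⟨B, hB⟩ := D.exists_basis
  let φ : MonoidAlgebra k P →ₗ[k] MonoidAlgebra k P := B.constr k fun e => ∏ i, y i ^ (e i : ℕ)
  have hφ : ∀ e, φ (B e) = ∏ i, y i ^ (e i : ℕ) := fun e => B.constr_basis k _ e
  have hmono : ∀ e : T → ℕ, φ (∏ i, D.x i ^ e i) = ∏ i, y i ^ e i := by
    intro e
    by_cases he : ∀ i, e i < D.q i
    · have h1 := hB fun i => ⟨e i, he i⟩
      have h2 := hφ fun i => ⟨e i, he i⟩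
      rw [h1] at h2
      exact h2
    · push Not at he
      obtain ⟨i, hi⟩ := he
      obtain ⟨c, hc⟩ := Nat.exists_eq_add_of_le hi
      have h1 : (∏ i, D.x i ^ e i) = 0 := by
        refine Finset.prod_eq_zero (Finset.mem_univ i) ?_
        rw [hc, pow_add, D.nil, zero_mul]
      have h2 : (∏ i, y i ^ e i) = 0 := by
        refine Finset.prod_eq_zero (Finset.mem_univ i) ?_
        rw [hc, pow_add, hy, zero_mul]
      rw [h1, h2, map_zero]
  have hmul : ∀ a b, φ (a * b) = φ a * φ b := by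
    intro a b
    have h1 : (LinearMap.mul k (MonoidAlgebra k P)).compr₂ φ =
        (LinearMap.mul k (MonoidAlgebra k P)).compl₁₂ φ φ := by
      refine B.ext fun e => B.ext fun e' => ?_
      show φ (B e * B e') = φ (B e) * φ (B e')
      rw [hφ, hφ, hB, hB, ← Finset.prod_mul_distrib, ← Finset.prod_mul_distrib]
      have h2 : ∏ i, D.x i ^ (e i : ℕ) * D.x i ^ (e' i : ℕ) = ∏ i, D.x i ^ ((e i : ℕ) + (e' i : ℕ)) :=
        Finset.prod_congr rfl fun i _ => (pow_add _ _ _).symm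
      rw [h2, hmono fun i => (e i : ℕ) + (e' i : ℕ)]
      exact Finset.prod_congr rfl fun i _ => pow_add _ _ _
    exact LinearMap.congr_fun (LinearMap.congr_fun h1 a) b
  have hone : φ 1 = 1 := by
    have h1 := hmono fun _ => 0
    simpa using h1
  refine ⟨AlgHom.ofLinearMap φ hone hmul, fun t => ?_⟩
  show φ (D.x t) = y t
  have h1 := hmono (Pi.single t 1)
  have h2 : ∀ z : T → MonoidAlgebra k P, ∏ i, z i ^ (Pi.single t 1 : T → ℕ) i = z t := by
    intro z
    rw [Finset.prod_eq_single t]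
    · rw [Pi.single_eq_same, pow_one]
    · intro i _ hi
      rw [Pi.single_eq_of_ne hi, pow_zero]
    · intro h
      exact absurd (Finset.mem_univ t) h
  rwa [h2, h2] at h1

variable {p : ℕ}

/-- The action of the torus on `k P`. -/
theorem exists_betaT [Finite P] (hc : CharP k p) (D : TP k act T p) :
    ∃ β : Tor p →* (MonoidAlgebra k P ≃ₐ[k] MonoidAlgebra k P),
      ∀ h t, β h (D.x t) = tsc k hc h⁻¹ (D.c t) • D.x t := by
  have h1 : ∀ h : Tor p, ∃ b : MonoidAlgebra k P →ₐ[k] MonoidAlgebra k P,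
      ∀ t, b (D.toLinG.x t) = tsc k hc h⁻¹ (D.c t) • D.toLinG.x t :=
    fun h => bt1_sub D.toLinG _ fun t => by rw [smul_pow, D.nil, smul_zero]
  choose b hb using h1
  have hmul : ∀ h h', (b h).comp (b h') = b (h * h') := by
    intro h h'
    refine hom_ext D.toLinG fun t => ?_
    rw [AlgHom.comp_apply, hb, map_smul, hb, hb, smul_smul, ← tsc_mul, mul_inv_rev]
  have hone : b 1 = AlgHom.id k (MonoidAlgebra k P) := by
    refine hom_ext D.toLinG fun t => ?_
    rw [hb, inv_one, tsc_one, one_smul]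
    rfl
  refine ⟨MonoidHom.mk' (fun h => AlgEquiv.ofAlgHom (b h) (b h⁻¹)
    (by rw [hmul, mul_inv_cancel, hone]) (by rw [hmul, inv_mul_cancel, hone])) ?_, fun h t => hb h t⟩
  intro h h'
  refine AlgEquiv.ext fun s => ?_
  exact (DFunLike.congr_fun (hmul h h') s).symm

/-- The torus preserves all degrees. -/
theorem beta_gw (hc : CharP k p) (D : TP k act T p) {β : Tor p →* (MonoidAlgebra k P ≃ₐ[k] MonoidAlgebra k P)}
    (hβ : ∀ h t, β h (D.x t) = tsc k hc h⁻¹ (D.c t) • D.x t) (w : T → ℕ) (h : Tor p) (q : ℚ)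
    (s : MonoidAlgebra k P) (hs : s ∈ gw D.toLinG w q) : β h s ∈ gw D.toLinG w q :=
  gw_map D.toLinG w (β h : MonoidAlgebra k P →ₐ[k] MonoidAlgebra k P) (fun t => by
    show β h (D.x t) ∈ _
    rw [hβ]
    exact Submodule.smul_mem _ _ (gw_x D.toLinG w t)) q s hs

variable [Fintype P] [Fintype E] {A : Type} [Ring A] [Algebra k A] [FiniteDimensional k A]

/-- The lifts. -/
theorem lift_torus [IsAlgClosed k] (hp : p.Prime) (hc : CharP k p) (hE : (Fintype.card E : k) ≠ 0) (D : TP k act T p)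
    (S : StEq k P E act A) {β : Tor p →* (MonoidAlgebra k P ≃ₐ[k] MonoidAlgebra k P)}
    (hβ : ∀ h t, β h (D.x t) = tsc k hc h⁻¹ (D.c t) • D.x t) (h : Tor p) : ∃ σ : A ≃ₐ[k] A, Cmp S (β h) σ := by
  have : Fact p.Prime := ⟨hp⟩
  obtain ⟨g, hg⟩ := IsCyclic.exists_generator (α := (ZMod p)ˣ)
  have hm : ∀ i : Fin 2, ∃ m : ℕ, 0 < m ∧ g ^ m = (h⁻¹ : Tor p) i := by
    intro i
    have h1 : (h⁻¹ : Tor p) i ∈ Submonoid.powers g := (mem_powers_iff_mem_zpowers).2 (hg _)
    obtain ⟨m, hm⟩ := h1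
    refine ⟨m + orderOf g, ?_, ?_⟩
    · have := orderOf_pos g
      omega
    · rw [pow_add, pow_orderOf_eq_one, mul_one]
      exact hm
  choose m hm0 hm using hm
  let ζ : kˣ := Units.map (ZMod.castHom (dvd_refl p) k).toMonoidHom g
  refine lift_diag hE (D.toLinW hp hc m hm0) S (β h) ζ fun t => ?_
  show β h (D.x t) = ((ζ : k) ^ m (D.c t)) • D.x t
  rw [hβ]
  congr 1
  unfold tsc
  rw [← hm, Units.val_pow_eq_pow_val, map_pow]
  rfl

theorem card_Tor (hp : p.Prime) (hc : CharP k p) : (Nat.card (Tor p) : k) ≠ 0 := by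
  have : Fact p.Prime := ⟨hp⟩
  have h1 : Nat.card (Tor p) = (p - 1) ^ 2 := by
    rw [Nat.card_pi, Finset.prod_const, Finset.card_univ, Fintype.card_fin, Nat.card_eq_fintype_card, ZMod.card_units]
  rw [h1, Nat.cast_pow]
  refine pow_ne_zero _ fun h => ?_
  have h2 := (CharP.cast_eq_zero_iff k p _).1 h
  have h3 := Nat.le_of_dvd (Nat.sub_pos_of_lt hp.one_lt) h2
  have := hp.pos
  omega

end Pool.Agent.Two
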