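import Pool.Agent.Two.Pair
import Pool.Agent.Nrm.Main

/-!
# The class functions `b_X` and the number of the components in `R`
-/

set_option autoImplicit false
set_option linter.unusedSectionVars false

namespace Pool.Agent.Two

open Pool.Agent.Sig Pool.Agent.K9 Pool.Agent.Sqf Pool.Agent.Fdf Pool.Agent.Evn Pool.Agent.Lrg Pool.Agent.SigO
open Pool.Agent.Nrm

variable {K P E A T : Type} [Field K] [CommGroup P] [Fintype P] [Group E] [Fintype E] {act : E →* MulAut P}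
  [Fintype T] {p : ℕ} {hp : p.Prime} {hc : CharP K p} {D : TP K act T p} [Ring A] [Algebra K A]
  {S : StEq K P E act A} {d : Dat hp hc D S} [DecidableEq (D.L1 hp hc).Y] {W : WM K d.Z.DA.Al}

/-- INDEPENDENCE: for a point `y` with `y_i = 0` the number `D_X(y, g, τ)` does not depend on `τ_i`. -/
def Ind [Fact p.Prime] (c : Cpt d W) : Prop := ∀ i y, Pz D hp hc i y → ∀ X ∈ c.J, ∀ g τ τ', (∀ j, j ≠ i → τ j = τ' j) →
  Fx D hp hc g τ y → c.DX X y g τ = c.DX X y g τ'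

private theorem fx_congr {i : Fin 2} {y : (D.L1 hp hc).Y} (hy : Pz D hp hc i y) {τ τ' : Tor p}
    (h : ∀ j, j ≠ i → τ j = τ' j) (g : E) : Fx D hp hc g τ y ↔ Fx D hp hc g τ' y := by
  have h1 : tY D hp hc τ y = tY D hp hc τ' y := by
    apply Subtype.ext
    funext t
    rw [tY_apply, tY_apply]
    by_cases ht : D.c t = i
    · rw [hy t ht, mul_zero, mul_zero]
    · have h2 : tsc K hc τ (D.c t) = tsc K hc τ' (D.c t) := by
        unfold tsc
        rw [h _ ht]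
      rw [h2]
  unfold Fx
  rw [h1]

private theorem exists_ev (i j : Fin 2) (hij : j ≠ i) (g : E) : ∃ (v : (D.L1 hp hc).Y) (l : (ZMod p)ˣ),
    v ≠ D.y0 hp hc ∧ Pz D hp hc j v ∧ ∀ h : Tor p, h i = l → Fx D hp hc g h v := by
  obtain ⟨v, l, h1, h2, h3⟩ := eigY D hp hc i g
  exact ⟨v, l, h1, fun t ht => h2 t (by rw [ht]; exact hij), h3⟩

private theorem sm_mul' (X : Tht (D.L1 hp hc) d.DS) (g h : E) (y : (D.L1 hp hc).Y) :
    sm (D.L1 hp hc) (g * h) y = sm (D.L1 hp hc) g (sm (D.L1 hp hc) h y) := (X.sm_sm _ _ _).symm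

/-- `κ e_y = e_(κ y) κ` on a component -/
theorem V_ey (c : Cpt d W) {X : W.ι} (hX : X ∈ c.J) (g : E) (τ : Tor p) (y : (D.L1 hp hc).Y) :
    c.V X (g, τ) * W.φ (d.Z.ey d.X y) X =
      W.φ (d.Z.ey d.X (sm (D.L1 hp hc) g (tY D hp hc τ y))) X * c.V X (g, τ) := by
  have hv : c.V X (g, τ) = c.V X (g, 1) * c.V X (1, τ) := by
    rw [← map_mul, Prod.mk_mul_mk, mul_one, one_mul]
  have h2 : c.V X (g⁻¹, 1) * c.V X (g, 1) = 1 := by
    rw [← map_mul, Prod.mk_mul_mk, inv_mul_cancel, mul_one]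
    exact map_one _
  rw [hv, mul_assoc, c.V_c X hX, d.Ps_ey, ← mul_assoc, ← mul_assoc]
  congr 1
  rw [← d.Z.gy_ey d.X g (tY D hp hc τ y), map_mul, map_mul, Pi.mul_apply, Pi.mul_apply, ← c.V_g X hX g,
    ← c.V_g X hX g⁻¹, mul_assoc, h2, mul_one]

/-- conjugation -/
private theorem mt_conj (c : Cpt d W) {X : W.ι} (hX : X ∈ c.J) (y : (D.L1 hp hc).Y) (g h : E) (τ : Tor p)
    (hfx : Fx D hp hc g τ y) (z : K) :
    c.mt X (sm (D.L1 hp hc) h y) (h * g * h⁻¹) τ z = c.mt X y g τ z := by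
  have h1 : c.V X (h, 1) * c.V X (h⁻¹, 1) = 1 := by
    rw [← map_mul, Prod.mk_mul_mk, mul_inv_cancel, mul_one]
    exact map_one _
  have h2 : c.V X (h⁻¹, 1) * c.V X (h, 1) = 1 := by
    rw [← map_mul, Prod.mk_mul_mk, inv_mul_cancel, mul_one]
    exact map_one _
  have h3 : c.V X (h * g * h⁻¹, τ) * c.V X (h, 1) = c.V X (h, 1) * c.V X (g, τ) := by
    rw [← map_mul, ← map_mul, Prod.mk_mul_mk, Prod.mk_mul_mk, mul_one, one_mul, inv_mul_cancel_right]
  have h4 : W.φ (d.Z.ey d.X (sm (D.L1 hp hc) h y)) X * c.V X (h, 1) =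
      c.V X (h, 1) * W.φ (d.Z.ey d.X y) X := by
    rw [← d.Z.gy_ey d.X h y, map_mul, map_mul, Pi.mul_apply, Pi.mul_apply, ← c.V_g X hX h, ← c.V_g X hX h⁻¹,
      mul_assoc, h2, mul_one]
  have h4' : W.φ (d.Z.ey d.X y) X * c.V X (h⁻¹, 1) =
      c.V X (h⁻¹, 1) * W.φ (d.Z.ey d.X (sm (D.L1 hp hc) h y)) X := by
    calc _ = (c.V X (h⁻¹, 1) * c.V X (h, 1)) * W.φ (d.Z.ey d.X y) X * c.V X (h⁻¹, 1) := by rw [h2, one_mul]
      _ = c.V X (h⁻¹, 1) * (c.V X (h, 1) * W.φ (d.Z.ey d.X y) X) * c.V X (h⁻¹, 1) := by simp only [mul_assoc]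
      _ = _ := by rw [← h4]; simp only [mul_assoc]; rw [h1, mul_one]
  have hyy : d.Z.ey d.X y * d.Z.ey d.X y = d.Z.ey d.X y := d.Z.ey_idem d.X y
  unfold Cpt.mt
  refine mu_equiv (c.V X (g, τ)).mulVecLin (c.V X (h * g * h⁻¹, τ)).mulVecLin _ _ (c.V X (h, 1)).mulVecLin ?_ ?_ ?_ ?_ ?_ z
  · rintro _ ⟨v, rfl⟩
    refine ⟨(c.V X (h, 1)).mulVec v, ?_⟩
    show (W.φ (d.Z.ey d.X (sm (D.L1 hp hc) h y)) X).mulVec ((c.V X (h, 1)).mulVec v) =
      (c.V X (h, 1)).mulVec ((W.φ (d.Z.ey d.X y) X).mulVec v)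
    rw [Matrix.mulVec_mulVec, Matrix.mulVec_mulVec, h4]
  · rintro _ ⟨v, rfl⟩
    refine ⟨(c.V X (g, τ)).mulVec v, ?_⟩
    show (W.φ (d.Z.ey d.X y) X).mulVec ((c.V X (g, τ)).mulVec v) =
      (c.V X (g, τ)).mulVec ((W.φ (d.Z.ey d.X y) X).mulVec v)
    have h6 := V_ey c hX g τ y
    rw [show sm (D.L1 hp hc) g (tY D hp hc τ y) = y from hfx] at h6
    rw [Matrix.mulVec_mulVec, Matrix.mulVec_mulVec, h6]
  · intro v _
    show (c.V X (h * g * h⁻¹, τ)).mulVec ((c.V X (h, 1)).mulVec v) = (c.V X (h, 1)).mulVec ((c.V X (g, τ)).mulVec v)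
    rw [Matrix.mulVec_mulVec, Matrix.mulVec_mulVec, h3]
  · intro v _ hv0
    have h5 : (c.V X (h⁻¹, 1)).mulVec ((c.V X (h, 1)).mulVec v) = 0 := by
      show (c.V X (h⁻¹, 1)).mulVec ((c.V X (h, 1)).mulVecLin v) = 0
      rw [hv0, Matrix.mulVec_zero]
    rwa [Matrix.mulVec_mulVec, h2, Matrix.one_mulVec] at h5
  · rintro _ ⟨v, rfl⟩
    refine ⟨(W.φ (d.Z.ey d.X y) X).mulVec ((c.V X (h⁻¹, 1)).mulVec v), ⟨_, rfl⟩, ?_⟩
    show (c.V X (h, 1)).mulVec ((W.φ (d.Z.ey d.X y) X).mulVec ((c.V X (h⁻¹, 1)).mulVec v)) =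
      (W.φ (d.Z.ey d.X (sm (D.L1 hp hc) h y)) X).mulVec v
    rw [Matrix.mulVec_mulVec, Matrix.mulVec_mulVec, mul_assoc, h4', ← mul_assoc, h1, one_mul]

/-- powers -/
private theorem fx_pow' (X : Tht (D.L1 hp hc) d.DS) {g : E} {τ : Tor p} {y : (D.L1 hp hc).Y} (h : Fx D hp hc g τ y)
    (j : ℕ) : Fx D hp hc (g ^ j) (τ ^ j) y := by
  induction j with
  | zero =>
    show sm (D.L1 hp hc) (g ^ 0) (tY D hp hc (τ ^ 0) y) = y
    rw [pow_zero, pow_zero, tY_one, X.sm_one]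
  | succ j ih =>
    show sm (D.L1 hp hc) (g ^ (j + 1)) (tY D hp hc (τ ^ (j + 1)) y) = y
    rw [pow_succ, pow_succ, ← tY_tY, ← X.sm_sm, ← tY_sm, show sm (D.L1 hp hc) g (tY D hp hc τ y) = y from h]
    exact ih

variable [FiniteDimensional K A] [IsAlgClosed K] [Fact p.Prime]

/-- `D_X` for the powers of `κ` -/
private theorem dx_pow (hexp : ∀ x : E, x ^ (p - 1) = 1) (c : Cpt d W) {X : W.ι} (hX : X ∈ c.J)
    {y : (D.L1 hp hc).Y} {g : E} {τ : Tor p} (h : Fx D hp hc g τ y) (j : ℕ) :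
    c.DX X y (g ^ j) (τ ^ j) = ∑ x : (ZMod p)ˣ, ((c.mt X (D.y0 hp hc) g τ (fpc K hc x) : ℂ) -
      (c.mt X y g τ (fpc K hc x) : ℂ)) * tei p x ^ j := by
  have h1 : ∀ z, Fx D hp hc g τ z → ∑ x : (ZMod p)ˣ, (c.mt X z (g ^ j) (τ ^ j) (fpc K hc x) : ℂ) * tei p x =
      ∑ x : (ZMod p)ˣ, (c.mt X z g τ (fpc K hc x) : ℂ) * tei p x ^ j := by
    intro z hz
    have hV : c.V X (g ^ j, τ ^ j) = c.V X (g, τ) ^ j := by rw [← map_pow]; rfl
    have hV1 : c.V X (g, τ) ^ (p - 1) = 1 := by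
      rw [← map_pow]
      have h2 : (g, τ) ^ (p - 1) = (1 : E × Tor p) := by
        apply Prod.ext
        · exact hexp g
        · show τ ^ (p - 1) = 1
          funext i
          exact ZMod.units_pow_card_sub_one_eq_one p (τ i)
      rw [h2, map_one]
    have hlin : ∀ n : ℕ, ∀ v, ((c.V X (g, τ)).mulVecLin ^ n) v = (c.V X (g, τ) ^ n).mulVec v := by
      intro n
      induction n with
      | zero => intro v; rw [pow_zero, pow_zero, Matrix.one_mulVec]; rfl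
      | succ n ih =>
        intro v
        rw [pow_succ, pow_succ, Module.End.mul_apply, ih, Matrix.mulVecLin_apply, Matrix.mulVec_mulVec]
    have h3 := bt_pow hc (c.V X (g, τ)).mulVecLin (LinearMap.range (W.φ (d.Z.ey d.X z) X).mulVecLin) (by
      rintro _ ⟨v, rfl⟩
      refine ⟨(c.V X (g, τ)).mulVec v, ?_⟩
      show (W.φ (d.Z.ey d.X z) X).mulVec ((c.V X (g, τ)).mulVec v) =
        (c.V X (g, τ)).mulVec ((W.φ (d.Z.ey d.X z) X).mulVec v)
      have h6 := V_ey c hX g τ z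
      rw [show sm (D.L1 hp hc) g (tY D hp hc τ z) = z from hz] at h6
      rw [Matrix.mulVec_mulVec, Matrix.mulVec_mulVec, h6]) (fun v _ => by
      rw [hlin, hV1, Matrix.one_mulVec]) j
    refine Eq.trans ?_ h3
    unfold bt Cpt.mt
    rw [hV]
    have h4 : (c.V X (g, τ) ^ j).mulVecLin = (c.V X (g, τ)).mulVecLin ^ j := LinearMap.ext fun v => (hlin j v).symm
    rw [h4]
  have h0 := h1 (D.y0 hp hc) (fx_y0 g τ)
  have h2 := h1 y h
  unfold Cpt.DX
  simp only [sub_mul, Finset.sum_sub_distrib]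
  rw [h0, h2]

/-- The number of the components in `R`. -/
theorem card_J (hexp : ∀ x : E, x ^ (p - 1) = 1) (hab : AC E) (c : Cpt d W) (hI : Ind c) :
    c.J.card = Nat.card (ConjClasses E) := by
  classical
  -- the points
  choose v0 l0 n0 z0 f0 using fun g : E => exists_ev (D := D) (hp := hp) (hc := hc) 0 1 (by decide) g
  choose v1 l1 n1 z1 f1 using fun g : E => exists_ev (D := D) (hp := hp) (hc := hc) 1 0 (by decide) g
  let B : W.ι → E → ℂ := fun X g => c.DX X (v1 g) g fun i => if i = 1 then l1 g else 1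
  have hf1 : ∀ g, Fx D hp hc g (fun i => if i = 1 then l1 g else 1) (v1 g) := fun g => f1 g _ (if_pos rfl)
  have heq : ∀ X ∈ c.J, ∀ g τ y y', y ≠ D.y0 hp hc → y' ≠ D.y0 hp hc → Pz D hp hc 1 y → Pz D hp hc 0 y' →
      Fx D hp hc g τ y → Fx D hp hc g τ y' → c.DX X y g τ = c.DX X y' g τ := by
    intro X hX g τ y y' hy hy' hz hz' hf hf'
    unfold Cpt.DX
    refine Finset.sum_congr rfl fun x _ => ?_
    rw [eq3 d hexp c g τ y y' hy hy' hz hz' hf hf' X hX x]
  have hB0 : ∀ X ∈ c.J, ∀ g τ y, y ≠ D.y0 hp hc → Pz D hp hc 1 y → Fx D hp hc g τ y → c.DX X y g τ = B X g := by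
    intro X hX g τ y hy hz hf
    have h1 : Fx D hp hc g (fun i => if i = 1 then l1 g else τ i) y :=
      (fx_congr hz (fun j hj => (if_neg hj).symm) g).1 hf
    rw [hI 1 y hz X hX g τ (fun i => if i = 1 then l1 g else τ i) (fun j hj => (if_neg hj).symm) hf,
      heq X hX g _ y (v1 g) hy (n1 g) hz (z1 g) h1 (f1 g _ (if_pos rfl))]
    refine hI 0 (v1 g) (z1 g) X hX g _ _ (fun j hj => ?_) (f1 g _ (if_pos rfl))
    have h2 : j = 1 := by omega
    rw [h2, if_pos rfl, if_pos rfl]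
  have hB1 : ∀ X ∈ c.J, ∀ g τ y, y ≠ D.y0 hp hc → Pz D hp hc 0 y → Fx D hp hc g τ y → c.DX X y g τ = B X g := by
    intro X hX g τ y hy hz hf
    have h1 : Fx D hp hc g (fun i => if i = 0 then l0 g else τ i) y :=
      (fx_congr hz (fun j hj => (if_neg hj).symm) g).1 hf
    rw [hI 0 y hz X hX g τ (fun i => if i = 0 then l0 g else τ i) (fun j hj => (if_neg hj).symm) hf,
      ← heq X hX g _ (v0 g) y (n0 g) hy (z0 g) hz (f0 g _ (if_pos rfl)) h1]
    exact hB0 X hX g _ (v0 g) (n0 g) (z0 g) (f0 g _ (if_pos rfl))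
  let b : c.J → E → ℂ := fun X => B X
  have hcl : ∀ X, Cl (b X) := by
    intro X x g
    have h1 : Fx D hp hc g (fun _ => l0 g) (v0 g) := f0 g _ rfl
    have h2 : Fx D hp hc (x * g * x⁻¹) (fun _ => l0 g) (sm (D.L1 hp hc) x (v0 g)) := by
      show sm (D.L1 hp hc) (x * g * x⁻¹) (tY D hp hc _ (sm (D.L1 hp hc) x (v0 g))) = _
      rw [tY_sm, d.X.sm_sm, inv_mul_cancel_right, ← d.X.sm_sm]
      exact congrArg _ h1
    have h3 : sm (D.L1 hp hc) x (v0 g) ≠ D.y0 hp hc := by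
      intro h
      apply n0 g
      have h4 := congrArg (sm (D.L1 hp hc) x⁻¹) h
      rwa [d.X.sm_sm, inv_mul_cancel, d.X.sm_one, D.sm_y0 hp hc] at h4
    have h4 : Pz D hp hc 1 (sm (D.L1 hp hc) x (v0 g)) := by
      intro t ht
      rw [TP.sm_apply]
      refine Finset.sum_eq_zero fun s _ => ?_
      by_cases h5 : D.M x⁻¹ t s = 0
      · rw [h5, zero_mul]
      · rw [z0 g s (by rw [← (D.blk _ _ _ h5).2, ht]), mul_zero]
    show B X (x * g * x⁻¹) = B X g
    rw [← hB0 X X.2 _ _ _ h3 h4 h2, ← hB0 X X.2 _ _ _ (n0 g) (z0 g) h1]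
    unfold Cpt.DX
    refine Finset.sum_congr rfl fun z _ => ?_
    rw [mt_conj c X.2 (v0 g) g x _ h1]
    have h6 := mt_conj c X.2 (D.y0 hp hc) g x (fun _ => l0 g) (fx_y0 g _) (fpc K hc z)
    rw [D.sm_y0 hp hc] at h6
    rw [h6]
  have hcyc : ∀ X, Cyc (b X) := by
    intro X
    refine cyc_pow fun g z hz => ?_
    have hn : orderOf g ∣ p - 1 := orderOf_dvd_of_pow_eq_one (hexp g)
    obtain ⟨k, hk⟩ := hn
    have hn0 : 0 < orderOf g := orderOf_pos g
    have hp1 : 0 < p - 1 := Nat.sub_pos_of_lt hp.one_lt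
    have hk0 : 0 < k := by
      rcases Nat.eq_zero_or_pos k with h | h
      · rw [h, mul_zero] at hk
        omega
      · exact h
    let τ : Tor p := fun _ => l0 g
    have hfx : Fx D hp hc g τ (v0 g) := f0 g _ rfl
    let a : (ZMod p)ˣ → ℤ := fun x => (c.mt X (D.y0 hp hc) g τ (fpc K hc x) : ℤ) - c.mt X (v0 g) g τ (fpc K hc x)
    have hb : ∀ j, b X (g ^ j) = ∑ x : (ZMod p)ˣ, (a x : ℂ) * tei p x ^ j := by
      intro j
      show B X (g ^ j) = _
      rw [← hB0 X X.2 _ _ _ (n0 g) (z0 g) (fx_pow' d.X hfx j), dx_pow hexp c X.2 hfx j]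
      refine Finset.sum_congr rfl fun x _ => ?_
      simp only [a]
      push_cast
      rfl
    have hz1 : z ^ (p - 1) = 1 := by rw [hk, pow_mul, hz, one_pow]
    have ht1 : ∀ x : (ZMod p)ˣ, (tei p x * z) ^ (p - 1) = 1 := by
      intro x
      rw [mul_pow, hz1, mul_one, ← map_pow, ZMod.units_pow_card_sub_one_eq_one, map_one]
    have hgeo : ∀ x : (ZMod p)ˣ, ∑ j ∈ Finset.range (p - 1), (tei p x * z) ^ j = if tei p x * z = 1 then ((p - 1 : ℕ) : ℂ) else 0 := by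
      intro x
      split_ifs with h
      · rw [h]
        simp
      · rw [geom_sum_eq h, ht1, sub_self, zero_div]
    have h1 : ∑ j ∈ Finset.range (p - 1), b X (g ^ j) * z ^ j =
        ((p - 1 : ℕ) : ℂ) * ((∑ x : (ZMod p)ˣ, if tei p x * z = 1 then a x else 0 : ℤ) : ℂ) := by
      have h2 : ∀ j, b X (g ^ j) * z ^ j = ∑ x : (ZMod p)ˣ, (a x : ℂ) * (tei p x * z) ^ j := by
        intro j
        rw [hb, Finset.sum_mul]
        exact Finset.sum_congr rfl fun x _ => by rw [mul_pow]; ring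
      rw [Finset.sum_congr rfl fun j _ => h2 j, Finset.sum_comm]
      simp only [← Finset.mul_sum, hgeo]
      push_cast
      rw [Finset.mul_sum]
      refine Finset.sum_congr rfl fun x _ => ?_
      split_ifs
      · ring
      · ring
    have h2 : ∑ j ∈ Finset.range (p - 1), b X (g ^ j) * z ^ j =
        (k : ℂ) * ∑ j ∈ Finset.range (orderOf g), b X (g ^ j) * z ^ j := by
      rw [hk]
      have h3 : ∀ k : ℕ, ∑ j ∈ Finset.range (orderOf g * k), b X (g ^ j) * z ^ j =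
          (k : ℂ) * ∑ j ∈ Finset.range (orderOf g), b X (g ^ j) * z ^ j := by
        intro k
        induction k with
        | zero => simp
        | succ k ih =>
          rw [mul_add, mul_one, Finset.sum_range_add, ih]
          have h4 : ∀ j, b X (g ^ (orderOf g * k + j)) * z ^ (orderOf g * k + j) = b X (g ^ j) * z ^ j := by
            intro j
            rw [pow_add, pow_mul, pow_orderOf_eq_one, one_pow, one_mul, pow_add, pow_mul, hz, one_pow, one_mul]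
          rw [Finset.sum_congr rfl fun j _ => h4 j]
          push_cast
          ring
      exact h3 k
    refine ⟨∑ x : (ZMod p)ˣ, if tei p x * z = 1 then a x else 0, ?_⟩
    have hkc : (k : ℂ) ≠ 0 := by exact_mod_cast hk0.ne'
    have h5 : (k : ℂ) * ∑ j ∈ Finset.range (orderOf g), b X (g ^ j) * z ^ j =
        (k : ℂ) * (((∑ x : (ZMod p)ˣ, if tei p x * z = 1 then a x else 0 : ℤ) : ℂ) * orderOf g) := by
      rw [← h2, h1]
      have h6 : ((p - 1 : ℕ) : ℂ) = (orderOf g : ℂ) * (k : ℂ) := by exact_mod_cast hk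
      rw [h6]
      ring
    exact mul_left_cancel₀ hkc h5
  have hne : ∀ X, b X ≠ 0 := by
    intro X h
    have h1 : b X 1 = 0 := by rw [h]; rfl
    have hfx : Fx D hp hc (1 : E) (1 : Tor p) (v0 1) := by
      show sm (D.L1 hp hc) 1 (tY D hp hc 1 (v0 1)) = v0 1
      rw [tY_one, d.X.sm_one]
    have h2 : c.DX X (v0 1) 1 1 = 0 := by
      rw [hB0 X X.2 _ _ _ (n0 1) (z0 1) hfx]
      exact h1
    have h3 : ∀ y, ∑ x : (ZMod p)ˣ, (c.mt X y 1 1 (fpc K hc x) : ℂ) * tei p x = (W.rk X (d.Z.ey d.X y) : ℂ) := by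
      intro y
      have hV : c.V X ((1 : E), (1 : Tor p)) = 1 := map_one _
      have h4 := bt_one hc (c.V X ((1 : E), (1 : Tor p))).mulVecLin (LinearMap.range (W.φ (d.Z.ey d.X y) X).mulVecLin)
        (fun v _ => by rw [hV, Matrix.mulVecLin_one]; rfl)
      exact h4
    have h5 : (W.rk X (d.Z.ey d.X (D.y0 hp hc)) : ℂ) = (W.rk X (d.Z.ey d.X (v0 1)) : ℂ) := by
      rw [← h3, ← h3, ← sub_eq_zero, ← Finset.sum_sub_distrib, ← h2]
      unfold Cpt.DX
      exact Finset.sum_congr rfl fun x _ => (sub_mul _ _ _).symm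
    exact c.bJ X X.2 (v0 1) (n0 1) (by exact_mod_cast h5)
  have ho : ∀ g h : E, ∑ X, b X g * (starRingEnd ℂ) (b X h) =
      if IsConj g h then (Nat.card (Subgroup.centralizer {g}) : ℂ) else 0 := by
    intro g h
    let τ : Tor p := fun i => if i = 0 then l0 g else l1 h
    have hfg : Fx D hp hc g τ (v0 g) := f0 g _ (if_pos rfl)
    have hfh : Fx D hp hc h τ (v1 h) := f1 h _ (if_neg (by decide))
    have h1 := pair d hexp c g h τ (v0 g) (v1 h) (n0 g) (n1 h) (z0 g) (z1 h) hfg hfh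
    have h2 : ∑ X, b X g * (starRingEnd ℂ) (b X h) = (Nat.card {γ : E // g * γ = γ * h} : ℂ) := by
      rw [← h1, ← Finset.sum_coe_sort c.J]
      refine Finset.sum_congr rfl fun X _ => ?_
      rw [hB0 X X.2 _ _ _ (n0 g) (z0 g) hfg, hB1 X X.2 _ _ _ (n1 h) (z1 h) hfh]
    rw [h2]
    split_ifs with hgh
    · obtain ⟨x, hx⟩ := isConj_iff.1 hgh
      congr 1
      refine Nat.card_congr
        { toFun := fun γ => ⟨(γ : E) * x, ?_⟩
          invFun := fun γ => ⟨(γ : E) * x⁻¹, ?_⟩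
          left_inv := fun γ => Subtype.ext (mul_inv_cancel_right _ _)
          right_inv := fun γ => Subtype.ext (inv_mul_cancel_right _ _) }
      · rw [Subgroup.mem_centralizer_singleton_iff]
        have h3 := γ.2
        calc (γ : E) * x * g = (γ : E) * (x * g * x⁻¹) * x := by group
          _ = g * ((γ : E) * x) := by rw [hx, ← h3, mul_assoc]
      · have h3 := (Subgroup.mem_centralizer_singleton_iff).1 γ.2
        calc g * ((γ : E) * x⁻¹) = (g * (γ : E)) * x⁻¹ := by rw [mul_assoc]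
          _ = ((γ : E) * g) * x⁻¹ := by rw [h3]
          _ = (γ : E) * x⁻¹ * (x * g * x⁻¹) := by group
          _ = (γ : E) * x⁻¹ * h := by rw [hx]
    · rw [Nat.cast_eq_zero, Nat.card_eq_zero]
      left
      refine ⟨fun γ => hgh ?_⟩
      exact isConj_iff.2 ⟨(γ : E)⁻¹, by rw [inv_inv, mul_assoc, γ.2, inv_mul_cancel_left]⟩
  have h1 := frame_eq hab b hcl hcyc hne ho
  rw [← h1, Nat.card_eq_fintype_card, Fintype.card_coe]

end Pool.Agent.Two
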