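import Pool.Agent.Two.DatDef
import Pool.Agent.Two.BTr
import Pool.Agent.Evn.WMb

/-!
# The maps `x ↦ g Ψ_τ(x) h⁻¹` of the deformed algebra: definitions
-/

set_option autoImplicit false
set_option linter.unusedSectionVars false

namespace Pool.Agent.Two

open Pool.Agent.Sig Pool.Agent.K9 Pool.Agent.Sqf Pool.Agent.Fdf Pool.Agent.Evn Pool.Agent.Lrg Pool.Agent.SigO

variable {K P E A T : Type} [Field K] [CommGroup P] [Fintype P] [Group E] [Fintype E] {act : E →* MulAut P}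
  [Fintype T] {p : ℕ} {hp : p.Prime} {hc : CharP K p} {D : TP K act T p} [Ring A] [Algebra K A]
  {S : StEq K P E act A}

namespace Dat

variable (d : Dat hp hc D S)

/-- The action of the torus on the deformed algebra. -/
noncomputable def Ps : Tor p →* (d.Z.DA.Al ≃ₐ[K] d.Z.DA.Al) where
  toFun h := AlgEquiv.ofLinearEquiv (d.Z.DA.tl.symm ≪≫ₗ (d.Ψ h).toLinearEquiv ≪≫ₗ d.Z.DA.tl)
    (by
      show d.Z.DA.tl (d.Ψ h 1) = 1
      rw [map_one]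
      rfl)
    (fun x y => (d.Ψm h x y).symm)
  map_one' := by
    apply AlgEquiv.ext
    intro x
    show d.Z.DA.tl (d.Ψ 1 (d.Z.DA.tl.symm x)) = x
    rw [map_one d.Ψ]
    exact d.Z.DA.tl.apply_symm_apply x
  map_mul' g h := by
    apply AlgEquiv.ext
    intro x
    show d.Z.DA.tl (d.Ψ (g * h) (d.Z.DA.tl.symm x)) =
      d.Z.DA.tl (d.Ψ g (d.Z.DA.tl.symm (d.Z.DA.tl (d.Ψ h (d.Z.DA.tl.symm x)))))
    rw [map_mul d.Ψ, LinearEquiv.symm_apply_apply]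
    rfl

theorem Ps_tl (h : Tor p) (a : A) : d.Ps h (d.Z.DA.tl a) = d.Z.DA.tl (d.Ψ h a) := rfl

theorem Ps_gy (h : Tor p) (γ : E) : d.Ps h (d.Z.gy γ) = d.Z.gy γ := by
  show d.Z.DA.tl (d.Ψ h (S.ρ (.inr γ))) = _
  rw [(d.cmp h).y]
  rfl

theorem Ps_ey [DecidableEq (D.L1 hp hc).Y] (h : Tor p) (y : (D.L1 hp hc).Y) :
    d.Ps h (d.Z.ey d.X y) = d.Z.ey d.X (tY D hp hc h y) := by
  show d.Z.DA.tl (d.Ψ h (sA S (d.X.Θ.symm (Pi.single y 1)))) = d.Z.DA.tl (sA S (d.X.Θ.symm (Pi.single _ 1)))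
  rw [(d.cmp h).s]
  congr 2
  apply d.X.Θ.injective
  funext z
  rw [d.Θβ, d.X.Θ.apply_symm_apply, d.X.Θ.apply_symm_apply, Pi.single_apply, Pi.single_apply]
  congr 1
  apply propext
  constructor
  · intro h1
    rw [← h1, tY_tY, mul_inv_cancel, tY_one]
  · intro h1
    rw [h1, tY_tY, inv_mul_cancel, tY_one]

/-- `Φ x = g Ψ_τ(x) h⁻¹` -/
noncomputable def Φ (g h : E) (τ : Tor p) : d.Z.DA.Al →ₗ[K] d.Z.DA.Al :=
  LinearMap.mulRight K (d.Z.gy h⁻¹) ∘ₗ LinearMap.mulLeft K (d.Z.gy g) ∘ₗ (d.Ps τ).toLinearMap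

theorem Φ_apply (g h : E) (τ : Tor p) (x : d.Z.DA.Al) : d.Φ g h τ x = d.Z.gy g * d.Ps τ x * d.Z.gy h⁻¹ := rfl

end Dat

/-- The functions `f` on `E` with `f(g⁻¹ γ h) = z f(γ)`, zero outside `Q`. -/
def cfn (K : Type) {E : Type} [Field K] [Group E] (g h : E) (Q : E → Prop) (z : K) : Submodule K (E → K) where
  carrier := {f | (∀ γ, f (g⁻¹ * γ * h) = z * f γ) ∧ ∀ γ, ¬ Q γ → f γ = 0}
  zero_mem' := ⟨fun _ => (mul_zero z).symm, fun _ _ => rfl⟩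
  add_mem' := by
    rintro a b ⟨h1, h2⟩ ⟨h3, h4⟩
    exact ⟨fun γ => by rw [Pi.add_apply, Pi.add_apply, h1, h3, mul_add],
      fun γ h => by rw [Pi.add_apply, h2 γ h, h4 γ h, add_zero]⟩
  smul_mem' := by
    rintro c a ⟨h1, h2⟩
    exact ⟨fun γ => by rw [Pi.smul_apply, Pi.smul_apply, h1, smul_eq_mul, smul_eq_mul]; ring,
      fun γ h => by rw [Pi.smul_apply, h2 γ h, smul_zero]⟩

theorem mem_cfn {K E : Type} [Field K] [Group E] (g h : E) (Q : E → Prop) (z : K) (f : E → K) :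
    f ∈ cfn K g h Q z ↔ (∀ γ, f (g⁻¹ * γ * h) = z * f γ) ∧ ∀ γ, ¬ Q γ → f γ = 0 := Iff.rfl

/-- `κ = (g, τ)` fixes the point `y`. -/
def Fx (D : TP K act T p) (hp : p.Prime) (hc : CharP K p) (g : E) (τ : Tor p) (y : (D.L1 hp hc).Y) : Prop :=
  sm (D.L1 hp hc) g (tY D hp hc τ y) = y

/-- The part `i` of the point `y` is zero. -/
def Pz (D : TP K act T p) (hp : p.Prime) (hc : CharP K p) (i : Fin 2) (y : (D.L1 hp hc).Y) : Prop :=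
  ∀ t, D.c t = i → (y : T → K) t = 0

/-- THE COMPONENTS. `J` is the set `R` of components, `V X` the homomorphism of `E × T` into `GL(L_X)` which implements `κ` on the component
`X ∈ J`; `ε i` is the sum of the central idempotents of the components on which `w_i ^ (p - 1) ≠ 1`: on these `e_y` and `e_0` are equivalent for all
`y` with `y_i = 0`, by elements which are fixed by every `κ` which fixes `y`. -/
structure Cpt (d : Dat hp hc D S) [DecidableEq (D.L1 hp hc).Y] (W : WM K d.Z.DA.Al) where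
  J : Finset W.ι
  V : ∀ X : W.ι, (E × Tor p) →* Matrix (Fin (W.d X)) (Fin (W.d X)) K
  V_g : ∀ X ∈ J, ∀ g, V X (g, 1) = W.φ (d.Z.gy g) X
  V_c : ∀ X ∈ J, ∀ τ x, V X (1, τ) * W.φ x X = W.φ (d.Ps τ x) X * V X (1, τ)
  C : Fin 2 → Finset W.ι
  CJ : ∀ X, X ∈ J ↔ ∀ i, X ∉ C i
  Cs : ∀ i τ, d.Ps τ (∑ X ∈ C i, W.ε X) = ∑ X ∈ C i, W.ε X
  Js : ∀ X ∈ J, ∀ τ, d.Ps τ (W.ε X) = W.ε X
  eqv : ∀ i y, Pz D hp hc i y → ∃ r r' : d.Z.DA.Al,
    r * r' = (∑ X ∈ C i, W.ε X) * d.Z.ey d.X (D.y0 hp hc) ∧ r' * r = (∑ X ∈ C i, W.ε X) * d.Z.ey d.X y ∧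
    (∑ X ∈ C i, W.ε X) * d.Z.ey d.X (D.y0 hp hc) * r = r ∧ r * ((∑ X ∈ C i, W.ε X) * d.Z.ey d.X y) = r ∧
    (∑ X ∈ C i, W.ε X) * d.Z.ey d.X y * r' = r' ∧ r' * ((∑ X ∈ C i, W.ε X) * d.Z.ey d.X (D.y0 hp hc)) = r' ∧
    ∀ g τ, Fx D hp hc g τ y → d.Φ g g τ r = r ∧ d.Φ g g τ r' = r'
  /-- the numbers `b_X` are not zero -/
  bJ : ∀ X ∈ J, ∀ y, y ≠ D.y0 hp hc → W.rk X (d.Z.ey d.X (D.y0 hp hc)) ≠ W.rk X (d.Z.ey d.X y)
  /-- the other components -/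
  oth : ∀ y, y ≠ D.y0 hp hc → ∃ X, X ∉ J ∧ W.rk X (d.Z.ey d.X (D.y0 hp hc)) ≠ W.rk X (d.Z.ey d.X y)

section

variable {d : Dat hp hc D S} [DecidableEq (D.L1 hp hc).Y] {W : WM K d.Z.DA.Al} (c : Cpt d W)

/-- The multiplicity of the eigenvalue `z` of `κ = (g, τ)` on `e_y L_X`. -/
noncomputable def Cpt.mt (X : W.ι) (y : (D.L1 hp hc).Y) (g : E) (τ : Tor p) (z : K) : ℕ :=
  mu (c.V X (g, τ)).mulVecLin (LinearMap.range (W.φ (d.Z.ey d.X y) X).mulVecLin) z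

/-- `D_X(y, g, τ)`: the Brauer character of `κ = (g, τ)` on `e_0 L_X` minus the one on `e_y L_X`. -/
noncomputable def Cpt.DX [Fact p.Prime] (X : W.ι) (y : (D.L1 hp hc).Y) (g : E) (τ : Tor p) : ℂ :=
  ∑ x : (ZMod p)ˣ, ((c.mt X (D.y0 hp hc) g τ (fpc K hc x) : ℂ) - (c.mt X y g τ (fpc K hc x) : ℂ)) * tei p x

end

end Pool.Agent.Two
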