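import Pool.Agent.Two.W1
import Pool.Agent.Two.PairDef
import Pool.Agent.Lrg.RWg

/-!
# The twisted Casimir elements and the components
-/

set_option autoImplicit false
set_option linter.unusedSectionVars false

namespace Pool.Agent.Two

open Pool.Agent.Sig Pool.Agent.K9 Pool.Agent.Sqf Pool.Agent.Fdf Pool.Agent.Evn Pool.Agent.Lrg

variable {K P E A T : Type} [Field K] [CommGroup P] [Fintype P] [Group E] [Fintype E] {act : E →* MulAut P} [Fintype T]
  {p : ℕ} {hp : p.Prime} {hc : CharP K p} {D : TP K act T p} [Ring A] [Algebra K A] {S : StEq K P E act A}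

/-- The element `w` of Lemma W for the direction `i` (`j` is the other one), `u` a generator of `(ZMod p)ˣ`. -/
structure Wi (d : Dat hp hc D S) [DecidableEq (D.L1 hp hc).Y] (i j : Fin 2) (u : (ZMod p)ˣ) where
  w : d.R
  s : d.R
  wa : ∀ a, w * a = d.psi (Pi.mulSingle i u) a * w
  wp : ∀ h, d.psi h w = w
  sp : ∀ h, d.psi h s = s
  sg : ∀ g, d.Z.gy g * s = s * d.Z.gy g
  wF : w ∈ d.F j 0
  sF : s ∈ d.F j (-(D.Nj j : ℚ))
  we : ∀ y, w * d.Z.ey d.X y = (if agr D hp hc i y (D.y0 hp hc) then d.Z.ey d.X y else 0) +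
    d.Z.ey d.X (tY D hp hc (Pi.mulSingle i u) y) * s * d.Z.ey d.X y

namespace Wi

variable {d : Dat hp hc D S} [DecidableEq (D.L1 hp hc).Y] {i j : Fin 2} {u : (ZMod p)ˣ} (W : Wi d i j u)

/-- `z = w ^ (p - 1)` -/
noncomputable def z : d.R := W.w ^ (p - 1)

/-- `s1 = s (1 + w + .. + w ^ (p - 2))` -/
noncomputable def s1 : d.R := W.s * ∑ l ∈ Finset.range (p - 1), W.w ^ l

/-- `s2 = w ^ (p - 2) s` -/
noncomputable def s2 : d.R := W.w ^ (p - 2) * W.s

-- BEGIN wi_com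
/-- PROOF. `wa` for `gy g` (`psi_gy`), for `s` (`sp`), for `ey y` with `y` zero in the part `i` (`psi_ey`: `tY (mulSingle i u) y = y`). -/
theorem wg (g : E) : d.Z.gy g * W.w = W.w * d.Z.gy g := by
  rw [W.wa, d.psi_gy]

theorem ws : W.w * W.s = W.s * W.w := by
  rw [W.wa, W.sp]

theorem tY_ey (y : (D.L1 hp hc).Y) (hy : agr D hp hc i y (D.y0 hp hc)) (c : (ZMod p)ˣ) :
    tY D hp hc (Pi.mulSingle i c) y = y := by
  apply Subtype.ext
  funext t
  rw [tY_apply]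
  by_cases ht : D.c t = i
  · rw [hy t ht, TP.y0_apply, mul_zero]
  · have h1 : tsc K hc (Pi.mulSingle i c) (D.c t) = 1 := by
      unfold tsc
      rw [Pi.mulSingle_eq_of_ne ht, Units.val_one, map_one]
    rw [h1, one_mul]

theorem wey (y : (D.L1 hp hc).Y) (hy : agr D hp hc i y (D.y0 hp hc)) :
    W.w * d.Z.ey d.X y = d.Z.ey d.X y * W.w := by
  rw [W.wa, d.psi_ey, tY_ey y hy]

theorem wpow (n : ℕ) (a : d.R) : W.w ^ n * a = d.psi (Pi.mulSingle i (u ^ n)) a * W.w ^ n := by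
  induction n generalizing a with
  | zero =>
    have h1 : (Pi.mulSingle i ((u : (ZMod p)ˣ) ^ 0) : Tor p) = 1 := by
      rw [pow_zero, Pi.mulSingle_one]
    rw [h1, d.psi_one, pow_zero, one_mul, mul_one]
  | succ n ih =>
    have h1 : (Pi.mulSingle i (u ^ (n + 1)) : Tor p) = Pi.mulSingle i (u ^ n) * Pi.mulSingle i u := by
      rw [pow_succ, Pi.mulSingle_mul]
    rw [pow_succ, mul_assoc, W.wa, ← mul_assoc, ih, d.psi_psi, mul_assoc, h1]
-- END wi_com

-- BEGIN wi_z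
private theorem wi_z_ss (n : ℕ) : (Pi.mulSingle i (u ^ n) : Tor p) = Pi.mulSingle i u ^ n := by
  funext k
  rw [Pi.pow_apply]
  by_cases h : k = i
  · subst h
    rw [Pi.mulSingle_eq_same, Pi.mulSingle_eq_same]
  · rw [Pi.mulSingle_eq_of_ne h, Pi.mulSingle_eq_of_ne h, one_pow]

private theorem wi_z_one (hp : p.Prime) : (Pi.mulSingle i u ^ (p - 1) : Tor p) = 1 := by
  have : Fact p.Prime := ⟨hp⟩
  rw [← wi_z_ss, ZMod.units_pow_card_sub_one_eq_one, Pi.mulSingle_one]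

/-- PROOF. `wpow` for `n = p - 1`, `u ^ (p - 1) = 1` (`ZMod.units_pow_card_sub_one_eq_one`), `psi_one`. -/
theorem z_cen (a : d.R) : W.z * a = a * W.z := by
  unfold z
  rw [W.wpow, wi_z_ss, wi_z_one hp, d.psi_one]

theorem z_psi (h : Tor p) : d.psi h W.z = W.z := by
  unfold z
  rw [map_pow, W.wp]

theorem z_F : W.z ∈ d.F j 0 := d.F_pow0 W.wF _

/-- PROOF. `(z - 1) e_y = (∑ w^l) (w - 1) e_y = (∑ w^l) e_y s e_y = e_y (∑ w^l) s e_y` (`wey`, `ws`, `mul_geom_sum`, `we`). -/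
theorem z1_ey (y : (D.L1 hp hc).Y) (hy : agr D hp hc i y (D.y0 hp hc)) :
    (W.z - 1) * d.Z.ey d.X y = d.Z.ey d.X y * W.s1 * d.Z.ey d.X y := by
  have h1 : W.w * d.Z.ey d.X y - d.Z.ey d.X y = d.Z.ey d.X y * W.s * d.Z.ey d.X y := by
    rw [W.we, if_pos hy, tY_ey y hy, add_sub_cancel_left]
  have c1 : Commute (∑ l ∈ Finset.range (p - 1), W.w ^ l) (d.Z.ey d.X y) := by
    have h : Commute W.w (d.Z.ey d.X y) := W.wey y hy
    exact Commute.sum_left _ _ _ fun l _ => h.pow_left l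
  have c2 : Commute (∑ l ∈ Finset.range (p - 1), W.w ^ l) W.s := by
    have h : Commute W.w W.s := W.ws
    exact Commute.sum_left _ _ _ fun l _ => h.pow_left l
  unfold z s1
  rw [← geom_sum_mul, mul_assoc, sub_mul, one_mul, h1, ← mul_assoc, ← mul_assoc, c1.eq, mul_assoc (d.Z.ey d.X y),
    c2.eq]

/-- PROOF. `w ^ (p - 2) (w e_y) = w ^ (p - 2) e_(σ y) s e_y = e_(σ ^ (p - 1) y) w ^ (p - 2) s e_y` (`we`, `wpow`, `psi_ey`, `tY_tY`, `u ^ (p - 1) = 1`). -/
theorem z_ey (y : (D.L1 hp hc).Y) (hy : ¬ agr D hp hc i y (D.y0 hp hc)) :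
    W.z * d.Z.ey d.X y = d.Z.ey d.X y * W.s2 * d.Z.ey d.X y := by
  have h1 : W.w * d.Z.ey d.X y = d.Z.ey d.X (tY D hp hc (Pi.mulSingle i u) y) * W.s * d.Z.ey d.X y := by
    rw [W.we, if_neg hy, zero_add]
  have h2 : p - 1 = (p - 2) + 1 := by
    have := hp.two_le
    omega
  have h3 : tY D hp hc (Pi.mulSingle i (u ^ (p - 2))) (tY D hp hc (Pi.mulSingle i u) y) = y := by
    rw [tY_tY, wi_z_ss, ← pow_succ, ← h2, wi_z_one hp, tY_one]
  unfold z s2
  rw [h2, pow_succ, mul_assoc, h1, ← mul_assoc, ← mul_assoc, W.wpow, d.psi_ey, h3, mul_assoc (d.Z.ey d.X y)]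

theorem s1_F : W.s1 ∈ d.F j (-(D.Nj j : ℚ)) := by
  have h := d.F_mul W.sF (Submodule.sum_mem (d.F j 0) fun l (_ : l ∈ Finset.range (p - 1)) => d.F_pow0 W.wF l)
  rwa [add_zero] at h

theorem s2_F : W.s2 ∈ d.F j (-(D.Nj j : ℚ)) := by
  have h := d.F_mul (d.F_pow0 W.wF (p - 2)) W.sF
  rwa [zero_add] at h

theorem s1_psi (h : Tor p) : d.psi h W.s1 = W.s1 := by
  unfold s1
  rw [map_mul, map_sum, W.sp]
  congr 1
  exact Finset.sum_congr rfl fun l _ => by rw [map_pow, W.wp]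

theorem s1_gy (g : E) : d.Z.gy g * W.s1 = W.s1 * d.Z.gy g := by
  have c1 : Commute (d.Z.gy g) (∑ l ∈ Finset.range (p - 1), W.w ^ l) := by
    have h : Commute (d.Z.gy g) W.w := W.wg g
    exact Commute.sum_right _ _ _ fun l _ => h.pow_right l
  unfold s1
  rw [← mul_assoc, W.sg, mul_assoc, c1.eq, mul_assoc]
-- END wi_z

variable (V : WM K d.Z.DA.Al)

-- BEGIN wi_sca
/-- The scalar of `z` on a component. PROOF. `V.φ z X` commutes with all matrices (`z_cen`, `V.φ` is onto), so it is a scalar matrix (`Matrix.mem_range_scalar_iff_commute_single'` or similar). -/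
theorem exists_sca : ∃ m : V.ι → K, ∀ X, V.φ W.z X = m X • 1 := by
  have h : ∀ X, ∃ a : K, V.φ W.z X = a • 1 := by
    intro X
    have h1 : V.φ W.z X ∈ Set.range (Matrix.scalar (Fin (V.d X))) := by
      refine Matrix.mem_range_scalar_of_commute_single fun k l _ => ?_
      have h2 := congrArg (fun y => V.φ y X)
        (W.z_cen (V.φ.symm (Pi.single X (Matrix.single k l 1)))).symm
      simp only [map_mul, AlgEquiv.apply_symm_apply, Pi.mul_apply, Pi.single_eq_same] at h2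
      exact h2
    obtain ⟨a, ha⟩ := h1
    refine ⟨a, ?_⟩
    rw [← ha, Matrix.scalar_apply, Matrix.smul_one_eq_diagonal]
  choose m hm using h
  exact ⟨m, hm⟩
-- END wi_sca

/-- the scalar of `z` on the component `X` -/
noncomputable def m (X : V.ι) : K := (W.exists_sca V).choose X

theorem m_eq (X : V.ι) : V.φ W.z X = W.m V X • 1 := (W.exists_sca V).choose_spec X

/-- the components with a scalar different from `1` -/
noncomputable def C : Finset V.ι := by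
  classical exact Finset.univ.filter fun X => W.m V X ≠ 1

theorem mem_C (X : V.ι) : X ∈ W.C V ↔ W.m V X ≠ 1 := by
  classical
  rw [C, Finset.mem_filter]
  exact ⟨fun h => h.2, fun h => ⟨Finset.mem_univ _, h⟩⟩

-- BEGIN wi_int
/-- Functions of `z` are polynomials in `z`. PROOF. Lagrange interpolation (`Lagrange.interpolate` on the finite set of the scalars): `q` with `q (m X) = g (m X)`, `x = aeval z q`. `V.φ x X = q(m X) • 1`; central and fixed by `psi` (`AlgEquiv` commutes with `aeval`);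
in `F j 0`: `F_pow0`, `F_one`, sums. -/
theorem exists_fun (g : K → K) : ∃ x : d.R, (∀ X, V.φ x X = g (W.m V X) • 1) ∧ (∀ a, x * a = a * x) ∧
    (∀ h, d.psi h x = x) ∧ x ∈ d.F j 0 := by
  classical
  obtain ⟨q, hq⟩ : ∃ q : Polynomial K, ∀ X : V.ι, q.eval (W.m V X) = g (W.m V X) :=
    ⟨Lagrange.interpolate (Finset.univ.image (W.m V)) id g, fun X =>
      Lagrange.eval_interpolate_at_node (v := id) g (Function.injective_id.injOn)
        (Finset.mem_image_of_mem _ (Finset.mem_univ X))⟩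
  refine ⟨Polynomial.aeval W.z q, fun X => ?_, fun a => ?_, fun h => ?_, ?_⟩
  · obtain ⟨f, hf⟩ : ∃ f : d.Z.DA.Al →ₐ[K] Matrix (Fin (V.d X)) (Fin (V.d X)) K, ∀ x, f x = V.φ x X :=
      ⟨(Pi.evalAlgHom K _ X).comp V.φ.toAlgHom, fun _ => rfl⟩
    have h1 : f W.z = algebraMap K _ (W.m V X) := by
      rw [hf, W.m_eq V X, Algebra.algebraMap_eq_smul_one]
    rw [← hf, ← Polynomial.aeval_algHom_apply, h1, Polynomial.aeval_algebraMap_apply,
      Polynomial.coe_aeval_eq_eval, hq, Algebra.algebraMap_eq_smul_one]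
  · rw [Polynomial.aeval_eq_sum_range, Finset.sum_mul, Finset.mul_sum]
    refine Finset.sum_congr rfl fun n _ => ?_
    rw [smul_mul_assoc, mul_smul_comm]
    congr 1
    exact ((show Commute W.z a from W.z_cen a).pow_left n).eq
  · rw [← Polynomial.aeval_algHom_apply, W.z_psi]
  · rw [Polynomial.aeval_eq_sum_range]
    exact Submodule.sum_mem _ fun n _ => Submodule.smul_mem _ _ (d.F_pow0 W.z_F n)
-- END wi_int

-- BEGIN wi_eps
open Classical in
private theorem wi_eps_phi (X : V.ι) :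
    V.φ (∑ X ∈ W.C V, V.ε X) X = if W.m V X = 1 then 0 else 1 := by
  classical
  have h1 : V.φ (∑ X ∈ W.C V, V.ε X) X = ∑ Y ∈ W.C V, (Pi.single Y 1 : ∀ i, Matrix (Fin (V.d i)) (Fin (V.d i)) K) X := by
    rw [map_sum, Finset.sum_apply]
    refine Finset.sum_congr rfl fun Y _ => ?_
    rw [WM.ε, AlgEquiv.apply_symm_apply]
  rw [h1]
  by_cases h : W.m V X = 1
  · rw [if_pos h]
    refine Finset.sum_eq_zero fun Y hY => ?_
    rw [Pi.single_eq_of_ne]
    rintro rfl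
    exact (W.mem_C V X).1 hY h
  · rw [if_neg h, Finset.sum_eq_single X]
    · exact Pi.single_eq_same _ _
    · intro Y _ hY
      exact Pi.single_eq_of_ne (Ne.symm hY) _
    · intro h2
      exact absurd ((W.mem_C V X).2 h) h2

/-- PROOF. `exists_fun` for `g t = if t = 1 then 0 else 1` (`∑ X ∈ C, ε_X` has the components `1` and `0`, `WM.ε`). -/
theorem eps_fun : (∀ a, (∑ X ∈ W.C V, V.ε X) * a = a * ∑ X ∈ W.C V, V.ε X) ∧
    (∀ h, d.psi h (∑ X ∈ W.C V, V.ε X) = ∑ X ∈ W.C V, V.ε X) ∧ (∑ X ∈ W.C V, V.ε X) ∈ d.F j 0 ∧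
    (∑ X ∈ W.C V, V.ε X) * ∑ X ∈ W.C V, V.ε X = ∑ X ∈ W.C V, V.ε X := by
  classical
  obtain ⟨x, hx, x1, x2, x3⟩ := W.exists_fun V (fun t => if t = 1 then 0 else 1)
  have h1 : ∑ X ∈ W.C V, V.ε X = x := by
    apply V.φ.injective
    funext X
    rw [wi_eps_phi, hx]
    by_cases h : W.m V X = 1
    · rw [if_pos h, if_pos h, zero_smul]
    · rw [if_neg h, if_neg h, one_smul]
  refine ⟨fun a => by rw [h1, x1], fun h => by rw [h1, x2], by rw [h1]; exact x3, ?_⟩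
  apply V.φ.injective
  funext X
  rw [map_mul, Pi.mul_apply, wi_eps_phi]
  by_cases h : W.m V X = 1
  · rw [if_pos h, mul_zero]
  · rw [if_neg h, mul_one]

/-- PROOF. `exists_fun` for `g t = (t - 1)⁻¹` (`0⁻¹ = 0`). -/
theorem exists_inv : ∃ r : d.R, (W.z - 1) * r = ∑ X ∈ W.C V, V.ε X ∧ (∀ a, r * a = a * r) ∧
    (∀ h, d.psi h r = r) ∧ r ∈ d.F j 0 := by
  classical
  obtain ⟨r, hr, r1, r2, r3⟩ := W.exists_fun V (fun t => (t - 1)⁻¹)
  refine ⟨r, ?_, r1, r2, r3⟩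
  apply V.φ.injective
  funext X
  rw [wi_eps_phi, map_mul, Pi.mul_apply, map_sub, map_one, Pi.sub_apply, Pi.one_apply, hr, W.m_eq V]
  have h2 : W.m V X • (1 : Matrix (Fin (V.d X)) (Fin (V.d X)) K) - 1 = (W.m V X - 1) • 1 := by
    rw [sub_smul, one_smul]
  rw [h2, smul_mul_smul_comm, one_mul]
  by_cases h : W.m V X = 1
  · rw [if_pos h, h, sub_self, zero_mul, zero_smul]
  · rw [if_neg h, mul_inv_cancel₀ (sub_ne_zero.2 h), one_smul]
-- END wi_eps

-- BEGIN wi_eqv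
private theorem wi_eqv_phi_mul (g : E) (τ : Tor p) (x y : d.R) : d.Φ g g τ (x * y) = d.Φ g g τ x * d.Φ g g τ y := by
  rw [d.Φ_apply, d.Φ_apply, d.Φ_apply, map_mul]
  have h1 := d.Z.gy_inv' g
  calc d.Z.gy g * (d.Ps τ x * d.Ps τ y) * d.Z.gy g⁻¹
      = d.Z.gy g * d.Ps τ x * 1 * d.Ps τ y * d.Z.gy g⁻¹ := by simp only [mul_assoc, one_mul]
    _ = d.Z.gy g * d.Ps τ x * (d.Z.gy g⁻¹ * d.Z.gy g) * d.Ps τ y * d.Z.gy g⁻¹ := by rw [h1]
    _ = _ := by simp only [mul_assoc]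

private theorem wi_eqv_phi_fix (g : E) (τ : Tor p) (x : d.R) (h1 : d.psi τ x = x) (h2 : d.Z.gy g * x = x * d.Z.gy g) :
    d.Φ g g τ x = x := by
  rw [d.Φ_apply]
  have h3 : d.Ps τ x = x := h1
  rw [h3, h2, mul_assoc, d.Z.gy_inv, mul_one]

/-- THE EQUIVALENCE. PROOF. Let `ε = ∑ X ∈ C, ε_X`, `r0` of `exists_inv`, `R'` the subalgebra of the `x` with `d.Φ g g τ x = x` for all `(g, τ)` which fix `y`. In `R'`: `e0 = ε e_0`, `e1 = ε e_y`, `s0 = s1 = W.s1 r0 ε`, `c = 1`: `e0 s0 e0 = e_0 W.s1 e_0 r0 ε = (z - 1) e_0 r0 ε = ε e_0`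
(`z1_ey`), in the same way for `e1`; `(s1 e1 - s0 e0) (2 s0 e0 - 1) = W.s1 r0 ε (e_y - e_0) (..)` is in `F' j 0` (`ey_sub`, `ey_F`), so nilpotent (`F'_nil`). `lemJ` in `R'`. -/
theorem eqv [FiniteDimensional K A] (hij : i ≠ j) (y : (D.L1 hp hc).Y) (hy : agr D hp hc i y (D.y0 hp hc)) :
    ∃ r r' : d.Z.DA.Al,
    r * r' = (∑ X ∈ W.C V, V.ε X) * d.Z.ey d.X (D.y0 hp hc) ∧ r' * r = (∑ X ∈ W.C V, V.ε X) * d.Z.ey d.X y ∧
    (∑ X ∈ W.C V, V.ε X) * d.Z.ey d.X (D.y0 hp hc) * r = r ∧ r * ((∑ X ∈ W.C V, V.ε X) * d.Z.ey d.X y) = r ∧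
    (∑ X ∈ W.C V, V.ε X) * d.Z.ey d.X y * r' = r' ∧ r' * ((∑ X ∈ W.C V, V.ε X) * d.Z.ey d.X (D.y0 hp hc)) = r' ∧
    ∀ g τ, Fx D hp hc g τ y → d.Φ g g τ r = r ∧ d.Φ g g τ r' = r' := by
  classical
  obtain ⟨c1, c2, c3, c4⟩ := W.eps_fun V
  obtain ⟨r0, r1, r2, r3, r4⟩ := W.exists_inv V
  generalize (∑ X ∈ W.C V, V.ε X) = ε at *
  have hy0 : agr D hp hc i (D.y0 hp hc) (D.y0 hp hc) := fun _ _ => rfl
  let R' : Subalgebra K d.R :=
    { carrier := {x | ∀ g τ, Fx D hp hc g τ y → d.Φ g g τ x = x}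
      mul_mem' := by
        intro a b ha hb g τ h
        rw [wi_eqv_phi_mul, ha g τ h, hb g τ h]
      add_mem' := by
        intro a b ha hb g τ h
        rw [map_add, ha g τ h, hb g τ h]
      algebraMap_mem' := by
        intro k g τ _
        have h1 : d.Φ g g τ (1 : d.R) = 1 := wi_eqv_phi_fix g τ 1 (map_one _) (by rw [mul_one, one_mul])
        rw [Algebra.algebraMap_eq_smul_one, map_smul, h1] }
  have mε : ε ∈ R' := fun g τ _ => wi_eqv_phi_fix g τ ε (c2 τ) (c1 _).symm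
  have mr : r0 ∈ R' := fun g τ _ => wi_eqv_phi_fix g τ r0 (r3 τ) (r2 _).symm
  have ms : W.s1 ∈ R' := fun g τ _ => wi_eqv_phi_fix g τ W.s1 (W.s1_psi τ) (W.s1_gy g)
  have me : ∀ g τ y', d.Φ g g τ (d.Z.ey d.X y') = d.Z.ey d.X (sm (D.L1 hp hc) g (tY D hp hc τ y')) := by
    intro g τ y'
    rw [d.Φ_apply, d.Ps_ey, d.Z.gy_ey]
  have m0 : d.Z.ey d.X (D.y0 hp hc) ∈ R' := fun g τ _ => by rw [me, tY_y0, TP.sm_y0]
  have m1 : d.Z.ey d.X y ∈ R' := fun g τ h => by rw [me, h]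
  let e0 : R' := ⟨ε * d.Z.ey d.X (D.y0 hp hc), R'.mul_mem mε m0⟩
  let e1 : R' := ⟨ε * d.Z.ey d.X y, R'.mul_mem mε m1⟩
  let s0 : R' := ⟨W.s1 * r0 * ε, R'.mul_mem (R'.mul_mem ms mr) mε⟩
  have hid : ∀ y' : (D.L1 hp hc).Y, ε * d.Z.ey d.X y' * (ε * d.Z.ey d.X y') = ε * d.Z.ey d.X y' := by
    intro y'
    calc ε * d.Z.ey d.X y' * (ε * d.Z.ey d.X y') = ε * (d.Z.ey d.X y' * ε) * d.Z.ey d.X y' := by simp only [mul_assoc]
      _ = (ε * ε) * (d.Z.ey d.X y' * d.Z.ey d.X y') := by rw [← c1 (d.Z.ey d.X y')]; simp only [mul_assoc]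
      _ = _ := by rw [c4, d.Z.ey_idem]
  have hsd : ∀ y' : (D.L1 hp hc).Y, agr D hp hc i y' (D.y0 hp hc) →
      ε * d.Z.ey d.X y' * (W.s1 * r0 * ε) * (ε * d.Z.ey d.X y') = ε * d.Z.ey d.X y' := by
    intro y' hy'
    calc ε * d.Z.ey d.X y' * (W.s1 * r0 * ε) * (ε * d.Z.ey d.X y')
        = ε * d.Z.ey d.X y' * W.s1 * (r0 * ((ε * ε) * d.Z.ey d.X y')) := by simp only [mul_assoc]
      _ = ε * d.Z.ey d.X y' * W.s1 * (r0 * (d.Z.ey d.X y' * ε)) := by rw [c4, c1]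
      _ = ε * (d.Z.ey d.X y' * W.s1 * d.Z.ey d.X y') * (r0 * ε) := by
        rw [← mul_assoc r0, r2]
        simp only [mul_assoc]
      _ = ε * ((W.z - 1) * d.Z.ey d.X y') * (r0 * ε) := by rw [W.z1_ey y' hy']
      _ = ε * ((W.z - 1) * (d.Z.ey d.X y' * r0) * ε) := by simp only [mul_assoc]
      _ = ε * ((W.z - 1) * r0 * d.Z.ey d.X y' * ε) := by rw [← r2 (d.Z.ey d.X y')]; simp only [mul_assoc]
      _ = ε * ε * (d.Z.ey d.X y' * ε) := by rw [r1]; simp only [mul_assoc]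
      _ = ε * ε * ε * d.Z.ey d.X y' := by rw [← c1 (d.Z.ey d.X y')]; simp only [mul_assoc]
      _ = _ := by rw [c4, c4]
  have hnil : IsNilpotent ((s0 * e1 - s0 * e0) * ((2 * (1 : K)⁻¹) • (s0 * e0) - 1)) := by
    have h1 : IsNilpotent ((W.s1 * r0 * ε * (ε * d.Z.ey d.X y) - W.s1 * r0 * ε * (ε * d.Z.ey d.X (D.y0 hp hc))) *
        ((2 * (1 : K)⁻¹) • (W.s1 * r0 * ε * (ε * d.Z.ey d.X (D.y0 hp hc))) - 1)) := by
      refine d.F'_nil (j := j) ?_
      have f1 : W.s1 * r0 * ε * ε ∈ d.F j (-(D.Nj j : ℚ)) := by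
        have h2 := d.F_mul (d.F_mul (d.F_mul W.s1_F r4) c3) c3
        rwa [add_zero, add_zero, add_zero] at h2
      have f2 : W.s1 * r0 * ε * (ε * d.Z.ey d.X y) - W.s1 * r0 * ε * (ε * d.Z.ey d.X (D.y0 hp hc)) ∈ d.F' j 0 := by
        have h2 := d.F_mul' f1 (d.ey_sub hij hy)
        rw [neg_add_cancel, mul_sub] at h2
        simpa only [mul_assoc] using h2
      have f3 : (2 * (1 : K)⁻¹) • (W.s1 * r0 * ε * (ε * d.Z.ey d.X (D.y0 hp hc))) - 1 ∈ d.F j 0 := by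
        refine Submodule.sub_mem _ (Submodule.smul_mem _ _ ?_) (d.F_one j)
        have h2 := d.F_mul f1 (d.ey_F j (D.y0 hp hc))
        rw [neg_add_cancel] at h2
        simpa only [mul_assoc] using h2
      have h3 := d.F'_mul f2 f3
      rwa [add_zero] at h3
    obtain ⟨n, hn⟩ := h1
    exact ⟨n, Subtype.ext hn⟩
  obtain ⟨a, b, h1, h2, h3, h4, h5, h6, -⟩ := lemJ (K := K) (R := R') (e0 := e0) (e1 := e1) (s0 := s0) (s1 := s0)
    (c := (1 : K)) one_ne_zero (Subtype.ext (hid _)) (Subtype.ext (hid _))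
    (by rw [one_smul]; exact Subtype.ext (hsd _ hy0)) (by rw [one_smul]; exact Subtype.ext (hsd _ hy)) hnil
  exact ⟨b, a, congrArg Subtype.val h6, congrArg Subtype.val h5, congrArg Subtype.val h3, congrArg Subtype.val h4,
    congrArg Subtype.val h1, congrArg Subtype.val h2, fun g τ h => ⟨b.2 g τ h, a.2 g τ h⟩⟩
-- END wi_eqv

-- BEGIN wi_rk0
/-- PROOF. `eqv`: the components `X` of `r r'` and `r' r` are `V.φ e_0 X` and `V.φ e_y X` (`X ∈ C`: `V.φ (∑ ε) X = 1`); idempotents `a b`, `b a` with `e a = a`, .. have the same rank (`Matrix.rank_mul_le`). -/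
theorem rk0 [FiniteDimensional K A] (hij : i ≠ j) (X : V.ι) (hX : W.m V X ≠ 1) (y : (D.L1 hp hc).Y)
    (hy : agr D hp hc i y (D.y0 hp hc)) : V.rk X (d.Z.ey d.X (D.y0 hp hc)) = V.rk X (d.Z.ey d.X y) := by
  classical
  obtain ⟨r, r', h1, h2, h3, h4, h5, h6, -⟩ := W.eqv V hij y hy
  have hmul : ∀ a b : d.R, V.φ (a * b) X = V.φ a X * V.φ b X := fun a b => by
    rw [map_mul]; rfl
  have hε : V.φ (∑ X ∈ W.C V, V.ε X) X = 1 := by
    rw [map_sum, Finset.sum_apply, Finset.sum_eq_single X]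
    · rw [WM.ε, AlgEquiv.apply_symm_apply, Pi.single_eq_same]
    · intro Y _ hY
      rw [WM.ε, AlgEquiv.apply_symm_apply, Pi.single_eq_of_ne hY.symm]
    · intro h
      exact absurd ((W.mem_C V X).2 hX) h
  have k1 := congrArg (fun x => V.φ x X) h1
  have k2 := congrArg (fun x => V.φ x X) h2
  have k3 := congrArg (fun x => V.φ x X) h3
  have k4 := congrArg (fun x => V.φ x X) h4
  simp only [hmul, hε, one_mul] at k1 k2 k3 k4
  show (V.φ (d.Z.ey d.X (D.y0 hp hc)) X).rank = (V.φ (d.Z.ey d.X y) X).rank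
  apply le_antisymm
  · rw [← k1]
    refine (Matrix.rank_mul_le_left _ _).trans ?_
    rw [← k4]
    exact Matrix.rank_mul_le_right _ _
  · rw [← k2]
    refine (Matrix.rank_mul_le_right _ _).trans ?_
    rw [← k3]
    exact Matrix.rank_mul_le_left _ _
-- END wi_rk0

-- BEGIN wi_rk1
/-- PROOF. `lemJ` in the algebra of the matrices of the component `X`, `e0 = V.φ e_y X`, `e1 = V.φ e_y' X`, `s0 = s1 = V.φ s2 X`, `c = m X`: `z_ey`; `(s2 e_y' - s2 e_y) ((2 c⁻¹) s2 e_y - 1)` is in `F' j 0`, so nilpotent (`ey_sub`, `F'_nil`). -/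
theorem rk1 [FiniteDimensional K A] (hij : i ≠ j) (X : V.ι) (hX : W.m V X ≠ 0) (y y' : (D.L1 hp hc).Y)
    (hy : ¬ agr D hp hc i y (D.y0 hp hc)) (hyy : agr D hp hc i y y') :
    V.rk X (d.Z.ey d.X y) = V.rk X (d.Z.ey d.X y') := by
  have hy' : ¬ agr D hp hc i y' (D.y0 hp hc) := fun h => hy fun t ht => (hyy t ht).trans (h t ht)
  -- evaluation at the component `X` is a ring homomorphism
  have hmul : ∀ a b : d.R, V.φ (a * b) X = V.φ a X * V.φ b X := fun a b => by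
    rw [map_mul]; rfl
  have hsub : ∀ a b : d.R, V.φ (a - b) X = V.φ a X - V.φ b X := fun a b => by
    rw [map_sub]; rfl
  have hsmul : ∀ (c : K) (a : d.R), V.φ (c • a) X = c • V.φ a X := fun c a => by
    rw [map_smul]; rfl
  have hone : V.φ (1 : d.R) X = 1 := by rw [map_one]; rfl
  have hzero : V.φ (0 : d.R) X = 0 := by rw [map_zero]; rfl
  have hpow : ∀ (a : d.R) (n : ℕ), V.φ (a ^ n) X = V.φ a X ^ n := fun a n => by
    rw [map_pow]; rfl
  have idem : ∀ y1 : (D.L1 hp hc).Y, d.Z.ey d.X y1 * d.Z.ey d.X y1 = d.Z.ey d.X y1 := fun y1 => by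
    rw [d.Z.ey_mul, if_pos rfl]
  have hE : ∀ y1 : (D.L1 hp hc).Y, ¬ agr D hp hc i y1 (D.y0 hp hc) →
      V.φ (d.Z.ey d.X y1) X * V.φ W.s2 X * V.φ (d.Z.ey d.X y1) X = W.m V X • V.φ (d.Z.ey d.X y1) X := by
    intro y1 h1
    rw [← hmul, ← hmul, ← W.z_ey y1 h1, hmul, W.m_eq V X, smul_mul_assoc, one_mul]
  have hnil : IsNilpotent ((V.φ W.s2 X * V.φ (d.Z.ey d.X y') X - V.φ W.s2 X * V.φ (d.Z.ey d.X y) X) *
      ((2 * (W.m V X)⁻¹) • (V.φ W.s2 X * V.φ (d.Z.ey d.X y) X) - 1)) := by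
    have hF : (W.s2 * d.Z.ey d.X y' - W.s2 * d.Z.ey d.X y) *
        ((2 * (W.m V X)⁻¹) • (W.s2 * d.Z.ey d.X y) - 1) ∈ d.F' j 0 := by
      have h1 : W.s2 * d.Z.ey d.X y' - W.s2 * d.Z.ey d.X y ∈ d.F' j 0 := by
        rw [← mul_sub]
        have h := d.F_mul' W.s2_F (d.ey_sub hij (y := y') (y' := y) fun t ht => (hyy t ht).symm)
        rwa [neg_add_cancel] at h
      have h2 : (2 * (W.m V X)⁻¹) • (W.s2 * d.Z.ey d.X y) - 1 ∈ d.F j 0 := by
        have h := d.F_mul W.s2_F (d.ey_F j y)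
        rw [neg_add_cancel] at h
        exact Submodule.sub_mem _ (Submodule.smul_mem _ _ h) (d.F_one j)
      have h := d.F'_mul h1 h2
      rwa [add_zero] at h
    obtain ⟨n, hn⟩ := d.F'_nil hF
    refine ⟨n, ?_⟩
    have h3 := congrArg (fun x => V.φ x X) hn
    simp only [hpow, hzero, hmul, hsub, hsmul, hone] at h3
    exact h3
  obtain ⟨a, b, ha1, ha0, hb0, hb1, hab, hba, -⟩ := lemJ (e0 := V.φ (d.Z.ey d.X y) X) (e1 := V.φ (d.Z.ey d.X y') X)
    (s0 := V.φ W.s2 X) (s1 := V.φ W.s2 X) hX (by rw [← hmul, idem]) (by rw [← hmul, idem]) (hE y hy) (hE y' hy') hnil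
  show (V.φ (d.Z.ey d.X y) X).rank = (V.φ (d.Z.ey d.X y') X).rank
  apply le_antisymm
  · rw [← hba]
    refine (Matrix.rank_mul_le_left b a).trans ?_
    rw [← hb1]
    exact (Matrix.rank_mul_le_right b _)
  · rw [← hab]
    refine (Matrix.rank_mul_le_left a b).trans ?_
    rw [← ha0]
    exact (Matrix.rank_mul_le_right a _)
-- END wi_rk1

-- BEGIN wi_J
/-- THE SET `R`. PROOF. `X ∉ range f`: `w0.bne`, `w0.bval` at a point `y ≠ 0` which is zero in the part `i` (`eigY` for the part `j`): by `rk0`, `m X ≠ 1` is impossible. -/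
theorem m_R [FiniteDimensional K A] [IsAlgClosed K] (hij : i ≠ j) (w0 : RWg K d.Z d.X V (D.y0 hp hc)) (X : V.ι) (hX : X ∉ Set.range w0.f) :
    W.m V X = 1 := by
  by_contra hne
  obtain ⟨v, l, h1, h2, -⟩ := eigY D hp hc j (1 : E)
  have h3 : agr D hp hc i v (D.y0 hp hc) := fun t ht => h2 t (by rw [ht]; exact hij)
  have h4 := W.rk0 V hij X hne v h3
  apply w0.bne X hX
  rw [← w0.bval X hX v h1]
  unfold Al1.FF
  rw [h4, sub_self]

/-- THE OTHER COMPONENTS. `X = f(l)`, the point `y = w0.r l` is not zero in the part `i`. PROOF. Let `y'` agree with `y` in the part `i`, and have the part `j` zero if `y` has it nonzero, and nonzero (from `eigY`) if `y` has it zero. `y'` is not zero and not in the orbit of `y`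
(`TP.sm_apply`, `D.blkc`): `FF` at `y'` is `0` (`w0.fzero`, `w0.rsur`, `FF_sm`), `±1` at `y` (`w0.fone`). If `m X ≠ 0` this contradicts `rk1`. -/
theorem m_f [FiniteDimensional K A] [IsAlgClosed K] (hij : i ≠ j) (w0 : RWg K d.Z d.X V (D.y0 hp hc)) (l : w0.O)
    (hl : ¬ agr D hp hc i (w0.r l) (D.y0 hp hc)) : W.m V (w0.f l) = 0 := by
  classical
  by_contra hne
  have hsm : ∀ (γ : E) (y : (D.L1 hp hc).Y), agr D hp hc j y (D.y0 hp hc) →
      agr D hp hc j (sm (D.L1 hp hc) γ y) (D.y0 hp hc) := by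
    intro γ y hy s hs
    rw [TP.sm_apply, TP.y0_apply]
    refine Finset.sum_eq_zero fun t _ => ?_
    by_cases h0 : D.M γ⁻¹ s t = 0
    · rw [h0, zero_mul]
    · have h1 : D.c t = j := by rw [← (D.blk _ _ _ h0).2, hs]
      rw [hy t h1, TP.y0_apply, mul_zero]
  obtain ⟨v, l', v1, v2, -⟩ := eigY D hp hc j (1 : E)
  -- the point `y'`
  let g : T → K := fun t => if D.c t = i then (w0.r l : T → K) t else
    if agr D hp hc j (w0.r l) (D.y0 hp hc) then (v : T → K) t else 0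
  have hg : g ∈ (D.L1 hp hc).Y := by
    intro t
    show g t ^ D.q t = g t
    have hq := D.one_lt_q hp t
    by_cases ht : D.c t = i
    · simp only [g, if_pos ht]
      exact (w0.r l).2 t
    · by_cases hj : agr D hp hc j (w0.r l) (D.y0 hp hc)
      · simp only [g, if_neg ht, if_pos hj]
        exact v.2 t
      · simp only [g, if_neg ht, if_neg hj]
        exact zero_pow (by omega)
  let y' : (D.L1 hp hc).Y := ⟨g, hg⟩
  have hy' : ∀ t, (y' : T → K) t = g t := fun _ => rfl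
  have hagr : agr D hp hc i (w0.r l) y' := by
    intro t ht
    rw [hy']
    simp only [g, if_pos ht]
  have hne0 : y' ≠ D.y0 hp hc := by
    intro h
    apply hl
    intro t ht
    have h1 := hagr t ht
    rw [h1, h]
  have hjj : agr D hp hc j y' (D.y0 hp hc) ↔ ¬ agr D hp hc j (w0.r l) (D.y0 hp hc) := by
    constructor
    · intro h1 h2
      apply v1
      apply Subtype.ext
      funext t
      show (v : T → K) t = 0
      by_cases ht : D.c t = j
      · have h3 := h1 t ht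
        rw [hy', TP.y0_apply] at h3
        have h4 : ¬ D.c t = i := by rw [ht]; exact hij.symm
        simp only [g, if_neg h4, if_pos h2] at h3
        exact h3
      · exact v2 t ht
    · intro h2 t ht
      rw [hy', TP.y0_apply]
      have h4 : ¬ D.c t = i := by rw [ht]; exact hij.symm
      simp only [g, if_neg h4, if_neg h2]
  have horb : ∀ γ, y' ≠ sm (D.L1 hp hc) γ (w0.r l) := by
    intro γ h
    by_cases hj : agr D hp hc j (w0.r l) (D.y0 hp hc)
    · have h1 := hsm γ _ hj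
      rw [← h] at h1
      exact hjj.1 h1 hj
    · have h1 := hjj.2 hj
      have h2 := hsm γ⁻¹ _ h1
      rw [h, d.X.sm_sm, inv_mul_cancel, d.X.sm_one] at h2
      exact hj h2
  obtain ⟨l2, γ, h5⟩ := w0.rsur y' hne0
  have hl2 : l2 ≠ l := by
    rintro rfl
    exact horb γ h5
  have h6 := w0.fzero l l2 hl2
  have h7 := d.Z.FF_sm d.X V (D.y0 hp hc) (w0.f l) γ (w0.r l2)
  rw [h6, ← h5] at h7
  have h8 := W.rk1 V hij (w0.f l) hne (w0.r l) y' hl hagr
  have h9 : d.Z.FF d.X V (D.y0 hp hc) (w0.r l) (w0.f l) = d.Z.FF d.X V (D.y0 hp hc) y' (w0.f l) := by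
    unfold Al1.FF
    rw [h8]
  rw [h7] at h9
  rcases w0.fone l with h10 | h10 <;> rw [h9] at h10 <;> omega
-- END wi_J

end Wi

end Pool.Agent.Two
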