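import Pool.Agent.Two.Wd
import Pool.Agent.Two.Grc
import Pool.Agent.Two.MixT

/-!
# The decomposition of a twisted central element of degree `≤ 0`
-/

set_option autoImplicit false
set_option linter.unusedSectionVars false

namespace Pool.Agent.Two

open Pool.Agent.Sig Pool.Agent.K9 Pool.Agent.Sqf Pool.Agent.Fdf Pool.Agent.Evn Pool.Agent.Lrg

open TensorProduct

section FMx

variable {K P E A : Type} [Field K] [CommGroup P] [Fintype P] [Group E] [Fintype E] {act : E →* MulAut P}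
  [Ring A] [Algebra K A] {S : StEq K P E act A} {𝒜 : ℚ → Submodule K A}

theorem w0_io (S : StEq K P E act A) (s : MonoidAlgebra K P) (γ : E) :
    S.io (inlK act s * MonoidAlgebra.of K _ (SemidirectProduct.inr γ)) = sA S s * S.ρ (.inr γ) := by
  rw [map_mul, K9.StEq.io, MonoidAlgebra.lift_of]
  rfl

/-- `A` is generated by the `s γ` and the `s u t` -/
theorem FM.ind (F : FM S 𝒜) {C : A → Prop} (h0 : C 0) (hadd : ∀ a b, C a → C b → C (a + b))
    (hc : ∀ s γ, C (sA S s * S.ρ (.inr γ))) (hm : ∀ s (u : F.U) t, C (sA S s * (u : A) * sA S t)) (a : A) :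
    C a := by
  obtain ⟨⟨x, m⟩, rfl⟩ := F.Φ.surjective a
  have e1 : ((x, m) : cAlg K act × (MonoidAlgebra K P ⊗[K] (F.U ⊗[K] MonoidAlgebra K P))) = (x, 0) + (0, m) := by
    rw [Prod.mk_add_mk, add_zero, zero_add]
  rw [e1, map_add]
  refine hadd _ _ ?_ ?_
  · rw [F.Φ_c]
    obtain ⟨c, hc1, -⟩ := exists_cy (P := P) K act
    rw [← hc1 x, map_sum]
    refine Finset.sum_induction _ C hadd h0 fun γ _ => ?_
    rw [w0_io]
    exact hc _ _
  · induction m using TensorProduct.induction_on with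
    | zero =>
      have h5 : ((0, 0) : cAlg K act × (MonoidAlgebra K P ⊗[K] (F.U ⊗[K] MonoidAlgebra K P))) = 0 := rfl
      rw [h5, map_zero]
      exact h0
    | add b b' hb hb' =>
      have h5 : ((0, b + b') : cAlg K act × (MonoidAlgebra K P ⊗[K] (F.U ⊗[K] MonoidAlgebra K P))) =
          (0, b) + (0, b') := by rw [Prod.mk_add_mk, add_zero]
      rw [h5, map_add]
      exact hadd _ _ (hb (by rw [Prod.mk_add_mk, add_zero, zero_add])) (hb' (by rw [Prod.mk_add_mk, add_zero, zero_add]))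
    | tmul s c =>
      clear e1
      induction c using TensorProduct.induction_on with
      | zero =>
        have h5 : ((0, s ⊗ₜ[K] 0) : cAlg K act × (MonoidAlgebra K P ⊗[K] (F.U ⊗[K] MonoidAlgebra K P))) = 0 := by
          rw [TensorProduct.tmul_zero]
          rfl
        rw [h5, map_zero]
        exact h0
      | add c c' hc hc' =>
        have h5 : ((0, s ⊗ₜ[K] (c + c')) :
            cAlg K act × (MonoidAlgebra K P ⊗[K] (F.U ⊗[K] MonoidAlgebra K P))) =
            (0, s ⊗ₜ[K] c) + (0, s ⊗ₜ[K] c') := by rw [Prod.mk_add_mk, add_zero, TensorProduct.tmul_add]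
        rw [h5, map_add]
        exact hadd _ _ hc hc'
      | tmul u t =>
        rw [F.Φ_m]
        exact hm s u t

/-- the coordinates in `c` -/
theorem FM.exists_cf (F : FM S 𝒜) : ∃ c : E → A →ₗ[K] MonoidAlgebra K P,
    (∀ γ s δ, c γ (sA S s * S.ρ (.inr δ)) = open Classical in if γ = δ then s else 0) ∧
    ∀ γ s (u : F.U) t, c γ (sA S s * (u : A) * sA S t) = 0 := by
  obtain ⟨c, -, hc2⟩ := exists_cy (P := P) K act
  refine ⟨fun γ => c γ ∘ₗ LinearMap.fst K _ _ ∘ₗ F.Φ.symm.toLinearMap, fun γ s δ => ?_, fun γ s u t => ?_⟩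
  · show c γ (F.Φ.symm (sA S s * S.ρ (.inr δ))).1 = _
    rw [← w0_io, ← F.Φ_c, LinearEquiv.symm_apply_apply]
    exact hc2 γ δ s
  · show c γ (F.Φ.symm (sA S s * (u : A) * sA S t)).1 = _
    rw [← F.Φ_m, LinearEquiv.symm_apply_apply]
    exact map_zero _

/-- the contraction of the last factor of `M = S ⊗ U ⊗ S` -/
theorem FM.exists_ka (F : FM S 𝒜) (lam : MonoidAlgebra K P →ₗ[K] K) : ∃ k : A →ₗ[K] A,
    (∀ s γ, k (sA S s * S.ρ (.inr γ)) = 0) ∧
    ∀ s (u : F.U) t, k (sA S s * (u : A) * sA S t) = lam t • (sA S s * (u : A)) := by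
  refine ⟨F.Φ.toLinearMap ∘ₗ LinearMap.inr K _ _ ∘ₗ TensorProduct.map LinearMap.id
    (TensorProduct.map LinearMap.id (lam.smulRight 1)) ∘ₗ LinearMap.snd K _ _ ∘ₗ F.Φ.symm.toLinearMap,
    fun s γ => ?_, fun s u t => ?_⟩
  · show F.Φ (0, TensorProduct.map LinearMap.id (TensorProduct.map LinearMap.id (lam.smulRight 1))
      (F.Φ.symm (sA S s * S.ρ (.inr γ))).2) = 0
    rw [← w0_io, ← F.Φ_c, LinearEquiv.symm_apply_apply, map_zero]
    exact map_zero F.Φ
  · show F.Φ (0, TensorProduct.map LinearMap.id (TensorProduct.map LinearMap.id (lam.smulRight 1))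
      (F.Φ.symm (sA S s * (u : A) * sA S t)).2) = _
    rw [← F.Φ_m, LinearEquiv.symm_apply_apply, TensorProduct.map_tmul, TensorProduct.map_tmul, LinearMap.id_apply,
      LinearMap.id_apply, LinearMap.smulRight_apply, F.Φ_m, map_smul, map_one, mul_smul_comm, mul_one]

end FMx

section

variable {K P E A T : Type} [Field K] [CommGroup P] [Fintype P] [Group E] [Fintype E] {act : E →* MulAut P} [Fintype T]
  {p : ℕ} {hp : p.Prime} {hc : CharP K p} {D : TP K act T p} [Ring A] [Algebra K A] {S : StEq K P E act A}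

namespace Dat

variable (d : Dat hp hc D S)

/-- the homogeneous elements are sums of homogeneous `s γ` and `s u t` -/
theorem hom_span (j : Fin 2) {q : ℚ} {C : A → Prop} (h0 : C 0) (hadd : ∀ a b, C a → C b → C (a + b))
    (hsm : ∀ (r : K) a, C a → C (r • a))
    (hcc : ∀ s ∈ (D.L1 hp hc).grc D.c j q, ∀ γ, C (sA S s * S.ρ (.inr γ)))
    (hm : ∀ q1 q2 q3, q1 + q2 + q3 = q → ∀ s ∈ (D.L1 hp hc).grc D.c j q1, ∀ u : d.Z.F.U, (u : A) ∈ d.𝒟 j q2 →
      ∀ t ∈ (D.L1 hp hc).grc D.c j q3, C (sA S s * (u : A) * sA S t)) {a : A} (ha : a ∈ d.𝒟 j q) : C a := by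
  have hg : Grd K ((D.L1 hp hc).grc D.c j) := gw_grd D.toLinG _
  have hs1 : ∀ q, ∀ s ∈ (D.L1 hp hc).grc D.c j q, sA S s ∈ d.𝒟 j q := fun q s hs =>
    d.hioD j q _ (Submodule.subset_span ⟨s, hs, 1, by rw [map_one, map_one, mul_one]; rfl⟩)
  have hr1 : ∀ γ : E, S.ρ (.inr γ) ∈ d.𝒟 j 0 := fun γ => by
    have h1 := d.hioD j 0 _ (Submodule.subset_span ⟨1, hg.one, γ, rfl⟩)
    rw [w0_io, map_one, one_mul] at h1
    exact h1
  let 𝒟' : ℚ → Submodule K A := fun q => Submodule.span K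
    ({a | ∃ s ∈ (D.L1 hp hc).grc D.c j q, ∃ γ, a = sA S s * S.ρ (.inr γ)} ∪
      {a | ∃ q1 q2 q3, q1 + q2 + q3 = q ∧ ∃ s ∈ (D.L1 hp hc).grc D.c j q1, ∃ u : d.Z.F.U, (u : A) ∈ d.𝒟 j q2 ∧
        ∃ t ∈ (D.L1 hp hc).grc D.c j q3, a = sA S s * (u : A) * sA S t})
  have hle : ∀ q, 𝒟' q ≤ d.𝒟 j q := by
    intro q
    refine Submodule.span_le.2 ?_
    rintro _ (⟨s, hs, γ, rfl⟩ | ⟨q1, q2, q3, hq, s, hs, u, hu, t, ht, rfl⟩)
    · have h1 := (d.hD j).mul (hs1 q s hs) (hr1 γ)
      rwa [add_zero] at h1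
    · rw [← hq]
      exact (d.hD j).mul ((d.hD j).mul (hs1 _ s hs) hu) (hs1 _ t ht)
  have hsup : ⨆ q, 𝒟' q = ⊤ := by
    rw [eq_top_iff]
    intro a _
    refine FM.ind d.Z.F (C := fun a => a ∈ ⨆ q, 𝒟' q) (zero_mem _) (fun a b h h' => add_mem h h') ?_ ?_ a
    · intro s γ
      refine ind_hom hg.sup (P := fun s => sA S s * S.ρ (.inr γ) ∈ ⨆ q, 𝒟' q) ?_ ?_ ?_ s
      · rw [map_zero, zero_mul]
        exact zero_mem _
      · intro a b h h'
        rw [map_add, add_mul]
        exact add_mem h h'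
      · intro q s hs
        exact Submodule.mem_iSup_of_mem q (Submodule.subset_span (Or.inl ⟨s, hs, γ, rfl⟩))
    · intro s u t
      refine ind_hom hg.sup (P := fun s => sA S s * (u : A) * sA S t ∈ ⨆ q, 𝒟' q) ?_ ?_ ?_ s
      · rw [map_zero, zero_mul, zero_mul]
        exact zero_mem _
      · intro a b h h'
        rw [map_add, add_mul, add_mul]
        exact add_mem h h'
      intro q1 s hs
      refine ind_hom hg.sup (P := fun t => sA S s * (u : A) * sA S t ∈ ⨆ q, 𝒟' q) ?_ ?_ ?_ t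
      · rw [map_zero, mul_zero]
        exact zero_mem _
      · intro a b h h'
        rw [map_add, mul_add]
        exact add_mem h h'
      intro q3 t ht
      have hu := d.homU j u.2
      have key : ∀ v : A, v ∈ ⨆ q, d.Z.F.U ⊓ d.𝒟 j q → sA S s * v * sA S t ∈ ⨆ q, 𝒟' q := by
        intro v hv
        refine Submodule.iSup_induction _ (motive := fun v => sA S s * v * sA S t ∈ ⨆ q, 𝒟' q) hv ?_ ?_ ?_
        · intro q2 v hv
          exact Submodule.mem_iSup_of_mem (q1 + q2 + q3)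
            (Submodule.subset_span (Or.inr ⟨q1, q2, q3, rfl, s, hs, ⟨v, hv.1⟩, hv.2, t, ht, rfl⟩))
        · rw [mul_zero, zero_mul]
          exact zero_mem _
        · intro a b h h'
          rw [mul_add, add_mul]
          exact add_mem h h'
      exact key _ hu
  have heq := eq_of_le_ind hle hsup (d.hD j).ind
  rw [← heq] at ha
  refine Submodule.span_induction (p := fun a _ => C a) ?_ h0 (fun a b _ _ h h' => hadd a b h h')
    (fun r a _ h => hsm r a h) ha
  rintro _ (⟨s, hs, γ, rfl⟩ | ⟨q1, q2, q3, hq, s, hs, u, hu, t, ht, rfl⟩)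
  · exact hcc s hs γ
  · exact hm q1 q2 q3 hq s hs u hu t ht

/-- the points which agree with `y` in the part `i` and with `y'` in the other part -/
def glue (i : Fin 2) (y y' : (D.L1 hp hc).Y) : (D.L1 hp hc).Y :=
  ⟨fun t => if D.c t = i then (y : T → K) t else (y' : T → K) t, fun t => by
    by_cases ht : D.c t = i
    · have h3 := y.2 t
      simp only [if_pos ht, TP.L1_φ, Equiv.Perm.one_apply]
      exact h3
    · have h3 := y'.2 t
      simp only [if_neg ht, TP.L1_φ, Equiv.Perm.one_apply]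
      exact h3⟩

theorem glue_apply (i : Fin 2) (y y' : (D.L1 hp hc).Y) (t : T) :
    ((glue i y y' : (D.L1 hp hc).Y) : T → K) t = if D.c t = i then (y : T → K) t else (y' : T → K) t := rfl

theorem w0_rho_sA (S : StEq K P E act A) (γ : E) (s : MonoidAlgebra K P) :
    S.ρ (.inr γ) * sA S s = sA S (al K act γ s) * S.ρ (.inr γ) := by
  have h := congrArg S.io (inr_mul_inlK (act := act) γ s)
  rw [map_mul, map_mul, K9.StEq.io, MonoidAlgebra.lift_of] at h
  exact h

theorem w0_sg (s r : MonoidAlgebra K P) (γ : E) :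
    d.Z.DA.m (sA S s * S.ρ (.inr γ)) (sA S r) = sA S (d.DS.m s (al K act γ r)) * S.ρ (.inr γ) := by
  rw [← d.Z.R_y, d.Z.DA.assoc, d.Z.L_y, w0_rho_sA, ← d.Z.R_y, ← d.Z.DA.assoc, d.Z.B.sub, d.Z.R_y]

theorem w0_gs (s r : MonoidAlgebra K P) (γ : E) :
    d.Z.DA.m (sA S r) (sA S s * S.ρ (.inr γ)) = sA S (d.DS.m r s) * S.ρ (.inr γ) := by
  rw [← d.Z.R_y, ← d.Z.DA.assoc, d.Z.B.sub, d.Z.R_y]

theorem w0_sA_ext {x y : MonoidAlgebra K P} (h : ∀ z, d.X.Θ x z = d.X.Θ y z) : x = y :=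
  d.X.Θ.injective (funext h)

/-- `s e_y = s(y) e_y` -/
theorem w0_dm [DecidableEq (D.L1 hp hc).Y] (s : MonoidAlgebra K P) (y : (D.L1 hp hc).Y) :
    d.DS.m s (d.X.Θ.symm (Pi.single y 1)) = d.X.Θ s y • d.X.Θ.symm (Pi.single y 1) := by
  apply d.w0_sA_ext
  intro z
  rw [d.X.mul, Pi.mul_apply, map_smul, Pi.smul_apply, LinearEquiv.apply_symm_apply, smul_eq_mul]
  by_cases hz : z = y
  · rw [hz]
  · rw [Pi.single_eq_of_ne hz, mul_zero, mul_zero]

/-- `lam` is invariant under the torus -/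
theorem w0_lam (hE : (Fintype.card E : K) ≠ 0) [Nontrivial P] (h : Tor p) (s : MonoidAlgebra K P) :
    d.lam (d.β h s) = d.lam s := by
  have : Finite (D.L1 hp hc).Y := (D.L1 hp hc).finite_Y
  let _ : Fintype (D.L1 hp hc).Y := Fintype.ofFinite _
  obtain ⟨l, -, hl⟩ := Pol.lam (X := d.X) d.pol hE d.G
  rw [hl, hl]
  congr 1
  let e : (D.L1 hp hc).Y ≃ (D.L1 hp hc).Y :=
    ⟨tY D hp hc h⁻¹, tY D hp hc h, fun y => by rw [tY_tY, mul_inv_cancel, tY_one],
      fun y => by rw [tY_tY, inv_mul_cancel, tY_one]⟩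
  exact Eq.trans (Finset.sum_congr rfl fun y _ => d.Θβ h s y) (Equiv.sum_comp e fun y => d.X.Θ s y)

/-- THE DECOMPOSITION. -/
theorem W0 [Nontrivial P] (hE : (Fintype.card E : K) ≠ 0) [DecidableEq (D.L1 hp hc).Y] {i j : Fin 2} (hij : i ≠ j)
    {h : Tor p} (hj : h j = 1) {v : d.R} (hv : v ∈ d.F j 0) (hc1 : ∀ a, v * a = d.psi h a * v)
    (hfix : ∀ h', d.psi h' v = v) :
    ∃ (f : (D.L1 hp hc).Y → K) (s : d.R), s ∈ d.F j (-(D.Nj j)) ∧ (∀ h', d.psi h' s = s) ∧
      (∀ g, d.Z.gy g * s = s * d.Z.gy g) ∧ (∀ y y', agr D hp hc i y y' → f y = f y') ∧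
      (∀ y, f y ≠ 0 → tY D hp hc h y = y) ∧
      ∀ y, v * d.Z.ey d.X y = f y • d.Z.ey d.X y + d.Z.ey d.X (tY D hp hc h y) * s * d.Z.ey d.X y := by
  classical
  have : Finite (D.L1 hp hc).Y := (D.L1 hp hc).finite_Y
  let _ : Fintype (D.L1 hp hc).Y := Fintype.ofFinite _
  obtain ⟨c, hcc, hcm⟩ := FM.exists_cf d.Z.F
  obtain ⟨k, hkc, hkm⟩ := FM.exists_ka d.Z.F d.lam
  obtain ⟨l, hl, hlam⟩ := Pol.lam (X := d.X) d.pol hE d.G
  have hle : ∀ y : (D.L1 hp hc).Y, d.lam (d.X.Θ.symm (Pi.single y 1)) = l := by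
    intro y
    rw [hlam, LinearEquiv.apply_symm_apply, Finset.sum_pi_single', if_pos (Finset.mem_univ y), mul_one]
  obtain ⟨v', rfl⟩ : ∃ v', d.Z.DA.tl v' = v := ⟨d.Z.DA.tl.symm v, rfl⟩
  rw [d.tl_F] at hv
  have hv1 : ∀ a, d.Z.DA.m v' a = d.Z.DA.m (d.Ψ h a) v' := fun a => hc1 (d.Z.DA.tl a)
  have hv2 : ∀ h', d.Ψ h' v' = v' := fun h' => hfix h'
  -- the coordinates in `c`
  have c1 : ∀ γ r a, c γ (d.Z.DA.m (sA S r) a) = d.DS.m r (c γ a) := by
    intro γ r a
    refine FM.ind d.Z.F (C := fun a => c γ (d.Z.DA.m (sA S r) a) = d.DS.m r (c γ a)) ?_ ?_ ?_ ?_ a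
    · simp only [map_zero]
    · intro a b h h'
      simp only [map_add, h, h']
    · intro s δ
      rw [d.w0_gs, hcc, hcc]
      by_cases hγ : γ = δ
      · rw [if_pos hγ, if_pos hγ]
      · rw [if_neg hγ, if_neg hγ, map_zero]
    · intro s u t
      rw [d.Z.L_s, hcm, hcm, map_zero]
  have c2 : ∀ γ r a, c γ (d.Z.DA.m a (sA S r)) = d.DS.m (c γ a) (al K act γ r) := by
    intro γ r a
    refine FM.ind d.Z.F (C := fun a => c γ (d.Z.DA.m a (sA S r)) = d.DS.m (c γ a) (al K act γ r)) ?_ ?_ ?_ ?_ a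
    · simp only [map_zero, LinearMap.zero_apply]
    · intro a b h h'
      simp only [map_add, LinearMap.add_apply, h, h']
    · intro s δ
      rw [d.w0_sg, hcc, hcc]
      by_cases hγ : γ = δ
      · rw [if_pos hγ, if_pos hγ, hγ]
      · rw [if_neg hγ, if_neg hγ, map_zero, LinearMap.zero_apply]
    · intro s u t
      rw [d.Z.R_s, hcm, hcm, map_zero, LinearMap.zero_apply]
  have c3 : ∀ γ q, ∀ a ∈ d.𝒟 j q, c γ a ∈ (D.L1 hp hc).grc D.c j q := by
    intro γ q a ha
    refine d.hom_span j (C := fun a => c γ a ∈ (D.L1 hp hc).grc D.c j q) ?_ ?_ ?_ ?_ ?_ ha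
    · rw [map_zero]
      exact zero_mem _
    · intro a b h h'
      rw [map_add]
      exact add_mem h h'
    · intro r a h
      rw [map_smul]
      exact Submodule.smul_mem _ _ h
    · intro s hs δ
      rw [hcc]
      split_ifs
      · exact hs
      · exact zero_mem _
    · intro q1 q2 q3 _ s _ u _ t _
      rw [hcm]
      exact zero_mem _
  have c4 : ∀ γ, c γ v' ∈ Fl ((D.L1 hp hc).grc D.c j) 0 := fun γ => Fl_map (c γ) (fun q a ha => c3 γ q a ha) hv
  -- the contraction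
  have k1 : ∀ r a, k (d.Z.DA.m (sA S r) a) = d.Z.DA.m (sA S r) (k a) := by
    intro r a
    refine FM.ind d.Z.F (C := fun a => k (d.Z.DA.m (sA S r) a) = d.Z.DA.m (sA S r) (k a)) ?_ ?_ ?_ ?_ a
    · simp only [map_zero]
    · intro a b h h'
      simp only [map_add, h, h']
    · intro s δ
      rw [d.w0_gs, hkc, hkc, map_zero]
    · intro s u t
      rw [d.Z.L_s, hkm, hkm, map_smul]
      have h1 := d.Z.L_s r s u 1
      rw [map_one, mul_one, mul_one] at h1
      rw [h1]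
  have k2 : ∀ y a, d.Z.DA.m (k (d.Z.DA.m a (sA S (d.X.Θ.symm (Pi.single y 1))))) (sA S (d.X.Θ.symm (Pi.single y 1))) =
      l • (d.Z.DA.m a (sA S (d.X.Θ.symm (Pi.single y 1))) -
        ∑ γ, d.Z.DA.m (sA S (c γ a) * S.ρ (.inr γ)) (sA S (d.X.Θ.symm (Pi.single y 1)))) := by
    intro y a
    refine FM.ind d.Z.F (C := fun a => d.Z.DA.m (k (d.Z.DA.m a (sA S (d.X.Θ.symm (Pi.single y 1)))))
      (sA S (d.X.Θ.symm (Pi.single y 1))) = l • (d.Z.DA.m a (sA S (d.X.Θ.symm (Pi.single y 1))) -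
        ∑ γ, d.Z.DA.m (sA S (c γ a) * S.ρ (.inr γ)) (sA S (d.X.Θ.symm (Pi.single y 1))))) ?_ ?_ ?_ ?_ a
    · simp only [map_zero, LinearMap.zero_apply, zero_mul, Finset.sum_const_zero, sub_zero, smul_zero]
    · intro a b h h'
      simp only [map_add, LinearMap.add_apply, add_mul, Finset.sum_add_distrib, h, h']
      rw [← smul_add]
      congr 1
      abel
    · intro s δ
      rw [Finset.sum_eq_single δ]
      · rw [hcc, if_pos rfl, sub_self, smul_zero, d.w0_sg, hkc, map_zero, LinearMap.zero_apply]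
      · intro γ _ hγ
        rw [hcc, if_neg hγ, map_zero, zero_mul, map_zero, LinearMap.zero_apply]
      · intro h
        exact absurd (Finset.mem_univ δ) h
    · intro s u t
      rw [Finset.sum_eq_zero, sub_zero]
      · have h1 := d.Z.R_s (d.X.Θ.symm (Pi.single y 1)) s u 1
        rw [map_one, mul_one, d.DS.one_m] at h1
        have h2 : d.lam (d.X.Θ t y • d.X.Θ.symm (Pi.single y 1)) = l * d.X.Θ t y := by
          rw [map_smul, hle, smul_eq_mul, mul_comm]
        rw [d.Z.R_s, hkm, d.w0_dm, h2, map_smul d.Z.DA.m, LinearMap.smul_apply, h1, map_smul (sA S), mul_smul_comm,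
          smul_smul]
      · intro γ _
        rw [hcm, map_zero, zero_mul, map_zero, LinearMap.zero_apply]
  have k3 : ∀ q, ∀ a ∈ d.𝒟 j q, k a ∈ d.𝒟 j (q - D.Nj j) := by
    intro q a ha
    refine d.hom_span j (C := fun a => k a ∈ d.𝒟 j (q - D.Nj j)) ?_ ?_ ?_ ?_ ?_ ha
    · rw [map_zero]
      exact zero_mem _
    · intro a b h h'
      rw [map_add]
      exact add_mem h h'
    · intro r a h
      rw [map_smul]
      exact Submodule.smul_mem _ _ h
    · intro s hs δ
      rw [hkc]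
      exact zero_mem _
    · intro q1 q2 q3 hq s hs u hu t ht
      rw [hkm]
      by_cases h3 : q3 = D.Nj j
      · refine Submodule.smul_mem _ _ ?_
        have h4 : q - D.Nj j = q1 + q2 := by
          rw [← hq, h3]
          ring
        rw [h4]
        exact (d.hD j).mul (d.hioD j q1 _ (Submodule.subset_span ⟨s, hs, 1, by
          rw [map_one, map_one, mul_one]
          rfl⟩)) hu
      · rw [lam_grc hE d.G j h3 ht, zero_smul]
        exact zero_mem _
  have k4 : ∀ h' a, k (d.Ψ h' a) = d.Ψ h' (k a) := by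
    intro h' a
    refine FM.ind d.Z.F (C := fun a => k (d.Ψ h' a) = d.Ψ h' (k a)) ?_ ?_ ?_ ?_ a
    · simp only [map_zero]
    · intro a b h h'
      simp only [map_add, h, h']
    · intro s δ
      rw [map_mul, (d.cmp h').s, (d.cmp h').y, hkc, hkc, map_zero]
    · intro s u t
      have h1 := hkm (d.β h' s) ⟨d.Ψ h' u, d.ΨU h' u u.2⟩ (d.β h' t)
      have h2 : d.Ψ h' (sA S s * (u : A) * sA S t) = sA S (d.β h' s) * d.Ψ h' (u : A) * sA S (d.β h' t) := by
        rw [map_mul, map_mul, (d.cmp h').s, (d.cmp h').s]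
      have h3 : d.Ψ h' (sA S s * (u : A)) = sA S (d.β h' s) * d.Ψ h' (u : A) := by
        rw [map_mul, (d.cmp h').s]
      rw [h2, hkm, map_smul, h3]
      refine h1.trans ?_
      rw [d.w0_lam hE]
  have k5 : ∀ g a, k (S.ρ (.inr g) * a) = S.ρ (.inr g) * k a := by
    intro g a
    refine FM.ind d.Z.F (C := fun a => k (S.ρ (.inr g) * a) = S.ρ (.inr g) * k a) ?_ ?_ ?_ ?_ a
    · simp only [map_zero, mul_zero]
    · intro a b h h'
      simp only [map_add, mul_add, h, h']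
    · intro s δ
      have h1 : S.ρ (.inr g) * (sA S s * S.ρ (.inr δ)) = sA S (al K act g s) * S.ρ (.inr (g * δ)) := by
        rw [← mul_assoc, w0_rho_sA, mul_assoc, ← map_mul, ← map_mul]
      rw [h1, hkc, hkc, mul_zero]
    · intro s u t
      have h1 : S.ρ (.inr g) * (sA S s * (u : A) * sA S t) =
          sA S (al K act g s) * ((⟨S.ρ (.inr g) * (u : A), d.Z.F.left g u u.2⟩ : d.Z.F.U) : A) * sA S t := by
        show _ = sA S (al K act g s) * (S.ρ (.inr g) * (u : A)) * sA S t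
        rw [← mul_assoc, ← mul_assoc, w0_rho_sA]
        simp only [mul_assoc]
      rw [h1, hkm, hkm, mul_smul_comm]
      congr 1
      show sA S (al K act g s) * (S.ρ (.inr g) * (u : A)) = _
      rw [← mul_assoc, ← w0_rho_sA, mul_assoc]
  have k6 : ∀ g a, k (a * S.ρ (.inr g)) = k a * S.ρ (.inr g) := by
    intro g a
    refine FM.ind d.Z.F (C := fun a => k (a * S.ρ (.inr g)) = k a * S.ρ (.inr g)) ?_ ?_ ?_ ?_ a
    · simp only [map_zero, zero_mul]
    · intro a b h h'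
      simp only [map_add, add_mul, h, h']
    · intro s δ
      rw [mul_assoc, ← map_mul, ← map_mul, hkc, hkc, zero_mul]
    · intro s u t
      have h2 : sA S t * S.ρ (.inr g) = S.ρ (.inr g) * sA S (al K act g⁻¹ t) := by
        rw [w0_rho_sA, al_al, mul_inv_cancel, al_one]
      have h1 : sA S s * (u : A) * sA S t * S.ρ (.inr g) =
          sA S s * ((⟨(u : A) * S.ρ (.inr g), d.Z.F.right g u u.2⟩ : d.Z.F.U) : A) * sA S (al K act g⁻¹ t) := by
        show _ = sA S s * ((u : A) * S.ρ (.inr g)) * sA S (al K act g⁻¹ t)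
        rw [mul_assoc, h2]
        simp only [mul_assoc]
      rw [h1, hkm, hkm, d.G.lam_al, smul_mul_assoc]
      congr 1
      show sA S s * ((u : A) * S.ρ (.inr g)) = _
      rw [mul_assoc]
  -- the points where the coordinates are not zero
  have hpt : ∀ γ y, d.X.Θ (c γ v') y ≠ 0 →
      (⟨_, (D.L1 hp hc).act_Y γ y⟩ : (D.L1 hp hc).Y) = tY D hp hc h⁻¹ y := by
    intro γ y hy
    by_contra hne
    have h1 : ∀ r, d.X.Θ (al K act γ r) y = d.X.Θ (d.β h r) y := by
      intro r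
      have h2 : d.DS.m (c γ v') (al K act γ r) = d.DS.m (d.β h r) (c γ v') := by
        rw [← c2, ← c1, hv1, (d.cmp h).s]
      have h3 := congrFun (congrArg d.X.Θ h2) y
      rw [d.X.mul, d.X.mul, Pi.mul_apply, Pi.mul_apply, mul_comm] at h3
      exact mul_right_cancel₀ hy h3
    have h2 := h1 (d.X.Θ.symm (Pi.single (tY D hp hc h⁻¹ y) 1))
    rw [d.X.al, d.Θβ, LinearEquiv.apply_symm_apply, Pi.single_eq_same] at h2
    rw [Pi.single_eq_of_ne hne] at h2
    exact zero_ne_one h2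
  -- a point of the part `j`
  obtain ⟨z, hz0, hzj⟩ : ∃ z : (D.L1 hp hc).Y, z ≠ D.y0 hp hc ∧ ∀ t, D.c t ≠ j → (z : T → K) t = 0 := by
    obtain ⟨z, -, h1, h2, -⟩ := eigY D hp hc j 1
    exact ⟨z, h1, h2⟩
  have hγ1 : ∀ γ, γ ≠ 1 → c γ v' = 0 := by
    intro γ hγ
    apply d.w0_sA_ext
    intro y
    rw [map_zero, Pi.zero_apply]
    by_contra hy
    have h1 : d.X.Θ (c γ v') (glue i y z) ≠ 0 := by
      rw [Pol.const (X := d.X) d.pol hij (c4 γ) (y := glue i y z) (y' := y)]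
      · exact hy
      · intro t ht
        rw [glue_apply, if_pos ht]
    have h2 := hpt γ _ h1
    apply hγ
    have h3 : sm (D.L1 hp hc) γ⁻¹ z = z := by
      apply Subtype.ext
      funext t
      rw [TP.sm_apply]
      by_cases ht : D.c t = j
      · have h4 := congrFun (congrArg Subtype.val h2) t
        have h6 : ∀ t', D.M γ t t' * ((glue i y z : (D.L1 hp hc).Y) : T → K) t' = D.M γ t t' * (z : T → K) t' := by
          intro t'
          by_cases h0 : D.M γ t t' = 0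
          · rw [h0, zero_mul, zero_mul]
          · have h7 := (D.blk _ _ _ h0).2
            rw [glue_apply, if_neg]
            intro h8
            exact hij (h8.symm.trans (h7.symm.trans ht))
        have h7 : ((tY D hp hc h⁻¹ (glue i y z) : (D.L1 hp hc).Y) : T → K) t = (z : T → K) t := by
          have h8 : tsc K hc h⁻¹ j = 1 := by
            unfold tsc
            rw [Pi.inv_apply, hj, inv_one, Units.val_one, map_one]
          rw [tY_apply, glue_apply, if_neg (by rw [ht]; exact hij.symm), ht, h8, one_mul]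
        rw [inv_inv, ← h7, ← h4]
        exact Finset.sum_congr rfl fun t' _ => (h6 t').symm
      · rw [hzj t ht, inv_inv]
        refine Finset.sum_eq_zero fun t' _ => ?_
        by_cases h0 : D.M γ t t' = 0
        · rw [h0, zero_mul]
        · have h7 := (D.blk _ _ _ h0).2
          rw [hzj t' (by rw [← h7]; exact ht), mul_zero]
    exact inv_eq_one.1 (D.free hp hc γ⁻¹ z hz0 h3)
  have hψe : ∀ y, d.Ψ h (sA S (d.X.Θ.symm (Pi.single y 1))) = sA S (d.X.Θ.symm (Pi.single (tY D hp hc h y) 1)) :=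
    fun y => d.psi_ey h y
  refine ⟨fun y => d.X.Θ (c 1 v') y, d.Z.DA.tl (l⁻¹ • k v'), ?_, ?_, ?_, ?_, ?_, ?_⟩
  · rw [d.tl_F]
    refine Submodule.smul_mem _ _ ?_
    refine Fl_ind (P := fun a => k a ∈ Fl (d.𝒟 j) (-(D.Nj j : ℚ))) ?_ ?_ ?_ hv
    · rw [map_zero]
      exact zero_mem _
    · intro a b h h'
      rw [map_add]
      exact add_mem h h'
    · intro q hq a ha
      exact mem_Fl (by linarith) (k3 q a ha)
  · intro h'
    rw [d.psi_tl, map_smul, ← k4, hv2]
  · intro g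
    have h1 : S.ρ (.inr g) * v' = v' * S.ρ (.inr g) := by
      have h2 := hv1 (S.ρ (.inr g))
      rw [d.Z.R_y, (d.cmp h).y, d.Z.L_y] at h2
      exact h2.symm
    have h2 : S.ρ (.inr g) * k v' = k v' * S.ρ (.inr g) := by rw [← k5, ← k6, h1]
    unfold Al1.gy
    rw [Dfm.tl_mul, Dfm.tl_mul, d.Z.L_y, d.Z.R_y, mul_smul_comm, smul_mul_assoc, h2]
  · intro y y' hy
    exact Pol.const (X := d.X) d.pol hij (c4 1) hy
  · intro y hy
    have h1 := hpt 1 y hy
    have h2 : (⟨_, (D.L1 hp hc).act_Y 1 y⟩ : (D.L1 hp hc).Y) = y := by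
      by_contra hne
      have h3 : d.X.Θ (al K act 1 (d.X.Θ.symm (Pi.single y 1))) y = 1 := by
        rw [al_one, LinearEquiv.apply_symm_apply, Pi.single_eq_same]
      rw [d.X.al, LinearEquiv.apply_symm_apply, Pi.single_eq_of_ne hne] at h3
      exact zero_ne_one h3
    rw [h2] at h1
    nth_rewrite 1 [h1]
    rw [tY_tY, mul_inv_cancel, tY_one]
  · intro y
    have h1 : ∑ γ, d.Z.DA.m (sA S (c γ v') * S.ρ (.inr γ)) (sA S (d.X.Θ.symm (Pi.single y 1))) =
        d.X.Θ (c 1 v') y • sA S (d.X.Θ.symm (Pi.single y 1)) := by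
      rw [Finset.sum_eq_single 1]
      · rw [map_one (SemidirectProduct.inr), map_one S.ρ, mul_one, d.Z.B.sub, d.w0_dm, map_smul]
      · intro γ _ hγ
        rw [hγ1 γ hγ, map_zero, zero_mul, map_zero, LinearMap.zero_apply]
      · intro h
        exact absurd (Finset.mem_univ _) h
    have h2 := k2 y v'
    rw [h1] at h2
    unfold Al1.ey
    rw [Dfm.tl_mul, Dfm.tl_mul, Dfm.tl_mul, ← map_smul, ← map_add]
    congr 1
    rw [map_smul, map_smul, LinearMap.smul_apply, ← k1, ← hψe, ← hv1, h2, smul_smul, inv_mul_cancel₀ hl, one_smul,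
      add_sub_cancel]

end Dat

end

end Pool.Agent.Two
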