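import Pool.Agent.Two.W1
import Pool.Agent.Two.W0
import Pool.Agent.Two.Cm

/-!
# The existence of the twisted Casimir elements
-/

set_option autoImplicit false
set_option linter.unusedSectionVars false

namespace Pool.Agent.Two

open Pool.Agent.Sig Pool.Agent.K9 Pool.Agent.Sqf Pool.Agent.Fdf Pool.Agent.Evn Pool.Agent.Lrg

variable {K P E A T : Type} [Field K] [CommGroup P] [Fintype P] [Group E] [Fintype E] {act : E →* MulAut P} [Fintype T]
  {p : ℕ} {hp : p.Prime} {hc : CharP K p} {D : TP K act T p} [Ring A] [Algebra K A] {S : StEq K P E act A}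

theorem exists_Wi [FiniteDimensional K A] [Nontrivial P] (hE : (Fintype.card E : K) ≠ 0) (d : Dat hp hc D S)
    [DecidableEq (D.L1 hp hc).Y] {i j : Fin 2} (hij : i ≠ j) {u : (ZMod p)ˣ} (hu : u ≠ 1) :
    Nonempty (Wi d i j u) := by
  classical
  have : Fact p.Prime := ⟨hp⟩
  have : CharP K p := hc
  have hfinY : Finite (D.L1 hp hc).Y := (D.L1 hp hc).finite_Y
  let hfY : Fintype (D.L1 hp hc).Y := Fintype.ofFinite _
  set h : Tor p := Pi.mulSingle i u with hh
  have hj : h j = 1 := by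
    rw [hh]
    exact Pi.mulSingle_eq_of_ne (M := fun _ : Fin 2 => (ZMod p)ˣ) hij.symm u
  obtain ⟨v, va, vp, vF, vt⟩ := d.exists_w0 hE hij h hj
  obtain ⟨f, s, sF, sp, sg, fc, fz, fe⟩ := d.W0 hE hij hj vF va vp
  have h0 : tY D hp hc h (D.y0 hp hc) = D.y0 hp hc := tY_y0 D hp hc h
  have hN : (0 : ℚ) < D.Nj j := by
    obtain ⟨l, v, -, -, h3, -, h5, -⟩ := D.eig j 1
    obtain ⟨t, ht⟩ := Function.ne_iff.1 h3
    have h6 : D.c t = j := by
      by_contra h
      exact ht (h5 t h)
    have h7 : 0 < D.Nj j := by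
      unfold TP.Nj LinW.dgc
      refine Finset.sum_pos' (fun _ _ => Nat.zero_le _) ⟨t, Finset.mem_univ _, ?_⟩
      rw [if_pos h6, one_mul]
      have := D.one_lt_q hp t
      show 0 < D.q t - 1
      omega
    exact_mod_cast h7
  have hf0 : f (D.y0 hp hc) ≠ 0 := by
    intro hf
    have h1 := fe (D.y0 hp hc)
    rw [hf, zero_smul, zero_add, h0] at h1
    have h2 : d.Z.B.th1 d.Z.lam (v * d.Z.ey d.X (D.y0 hp hc)) = 0 := by
      rw [h1, d.Z.sym, ← mul_assoc, d.Z.ey_mul, if_pos rfl, d.Z.sym]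
      apply d.th1_low hE j
      refine d.F_lt j hN ?_
      have h3 := d.F_mul sF (d.ey_F j (D.y0 hp hc))
      rwa [neg_add_cancel] at h3
    rw [vt, d.tw_ey hE hij h hj] at h2
    exact hE h2
  have hfy : ∀ y, ¬ agr D hp hc i y (D.y0 hp hc) → f y = 0 := by
    intro y hy
    by_contra hne
    apply hy
    intro t ht
    have h1 := fz y hne
    have h2 : tsc K hc h (D.c t) * (y : T → K) t = (y : T → K) t := by
      rw [← tY_apply, h1]
    rw [TP.y0_apply]
    by_contra h3
    have h4 : tsc K hc h (D.c t) = 1 := by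
      have h5 : (tsc K hc h (D.c t) - 1) * (y : T → K) t = 0 := by rw [sub_mul, h2, one_mul, sub_self]
      exact sub_eq_zero.1 ((mul_eq_zero.1 h5).resolve_right h3)
    apply hu
    apply Units.ext
    apply (ZMod.castHom (dvd_refl p) K).injective
    unfold tsc at h4
    rw [ht, hh, Pi.mulSingle_eq_same] at h4
    rw [h4, Units.val_one, map_one]
  refine ⟨{
    w := (f (D.y0 hp hc))⁻¹ • v
    s := (f (D.y0 hp hc))⁻¹ • s
    wa := fun a => by rw [smul_mul_assoc, va, mul_smul_comm]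
    wp := fun h' => by rw [map_smul, vp]
    sp := fun h' => by rw [map_smul, sp]
    sg := fun g => by rw [mul_smul_comm, sg, smul_mul_assoc]
    wF := Submodule.smul_mem _ _ vF
    sF := Submodule.smul_mem _ _ sF
    we := fun y => ?_ }⟩
  rw [smul_mul_assoc, fe, smul_add, smul_smul, mul_smul_comm, smul_mul_assoc]
  congr 1
  by_cases hy : agr D hp hc i y (D.y0 hp hc)
  · rw [if_pos hy, fc y _ hy, inv_mul_cancel₀ hf0, one_smul]
  · rw [if_neg hy, hfy y hy, mul_zero, zero_smul]

end Pool.Agent.Two
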