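import Pool.Agent.Two.Cv
import Pool.Agent.Two.Wx
import Pool.Agent.Two.Chr

/-!
# The components with the homomorphisms: existence
-/

set_option autoImplicit false
set_option linter.unusedSectionVars false

namespace Pool.Agent.Two

open Pool.Agent.Sig Pool.Agent.K9 Pool.Agent.Sqf Pool.Agent.Fdf Pool.Agent.Evn Pool.Agent.Lrg Pool.Agent.SigO

section

variable {K P E A T : Type} [Field K] [IsAlgClosed K] [CommGroup P] [Fintype P] [Nontrivial P] [Group E]
    [Fintype E] {act : E →* MulAut P}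
    [Fintype T] {p : ℕ} {hp : p.Prime} {hc : CharP K p} [Fact p.Prime] {D : TP K act T p} [Ring A] [Algebra K A]
    [FiniteDimensional K A] {S : StEq K P E act A}

/-- the structure of the components from the two twisted Casimir elements -/
theorem cpt_of (d : Dat hp hc D S) [DecidableEq (D.L1 hp hc).Y] (W : WM K d.Z.DA.Al)
    (w : RWg K d.Z d.X W (D.y0 hp hc)) {u : (ZMod p)ˣ} (hu : ∀ x, x ∈ Subgroup.zpowers u)
    (W0 : Wi d 0 1 u) (W1 : Wi d 1 0 u) :
    ∃ c : Cpt d W, (∀ X, X ∈ c.J ↔ X ∉ Set.range w.f) ∧ Ind c := by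
  classical
  have h01 : (0 : Fin 2) ≠ 1 := by decide
  have m0 : ∀ X, X ∉ Set.range w.f → W0.m W X = 1 := fun X hX => W0.m_R W h01 w X hX
  have m1 : ∀ X, X ∉ Set.range w.f → W1.m W X = 1 := fun X hX => W1.m_R W h01.symm w X hX
  have hex : ∀ X, ∃ v : (E × Tor p) →* Matrix (Fin (W.d X)) (Fin (W.d X)) K, X ∉ Set.range w.f →
      (∀ g, v (g, 1) = W.φ (d.Z.gy g) X) ∧
      (∀ τ x, v (1, τ) * W.φ x X = W.φ (d.Ps τ x) X * v (1, τ)) ∧
      (∀ n : ℕ, v (1, Pi.mulSingle 0 (u ^ n)) = W.φ W0.w X ^ n) ∧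
      (∀ n : ℕ, v (1, Pi.mulSingle 1 (u ^ n)) = W.φ W1.w X ^ n) := by
    intro X
    by_cases hX : X ∈ Set.range w.f
    · exact ⟨1, fun h => absurd hX h⟩
    · obtain ⟨v, hv⟩ := exists_V hu W0 W1 W X (m0 X hX) (m1 X hX)
      exact ⟨v, fun _ => hv⟩
  choose v hv using hex
  let Wd : Fin 2 → Finset W.ι := fun i => if i = 0 then W0.C W else W1.C W
  have hJ : ∀ X, X ∈ (Finset.univ.filter fun X => X ∉ Set.range w.f) ↔ X ∉ Set.range w.f := by
    intro X
    rw [Finset.mem_filter]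
    exact ⟨fun h => h.2, fun h => ⟨Finset.mem_univ _, h⟩⟩
  have hFF : ∀ y, y ≠ D.y0 hp hc → ∃ X, X ∈ Set.range w.f ∧
      W.rk X (d.Z.ey d.X (D.y0 hp hc)) ≠ W.rk X (d.Z.ey d.X y) := by
    intro y hy
    obtain ⟨l, γ, rfl⟩ := w.rsur y hy
    refine ⟨w.f l, ⟨l, rfl⟩, fun h => ?_⟩
    have h1 := d.Z.FF_sm d.X W (D.y0 hp hc) (w.f l) γ (w.r l)
    have h2 : d.Z.FF d.X W (D.y0 hp hc) (sm (D.L1 hp hc) γ (w.r l)) (w.f l) = 0 := by
      unfold Al1.FF
      rw [h, sub_self]
    rw [h2] at h1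
    rcases w.fone l with h3 | h3 <;> rw [← h1] at h3 <;> omega
  refine ⟨{
    J := Finset.univ.filter fun X => X ∉ Set.range w.f
    V := v
    V_g := fun X hX => (hv X ((hJ X).1 hX)).1
    V_c := fun X hX => (hv X ((hJ X).1 hX)).2.1
    C := Wd
    CJ := fun X => ?_
    Cs := fun i τ => ?_
    Js := fun X hX τ => Js_of W X (v X) (hv X ((hJ X).1 hX)).2.1 τ
    eqv := fun i y hy => ?_
    bJ := fun X hX y hy h => ?_
    oth := fun y hy => ?_ }, hJ, ?_⟩
  · rw [hJ]
    constructor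
    · intro hX i
      by_cases hi : i = 0
      · show X ∉ (if i = 0 then W0.C W else W1.C W)
        rw [if_pos hi, W0.mem_C, m0 X hX]
        exact fun h => h rfl
      · show X ∉ (if i = 0 then W0.C W else W1.C W)
        rw [if_neg hi, W1.mem_C, m1 X hX]
        exact fun h => h rfl
    · rintro h ⟨l, rfl⟩
      have hl0 : W0.m W (w.f l) = 1 := by
        by_contra hne
        exact h 0 (by
          show _ ∈ (if (0 : Fin 2) = 0 then W0.C W else W1.C W)
          rw [if_pos rfl, W0.mem_C]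
          exact hne)
      have hl1 : W1.m W (w.f l) = 1 := by
        by_contra hne
        exact h 1 (by
          show _ ∈ (if (1 : Fin 2) = 0 then W0.C W else W1.C W)
          rw [if_neg h01.symm, W1.mem_C]
          exact hne)
      apply w.rne l
      have a0 : agr D hp hc 0 (w.r l) (D.y0 hp hc) := by
        by_contra hne
        have h5 := W0.m_f W h01 w l hne
        rw [hl0] at h5
        exact one_ne_zero h5
      have a1 : agr D hp hc 1 (w.r l) (D.y0 hp hc) := by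
        by_contra hne
        have h5 := W1.m_f W h01.symm w l hne
        rw [hl1] at h5
        exact one_ne_zero h5
      apply Subtype.ext
      funext t
      by_cases ht : D.c t = 0
      · exact a0 t ht
      · exact a1 t (by omega)
  · by_cases hi : i = 0
    · show d.Ps τ (∑ X ∈ (if i = 0 then W0.C W else W1.C W), W.ε X) = ∑ X ∈ (if i = 0 then W0.C W else W1.C W), W.ε X
      rw [if_pos hi]
      exact (W0.eps_fun W).2.1 τ
    · show d.Ps τ (∑ X ∈ (if i = 0 then W0.C W else W1.C W), W.ε X) = ∑ X ∈ (if i = 0 then W0.C W else W1.C W), W.ε X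
      rw [if_neg hi]
      exact (W1.eps_fun W).2.1 τ
  · by_cases hi : i = 0
    · have hW : Wd i = W0.C W := if_pos hi
      rw [hW]
      exact W0.eqv W h01 y (hi ▸ hy)
    · have hW : Wd i = W1.C W := if_neg hi
      have hi1 : i = 1 := by omega
      rw [hW]
      exact W1.eqv W h01.symm y (hi1 ▸ hy)
  · have h1 := w.bval X ((hJ X).1 hX) y hy
    apply w.bne X ((hJ X).1 hX)
    rw [← h1]
    unfold Al1.FF
    rw [h, sub_self]
  · obtain ⟨X, hX, h⟩ := hFF y hy
    exact ⟨X, fun h1 => (hJ X).1 h1 hX, h⟩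
  · intro i y hy X hX g τ τ' hτ hf
    have hX' := (hJ X).1 hX
    obtain ⟨v1, v2, v3, v4⟩ := hv X hX'
    obtain ⟨n, hn⟩ : ∃ n : ℕ, τ' = τ * Pi.mulSingle i (u ^ n) := by
      obtain ⟨n, hn⟩ := (mem_powers_iff_mem_zpowers (x := u) (y := (τ i)⁻¹ * τ' i)).2 (hu _)
      refine ⟨n, ?_⟩
      funext k
      by_cases hk : k = i
      · subst hk
        rw [Pi.mul_apply, Pi.mulSingle_eq_same]
        have h5 : u ^ n = (τ k)⁻¹ * τ' k := hn
        rw [h5, mul_inv_cancel_left]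
      · rw [Pi.mul_apply, Pi.mulSingle_eq_of_ne hk, mul_one, hτ k hk]
    rw [hn]
    show ∑ x : (ZMod p)ˣ, _ = ∑ x : (ZMod p)ˣ, _
    by_cases hi : i = 0
    · subst hi
      exact (ind_X h01 W0 W X (m0 X hX') (v X) v1 v2 v3 y hy g τ hf n).symm
    · have hi1 : i = 1 := by omega
      subst hi1
      exact (ind_X h01.symm W1 W X (m1 X hX') (v X) v1 v2 v4 y hy g τ hf n).symm

/-- THE COMPONENTS -/
theorem exists_cpt (hE : (Fintype.card E : K) ≠ 0) (h3 : 3 ≤ Fintype.card E) (hexp : ∀ x : E, x ^ (p - 1) = 1)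
    (d : Dat hp hc D S) [DecidableEq (D.L1 hp hc).Y] (W : WM K d.Z.DA.Al)
    (w : RWg K d.Z d.X W (D.y0 hp hc)) :
    ∃ c : Cpt d W, (∀ X, X ∈ c.J ↔ X ∉ Set.range w.f) ∧ Ind c := by
  obtain ⟨u, hu⟩ := IsCyclic.exists_generator (α := (ZMod p)ˣ)
  have hu1 : u ≠ 1 := by
    rintro rfl
    have h1 : ∀ x : (ZMod p)ˣ, x = 1 := fun x => by
      have h2 := hu x
      rwa [Subgroup.zpowers_one_eq_bot, Subgroup.mem_bot] at h2
    have h2 : Fintype.card (ZMod p)ˣ = 1 := Fintype.card_eq_one_iff.2 ⟨1, h1⟩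
    rw [ZMod.card_units_eq_totient, Nat.totient_prime hp] at h2
    have h4 : Fintype.card E = 1 := Fintype.card_eq_one_iff.2 ⟨1, fun x => by
      have h5 := hexp x
      rwa [h2, pow_one] at h5⟩
    omega
  obtain ⟨W0⟩ := exists_Wi hE d (i := 0) (j := 1) (by decide) hu1
  obtain ⟨W1⟩ := exists_Wi hE d (i := 1) (j := 0) (by decide) hu1
  exact cpt_of d W w hu W0 W1

end

end Pool.Agent.Two
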