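import Pool.Agent.Two.Cm

/-!
# The homomorphism `E × T → GL(L_X)` and the independence
-/

set_option autoImplicit false
set_option linter.unusedSectionVars false

namespace Pool.Agent.Two

open Pool.Agent.Sig Pool.Agent.K9 Pool.Agent.Sqf Pool.Agent.Fdf Pool.Agent.Evn Pool.Agent.Lrg

-- BEGIN cv_hom
/-- PROOF. `m` is a unit (`m ^ (p - 2) * m = 1`); `monoidHomOfForallMemZpowers` into the units (`orderOf` of the unit divides `p - 1 = card (ZMod p)ˣ = orderOf u`). -/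
theorem exists_hom {M : Type} [Monoid M] {p : ℕ} [Fact p.Prime] {u : (ZMod p)ˣ} (hu : ∀ x, x ∈ Subgroup.zpowers u)
    (m : M) (hm : m ^ (p - 1) = 1) : ∃ f : (ZMod p)ˣ →* M, ∀ n : ℕ, f (u ^ n) = m ^ n := by
  have hp : p - 1 ≠ 0 := by
    have := (Fact.out : p.Prime).two_le
    omega
  have h1 : (Units.ofPowEqOne m (p - 1) hm hp) ^ (p - 1) = 1 := Units.ext (by simpa using hm)
  have h2 : orderOf u = p - 1 := by
    rw [orderOf_eq_card_of_forall_mem_zpowers hu, Nat.card_eq_fintype_card, ZMod.card_units]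
  have h3 : orderOf (Units.ofPowEqOne m (p - 1) hm hp) ∣ orderOf u := by
    rw [h2]
    exact orderOf_dvd_of_pow_eq_one h1
  refine ⟨(Units.coeHom M).comp (monoidHomOfForallMemZpowers hu h3), fun n => ?_⟩
  rw [MonoidHom.comp_apply, map_pow, monoidHomOfForallMemZpowers_apply_gen, Units.coeHom_apply,
    Units.val_pow_eq_pow_val, Units.val_ofPowEqOne]
-- END cv_hom

-- BEGIN cv_hom3
/-- PROOF. Define it by the formula. -/
theorem exists_hom3 {E C M : Type} [Group E] [Group C] [Monoid M] (a : E →* M) (f0 f1 : C →* M)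
    (h0 : ∀ g c, a g * f0 c = f0 c * a g) (h1 : ∀ g c, a g * f1 c = f1 c * a g)
    (h01 : ∀ c c', f0 c * f1 c' = f1 c' * f0 c) :
    ∃ V : (E × (Fin 2 → C)) →* M, ∀ g τ, V (g, τ) = a g * f0 (τ 0) * f1 (τ 1) := by
  refine ⟨{ toFun := fun x => a x.1 * f0 (x.2 0) * f1 (x.2 1), map_one' := ?_, map_mul' := ?_ },
    fun g τ => rfl⟩
  · simp
  · rintro ⟨g, τ⟩ ⟨g', τ'⟩
    show a (g * g') * f0 (τ 0 * τ' 0) * f1 (τ 1 * τ' 1) =
      a g * f0 (τ 0) * f1 (τ 1) * (a g' * f0 (τ' 0) * f1 (τ' 1))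
    rw [map_mul, map_mul, map_mul]
    calc a g * a g' * (f0 (τ 0) * f0 (τ' 0)) * (f1 (τ 1) * f1 (τ' 1)) =
        a g * (a g' * f0 (τ 0)) * (f0 (τ' 0) * f1 (τ 1)) * f1 (τ' 1) := by simp only [mul_assoc]
      _ = a g * (f0 (τ 0) * a g') * (f1 (τ 1) * f0 (τ' 0)) * f1 (τ' 1) := by rw [h0, h01]
      _ = a g * f0 (τ 0) * (a g' * f1 (τ 1)) * f0 (τ' 0) * f1 (τ' 1) := by simp only [mul_assoc]
      _ = a g * f0 (τ 0) * (f1 (τ 1) * a g') * f0 (τ' 0) * f1 (τ' 1) := by rw [h1]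
      _ = a g * f0 (τ 0) * f1 (τ 1) * (a g' * f0 (τ' 0) * f1 (τ' 1)) := by simp only [mul_assoc]
-- END cv_hom3

-- BEGIN cv_lin
/-- `fpc` and powers -/
private theorem cv_lin_pow {K : Type} [Field K] {p : ℕ} [Fact p.Prime] (hc : CharP K p) (x : (ZMod p)ˣ) (n : ℕ) :
    fpc K hc x ^ n = fpc K hc (x ^ n) := by
  rw [fpc, fpc, Units.val_pow_eq_pow_val, map_pow]

private theorem cv_lin_card {K : Type} [Field K] {p : ℕ} [Fact p.Prime] (hc : CharP K p) :
    ((p - 1 : ℕ) : K) = -1 := by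
  have := hc
  rw [Nat.cast_sub (Fact.out : p.Prime).one_le, CharP.cast_eq_zero K p, Nat.cast_one, zero_sub]

private theorem cv_lin_geo {K : Type} [Field K] {p : ℕ} [Fact p.Prime] (hc : CharP K p) (y : (ZMod p)ˣ) :
    ∑ j ∈ Finset.range (p - 1), fpc K hc y ^ j = if y = 1 then -1 else 0 := by
  split_ifs with h
  · subst h
    rw [Finset.sum_congr rfl (fun j _ => by rw [fpc_one, one_pow]), Finset.sum_const, Finset.card_range,
      nsmul_eq_mul, mul_one, cv_lin_card hc]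
  · have h1 : fpc K hc y - 1 ≠ 0 := by
      intro h2
      exact h (fpc_inj hc (by rw [fpc_one]; exact sub_eq_zero.mp h2))
    have h2 := mul_geom_sum (fpc K hc y) (p - 1)
    rw [cv_lin_pow, ZMod.units_pow_card_sub_one_eq_one, fpc_one, sub_self] at h2
    exact (mul_eq_zero.mp h2).resolve_left h1

private theorem cv_lin_ch {K : Type} [Field K] {p : ℕ} [Fact p.Prime] (hc : CharP K p) {j : ℕ} (hj : j < p - 1) :
    ∑ x : (ZMod p)ˣ, fpc K hc x ^ j = if j = 0 then -1 else 0 := by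
  have h := FiniteField.sum_pow_units (ZMod p) j
  have h1 : ∑ x : (ZMod p)ˣ, fpc K hc x ^ j = ZMod.castHom (dvd_refl p) K (∑ x : (ZMod p)ˣ, (x : ZMod p) ^ j) := by
    rw [map_sum]
    exact Finset.sum_congr rfl fun x _ => by rw [map_pow]; rfl
  have h2 : (p - 1 ∣ j) ↔ j = 0 := by
    constructor
    · intro h3
      by_contra h4
      exact absurd (Nat.le_of_dvd (Nat.pos_of_ne_zero h4) h3) (not_le.mpr hj)
    · rintro rfl
      exact dvd_zero _
  rw [h1]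
  rw [show (∑ x : (ZMod p)ˣ, (x : ZMod p) ^ j) = if j = 0 then -1 else 0 by
    rw [← if_congr h2 rfl rfl]
    rw [ZMod.card] at h
    exact h]
  split_ifs
  · rw [map_neg, map_one]
  · rw [map_zero]

section CvP

variable {K : Type} [Field K] {p : ℕ} [Fact p.Prime] (hc : CharP K p) {V : Type} [AddCommGroup V] [Module K V]

/-- the projection onto the eigenspace of `M` for `fpc ζ` -/
private noncomputable def cvP (M : Module.End K V) (ζ : (ZMod p)ˣ) : Module.End K V :=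
  -∑ j ∈ Finset.range (p - 1), (fpc K hc ζ⁻¹ ^ j) • M ^ j

private theorem cvP_com {M g : Module.End K V} (h : M * g = g * M) (ζ : (ZMod p)ˣ) :
    cvP hc M ζ * g = g * cvP hc M ζ := by
  rw [cvP, neg_mul, mul_neg, Finset.sum_mul, Finset.mul_sum]
  congr 1
  refine Finset.sum_congr rfl fun j _ => ?_
  rw [smul_mul_assoc, mul_smul_comm, ((show Commute M g from h).pow_left j).eq]

private theorem cvP_sum (M : Module.End K V) : ∑ ζ : (ZMod p)ˣ, cvP hc M ζ = 1 := by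
  have hp : 0 < p - 1 := Nat.sub_pos_of_lt (Fact.out : p.Prime).one_lt
  unfold cvP
  rw [Finset.sum_neg_distrib, Finset.sum_comm]
  have h : ∀ j ∈ Finset.range (p - 1), ∑ ζ : (ZMod p)ˣ, (fpc K hc ζ⁻¹ ^ j) • M ^ j =
      if j = 0 then -1 else (0 : Module.End K V) := by
    intro j hj
    have h6 : ∑ ζ : (ZMod p)ˣ, fpc K hc ζ⁻¹ ^ j = ∑ ζ : (ZMod p)ˣ, fpc K hc ζ ^ j :=
      Fintype.sum_equiv (Equiv.inv (ZMod p)ˣ) _ _ (fun _ => rfl)
    rw [← Finset.sum_smul, h6, cv_lin_ch hc (Finset.mem_range.mp hj)]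
    split_ifs with h0
    · rw [h0, pow_zero, neg_smul, one_smul]
    · rw [zero_smul]
  rw [Finset.sum_congr rfl h, Finset.sum_ite_eq' (Finset.range (p - 1)) 0 (fun _ => (-1 : Module.End K V)),
    if_pos (Finset.mem_range.mpr hp), neg_neg]

private theorem cvP_M {M : Module.End K V} (hM : M ^ (p - 1) = 1) (ζ : (ZMod p)ˣ) :
    M * cvP hc M ζ = fpc K hc ζ • cvP hc M ζ := by
  have h1 : fpc K hc ζ * fpc K hc ζ⁻¹ = 1 := by rw [← fpc_mul, mul_inv_cancel, fpc_one]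
  have h2 : fpc K hc ζ⁻¹ ^ (p - 1) = 1 := by
    rw [cv_lin_pow, ZMod.units_pow_card_sub_one_eq_one, fpc_one]
  have h3 : ∀ j, M * ((fpc K hc ζ⁻¹ ^ j) • M ^ j) = fpc K hc ζ • ((fpc K hc ζ⁻¹ ^ (j + 1)) • M ^ (j + 1)) := by
    intro j
    rw [mul_smul_comm, ← pow_succ', smul_smul, pow_succ' (fpc K hc ζ⁻¹), ← mul_assoc, h1, one_mul]
  rw [cvP, mul_neg, smul_neg, Finset.mul_sum, Finset.smul_sum]
  congr 1
  rw [Finset.sum_congr rfl fun j _ => h3 j, ← Finset.smul_sum, ← Finset.smul_sum]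
  congr 1
  have h4 := Finset.sum_range_succ' (fun j => (fpc K hc ζ⁻¹ ^ j) • M ^ j) (p - 1)
  have h5 := Finset.sum_range_succ (fun j => (fpc K hc ζ⁻¹ ^ j) • M ^ j) (p - 1)
  rw [h5] at h4
  simp only [hM, h2, pow_zero] at h4
  exact (add_right_cancel h4).symm

private theorem cvP_M_pow {M : Module.End K V} (hM : M ^ (p - 1) = 1) (ζ : (ZMod p)ˣ) (j : ℕ) :
    M ^ j * cvP hc M ζ = (fpc K hc ζ ^ j) • cvP hc M ζ := by
  induction j with
  | zero => rw [pow_zero, pow_zero, one_mul, one_smul]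
  | succ j ih => rw [pow_succ', mul_assoc, ih, mul_smul_comm, cvP_M hc hM, smul_smul, ← pow_succ]

private theorem cvP_fix {M : Module.End K V} (ζ : (ZMod p)ˣ) {v : V} (hv : M v = fpc K hc ζ • v) :
    cvP hc M ζ v = v := by
  have h1 : ∀ j : ℕ, (M ^ j) v = (fpc K hc ζ ^ j) • v := by
    intro j
    induction j with
    | zero => rw [pow_zero, pow_zero, one_smul]; rfl
    | succ j ih => rw [pow_succ', Module.End.mul_apply, ih, map_smul, hv, smul_smul, ← pow_succ]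
  rw [cvP, LinearMap.neg_apply, LinearMap.sum_apply]
  have h2 : ∀ j ∈ Finset.range (p - 1), ((fpc K hc ζ⁻¹ ^ j) • M ^ j) v = v := by
    intro j _
    rw [LinearMap.smul_apply, h1, smul_smul, ← mul_pow, ← fpc_mul, inv_mul_cancel, fpc_one, one_pow, one_smul]
  rw [Finset.sum_congr rfl h2, Finset.sum_const, Finset.card_range, ← Nat.cast_smul_eq_nsmul K, cv_lin_card hc,
    neg_smul, one_smul, neg_neg]

private theorem cvP_mem {M : Module.End K V} (hM : M ^ (p - 1) = 1) (ζ : (ZMod p)ˣ) (v : V) :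
    M (cvP hc M ζ v) = fpc K hc ζ • cvP hc M ζ v :=
  LinearMap.congr_fun (cvP_M hc hM ζ) v

private theorem cvP_idem {M : Module.End K V} (hM : M ^ (p - 1) = 1) (ζ : (ZMod p)ˣ) :
    cvP hc M ζ * cvP hc M ζ = cvP hc M ζ := by
  ext v
  exact cvP_fix hc ζ (cvP_mem hc hM ζ v)

private theorem cvP_range {M e : Module.End K V} (hM : M ^ (p - 1) = 1) (he : M * e = e * M) (ζ : (ZMod p)ˣ) :
    LinearMap.range (e * cvP hc M ζ) = LinearMap.range e ⊓ Module.End.eigenspace M (fpc K hc ζ) := by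
  apply le_antisymm
  · rintro _ ⟨v, rfl⟩
    refine ⟨⟨cvP hc M ζ v, rfl⟩, ?_⟩
    rw [SetLike.mem_coe, Module.End.mem_eigenspace_iff]
    have h1 : M (e (cvP hc M ζ v)) = e (M (cvP hc M ζ v)) := LinearMap.congr_fun he _
    show M (e (cvP hc M ζ v)) = _ • e (cvP hc M ζ v)
    rw [h1, cvP_mem hc hM, map_smul]
  · rintro v ⟨⟨w, rfl⟩, hv⟩
    rw [SetLike.mem_coe, Module.End.mem_eigenspace_iff] at hv
    refine ⟨w, ?_⟩
    have h1 : cvP hc M ζ (e w) = e (cvP hc M ζ w) := LinearMap.congr_fun (cvP_com hc he ζ) w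
    show e (cvP hc M ζ w) = e w
    rw [← h1]
    exact cvP_fix hc ζ hv

/-- the decomposition of the multiplicities -/
private theorem cvP_mu [FiniteDimensional K V] {M e f : Module.End K V} (hM : M ^ (p - 1) = 1) (he : M * e = e * M)
    (fM : f * M = M * f) (fe : f * e = e * f) (n : ℕ) (x : (ZMod p)ˣ) :
    mu (M ^ n * f) (LinearMap.range e) (fpc K hc x) =
      ∑ ζ : (ZMod p)ˣ, mu f (LinearMap.range e ⊓ Module.End.eigenspace M (fpc K hc ζ)) (fpc K hc (x * (ζ ^ n)⁻¹)) := by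
  classical
  have hst : ∀ ζ : (ZMod p)ˣ, ∀ v ∈ LinearMap.range e ⊓ Module.End.eigenspace M (fpc K hc ζ),
      f v ∈ LinearMap.range e ⊓ Module.End.eigenspace M (fpc K hc ζ) := by
    rintro ζ v ⟨⟨w, rfl⟩, hv⟩
    rw [SetLike.mem_coe, Module.End.mem_eigenspace_iff] at hv
    have h1 : f (e w) = e (f w) := LinearMap.congr_fun fe w
    refine ⟨⟨f w, h1.symm⟩, ?_⟩
    rw [SetLike.mem_coe, Module.End.mem_eigenspace_iff]
    have h2 : f (M (e w)) = M (f (e w)) := LinearMap.congr_fun fM (e w)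
    rw [← h2, hv, map_smul]
  have hpw : ∀ ζ : (ZMod p)ˣ, ∀ v ∈ Module.End.eigenspace M (fpc K hc ζ), ∀ j : ℕ,
      (M ^ j) v = fpc K hc (ζ ^ j) • v := by
    intro ζ v hv j
    rw [Module.End.mem_eigenspace_iff] at hv
    induction j with
    | zero => rw [pow_zero, pow_zero, fpc_one, one_smul]; rfl
    | succ j ih => rw [pow_succ', Module.End.mul_apply, ih, map_smul, hv, smul_smul, ← fpc_mul, ← pow_succ]
  rw [mu_sum (M ^ n * f) (fun ζ : (ZMod p)ˣ => LinearMap.range e ⊓ Module.End.eigenspace M (fpc K hc ζ))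
    (LinearMap.range e)]
  · refine Finset.sum_congr rfl fun ζ _ => ?_
    have hss : LinearMap.range e ⊓ Module.End.eigenspace M (fpc K hc ζ) ⊓
        Module.End.eigenspace (M ^ n * f) (fpc K hc x) =
        LinearMap.range e ⊓ Module.End.eigenspace M (fpc K hc ζ) ⊓
        Module.End.eigenspace f (fpc K hc (x * (ζ ^ n)⁻¹)) := ?_
    · unfold mu
      rw [hss]
    ext v
    simp only [Submodule.mem_inf, Module.End.mem_eigenspace_iff]
    refine and_congr_right fun hv => ?_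
    have hfv := (hst ζ v ⟨hv.1, Module.End.mem_eigenspace_iff.mpr hv.2⟩).2
    rw [Module.End.mul_apply, hpw ζ _ hfv]
    constructor
    · intro h
      rw [mul_comm, fpc_mul, ← smul_smul, ← h, smul_smul, ← fpc_mul, inv_mul_cancel, fpc_one, one_smul]
    · intro h
      rw [h, smul_smul, ← fpc_mul, mul_comm, mul_assoc, inv_mul_cancel, mul_one]
  · have h1 := (Module.End.eigenspaces_iSupIndep M).comp (f := fun ζ : (ZMod p)ˣ => fpc K hc ζ) (fpc_inj hc)
    exact h1.mono fun ζ => inf_le_right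
  · apply le_antisymm
    · exact iSup_le fun ζ => inf_le_left
    · rintro _ ⟨w, rfl⟩
      have h1 : e w = ∑ ζ : (ZMod p)ˣ, e (cvP hc M ζ w) := by
        rw [← map_sum, ← LinearMap.sum_apply, cvP_sum]
        rfl
      rw [h1]
      refine Submodule.sum_mem _ fun ζ _ => ?_
      refine Submodule.mem_iSup_of_mem ζ ?_
      rw [← cvP_range hc hM he]
      exact ⟨w, rfl⟩
  · intro ζ v hv
    have h1 := hst ζ v hv
    rw [Module.End.mul_apply, hpw ζ _ h1.2]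
    exact Submodule.smul_mem _ _ h1

end CvP

/-- INDEPENDENCE, linear algebra. PROOF. For `ζ` in the prime field let `V_ζ` be the eigenspace of `M` (`M ^ (p - 1) = 1`: `V` is their direct sum, see mu_total); `e0`, `e1`, `s`, `f` respect it. `mu (M ^ n f) (range e ⊓ V_ζ) x = mu f (range e ⊓ V_ζ) (x ζ⁻ⁿ)`,
so `∑ x, mu (M ^ n f) (range e) x tei x = ∑ ζ, tei ζ ^ n ∑ x, mu f (range e ⊓ V_ζ) x tei x` (`mu_sum`). For `ζ ≠ 1` the terms for `e0` and `e1` are equal: `lemJ_eig` on the space `V_ζ` (restrictions of `e0, e1, s, f`), `c = ζ - 1`: `e s e = (M - 1) e = (ζ - 1) e` on `V_ζ`.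
So only `ζ = 1` is left, independent of `n`. -/
theorem ind_lin {K : Type} [Field K] {p : ℕ} [Fact p.Prime] (hc : CharP K p) {V : Type} [AddCommGroup V] [Module K V] [FiniteDimensional K V]
    (f M e0 e1 s : V →ₗ[K] V) (hM : M ^ (p - 1) = 1) (h0 : e0 * e0 = e0) (h1 : e1 * e1 = e1)
    (fM : f * M = M * f) (fs : f * s = s * f) (f0 : f * e0 = e0 * f) (f1 : f * e1 = e1 * f)
    (Ms : M * s = s * M) (M0 : M * e0 = e0 * M) (M1 : M * e1 = e1 * M)
    (hs0 : M * e0 = e0 + e0 * s * e0) (hs1 : M * e1 = e1 + e1 * s * e1)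
    (hn : ∀ t : K, IsNilpotent ((s * e1 - s * e0) * (t • (s * e0) - 1))) (n : ℕ) :
    ∑ x : (ZMod p)ˣ, ((mu (M ^ n * f) (LinearMap.range e0) (fpc K hc x) : ℂ) -
      (mu (M ^ n * f) (LinearMap.range e1) (fpc K hc x) : ℂ)) * tei p x =
    ∑ x : (ZMod p)ˣ, ((mu f (LinearMap.range e0) (fpc K hc x) : ℂ) -
      (mu f (LinearMap.range e1) (fpc K hc x) : ℂ)) * tei p x := by
  -- the terms for `ζ ≠ 1`
  have key : ∀ ζ : (ZMod p)ˣ, ζ ≠ 1 → ∀ z : K,
      mu f (LinearMap.range e0 ⊓ Module.End.eigenspace M (fpc K hc ζ)) z =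
      mu f (LinearMap.range e1 ⊓ Module.End.eigenspace M (fpc K hc ζ)) z := by
    intro ζ hζ z
    set P : V →ₗ[K] V := cvP hc M ζ with hP
    have hPP : P * P = P := cvP_idem hc hM ζ
    have hMP : M * P = fpc K hc ζ • P := cvP_M hc hM ζ
    have P0 : P * e0 = e0 * P := cvP_com hc M0 ζ
    have P1 : P * e1 = e1 * P := cvP_com hc M1 ζ
    have Ps : P * s = s * P := cvP_com hc Ms ζ
    have Pf : P * f = f * P := cvP_com hc fM.symm ζ
    have hcne : fpc K hc ζ - 1 ≠ 0 := by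
      intro h
      exact hζ (fpc_inj hc (by rw [fpc_one]; exact sub_eq_zero.mp h))
    have idem : ∀ e : V →ₗ[K] V, e * e = e → P * e = e * P → (e * P) * (e * P) = e * P := by
      intro e he hPe
      rw [mul_assoc, ← mul_assoc P e P, hPe, mul_assoc e P P, hPP, ← mul_assoc, he]
    have scal : ∀ e : V →ₗ[K] V, P * e = e * P → M * e = e * M → M * e = e + e * s * e →
        (e * P) * s * (e * P) = (fpc K hc ζ - 1) • (e * P) := by
      intro e hPe hMe hse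
      have h2 : e * s * e = M * e - e := by rw [hse]; abel
      calc (e * P) * s * (e * P) = e * (P * s) * e * P := by simp only [mul_assoc]
        _ = e * s * (P * e) * P := by rw [Ps]; simp only [mul_assoc]
        _ = (e * s * e) * (P * P) := by rw [hPe]; simp only [mul_assoc]
        _ = (M * e - e) * P := by rw [h2, hPP]
        _ = e * (M * P) - e * P := by rw [sub_mul, hMe, mul_assoc]
        _ = (fpc K hc ζ - 1) • (e * P) := by rw [hMP, mul_smul_comm, sub_smul, one_smul]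
    have nil : ∀ t : K, IsNilpotent ((s * (e1 * P) - s * (e0 * P)) * (t • (s * (e0 * P)) - 1)) := by
      intro t
      have h2 : (s * (e1 * P) - s * (e0 * P)) * (t • (s * (e0 * P)) - 1) =
          ((s * e1 - s * e0) * (t • (s * e0) - 1)) * P := by
        have h3 : P * (s * (e0 * P)) = s * e0 * P := by
          rw [← mul_assoc, Ps, mul_assoc s P, ← mul_assoc P e0, P0, mul_assoc e0, hPP, ← mul_assoc]
        calc (s * (e1 * P) - s * (e0 * P)) * (t • (s * (e0 * P)) - 1)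
            = (s * e1 - s * e0) * P * (t • (s * (e0 * P)) - 1) := by
              rw [← mul_assoc, ← mul_assoc s e0 P, ← sub_mul]
          _ = (s * e1 - s * e0) * (t • (P * (s * (e0 * P))) - P) := by
              rw [mul_assoc, mul_sub, mul_smul_comm, mul_one]
          _ = (s * e1 - s * e0) * ((t • (s * e0) - 1) * P) := by
              rw [h3, sub_mul (t • (s * e0)) 1 P, one_mul, smul_mul_assoc]
          _ = _ := by rw [mul_assoc]
      rw [h2]
      refine Commute.isNilpotent_mul_right ?_ (hn t)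
      have c0 : Commute P e0 := P0
      have c1 : Commute P e1 := P1
      have cs : Commute P s := Ps
      exact (((cs.mul_right c1).sub_right (cs.mul_right c0)).mul_right
        (((cs.mul_right c0).smul_right t).sub_right (Commute.one_right P))).symm
    have comf : ∀ e : V →ₗ[K] V, f * e = e * f → f * (e * P) = (e * P) * f := by
      intro e hfe
      rw [← mul_assoc, hfe, mul_assoc, ← Pf, ← mul_assoc]
    have h2 := lemJ_eig hcne (idem e0 h0 P0) (idem e1 h1 P1) (scal e0 P0 M0 hs0) (scal e1 P1 M1 hs1)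
      (nil (2 * (fpc K hc ζ - 1)⁻¹)) (comf e0 f0) (comf e1 f1) fs fs z
    rw [cvP_range hc hM M0, cvP_range hc hM M1] at h2
    exact h2
  -- the sums
  have hsum : ∀ (e : V →ₗ[K] V), M * e = e * M → f * e = e * f → ∀ m : ℕ,
      ∑ x : (ZMod p)ˣ, (mu (M ^ m * f) (LinearMap.range e) (fpc K hc x) : ℂ) * tei p x =
      ∑ ζ : (ZMod p)ˣ, tei p (ζ ^ m) * ∑ x : (ZMod p)ˣ,
        (mu f (LinearMap.range e ⊓ Module.End.eigenspace M (fpc K hc ζ)) (fpc K hc x) : ℂ) * tei p x := by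
    intro e hMe hfe m
    have h2 : ∀ x : (ZMod p)ˣ, (mu (M ^ m * f) (LinearMap.range e) (fpc K hc x) : ℂ) * tei p x =
        ∑ ζ : (ZMod p)ˣ, (mu f (LinearMap.range e ⊓ Module.End.eigenspace M (fpc K hc ζ))
          (fpc K hc (x * (ζ ^ m)⁻¹)) : ℂ) * tei p x := by
      intro x
      rw [cvP_mu hc hM hMe fM hfe m x, Nat.cast_sum, Finset.sum_mul]
    rw [Finset.sum_congr rfl fun x _ => h2 x, Finset.sum_comm]
    refine Finset.sum_congr rfl fun ζ _ => ?_
    rw [Finset.mul_sum]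
    refine Fintype.sum_equiv (Equiv.mulRight (ζ ^ m)⁻¹) _ _ fun x => ?_
    have h3 : tei p x = tei p (ζ ^ m) * tei p (x * (ζ ^ m)⁻¹) := by
      rw [← map_mul, mul_comm (ζ ^ m), inv_mul_cancel_right]
    rw [Equiv.coe_mulRight, h3]
    ring
  have hdiff : ∀ m : ℕ, ∑ x : (ZMod p)ˣ, ((mu (M ^ m * f) (LinearMap.range e0) (fpc K hc x) : ℂ) -
      (mu (M ^ m * f) (LinearMap.range e1) (fpc K hc x) : ℂ)) * tei p x =
      ∑ x : (ZMod p)ˣ, (mu f (LinearMap.range e0 ⊓ Module.End.eigenspace M (fpc K hc 1)) (fpc K hc x) : ℂ) * tei p x -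
      ∑ x : (ZMod p)ˣ, (mu f (LinearMap.range e1 ⊓ Module.End.eigenspace M (fpc K hc 1)) (fpc K hc x) : ℂ) * tei p x := by
    intro m
    rw [Finset.sum_congr rfl fun x _ => sub_mul _ _ _, Finset.sum_sub_distrib, hsum e0 M0 f0 m, hsum e1 M1 f1 m,
      ← Finset.sum_sub_distrib, Finset.sum_eq_single (1 : (ZMod p)ˣ)]
    · rw [one_pow, map_one, one_mul, one_mul]
    · intro ζ _ hζ
      rw [← mul_sub, ← Finset.sum_sub_distrib]
      rw [Finset.sum_eq_zero fun x _ => ?_, mul_zero]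
      rw [key ζ hζ, sub_self]
    · intro h
      exact absurd (Finset.mem_univ _) h
  rw [hdiff n]
  have h3 := hdiff 0
  rw [pow_zero, one_mul] at h3
  exact h3.symm
-- END cv_lin

variable {K P E A T : Type} [Field K] [CommGroup P] [Fintype P] [Group E] [Fintype E] {act : E →* MulAut P} [Fintype T]
  {p : ℕ} {hp : p.Prime} {hc : CharP K p} {D : TP K act T p} [Ring A] [Algebra K A] {S : StEq K P E act A}
  {d : Dat hp hc D S} [DecidableEq (D.L1 hp hc).Y] {u : (ZMod p)ˣ}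

-- BEGIN cv_V
private theorem cv_V_pow [Fact p.Prime] (hu : ∀ x, x ∈ Subgroup.zpowers u) (x : (ZMod p)ˣ) : ∃ n : ℕ, u ^ n = x := by
  have h := mem_powers_iff_mem_zpowers.2 (hu x)
  exact (Submonoid.mem_powers_iff _ _).1 h

private theorem cv_V_one {i j : Fin 2} (W : Wi d i j u) (V : WM K d.Z.DA.Al) (X : V.ι) (h : W.m V X = 1) :
    V.φ W.w X ^ (p - 1) = 1 := by
  have h1 := W.m_eq V X
  rw [h, one_smul] at h1
  have h2 : V.φ W.z X = V.φ W.w X ^ (p - 1) := by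
    unfold Wi.z
    rw [map_pow, Pi.pow_apply]
  rw [← h2, h1]

/-- THE HOMOMORPHISM on a component on which both scalars are `1`. PROOF. `exists_hom` for `V.φ W0.w X` and `V.φ W1.w X` (`(V.φ w X) ^ (p - 1) = V.φ z X = 1` by `m_eq`), `exists_hom3` with `a g = V.φ (gy g) X` (`Al1.gy_mul`, `gy_one`); `wg`; `w0 w1 = psi (w1) w0 = w1 w0`. For `τ`, `τ 0 = u ^ a`, `τ 1 = u ^ b` (`hu`, the group is finite:
`mem_powers_iff_mem_zpowers`): `v (1, τ) = V.φ (w0 ^ a w1 ^ b) X`, `wpow`; `d.psi` and `d.Ps` are equal by `rfl`. -/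
theorem exists_V [Fact p.Prime] (hu : ∀ x, x ∈ Subgroup.zpowers u) (W0 : Wi d 0 1 u) (W1 : Wi d 1 0 u) (V : WM K d.Z.DA.Al) (X : V.ι)
    (h0 : W0.m V X = 1) (h1 : W1.m V X = 1) :
    ∃ v : (E × Tor p) →* Matrix (Fin (V.d X)) (Fin (V.d X)) K,
      (∀ g, v (g, 1) = V.φ (d.Z.gy g) X) ∧
      (∀ τ x, v (1, τ) * V.φ x X = V.φ (d.Ps τ x) X * v (1, τ)) ∧
      (∀ n : ℕ, v (1, Pi.mulSingle 0 (u ^ n)) = V.φ W0.w X ^ n) ∧
      (∀ n : ℕ, v (1, Pi.mulSingle 1 (u ^ n)) = V.φ W1.w X ^ n) := by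
  have hmul : ∀ (a b : d.Z.DA.Al), V.φ (a * b) X = V.φ a X * V.φ b X := by
    intro a b
    rw [map_mul, Pi.mul_apply]
  have hpow : ∀ (a : d.Z.DA.Al) (n : ℕ), V.φ (a ^ n) X = V.φ a X ^ n := by
    intro a n
    rw [map_pow, Pi.pow_apply]
  obtain ⟨f0, hf0⟩ := exists_hom hu (V.φ W0.w X) (cv_V_one W0 V X h0)
  obtain ⟨f1, hf1⟩ := exists_hom hu (V.φ W1.w X) (cv_V_one W1 V X h1)
  let a : E →* Matrix (Fin (V.d X)) (Fin (V.d X)) K :=
    { toFun := fun g => V.φ (d.Z.gy g) X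
      map_one' := by rw [d.Z.gy_one, map_one, Pi.one_apply]
      map_mul' := fun g h => by rw [← d.Z.gy_mul, hmul] }
  have ha : ∀ g, a g = V.φ (d.Z.gy g) X := fun _ => rfl
  have c0 : ∀ g c, a g * f0 c = f0 c * a g := by
    intro g c
    obtain ⟨n, rfl⟩ := cv_V_pow hu c
    rw [hf0, ha]
    have h2 : Commute (V.φ (d.Z.gy g) X) (V.φ W0.w X) := by
      show V.φ (d.Z.gy g) X * V.φ W0.w X = V.φ W0.w X * V.φ (d.Z.gy g) X
      rw [← hmul, ← hmul, W0.wg]
    exact (h2.pow_right n).eq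
  have c1 : ∀ g c, a g * f1 c = f1 c * a g := by
    intro g c
    obtain ⟨n, rfl⟩ := cv_V_pow hu c
    rw [hf1, ha]
    have h2 : Commute (V.φ (d.Z.gy g) X) (V.φ W1.w X) := by
      show V.φ (d.Z.gy g) X * V.φ W1.w X = V.φ W1.w X * V.φ (d.Z.gy g) X
      rw [← hmul, ← hmul, W1.wg]
    exact (h2.pow_right n).eq
  have c01 : ∀ c c', f0 c * f1 c' = f1 c' * f0 c := by
    intro c c'
    obtain ⟨n, rfl⟩ := cv_V_pow hu c
    obtain ⟨n', rfl⟩ := cv_V_pow hu c'
    rw [hf0, hf1]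
    have h2 : W0.w * W1.w = W1.w * W0.w := by
      rw [W0.wa, W1.wp]
    have h3 : Commute (V.φ W0.w X) (V.φ W1.w X) := by
      show V.φ W0.w X * V.φ W1.w X = V.φ W1.w X * V.φ W0.w X
      rw [← hmul, ← hmul, h2]
    exact (h3.pow_pow n n').eq
  obtain ⟨v, hv⟩ := exists_hom3 a f0 f1 c0 c1 c01
  refine ⟨v, ?_, ?_, ?_, ?_⟩
  · intro g
    rw [hv, Pi.one_apply, Pi.one_apply, map_one, map_one, mul_one, mul_one, ha]
  · intro τ x
    obtain ⟨n, hn⟩ := cv_V_pow hu (τ 0)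
    obtain ⟨n', hn'⟩ := cv_V_pow hu (τ 1)
    have h2 : v (1, τ) = V.φ (W0.w ^ n * W1.w ^ n') X := by
      rw [hv, ← hn, ← hn', hf0, hf1, map_one, one_mul, hmul, hpow, hpow]
    have h3 : (Pi.mulSingle 0 (u ^ n) * Pi.mulSingle 1 (u ^ n') : Tor p) = τ := by
      funext k
      rw [hn, hn', Pi.mul_apply]
      fin_cases k
      · simp
      · simp
    have h4 : W0.w ^ n * W1.w ^ n' * x = d.psi τ x * (W0.w ^ n * W1.w ^ n') := by
      rw [mul_assoc, W1.wpow, ← mul_assoc, W0.wpow, d.psi_psi, h3, mul_assoc]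
    rw [h2, ← hmul, h4, hmul]
    rfl
  · intro n
    rw [hv, map_one, one_mul, Pi.mulSingle_eq_same, hf0, Pi.mulSingle_eq_of_ne (by decide), map_one, mul_one]
  · intro n
    rw [hv, map_one, one_mul, Pi.mulSingle_eq_same, hf1, Pi.mulSingle_eq_of_ne (by decide), map_one, one_mul]
-- END cv_V

-- BEGIN cv_Js
/-- PROOF. `e' = Ps τ ε_X`: `V.φ e' X = v 1 v⁻¹ = 1` (`v (1, τ)` is invertible), so `e' ε_X = ε_X`; the same for `τ⁻¹`, apply `Ps τ`: `ε_X e' = e'`. -/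
theorem Js_of (V : WM K d.Z.DA.Al) (X : V.ι) (v : (E × Tor p) →* Matrix (Fin (V.d X)) (Fin (V.d X)) K)
    (hv : ∀ τ x, v (1, τ) * V.φ x X = V.φ (d.Ps τ x) X * v (1, τ)) (τ : Tor p) : d.Ps τ (V.ε X) = V.ε X := by
  have hε : V.φ (V.ε X) = Pi.single X 1 := by
    unfold WM.ε
    exact V.φ.apply_symm_apply _
  have hεX : V.φ (V.ε X) X = 1 := by rw [hε, Pi.single_eq_same]
  have hεn : ∀ Z, Z ≠ X → V.φ (V.ε X) Z = 0 := by
    intro Z hZ
    rw [hε, Pi.single_eq_of_ne hZ]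
  have h1 : ∀ σ : Tor p, V.φ (d.Ps σ (V.ε X)) X = 1 := by
    intro σ
    have h2 := hv σ (V.ε X)
    rw [hεX, mul_one] at h2
    have h3 : v (1, σ) * v (1, σ⁻¹) = 1 := by
      rw [← map_mul, Prod.mk_mul_mk, mul_one, mul_inv_cancel]
      exact map_one v
    calc V.φ (d.Ps σ (V.ε X)) X = V.φ (d.Ps σ (V.ε X)) X * (v (1, σ) * v (1, σ⁻¹)) := by
          rw [h3, mul_one]
      _ = (V.φ (d.Ps σ (V.ε X)) X * v (1, σ)) * v (1, σ⁻¹) := by rw [mul_assoc]
      _ = 1 := by rw [← h2, h3]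
  have hmul : ∀ (a b : d.Z.DA.Al) (Z : V.ι), V.φ (a * b) Z = V.φ a Z * V.φ b Z := by
    intro a b Z
    rw [map_mul, Pi.mul_apply]
  have h4 : ∀ σ : Tor p, d.Ps σ (V.ε X) * V.ε X = V.ε X := by
    intro σ
    apply V.φ.injective
    funext Z
    rw [hmul]
    by_cases hZ : Z = X
    · subst hZ
      rw [h1, one_mul]
    · rw [hεn Z hZ, mul_zero]
  have h5 : ∀ a, a * V.ε X = V.ε X * a := by
    intro a
    apply V.φ.injective
    funext Z
    rw [hmul, hmul]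
    by_cases hZ : Z = X
    · subst hZ
      rw [hεX, one_mul, mul_one]
    · rw [hεn Z hZ, mul_zero, zero_mul]
  have h6 : V.ε X * d.Ps τ (V.ε X) = d.Ps τ (V.ε X) := by
    have h7 := congrArg (d.Ps τ) (h4 τ⁻¹)
    rw [map_mul] at h7
    have h8 : d.Ps τ (d.Ps τ⁻¹ (V.ε X)) = V.ε X := by
      have h9 : d.Ps τ * d.Ps τ⁻¹ = 1 := by rw [← map_mul, mul_inv_cancel, map_one]
      exact congrArg (fun f : d.Z.DA.Al ≃ₐ[K] d.Z.DA.Al => f (V.ε X)) h9
    rwa [h8] at h7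
  rw [← h6, ← h5, h4]
-- END cv_Js

-- BEGIN cv_ind
/-- INDEPENDENCE on a component. PROOF. `ind_lin` for `f = v (g, τ)`, `M = V.φ W.w X`, `e0 = V.φ e_0 X`, `e1 = V.φ e_y X`, `s = V.φ W.s X` (as linear maps, `Matrix.toLin'` / `mulVecLin`, `Matrix.mulVecLin_mul`): `W.we`, `W.wey`, `W.ws`, `W.sg`, `W.sp`, `W.wp`; `f` commutes with `V.φ x X` if
`g Ps τ (x) g⁻¹ = x` (`v (g, τ) = v (g, 1) v (1, τ)`). Nilpotent: `(s e_y - s e_0) (t s e_0 - 1)` is in `F' j 0` (`ey_sub`, `ey_F`, `F'_nil`). `v (g, τ * mulSingle i (u ^ n)) = M ^ n f`. -/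
theorem ind_X [Fact p.Prime] [FiniteDimensional K A] {i j : Fin 2} (hij : i ≠ j) (W : Wi d i j u) (V : WM K d.Z.DA.Al) (X : V.ι) (hX : W.m V X = 1)
    (v : (E × Tor p) →* Matrix (Fin (V.d X)) (Fin (V.d X)) K) (hg : ∀ g, v (g, 1) = V.φ (d.Z.gy g) X)
    (hv : ∀ τ x, v (1, τ) * V.φ x X = V.φ (d.Ps τ x) X * v (1, τ))
    (hw : ∀ n : ℕ, v (1, Pi.mulSingle i (u ^ n)) = V.φ W.w X ^ n)
    (y : (D.L1 hp hc).Y) (hy : Pz D hp hc i y) (g : E) (τ : Tor p) (hf : Fx D hp hc g τ y) (n : ℕ) :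
    ∑ x : (ZMod p)ˣ, ((mu (v (g, τ * Pi.mulSingle i (u ^ n))).mulVecLin
        (LinearMap.range (V.φ (d.Z.ey d.X (D.y0 hp hc)) X).mulVecLin) (fpc K hc x) : ℂ) -
      (mu (v (g, τ * Pi.mulSingle i (u ^ n))).mulVecLin
        (LinearMap.range (V.φ (d.Z.ey d.X y) X).mulVecLin) (fpc K hc x) : ℂ)) * tei p x =
    ∑ x : (ZMod p)ˣ, ((mu (v (g, τ)).mulVecLin
        (LinearMap.range (V.φ (d.Z.ey d.X (D.y0 hp hc)) X).mulVecLin) (fpc K hc x) : ℂ) -
      (mu (v (g, τ)).mulVecLin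
        (LinearMap.range (V.φ (d.Z.ey d.X y) X).mulVecLin) (fpc K hc x) : ℂ)) * tei p x := by
  have hG : ∀ x : d.Z.DA.Al, ∃ G : d.Z.DA.Al →ₐ[K] Module.End K (Fin (V.d X) → K), ∀ x, G x = (V.φ x X).mulVecLin := by
    intro _
    refine ⟨(Matrix.toLinAlgEquiv' (R := K) (n := Fin (V.d X))).toAlgHom.comp
      ((Pi.evalAlgHom K (fun i => Matrix (Fin (V.d i)) (Fin (V.d i)) K) X).comp V.φ.toAlgHom), fun x => rfl⟩
  obtain ⟨G, hGx⟩ := hG 0
  have hmul : ∀ M N : Matrix (Fin (V.d X)) (Fin (V.d X)) K, (M * N).mulVecLin = M.mulVecLin * N.mulVecLin :=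
    fun M N => Matrix.mulVecLin_mul M N
  have hpow : ∀ (M : Matrix (Fin (V.d X)) (Fin (V.d X)) K) (k : ℕ), (M ^ k).mulVecLin = M.mulVecLin ^ k := by
    intro M k
    induction k with
    | zero => rw [pow_zero, pow_zero, Matrix.mulVecLin_one]; rfl
    | succ k ih => rw [pow_succ, pow_succ, hmul, ih]
  have hvg : v (g, τ) = V.φ (d.Z.gy g) X * v (1, τ) := by
    rw [← hg, ← map_mul, Prod.mk_mul_mk, mul_one, one_mul]
  have hcom : ∀ x, d.Z.gy g * d.Ps τ x = x * d.Z.gy g →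
      (v (g, τ)).mulVecLin * G x = G x * (v (g, τ)).mulVecLin := by
    intro x hx
    rw [hGx, ← hmul, ← hmul]
    congr 1
    rw [hvg, mul_assoc, hv, ← mul_assoc, ← mul_assoc, ← Pi.mul_apply, ← Pi.mul_apply, ← map_mul, ← map_mul, hx]
  have hey : ∀ a, Fx D hp hc g τ a → d.Z.gy g * d.Ps τ (d.Z.ey d.X a) = d.Z.ey d.X a * d.Z.gy g := by
    intro a ha
    have h1 := d.Z.gy_ey d.X g (tY D hp hc τ a)
    have h2 : sm (D.L1 hp hc) g (tY D hp hc τ a) = a := ha
    rw [h2] at h1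
    rw [d.Ps_ey, ← h1, mul_assoc, d.Z.gy_mul, inv_mul_cancel, d.Z.gy_one, mul_one]
  have hy0 : agr D hp hc i (D.y0 hp hc) (D.y0 hp hc) := fun _ _ => rfl
  have hya : agr D hp hc i y (D.y0 hp hc) := hy
  have hf0 : Fx D hp hc g τ (D.y0 hp hc) := by
    unfold Fx
    rw [tY_y0, D.sm_y0]
  have hid : ∀ a, d.Z.ey d.X a * d.Z.ey d.X a = d.Z.ey d.X a := fun a => by rw [d.Z.ey_mul, if_pos rfl]
  have hwe : ∀ a, agr D hp hc i a (D.y0 hp hc) →
      W.w * d.Z.ey d.X a = d.Z.ey d.X a + d.Z.ey d.X a * W.s * d.Z.ey d.X a := fun a ha => by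
    rw [W.we, if_pos ha, Wi.tY_ey a ha]
  have key := ind_lin hc (v (g, τ)).mulVecLin (G W.w) (G (d.Z.ey d.X (D.y0 hp hc))) (G (d.Z.ey d.X y)) (G W.s)
    (by
      rw [← map_pow, hGx]
      show (V.φ W.z X).mulVecLin = 1
      rw [W.m_eq V, hX, one_smul, Matrix.mulVecLin_one]
      rfl)
    (by rw [← map_mul, hid]) (by rw [← map_mul, hid])
    (hcom _ (by
      have h1 : d.Ps τ W.w = W.w := W.wp τ
      rw [h1, W.wg]))
    (hcom _ (by
      have h1 : d.Ps τ W.s = W.s := W.sp τ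
      rw [h1, W.sg]))
    (hcom _ (hey _ hf0)) (hcom _ (hey _ hf))
    (by rw [← map_mul, ← map_mul, W.ws])
    (by rw [← map_mul, ← map_mul, W.wey _ hy0])
    (by rw [← map_mul, ← map_mul, W.wey _ hya])
    (by rw [← map_mul, hwe _ hy0, map_add, map_mul, map_mul])
    (by rw [← map_mul, hwe _ hya, map_add, map_mul, map_mul])
    (by
      intro t
      have h1 : W.s * d.Z.ey d.X y - W.s * d.Z.ey d.X (D.y0 hp hc) ∈ d.F' j 0 := by
        rw [← mul_sub]
        have h2 := d.F_mul' W.sF (d.ey_sub hij hya)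
        rwa [neg_add_cancel] at h2
      have h3 : t • (W.s * d.Z.ey d.X (D.y0 hp hc)) - 1 ∈ d.F j 0 := by
        refine Submodule.sub_mem _ (Submodule.smul_mem _ _ ?_) (d.F_one j)
        have h2 := d.F_mul W.sF (d.ey_F j (D.y0 hp hc))
        rwa [neg_add_cancel] at h2
      have h4 := d.F'_mul h1 h3
      rw [add_zero] at h4
      have h5 := (d.F'_nil h4).map G
      rwa [map_mul, map_sub, map_sub, map_smul, map_one, map_mul, map_mul] at h5) n
  have hvn : (v (g, τ * Pi.mulSingle i (u ^ n))).mulVecLin = G W.w ^ n * (v (g, τ)).mulVecLin := by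
    rw [hGx, ← hpow, ← hmul, ← hw, ← map_mul, Prod.mk_mul_mk, one_mul, mul_comm τ]
  rw [hvn, ← hGx, ← hGx]
  exact key
-- END cv_ind

end Pool.Agent.Two
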