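import Pool.Agent.Two.DatDef
import Pool.Agent.Two.MixT
import Pool.Agent.Two.Bt
import Pool.Agent.Evn.PG
import Pool.Agent.Two.RbH

/-!
# The bigraded deformed algebra with the action of the torus: existence
-/

set_option autoImplicit false

namespace Pool.Agent.Two

open Pool.Agent.Sig Pool.Agent.K9 Pool.Agent.Sqf Pool.Agent.Fdf Pool.Agent.Evn Pool.Agent.Lrg

open TensorProduct

/-- weights `1` on the first part, `2` on the second part -/
def TP.L2 {k P E T : Type} [Field k] [CommGroup P] [Group E] {act : E →* MulAut P} [Fintype T] {p : ℕ}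
    (D : TP k act T p) (hp : p.Prime) (hc : CharP k p) : LinW k act T :=
  D.toLinW hp hc (fun i => if i = 1 then 2 else 1) (fun i => by
    show 0 < if i = 1 then 2 else 1
    split_ifs <;> norm_num)

/-- The Cartan matrix of `c` is invertible. -/
theorem detT {K P E T : Type} [Field K] [IsAlgClosed K] [CommGroup P] [Fintype P] [Group E] [Fintype E]
    {act : E →* MulAut P} [Fintype T] {p : ℕ} [Fact p.Prime] [Nontrivial P]
    (hp : p.Prime) (hc : CharP K p) (D : TP K act T p) (hE : (Fintype.card E : K) ≠ 0)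
    {X : Type} [Fintype X] [DecidableEq X] {Jc : Submodule K (cAlg K act)} {f : X → cAlg K act}
    (hR : Reps K (cg act (D.L1 hp hc).gr) Jc f) : IsUnit (mC (K := K) (cg act (D.L1 hp hc).gr) f 0).det := by
  classical
  obtain ⟨ζ, hζ⟩ := Evn.ex_zeta hE
  refine det_gen hE (D.L1 hp hc) hζ (fun y => ?_) hR
  obtain ⟨D', L, hq, hL, hx⟩ := ex_eigG hp D.toLinG (fun t => ⟨D.a t, D.apos t, D.qa t⟩) D.a
    (fun i j h => by rw [D.qa, D.qa, h]) hζ hE y pow_card_eq_one (fun i j h => (D.blk y i j h).1)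
  refine ⟨D', L, hL, fun t => ?_, fun t => ?_⟩
  · have h2 : Submodule.span K (D.x '' {j | D.a j = D.a t}) ≤ (D.L1 hp hc).gr ((1 : ℕ) : ℚ) := by
      rw [Submodule.span_le]
      rintro _ ⟨j, -, rfl⟩
      exact gw_x D.toLinG (D.L1 hp hc).w j
    exact h2 (hx t)
  · have h3 : D'.q t = p ^ D.a t := by
      rw [hq]
      exact D.qa t
    rw [h3]
    refine geo_ne _ p _ _ Fintype.card_pos hp fun h => hE ?_
    exact (CharP.cast_eq_zero_iff K p _).2 h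

section

variable {K P E : Type} [Field K] [CommGroup P] [Fintype P] [Group E] [Fintype E]
  {act : E →* MulAut P} {𝒮 : ℚ → Submodule K (MonoidAlgebra K P)} {N : ℚ}
  {lam : MonoidAlgebra K P →ₗ[K] K} {A : Type} [Ring A] [Algebra K A] {𝒜 : ℚ → Submodule K A}

/-- The properties of the deformed algebra (compare `Lrg.exists_Al1E`). -/
theorem al1_of [IsAlgClosed K] {p : ℕ} [Fact p.Prime] [CharP K p] (hP : IsPGroup p P) [Nontrivial P]
    (hE : (Fintype.card E : K) ≠ 0) (hfree : ∀ x : E, x ≠ 1 → ∀ u : P, act x u = u → u = 1)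
    [FiniteDimensional K A] (S : StEq K P E act A)
    (s : A →ₗ[K] K) (hs : ∀ a b, s (a * b) = s (b * a)) (hnd : ∀ a, (∀ b, s (a * b) = 0) → a = 0)
    (hloc : ∀ z : A, (∀ a, z * a = a * z) → IsUnit z ∨ IsNilpotent z)
    (G : GP act 𝒮 N lam) {n : ℚ} (hn : 0 < n) (DS : Dfm 𝒮 n)
    (hlam : Lam DS N lam) (hA : Grd K 𝒜)
    (hio : ∀ q, ∀ x ∈ cg act 𝒮 q, S.io x ∈ 𝒜 q) (F : FM S 𝒜)
    (DC : Dfm (cg act 𝒮) n) (T' : Act S.io DC 𝒜) (hT : F.Ac DS DC T') (DA : Dfm 𝒜 n)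
    (hDL : ∀ x a, DA.m (S.io x) a = T'.L x a) (hDR : ∀ x a, DA.m a (S.io x) = T'.R x a)
    (B : RB (sA S) DS DA) (hB : B.th0 lam (sA S (sigS K P)) = (Fintype.card E : K) * lam (sigS K P)) :
    ∃ Z : Al1 S 𝒜 DS, Z.F = F ∧ Z.DA = DA ∧ Z.lam = lam ∧
      (∀ (i : Fin 2) (𝒟 : Fin 2 → ℚ → Submodule K A), (∀ k : B.ι, ∃ r, B.b k ∈ 𝒟 i r) →
        ∀ k : Z.B.ι, ∃ r, Z.B.b k ∈ 𝒟 i r) ∧
      ∀ a, (∀ b, Z.B.th0 lam (a * b) = 0) → a = 0 := by
  have hσ : ∀ q, ∀ s ∈ 𝒮 q, sA S s ∈ 𝒜 q := fun q s hs =>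
    hio q _ (Submodule.subset_span ⟨s, hs, 1, by rw [map_one, map_one, mul_one]; rfl⟩)
  have hsym := B.th0_sym hlam.sym0
  have h0 : ∀ a, (∀ b, B.th0 lam (a * b) = 0) → a = 0 := fun a ha =>
    form_nd hP hfree S s hs hnd hloc (B.th0 lam) hsym
      (by rw [hB]; exact mul_ne_zero hE G.sig_ne) a ha
  have hnd1 : ∀ a, (∀ b, B.th1 lam (a * b) = 0) → a = 0 := fun a ha =>
    B.th1_nd hn G.grd hA hσ hlam.deg h0 a ha
  have hchr := B.th1_chr hlam
  have hρ : ∀ g, S.io (MonoidAlgebra.of K _ g) = S.ρ g := fun g => MonoidAlgebra.lift_of _ _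
  have hsA : ∀ x, sA S x = S.io (inlK act x) := fun _ => rfl
  refine ⟨⟨F, DA, fun x t u t' => ?_, fun x t u t' => ?_, fun y a => ?_, fun y a => ?_, B, lam,
    G.lam_deg 0 (ne_of_lt G.pos) 1 G.grd.one, fun a b => ?_, hnd1,
    ss_of_chr (B.th1 lam) hchr hnd1⟩, rfl, rfl, rfl, fun i 𝒟 h => h, h0⟩
  · rw [hsA x, hDL, hT.L_s]
  · rw [hsA x, hDR, hT.R_s]
  · rw [← hρ, hDL, hT.L_y, hρ]
  · rw [← hρ, hDR, hT.R_y, hρ]
  · obtain ⟨J, d, c, ρ, h1⟩ := hchr
    rw [h1, h1]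
    refine Finset.sum_congr rfl fun j _ => ?_
    rw [map_mul, map_mul, Matrix.trace_mul_comm]

end

section

variable {K P E T : Type} [Field K] [IsAlgClosed K] [CommGroup P] [Fintype P] [Group E] [Fintype E]
  {act : E →* MulAut P} [Fintype T] {p : ℕ} [Fact p.Prime] [Nontrivial P]
  {A : Type} [Ring A] [Algebra K A] [FiniteDimensional K A]

/-- THE DATA over the field over which `A` is graded twice. -/
theorem dat_gr (hp : p.Prime) (hc : CharP K p) (hP : IsPGroup p P) (D : TP K act T p)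
    (hE : (Fintype.card E : K) ≠ 0) (hfree : ∀ x : E, x ≠ 1 → ∀ u : P, act x u = u → u = 1)
    (S : StEq K P E act A)
    (s : A →ₗ[K] K) (hs : ∀ a b, s (a * b) = s (b * a)) (hnd : ∀ a, (∀ b, s (a * b) = 0) → a = 0)
    (hloc : ∀ z : A, (∀ u : P, z * S.ρ (.inl u) = S.ρ (.inl u) * z) → IsUnit z ∨ IsNilpotent z)
    {𝒜0 ℬ0 : ℚ → Submodule K A} (hA0 : Grd K 𝒜0) (hB0 : Grd K ℬ0)
    (hioA0 : ∀ q, ∀ x ∈ cg act (D.L1 hp hc).gr q, S.io x ∈ 𝒜0 q)
    (hioB0 : ∀ q, ∀ x ∈ cg act (D.L2 hp hc).gr q, S.io x ∈ ℬ0 q) : Nonempty (Dat hp hc D S) := by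
  classical
  obtain ⟨lam, G⟩ := (D.L1 hp hc).exists_GP hE
  obtain ⟨DS, hlam, hDS, hF, X, hX, hpol⟩ := exists_Tht3 (D.L1 hp hc) hE D.c (fun _ => rfl) (D.blkc hp hc) lam G
  have hn : (0 : ℚ) < ((D.L1 hp hc).n : ℚ) := by
    have := (D.L1 hp hc).npos
    exact_mod_cast this
  have hloc' : ∀ z : A, (∀ a, z * a = a * z) → IsUnit z ∨ IsNilpotent z := fun z hz => hloc z fun u => hz _
  have hgT : Grd K (D.L2 hp hc).gr := gw_grd D.toLinG (D.L2 hp hc).w
  have halT : ∀ (y : E) (q : ℚ), ∀ s ∈ (D.L2 hp hc).gr q, al K act y s ∈ (D.L2 hp hc).gr q :=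
    gw_al D.toLinG (D.L2 hp hc).w fun y i j h => by
      show (if D.c i = 1 then 2 else 1) = if D.c j = 1 then 2 else 1
      rw [(D.blk y i j h).2]
  obtain ⟨β, hβ⟩ := exists_betaT hc D
  have hl := lift_torus (A := A) hp hc hE D S hβ
  have hJ0 : Jnt (D.L1 hp hc).gr (D.L2 hp hc).gr := gw_com D.toLinG (D.L1 hp hc).w (D.L2 hp hc).w
  obtain ⟨μ, _, _, βp, Ψp, 𝒜, ℬ, hμ, hβp, hΨp, hA, hB, hioA, hioB, hstA, hstB, hβpS, hβpT, hW⟩ :=
    exists_BiMu hP S hloc (card_Tor hp hc) β hl G.grd hgT hJ0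
      (fun h q s hs => beta_gw hc D hβ (D.L1 hp hc).w h q s hs)
      (fun h q s hs => beta_gw hc D hβ (D.L2 hp hc).w h q s hs) hA0 hB0 hioA0 hioB0
  have hfμ : Fintype μ := Fintype.ofFinite μ
  have hHμ : (Fintype.card (Tor p × μ) : K) ≠ 0 := by
    rw [Fintype.card_prod, Nat.cast_mul, ← Nat.card_eq_fintype_card, ← Nat.card_eq_fintype_card]
    exact mul_ne_zero (card_Tor hp hc) hμ
  have hH : (Fintype.card (Tor p) : K) ≠ 0 := by
    rw [← Nat.card_eq_fintype_card]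
    exact card_Tor hp hc
  obtain ⟨F, hFU⟩ := exists_FME (H := Tor p × μ) hP S hE hHμ G hA hioA hΨp hstA
  have hUB : F.U ≤ ⨆ q, F.U ⊓ ℬ q := hW F.U fun m a ha => hFU (1, m) a ha
  have J : Jnt 𝒜 ℬ := fun q => hW (𝒜 q) fun m a ha => hstA (1, m) q a ha
  let Ψ : Tor p →* (A ≃ₐ[K] A) := Ψp.comp (MonoidHom.inl (Tor p) μ)
  have hΨ : ∀ h, Cmp S (β h) (Ψ h) := fun h => by
    have h1 := hΨp (h, 1)
    rw [hβp] at h1
    exact h1
  have hΨA : ∀ h q, ∀ a ∈ 𝒜 q, Ψ h a ∈ 𝒜 q := fun h q a ha => hstA (h, 1) q a ha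
  have hΨB : ∀ h q, ∀ a ∈ ℬ q, Ψ h a ∈ ℬ q := fun h q a ha => hstB (h, 1) q a ha
  have hΨU : ∀ h, ∀ u ∈ F.U, Ψ h u ∈ F.U := fun h u hu => hFU (h, 1) u hu
  have hΘβ : ∀ h s z, X.Θ (β h s) z = X.Θ s (tY D hp hc h⁻¹ z) := fun h s z =>
    hX (β h : MonoidAlgebra K P →ₐ[K] MonoidAlgebra K P) (fun t => tsc K hc h⁻¹ (D.c t)) (fun t => hβ h t)
      (fun y i j h0 => by rw [D.blkc hp hc y i j h0]) s z _ fun t => rfl
  have hβm : ∀ h s t, DS.m (β h s) (β h t) = β h (DS.m s t) := by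
    intro h s t
    apply X.Θ.injective
    funext z
    rw [X.mul, Pi.mul_apply, hΘβ, hΘβ, hΘβ, X.mul, Pi.mul_apply]
  obtain ⟨DC, hCD⟩ := exists_cdef G.grd G.al DS hDS
  obtain ⟨T', hT⟩ := exists_act S F G hA hioA hn DS DC hCD
  have hEq := eqv_act S F hΨU DS DC hCD T' hT hΨ hΨA hβm
  have hgrc : ∀ i, (D.L1 hp hc).grc D.c i = Prt (D.L1 hp hc).gr (D.L2 hp hc).gr i := fun i =>
    grc_eq (D.L1 hp hc) (D.L2 hp hc) (fun t => rfl) D.c (fun t => rfl) (fun t => rfl) G.grd hgT i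
  have hDS2 : ∀ i q r s t, s ∈ Prt (D.L1 hp hc).gr (D.L2 hp hc).gr i q → t ∈ Prt (D.L1 hp hc).gr (D.L2 hp hc).gr i r →
      DS.m s t ∈ Fl (Prt (D.L1 hp hc).gr (D.L2 hp hc).gr i) (q + r) := by
    intro i q r s t hs ht
    rw [← hgrc i] at hs ht ⊢
    rw [Fl_eq]
    exact hF i q r s t (Submodule.mem_iSup_of_mem q (Submodule.mem_iSup_of_mem le_rfl hs))
      (Submodule.mem_iSup_of_mem r (Submodule.mem_iSup_of_mem le_rfl ht))
  obtain ⟨DA, hDL, hDR, hDE, hFil⟩ := deform2 S F G hgT hJ0 halT hA hB J hioA hioB hUB hn DS DC hCD T' hT hDS2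
    hEq hΨB hH
  have hDi : ∀ i, Grd K (Prt 𝒜 ℬ i) := fun i => Grd.mix hA hB J _ _
  have hioD : ∀ i q, ∀ x ∈ cg act ((D.L1 hp hc).grc D.c i) q, S.io x ∈ Prt 𝒜 ℬ i q := by
    intro i q x hx
    rw [hgrc i] at hx
    exact io_Mix S hioA hioB q x hx
  have hUD : ∀ i, F.U ≤ ⨆ q, F.U ⊓ Prt 𝒜 ℬ i q := fun i => hom_Mix J hA.ind hA.sup hB.ind hB.sup F.hom hUB
  obtain ⟨B, hB0, hBh⟩ := exists_RBh hP S F G hA hioA DS DC hCD T' hT DA hDL hDR
    (𝒮2 := (D.L1 hp hc).grc D.c) (𝒟 := Prt 𝒜 ℬ) (fun i => gw_grd D.toLinG _) hDi hioD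
    (span_gr (D.L1 hp hc) D.c) (span_tri (fun i => (hDi i).ind) (fun i => (hDi i).sup)
      (fun i j q => Prt_com j i q) (fun q t => by
        rw [Prt_inter J hA.ind hA.sup hB.ind hB.sup q t]
        exact inf_le_left) hUD)
  obtain ⟨Z, rfl, rfl, hZl, hZB, hZ0⟩ := al1_of hP hE hfree S s hs hnd hloc' G hn DS hlam hA hioA F DC T' hT DA hDL hDR
    B hB0
  have hN' : ((D.L1 hp hc).N : ℚ) = (((∑ t, (D.L1 hp hc).r t : ℕ) : ℤ) : ℚ) * ((D.L1 hp hc).n : ℚ) := by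
    rw [(D.L1 hp hc).N_eq]
    push_cast
    ring
  have hdet : ∀ (m : ℕ) (Jd : Submodule K A) (e : Fin m → A), Reps K 𝒜 Jd e → IsUnit (mC (K := K) 𝒜 e 0).det := by
    intro m Jd e hR
    have hgc : Grd K (cg act (D.L1 hp hc).gr) := grd_cg G.grd G.al
    have hfdc : FiniteDimensional K (cAlg K act) := inferInstance
    obtain ⟨m1, Jc, f, hRc⟩ := exists_reps hgc
    obtain ⟨⟨tA, htA, hndA, hdA⟩, -⟩ :=
      engine hP hE hfree S s hs hnd hloc' G hn hN' DS hDS hlam hA hioA e hR.deg hR.idem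
    obtain ⟨⟨tc, htc, hndc, hdc'⟩, -⟩ :=
      engine_c hP hE G hn hN' DS hDS hlam f hRc.deg hRc.idem
    exact det_A hE S G hA hioA tA htA hndA hdA tc htc hndc hdc' hRc hR (detT hp hc D hE hRc)
  exact ⟨{
    𝒜 := 𝒜
    hA := hA
    hio := hioA
    𝒟 := Prt 𝒜 ℬ
    hD := hDi
    hioD := hioD
    com := fun i j q => Prt_com j i q
    tot := fun q t => by
      rw [Prt_inter J hA.ind hA.sup hB.ind hB.sup q t]
      exact inf_le_left
    totA := fun i q => homA_Prt J i q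
    N := _
    lam := lam
    G := G
    DS := DS
    hlam := hlam
    hDS := hDS
    filS := fun i d e s t hs ht => by
      rw [Fl_eq] at hs ht ⊢
      exact hF i d e s t hs ht
    X := X
    Z := Z
    filA := fun i d e a b ha hb => hFil i d e a b ha hb
    homU := hUD
    hZ := hZl
    homB := fun i k => hZB i (Prt 𝒜 ℬ) (hBh i) k
    nd0 := hZ0
    pol := fun i d s => by
      rw [Fl_eq]
      exact hpol i d s
    β := β
    hβ := hβ
    Ψ := Ψ
    cmp := hΨ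
    ΨA := hΨA
    ΨD := fun i h q a ha => Prt_map (Ψ h : A →ₗ[K] A) (hΨA h) (hΨB h) i q ha
    ΨU := hΨU
    Ψm := hDE
    Θβ := hΘβ
    det := hdet }⟩

end

section

variable {k P E T : Type} [Field k] [CommGroup P] [Fintype P] [Group E] [Fintype E] {act : E →* MulAut P}
  [Fintype T] {A : Type} [Ring A] [Algebra k A]

private theorem db_io (D : LinW k act T) (S : StEq k P E act A) {𝒜 : ℚ → Submodule k A}
    (h : ∀ (e : T → ℕ) (y : E), S.io (inlK act (∏ i, D.x i ^ e i) *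
      MonoidAlgebra.of k _ (SemidirectProduct.inr y)) ∈ 𝒜 ((∑ i, D.w i * e i : ℕ) : ℚ)) (q : ℚ) :
    ∀ x ∈ cg act D.gr q, S.io x ∈ 𝒜 q := by
  intro x hx
  unfold cg at hx
  induction hx using Submodule.span_induction with
  | zero => rw [map_zero]; exact zero_mem _
  | add a b _ _ ha hb => rw [map_add]; exact add_mem ha hb
  | smul c a _ ha => rw [map_smul]; exact Submodule.smul_mem _ _ ha
  | mem x hx =>
    obtain ⟨s, hs, y, rfl⟩ := hx
    unfold LinW.gr at hs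
    induction hs using Submodule.span_induction with
    | zero => rw [map_zero, zero_mul, map_zero]; exact zero_mem _
    | add a b _ _ ha hb => rw [map_add, add_mul, map_add]; exact add_mem ha hb
    | smul c a _ ha =>
      rw [map_smul, smul_mul_assoc, map_smul]
      exact Submodule.smul_mem _ _ ha
    | mem s hs =>
      obtain ⟨e, rfl, rfl⟩ := hs
      exact h e y

end

/-- THE DATA THEOREM. -/
theorem exists_dat {k P E T : Type} [Field k] [IsAlgClosed k] [CommGroup P] [Fintype P] [Group E] [Fintype E]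
    {act : E →* MulAut P} [Fintype T] {p : ℕ} [Fact p.Prime] [CharP k p] [Nontrivial P]
    {A : Type} [Ring A] [Algebra k A] [FiniteDimensional k A]
    (hp : p.Prime) (hP : IsPGroup p P) (D : TP k act T p)
    (hE : (Fintype.card E : k) ≠ 0) (hfree : ∀ x : E, x ≠ 1 → ∀ u : P, act x u = u → u = 1)
    (S : StEq k P E act A)
    (s : A →ₗ[k] k) (hs : ∀ a b, s (a * b) = s (b * a)) (hnd : ∀ a, (∀ b, s (a * b) = 0) → a = 0)
    (hloc : ∀ z : A, (∀ u : P, z * S.ρ (.inl u) = S.ρ (.inl u) * z) → IsUnit z ∨ IsNilpotent z) :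
    ∃ (K : Type) (_ : Field K) (_ : IsAlgClosed K) (hc : CharP K p) (A' : Type) (_ : Ring A') (_ : Algebra K A')
      (_ : FiniteDimensional K A') (D' : TP K act T p) (S' : StEq K P E act A') (s' : A' →ₗ[K] K),
      (Fintype.card E : K) ≠ 0 ∧ (∀ a b, s' (a * b) = s' (b * a)) ∧ (∀ a, (∀ b, s' (a * b) = 0) → a = 0) ∧
      (∀ z : A', (∀ u : P, z * S'.ρ (.inl u) = S'.ρ (.inl u) * z) → IsUnit z ∨ IsNilpotent z) ∧
      lA K A' = lA k A ∧ Nonempty (Dat hp hc D' S') := by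
  classical
  have hck : CharP k p := inferInstance
  obtain ⟨K, _, _, _, 𝒜, ℬ, hA, hB, hdA, hdB⟩ := ex_grade2 (D.L1 hp hck) (D.L2 hp hck) S hE
  have hcp : CharP K p := charP_of_injective_algebraMap (algebraMap k K).injective p
  have hcast : ∀ n : ℕ, (n : k) ≠ 0 → (n : K) ≠ 0 := by
    intro n hn h
    apply hn
    have h1 : algebraMap k K (n : k) = 0 := by rw [map_natCast, h]
    exact (map_eq_zero _).1 h1
  have hlocK : ∀ z : K ⊗[k] A, (∀ u : P, z * (S.bc K).ρ (.inl u) = (S.bc K).ρ (.inl u) * z) →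
      IsUnit z ∨ IsNilpotent z := by
    intro z hz
    refine fx_bc K (Set.range fun u : P => S.ρ (.inl u)) (fun w hw => hloc w fun u => hw _ ⟨u, rfl⟩) z ?_
    rintro _ ⟨u, rfl⟩
    exact hz u
  exact ⟨K, _, inferInstance, hcp, K ⊗[k] A, inferInstance, inferInstance, inferInstance, D.map K, S.bc K, K9.formK K s,
    hcast _ hE, K9.formK_symm K s hs, K9.formK_nondeg K s hs hnd, hlocK, lA_bc_eq K (k := k) (A := A),
    dat_gr hp hcp hP (D.map K) (hcast _ hE) hfree (S.bc K) (K9.formK K s) (K9.formK_symm K s hs)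
      (K9.formK_nondeg K s hs hnd) hlocK hA hB
      (db_io ((D.map K).L1 hp hcp) (S.bc K) fun e y => hdA e y)
      (db_io ((D.map K).L2 hp hcp) (S.bc K) fun e y => hdB e y)⟩

end Pool.Agent.Two
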