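import Pool.Agent.Two.TPM
import Pool.Agent.Two.CasH
import Pool.Agent.Lrg.StrE

/-!
# The bigraded deformed algebra with the action of the torus: definitions
-/

set_option autoImplicit false

namespace Pool.Agent.Two

open Pool.Agent.Sig Pool.Agent.K9 Pool.Agent.Sqf Pool.Agent.Fdf Pool.Agent.Evn Pool.Agent.Lrg

/-- The bigraded deformed algebra `A_1` with the action of the torus. -/
structure Dat {K P E A T : Type} [Field K] [CommGroup P] [Fintype P] [Group E] [Fintype E] {act : E →* MulAut P}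
    [Fintype T] {p : ℕ} (hp : p.Prime) (hc : CharP K p) (D : TP K act T p) [Ring A] [Algebra K A]
    (S : StEq K P E act A) where
  /-- the total grading -/
  𝒜 : ℚ → Submodule K A
  hA : Grd K 𝒜
  hio : ∀ q, ∀ x ∈ cg act (D.L1 hp hc).gr q, S.io x ∈ 𝒜 q
  /-- the degrees in the two parts -/
  𝒟 : Fin 2 → ℚ → Submodule K A
  hD : ∀ i, Grd K (𝒟 i)
  hioD : ∀ i q, ∀ x ∈ cg act ((D.L1 hp hc).grc D.c i) q, S.io x ∈ 𝒟 i q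
  com : ∀ i j q, 𝒟 i q ≤ ⨆ t, 𝒟 i q ⊓ 𝒟 j t
  tot : ∀ q t, 𝒟 0 q ⊓ 𝒟 1 t ≤ 𝒜 (q + t)
  totA : ∀ i q, 𝒜 q ≤ ⨆ t, 𝒜 q ⊓ 𝒟 i t
  N : ℚ
  lam : MonoidAlgebra K P →ₗ[K] K
  G : GP act (D.L1 hp hc).gr N lam
  /-- the deformed product of `K P` -/
  DS : Dfm (D.L1 hp hc).gr ((D.L1 hp hc).n : ℚ)
  hlam : Lam DS N lam
  hDS : ∀ (y : E) s t, al K act y (DS.m s t) = DS.m (al K act y s) (al K act y t)
  filS : ∀ (i : Fin 2) (d e : ℚ) s t, s ∈ Fl ((D.L1 hp hc).grc D.c i) d → t ∈ Fl ((D.L1 hp hc).grc D.c i) e →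
    DS.m s t ∈ Fl ((D.L1 hp hc).grc D.c i) (d + e)
  X : Tht (D.L1 hp hc) DS
  /-- the deformed algebra -/
  Z : Al1 S 𝒜 DS
  filA : ∀ (i : Fin 2) (d e : ℚ) a b, a ∈ Fl (𝒟 i) d → b ∈ Fl (𝒟 i) e → Z.DA.m a b ∈ Fl (𝒟 i) (d + e)
  homU : ∀ i, Z.F.U ≤ ⨆ q, Z.F.U ⊓ 𝒟 i q
  hZ : Z.lam = lam
  homB : ∀ (i : Fin 2) (k : Z.B.ι), ∃ r, Z.B.b k ∈ 𝒟 i r
  nd0 : ∀ a, (∀ b, Z.B.th0 lam (a * b) = 0) → a = 0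
  /-- the functions of degree at most `d` in the part `i` -/
  pol : ∀ (i : Fin 2) (d : ℚ) s, s ∈ Fl ((D.L1 hp hc).grc D.c i) d ↔
    X.Θ s ∈ Submodule.span K {f : (D.L1 hp hc).Y → K | ∃ e : T → ℕ, (∀ t, e t < (D.L1 hp hc).q t) ∧
      ((LinW.dgc D.c i e : ℕ) : ℚ) ≤ d ∧ f = fun y : (D.L1 hp hc).Y => ∏ t, (y : T → K) t ^ e t}
  /-- the torus -/
  β : Tor p →* (MonoidAlgebra K P ≃ₐ[K] MonoidAlgebra K P)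
  hβ : ∀ h t, β h (D.x t) = tsc K hc h⁻¹ (D.c t) • D.x t
  Ψ : Tor p →* (A ≃ₐ[K] A)
  cmp : ∀ h, Cmp S (β h) (Ψ h)
  ΨA : ∀ h q, ∀ a ∈ 𝒜 q, Ψ h a ∈ 𝒜 q
  ΨD : ∀ i h q, ∀ a ∈ 𝒟 i q, Ψ h a ∈ 𝒟 i q
  ΨU : ∀ h, ∀ u ∈ Z.F.U, Ψ h u ∈ Z.F.U
  Ψm : ∀ h a b, Z.DA.m (Ψ h a) (Ψ h b) = Ψ h (Z.DA.m a b)
  Θβ : ∀ h s z, X.Θ (β h s) z = X.Θ s (tY D hp hc h⁻¹ z)
  det : ∀ (m : ℕ) (Jd : Submodule K A) (e : Fin m → A), Reps K 𝒜 Jd e → IsUnit (mC (K := K) 𝒜 e 0).det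

end Pool.Agent.Two
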