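import Pool.Agent.Lrg.End4
import Pool.Agent.Two.AlgT

/-!
# The cases together, with the case of two factors
-/

set_option autoImplicit false

namespace Pool.Agent.Two

open Pool.Agent.KB Pool.Agent.KBZ Pool.Agent.KBQ Pool.Agent.PIs Pool.Agent.Ity Pool.Agent.MkS

/-- The restriction of the action to `[D, F]`, and the condition. -/
theorem two_of_sub {p : ℕ} {D : Type} [Group D] (F : Subgroup (MulAut D)) (hexp : ∀ α ∈ F, α ^ (p - 1) = 1)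
    (V W : Subgroup D) (hV : V ≠ ⊥) (hW : W ≠ ⊥) (hsV : ∀ α ∈ F, ∀ v ∈ V, α v ∈ V) (hsW : ∀ α ∈ F, ∀ v ∈ W, α v ∈ W)
    (hinf : V ⊓ W = ⊥) (hsup : V ⊔ W = Subgroup.closure {x : D | ∃ α ∈ F, ∃ v, x = α v * v⁻¹}) :
    ∃ r : F →* MulAut (Subgroup.closure {x : D | ∃ α ∈ F, ∃ v, x = α v * v⁻¹}),
      (∀ α v, ((r α v : Subgroup.closure {x : D | ∃ α ∈ F, ∃ v, x = α v * v⁻¹}) : D) = α.1 v) ∧
      Two2 p (Subgroup.closure {x : D | ∃ α ∈ F, ∃ v, x = α v * v⁻¹}) F r := by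
  obtain ⟨C, hC⟩ : ∃ C : Subgroup D, C = Subgroup.closure {x : D | ∃ α ∈ F, ∃ v, x = α v * v⁻¹} := ⟨_, rfl⟩
  rw [← hC] at hsup ⊢
  have hst : ∀ β : F, ∀ v ∈ C, β.1 v ∈ C := by
    intro β
    have h1 : C ≤ C.comap β.1.toMonoidHom := by
      conv_lhs => rw [hC]
      rw [Subgroup.closure_le]
      rintro _ ⟨α, hα, v, rfl⟩
      show β.1 (α v * v⁻¹) ∈ C
      rw [map_mul, map_inv, hC]
      refine Subgroup.subset_closure ⟨β.1 * α * β.1⁻¹, F.mul_mem (F.mul_mem β.2 hα) (F.inv_mem β.2), β.1 v, ?_⟩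
      rw [MulAut.mul_apply, MulAut.mul_apply, MulAut.inv_apply_self]
    exact fun v hv => h1 hv
  let r : F →* MulAut C :=
    { toFun := fun β =>
        { toFun := fun v => ⟨β.1 v, hst β v v.2⟩
          invFun := fun v => ⟨β⁻¹.1 v, hst β⁻¹ v v.2⟩
          left_inv := fun v => Subtype.ext (by
            show (β⁻¹).1 (β.1 v) = v
            rw [Subgroup.coe_inv, MulAut.inv_apply_self])
          right_inv := fun v => Subtype.ext (by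
            show β.1 ((β⁻¹).1 v) = v
            rw [Subgroup.coe_inv, MulAut.apply_inv_self])
          map_mul' := fun v w => Subtype.ext (map_mul β.1 (v : D) w) }
      map_one' := rfl
      map_mul' := fun β γ => rfl }
  have hVC : V ≤ C := hsup ▸ le_sup_left
  have hWC : W ≤ C := hsup ▸ le_sup_right
  have hne : ∀ U : Subgroup D, U ≤ C → U ≠ ⊥ → U.subgroupOf C ≠ ⊥ := by
    intro U hU h h1
    apply h
    rw [Subgroup.subgroupOf_eq_bot] at h1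
    rw [eq_bot_iff]
    intro x hx
    exact h1.le_bot ⟨hx, hU hx⟩
  refine ⟨r, fun α v => rfl, fun x => Subtype.ext (hexp x x.2), V.subgroupOf C, W.subgroupOf C, hne V hVC hV,
    hne W hWC hW, fun x v hv => hsV x x.2 v hv, fun x v hv => hsW x x.2 v hv, ?_, ?_⟩
  · rw [eq_bot_iff]
    rintro x ⟨h1, h2⟩
    have h3 : (x : D) ∈ V ⊓ W := ⟨h1, h2⟩
    rw [hinf, Subgroup.mem_bot] at h3
    exact Subgroup.mem_bot.2 (Subtype.ext h3)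
  · rw [← Subgroup.subgroupOf_sup hVC hWC, hsup, Subgroup.subgroupOf_self]

/-- The main theorem. -/
theorem end5 (main : MainT) (G : Type) [Group G] [Finite G] (p : ℕ) (hp : p.Prime)
    (𝔪 : Ideal AInt) (h𝔪 : 𝔪.IsMaximal) (hp𝔪 : (p : AInt) ∈ 𝔪)
    (χ : G → ℂ) (hχ : χ ∈ Irr G)
    (D : Subgroup G) (hab : ∀ a ∈ D, ∀ b ∈ D, a * b = b * a)
    (hD : Nat.card D = p ^ defect p (block 𝔪 χ))
    (ζ : Subgroup.centralizer (D : Set G) → ℂ)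
    (hζ : ζ ∈ Irr (Subgroup.centralizer (D : Set G)))
    (hind : Induces 𝔪 (Subgroup.centralizer (D : Set G)) ζ χ)
    (hE : ((∃ V : Subgroup D, (∀ α ∈ IQ 𝔪 D ζ, ∀ v ∈ V, α v ∈ V) ∧
        ∀ α ∈ IQ 𝔪 D ζ, α ≠ 1 → (∃ v ∈ V, v ≠ 1) ∧ ∀ v ∈ V, α v = v → v = 1) ∧
        Odd (Subgroup.center (IQ 𝔪 D ζ)).index) ∨
      (∀ x : D, (∀ α ∈ IQ 𝔪 D ζ, α x = x) ∨ ∀ α ∈ IQ 𝔪 D ζ, α x = x → α = 1) ∧
      (((∀ α ∈ IQ 𝔪 D ζ, α ^ (p - 1) = 1) ∧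
        ((∃ V W : Subgroup D, V ≠ ⊥ ∧ W ≠ ⊥ ∧ (∀ α ∈ IQ 𝔪 D ζ, ∀ v ∈ V, α v ∈ V) ∧
          (∀ α ∈ IQ 𝔪 D ζ, ∀ v ∈ W, α v ∈ W) ∧ V ⊓ W = ⊥ ∧
          V ⊔ W = Subgroup.closure {x : D | ∃ α ∈ IQ 𝔪 D ζ, ∃ v, x = α v * v⁻¹}) ∨
        (∃ N, 2 ≤ N ∧ Nonempty (IQ 𝔪 D ζ ≃* QuaternionGroup N) ∧ (Nat.card (IQ 𝔪 D ζ) + 1) ^ 2 ≤
          Nat.card (Subgroup.closure {x : D | ∃ α ∈ IQ 𝔪 D ζ, ∃ v, x = α v * v⁻¹})))) ∨
      Lrg.Large p (Subgroup.closure {x : D | ∃ α ∈ IQ 𝔪 D ζ, ∃ v, x = α v * v⁻¹}) (IQ 𝔪 D ζ))) :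
    (ell p (block 𝔪 χ) = Nat.card (ConjClasses (IQ 𝔪 D ζ)) ∧
    (block 𝔪 χ).ncard = Nat.card (ConjClasses (D ⋊[(IQ 𝔪 D ζ).subtype] IQ 𝔪 D ζ)) ∧
    (∀ S : Subgroup G, S ≤ D → ∀ η ∈ Irr (Subgroup.centralizer (S : Set G)),
      Induces 𝔪 ((Subgroup.centralizer (D : Set G)).subgroupOf (Subgroup.centralizer (S : Set G)))
        (fun y => ζ ⟨y.1.1, y.2⟩) η →
      ell p (block 𝔪 η) = Nat.card (ConjClasses ↥(IQ 𝔪 D ζ ⊓ ⨅ x : {x : D // (x : G) ∈ S},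
        MulAction.stabilizer (MulAut D) (x : D) : Subgroup (MulAut D))))) ∧
    (∀ ψ ∈ Irr (Subgroup.normalizer (D : Set G)),
      Induces 𝔪 ((Subgroup.centralizer (D : Set G)).subgroupOf (Subgroup.normalizer (D : Set G)))
        (fun y => ζ ⟨y.1.1, y.2⟩) ψ →
      ell p (block 𝔪 χ) = ell p (block 𝔪 ψ) ∧ (block 𝔪 χ).ncard = (block 𝔪 ψ).ncard) ∧
    (∀ S : Subgroup G, S ≤ D → ∀ η ∈ Irr (Subgroup.centralizer (S : Set G)),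
      Induces 𝔪 ((Subgroup.centralizer (D : Set G)).subgroupOf (Subgroup.centralizer (S : Set G)))
        (fun y => ζ ⟨y.1.1, y.2⟩) η →
      ∀ η' ∈ Irr (Subgroup.centralizer (S : Set G) ⊓ Subgroup.normalizer (D : Set G) : Subgroup G),
      Induces 𝔪 ((Subgroup.centralizer (D : Set G)).subgroupOf
        (Subgroup.centralizer (S : Set G) ⊓ Subgroup.normalizer (D : Set G)))
        (fun y => ζ ⟨y.1.1, y.2⟩) η' →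
      ell p (block 𝔪 η) = ell p (block 𝔪 η') ∧ (block 𝔪 η).ncard = (block 𝔪 η').ncard) ∧
    (D ≠ ⊥ → (∀ α ∈ IQ 𝔪 D ζ, ∀ β ∈ IQ 𝔪 D ζ, α * β = β * α) →
      ((∃ q r a b : ℕ, q.Prime ∧ r.Prime ∧ Nat.card (IQ 𝔪 D ζ) = q ^ a * r ^ b) ∨
        ∀ x y z : D, Fv.Cmp (IQ 𝔪 D ζ) x y ∨ Fv.Cmp (IQ 𝔪 D ζ) y z ∨ Fv.Cmp (IQ 𝔪 D ζ) x z) →
      ConBrI G p 𝔪 χ D ζ ∧ ConAllI G p 𝔪 χ D ζ) := by
  rcases hE with hO | ⟨hfree, (⟨hexp, (⟨V, W, hV, hW, hsV, hsW, hinf, hsup⟩ | hB)⟩ | hL)⟩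
  · exact Lrg.end4 G p hp 𝔪 h𝔪 hp𝔪 χ hχ D hab hD ζ hζ hind (Or.inl hO)
  · have hfix : ∀ S : Subgroup G, (IQ 𝔪 D ζ ⊓ ⨅ x : {x : D // (x : G) ∈ S},
        MulAction.stabilizer (MulAut D) (x : D) : Subgroup (MulAut D)) = fixr (IQ 𝔪 D ζ) S := by
      intro S
      ext α
      rw [Subgroup.mem_inf, Subgroup.mem_iInf]
      refine and_congr_right fun _ => ⟨fun h x hx => ?_, fun h x => ?_⟩
      · exact MulAction.mem_stabilizer_iff.1 (h ⟨x, hx⟩)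
      · exact MulAction.mem_stabilizer_iff.2 (h x.1 x.2)
    obtain ⟨r, hr, hT⟩ := two_of_sub (IQ 𝔪 D ζ) hexp V W hV hW hsV hsW hinf hsup
    obtain ⟨⟨g1, g2, g3⟩, g4, g5⟩ := free_numA (qaT main) G p hp 𝔪 h𝔪 hp𝔪 χ
      hχ D hab hD ζ hζ hind hfree r hr hT
    refine ⟨⟨g1, g2, fun S hS η hη hi => ?_⟩, g4, g5, fun hD1 h1 h2 => ?_⟩
    · rw [hfix]
      exact g3 S hS η hη hi
    · exact Lrg.iso_free G p hp 𝔪 h𝔪 hp𝔪 χ hχ D hab hD ζ hζ hind hfree hD1 h1 h2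
  · exact Lrg.end4 G p hp 𝔪 h𝔪 hp𝔪 χ hχ D hab hD ζ hζ hind (Or.inr (Or.inl ⟨hfree, hexp, Or.inl hB⟩))
  · exact Lrg.end4 G p hp 𝔪 h𝔪 hp𝔪 χ hχ D hab hD ζ hζ hind (Or.inr (Or.inr ⟨hfree, hL⟩))

end Pool.Agent.Two
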