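import Pool.Agent.Two.Cpx
import Pool.Agent.Two.AlgT
import Pool.Agent.Lrg.RWg

/-!
# The number of the simple modules, for two stable factors
-/

set_option autoImplicit false
set_option linter.unusedSectionVars false

namespace Pool.Agent.Two

open Pool.Agent.Sig Pool.Agent.K9 Pool.Agent.Sqf Pool.Agent.Fdf Pool.Agent.Evn Pool.Agent.Lrg Pool.Agent.SigO
open Pool.Agent.Nrm

section

variable {K P E A T : Type} [Field K] [CommGroup P] [Fintype P] [Group E] [Fintype E] {act : E →* MulAut P}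
  [Fintype T] {p : ℕ} {hp : p.Prime} {hc : CharP K p} {D : TP K act T p} [Ring A] [Algebra K A]
  {S : StEq K P E act A}

/-- The exponent of `E` divides `p - 1`. -/
theorem exp_of_TP (d : Dat hp hc D S) [Fact p.Prime] (x : E) : x ^ (p - 1) = 1 := by
  obtain ⟨v, l, h1, -, h3⟩ := eigY D hp hc 0 x
  have hf := h3 (fun _ => l) rfl
  have h4 : ∀ j : ℕ, sm (D.L1 hp hc) (x ^ j) (tY D hp hc ((fun _ => l : Tor p) ^ j) v) = v := by
    intro j
    induction j with
    | zero => rw [pow_zero, pow_zero, tY_one, d.X.sm_one]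
    | succ j ih =>
      rw [pow_succ, pow_succ, ← tY_tY, ← d.X.sm_sm, ← tY_sm, hf]
      exact ih
  have h5 : ((fun _ => l : Tor p) ^ (p - 1)) = 1 := by
    funext i
    exact ZMod.units_pow_card_sub_one_eq_one p l
  have h6 := h4 (p - 1)
  rw [h5, tY_one] at h6
  exact D.free hp hc _ v h1 h6

end

-- BEGIN ac_free
/-- (ac_free) A commutative subgroup of a group which acts freely is cyclic. -/
theorem ac_free {P E : Type} [CommGroup P] [Fintype P] [Nontrivial P] [Group E] [Fintype E] (act : E →* MulAut P) {p : ℕ}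
    (hp : p.Prime) (hP : IsPGroup p P) (hE : ¬ p ∣ Fintype.card E)
    (hfree : ∀ x : E, x ≠ 1 → ∀ u : P, act x u = u → u = 1) : AC E := by
  have : Fact p.Prime := ⟨hp⟩
  exact fun A hA => Pool.Agent.Fdf.cyc_comm hP hfree A hA
-- END ac_free

theorem mainT : MainT := by
  classical
  intro K P E T A _ _ _ _ _ _ _ _ _ _ _ act p _ hp hc D S d s hP hE hfree hs hnd hloc x0 hx0 hx h3 hl
  have hcp : CharP K p := hc
  have hss := d.Z.ss
  have hfd : FiniteDimensional K d.Z.DA.Al := inferInstanceAs (FiniteDimensional K A)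
  obtain ⟨W⟩ := exists_WM (K := K) d.Z.ss
  obtain ⟨w⟩ := exists_RWg hP (D.L1 hp hc) hE hfree S s hs hnd d.hA d.G d.hio d.Z d.X (D.y0 hp hc) (D.sm_y0 hp hc)
    (fun γ y hy h => D.free hp hc γ y hy h) d.det x0 hx0 hx h3 hl W
  obtain ⟨c, hJ, hI⟩ := exists_cpt hE h3 (fun x => exp_of_TP d x) d W w
  have hE' : ¬ p ∣ Fintype.card E := fun h => hE ((CharP.cast_eq_zero_iff K p _).2 h)
  have h1 := card_J (fun x => exp_of_TP d x) (ac_free act hp hP hE' hfree) c hI
  rw [← h1, ← w.card, Nat.card_eq_fintype_card, ← Fintype.card_coe]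
  refine Fintype.card_congr (Equiv.subtypeEquivRight fun X => ?_)
  exact (hJ X).symm

end Pool.Agent.Two
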