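import Pool.Agent.Two.BTr
import Pool.Agent.Evn.WMb
import Pool.Agent.Lrg.Fix

/-!
# Multiplicities on the corners of a semisimple algebra
-/

set_option autoImplicit false
set_option linter.unusedSectionVars false

namespace Pool.Agent.Two

open Pool.Agent.K9 Pool.Agent.Fdf Pool.Agent.Evn Pool.Agent.Lrg Pool.Agent.SigO

variable {K R : Type} [Field K] [Ring R] [Algebra K R]

-- BEGIN mu_fcn
/-- (mu_fcn) The eigenvalue `1`: both sides are the dimension of the same subspace. -/
theorem mu_fcn (κ : R ≃ₐ[K] R) (Φ : R →ₗ[K] R) (hΦ : ∀ x, Φ x = κ x) (e f : R) :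
    mu Φ (cnr K e f) 1 = Module.finrank K (fcn κ e f) := by
  have h : cnr K e f ⊓ Module.End.eigenspace Φ 1 = fcn κ e f := by
    ext x
    rw [Submodule.mem_inf, Module.End.mem_eigenspace_iff, mem_fcn, mem_cnr, hΦ, one_smul]
  unfold mu
  rw [h]
-- END mu_fcn

-- BEGIN mu_right
/-- (mu_right) Right multiplication with `r'` maps `e R f` to `e R f'`, the inverse is the right multiplication with `r`. Use `mu_equiv`. -/
theorem mu_right (Φ : R →ₗ[K] R) (e f f' r r' : R) (hf : f * f = f) (hf' : f' * f' = f') (h1 : r * r' = f)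
    (h2 : r' * r = f') (h3 : f * r = r) (h4 : r * f' = r) (h5 : f' * r' = r') (h6 : r' * f = r')
    (hΦ : ∀ x, Φ (x * r) = Φ x * r) (hst : ∀ x ∈ cnr K e f, Φ x ∈ cnr K e f) (z : K) :
    mu Φ (cnr K e f') z = mu Φ (cnr K e f) z := by
  refine mu_equiv Φ Φ (cnr K e f) (cnr K e f') (LinearMap.mulRight K r) ?_ hst ?_ ?_ ?_ z
  · intro v hv
    rw [mem_cnr] at hv
    rw [mem_cnr, LinearMap.mulRight_apply]
    calc e * (v * r) * f' = e * v * (r * f') := by simp only [mul_assoc]
      _ = e * v * (f * r) := by rw [h4, h3]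
      _ = (e * v * f) * r := by simp only [mul_assoc]
      _ = v * r := by rw [hv]
  · intro v _
    rw [LinearMap.mulRight_apply, LinearMap.mulRight_apply, hΦ]
  · intro v hv h0
    rw [mem_cnr] at hv
    rw [LinearMap.mulRight_apply] at h0
    have hvf : v * f = v := by
      calc v * f = (e * v * f) * f := by rw [hv]
        _ = e * v * (f * f) := by simp only [mul_assoc]
        _ = v := by rw [hf, hv]
    calc v = v * f := hvf.symm
      _ = (v * r) * r' := by rw [mul_assoc, h1]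
      _ = 0 := by rw [h0, zero_mul]
  · intro v' hv'
    rw [mem_cnr] at hv'
    have hvf : v' * f' = v' := by
      calc v' * f' = (e * v' * f') * f' := by rw [hv']
        _ = e * v' * (f' * f') := by simp only [mul_assoc]
        _ = v' := by rw [hf', hv']
    refine ⟨v' * r', ?_, ?_⟩
    · rw [mem_cnr]
      calc e * (v' * r') * f = e * v' * (r' * f) := by simp only [mul_assoc]
        _ = e * v' * (f' * r') := by rw [h6, h5]
        _ = (e * v' * f') * r' := by simp only [mul_assoc]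
        _ = v' * r' := by rw [hv']
    · rw [LinearMap.mulRight_apply, mul_assoc, h2, hvf]
-- END mu_right

-- BEGIN mu_left
/-- (mu_left) Left multiplication with `r'` maps `e R f` to `e' R f`, the inverse is the left multiplication with `r`. Use `mu_equiv`. -/
theorem mu_left (Φ : R →ₗ[K] R) (e e' f r r' : R) (he : e * e = e) (he' : e' * e' = e') (h1 : r * r' = e)
    (h2 : r' * r = e') (h3 : e * r = r) (h4 : r * e' = r) (h5 : e' * r' = r') (h6 : r' * e = r')
    (hΦ : ∀ x, Φ (r' * x) = r' * Φ x) (hst : ∀ x ∈ cnr K e f, Φ x ∈ cnr K e f) (z : K) :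
    mu Φ (cnr K e' f) z = mu Φ (cnr K e f) z := by
  refine mu_equiv Φ Φ (cnr K e f) (cnr K e' f) (LinearMap.mulLeft K r') ?_ hst ?_ ?_ ?_ z
  · intro v hv
    rw [mem_cnr] at hv
    rw [mem_cnr, LinearMap.mulLeft_apply]
    calc e' * (r' * v) * f = (e' * r') * v * f := by simp only [mul_assoc]
      _ = (r' * e) * v * f := by rw [h5, h6]
      _ = r' * (e * v * f) := by simp only [mul_assoc]
      _ = r' * v := by rw [hv]
  · intro v _
    rw [LinearMap.mulLeft_apply, LinearMap.mulLeft_apply, hΦ]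
  · intro v hv h0
    rw [mem_cnr] at hv
    rw [LinearMap.mulLeft_apply] at h0
    have hev : e * v = v := by
      calc e * v = e * (e * v * f) := by rw [hv]
        _ = (e * e) * v * f := by simp only [mul_assoc]
        _ = v := by rw [he, hv]
    calc v = e * v := hev.symm
      _ = r * (r' * v) := by rw [← mul_assoc, h1]
      _ = 0 := by rw [h0, mul_zero]
  · intro v' hv'
    rw [mem_cnr] at hv'
    have hev : e' * v' = v' := by
      calc e' * v' = e' * (e' * v' * f) := by rw [hv']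
        _ = (e' * e') * v' * f := by simp only [mul_assoc]
        _ = v' := by rw [he', hv']
    refine ⟨r * v', ?_, ?_⟩
    · rw [mem_cnr]
      calc e * (r * v') * f = (e * r) * v' * f := by simp only [mul_assoc]
        _ = (r * e') * v' * f := by rw [h3, h4]
        _ = r * (e' * v' * f) := by simp only [mul_assoc]
        _ = r * v' := by rw [hv']
    · rw [LinearMap.mulLeft_apply, ← mul_assoc, h2, hev]
-- END mu_left

-- BEGIN mu_cen
/-- (mu_cen) A SUM OF CENTRAL IDEMPOTENTS. `c + c' = 1`, `c` central, `Φ (c x) = c Φ x`: `e R f` is the direct sum of `c e R c f` and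
`c' e R c' f` (compare `Evn.w13_split`); an eigenvector `x` is `c x + c' x`, both are eigenvectors. -/
theorem mu_cen [FiniteDimensional K R] (Φ : R →ₗ[K] R) (c e f : R) (hc : c * c = c) (hcc : ∀ x, c * x = x * c)
    (hΦ : ∀ x, Φ (c * x) = c * Φ x) (z : K) :
    mu Φ (cnr K e f) z = mu Φ (cnr K (c * e) (c * f)) z + mu Φ (cnr K ((1 - c) * e) ((1 - c) * f)) z := by
  have hd : (1 - c) * (1 - c) = 1 - c := by
    rw [mul_sub, mul_one, sub_mul, one_mul, hc, sub_self, sub_zero]
  have hdc : ∀ x, (1 - c) * x = x * (1 - c) := fun x => by rw [sub_mul, mul_sub, one_mul, mul_one, hcc]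
  have hcd : c * (1 - c) = 0 := by rw [mul_sub, mul_one, hc, sub_self]
  have hdc0 : (1 - c) * c = 0 := by rw [sub_mul, one_mul, hc, sub_self]
  have hdΦ : ∀ x, Φ ((1 - c) * x) = (1 - c) * Φ x := fun x => by
    rw [sub_mul, one_mul, map_sub, hΦ, sub_mul, one_mul]
  have key : ∀ (c : R), c * c = c → (∀ x, c * x = x * c) → ∀ x, (c * e) * x * (c * f) = c * (e * x * f) := by
    intro c h1 h2 x
    calc (c * e) * x * (c * f) = c * (e * x * c * f) := by simp only [mul_assoc]
      _ = c * (e * (x * c) * f) := by simp only [mul_assoc]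
      _ = c * (e * (c * x) * f) := by rw [h2 x]
      _ = c * ((e * c) * x * f) := by simp only [mul_assoc]
      _ = c * ((c * e) * x * f) := by rw [h2 e]
      _ = (c * c) * (e * x * f) := by simp only [mul_assoc]
      _ = c * (e * x * f) := by rw [h1]
  have mem : ∀ (c : R), c * c = c → (∀ x, c * x = x * c) → (∀ x, Φ (c * x) = c * Φ x) →
      ∀ x ∈ cnr K e f ⊓ Module.End.eigenspace Φ z,
      c * x ∈ cnr K (c * e) (c * f) ⊓ Module.End.eigenspace Φ z := by
    intro c h1 h2 h3 x hx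
    obtain ⟨hx1, hx2⟩ := Submodule.mem_inf.1 hx
    rw [mem_cnr] at hx1
    rw [Module.End.mem_eigenspace_iff] at hx2
    refine Submodule.mem_inf.2 ⟨?_, ?_⟩
    · rw [mem_cnr, key c h1 h2]
      have : e * (c * x) * f = c * (e * x * f) := by
        calc e * (c * x) * f = (e * c) * x * f := by simp only [mul_assoc]
          _ = (c * e) * x * f := by rw [h2 e]
          _ = c * (e * x * f) := by simp only [mul_assoc]
      rw [this, ← mul_assoc, h1, hx1]
    · rw [Module.End.mem_eigenspace_iff, h3, hx2, mul_smul_comm]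
  have mem2 : ∀ (c : R), c * c = c → (∀ x, c * x = x * c) →
      ∀ x ∈ cnr K (c * e) (c * f) ⊓ Module.End.eigenspace Φ z,
      x ∈ cnr K e f ⊓ Module.End.eigenspace Φ z ∧ c * x = x := by
    intro c h1 h2 x hx
    obtain ⟨hx1, hx2⟩ := Submodule.mem_inf.1 hx
    rw [mem_cnr] at hx1
    have h3 : c * x = x := by
      rw [key c h1 h2] at hx1
      rw [← hx1, ← mul_assoc, h1]
    refine ⟨Submodule.mem_inf.2 ⟨?_, hx2⟩, h3⟩
    have h4 : e * x * f = c * (e * x * f) := by
      calc e * x * f = e * (c * x) * f := by rw [h3]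
        _ = (e * c) * x * f := by simp only [mul_assoc]
        _ = (c * e) * x * f := by rw [h2 e]
        _ = c * (e * x * f) := by simp only [mul_assoc]
    rw [mem_cnr, h4, ← key c h1 h2, hx1]
  unfold mu
  rw [← Module.finrank_prod]
  refine LinearEquiv.finrank_eq (LinearEquiv.ofBijective
    (LinearMap.prod
      ((LinearMap.mulLeft K c).restrict (mem c hc hcc hΦ))
      ((LinearMap.mulLeft K (1 - c)).restrict (mem (1 - c) hd hdc hdΦ))) ⟨?_, ?_⟩)
  · rw [← LinearMap.ker_eq_bot, LinearMap.ker_eq_bot']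
    intro x hx
    have h1 : c * (x : R) = 0 := congrArg (fun z => (z.1 : R)) hx
    have h2 : (1 - c) * (x : R) = 0 := congrArg (fun z => (z.2 : R)) hx
    apply Subtype.ext
    show (x : R) = 0
    rw [sub_mul, one_mul, h1, sub_zero] at h2
    exact h2
  · rintro ⟨⟨y, hy⟩, ⟨w, hw⟩⟩
    obtain ⟨hy1, hy2⟩ := mem2 c hc hcc y hy
    obtain ⟨hw1, hw2⟩ := mem2 (1 - c) hd hdc w hw
    refine ⟨⟨y + w, Submodule.add_mem _ hy1 hw1⟩, ?_⟩
    refine Prod.ext (Subtype.ext ?_) (Subtype.ext ?_)
    · show c * (y + w) = y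
      rw [mul_add, hy2, ← hw2, ← mul_assoc, hcd, zero_mul, add_zero]
    · show (1 - c) * (y + w) = w
      rw [mul_add, hw2, ← hy2, ← mul_assoc, hdc0, zero_mul, zero_add]
-- END mu_cen

-- BEGIN mu_dec
/-- (mu_dec) Induction on `J` with `mu_cen`, compare the proof of `Evn.w13_dec` (word for word). -/
theorem mu_dec [FiniteDimensional K R] (W : WM K R) (Φ : R →ₗ[K] R) (e f : R) (J : Finset W.ι)
    (hJ : ∀ i ∈ J, ∀ x, Φ (W.ε i * x) = W.ε i * Φ x) (z : K) :
    mu Φ (cnr K e f) z = ∑ i ∈ J, mu Φ (cnr K (W.ε i * e) (W.ε i * f)) z +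
      mu Φ (cnr K ((1 - ∑ i ∈ J, W.ε i) * e) ((1 - ∑ i ∈ J, W.ε i) * f)) z := by
  induction J using Finset.induction_on with
  | empty => rw [Finset.sum_empty, Finset.sum_empty, zero_add, sub_zero, one_mul, one_mul]
  | insert j J hj ih =>
    have h1 : ∀ i ∈ J, ∀ x, Φ (W.ε i * x) = W.ε i * Φ x := fun i hi =>
      hJ i (Finset.mem_insert_of_mem hi)
    have h2 := hJ j (Finset.mem_insert_self j J)
    have h3 : ∀ x, W.ε j * ((1 - ∑ i ∈ J, W.ε i) * x) = W.ε j * x := by
      intro x
      rw [← mul_assoc, mul_sub, mul_one, w13_es W J hj, sub_zero]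
    have h4 : ∀ x, (1 - W.ε j) * ((1 - ∑ i ∈ J, W.ε i) * x) = (1 - (W.ε j + ∑ i ∈ J, W.ε i)) * x := by
      intro x
      rw [← mul_assoc, sub_mul, one_mul, mul_sub, mul_one, w13_es W J hj, sub_zero]
      congr 1
      abel
    rw [ih h1, Finset.sum_insert hj, Finset.sum_insert hj,
      mu_cen Φ (W.ε j) ((1 - ∑ i ∈ J, W.ε i) * e) ((1 - ∑ i ∈ J, W.ε i) * f) (w13_ee W j) (w13_ec W j) h2,
      h3, h3, h4, h4]
    ring
-- END mu_dec

-- BEGIN mu_comp
/-- (mu_comp) ONE COMPONENT. `x ↦ W.φ x i` is an isomorphism from `ε_i e R ε_i f` onto the matrices `y` with `e_i y f_i = y` (the inverse is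
`Evn.w13_L`, see `w13_L_phi, w13_L_eps, w13_L_sand`), it intertwines `Φ` and `y ↦ M y N'`; use `mu_equiv` (with `V = R`, `V' =` matrices) and
`mu_hom`. -/
theorem mu_comp {p : ℕ} [Fact p.Prime] (hc : CharP K p) (W : WM K R) (Φ : R →ₗ[K] R) (i : W.ι)
    (M N N' : Matrix (Fin (W.d i)) (Fin (W.d i)) K) (hM : M ^ (p - 1) = 1) (hN : N ^ (p - 1) = 1) (hN' : N * N' = 1)
    (hΦ : ∀ x, W.φ (Φ x) i = M * W.φ x i * N') (hΦε : ∀ x, Φ (W.ε i * x) = W.ε i * Φ x) (e f : R)
    (he : e * e = e) (hf : f * f = f) (hMe : M * W.φ e i = W.φ e i * M) (hNf : N * W.φ f i = W.φ f i * N)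
    (c : (ZMod p)ˣ) :
    mu Φ (cnr K (W.ε i * e) (W.ε i * f)) (fpc K hc c) =
      ∑ d : (ZMod p)ˣ, mu M.mulVecLin (LinearMap.range (W.φ e i).mulVecLin) (fpc K hc (c * d)) *
        mu N.mulVecLin (LinearMap.range (W.φ f i).mulVecLin) (fpc K hc d) := by
  have hEe : W.φ e i * W.φ e i = W.φ e i := by
    have h := congrArg (fun y => W.φ y i) he
    simpa only [map_mul, Pi.mul_apply] using h
  have hFf : W.φ f i * W.φ f i = W.φ f i := by
    have h := congrArg (fun y => W.φ y i) hf
    simpa only [map_mul, Pi.mul_apply] using h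
  have hεi : W.φ (W.ε i) i = 1 := by
    have h : W.ε i = w13_L W i 1 := rfl
    rw [h, w13_L_phi]
  -- the component map
  let r : R →ₗ[K] Matrix (Fin (W.d i)) (Fin (W.d i)) K :=
    { toFun := fun x => W.φ x i
      map_add' := fun x y => by rw [map_add, Pi.add_apply]
      map_smul' := fun a x => by rw [map_smul, Pi.smul_apply, RingHom.id_apply] }
  let Φ' : Matrix (Fin (W.d i)) (Fin (W.d i)) K →ₗ[K] Matrix (Fin (W.d i)) (Fin (W.d i)) K :=
    { toFun := fun x => M * x * N'
      map_add' := fun x y => by rw [mul_add, add_mul]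
      map_smul' := fun a x => by rw [RingHom.id_apply, Matrix.mul_smul, Matrix.smul_mul] }
  let U' : Submodule K (Matrix (Fin (W.d i)) (Fin (W.d i)) K) := cnr K (W.φ e i) (W.φ f i)
  have hU' : ∀ x, x ∈ U' ↔ W.φ e i * x * W.φ f i = x := fun x => Iff.rfl
  have hN1 : N' * N = 1 := mul_eq_one_comm.1 hN'
  have hεe : W.φ (W.ε i * e) i = W.φ e i := by rw [map_mul, Pi.mul_apply, hεi, one_mul]
  have hεf : W.φ (W.ε i * f) i = W.φ f i := by rw [map_mul, Pi.mul_apply, hεi, one_mul]
  have hsand : ∀ y, W.ε i * (W.ε i * e * y * (W.ε i * f)) = W.ε i * e * y * (W.ε i * f) := by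
    intro y
    calc W.ε i * (W.ε i * e * y * (W.ε i * f)) = (W.ε i * W.ε i) * (e * y * (W.ε i * f)) := by
          simp only [mul_assoc]
      _ = W.ε i * (e * y * (W.ε i * f)) := by rw [w13_ee]
      _ = W.ε i * e * y * (W.ε i * f) := by simp only [mul_assoc]
  have hcm : ∀ x ∈ cnr K (W.ε i * e) (W.ε i * f), W.ε i * x = x := by
    intro x hx
    have h1 : W.ε i * e * x * (W.ε i * f) = x := hx
    have h2 := hsand x
    rwa [h1] at h2
  have hr : ∀ x ∈ cnr K (W.ε i * e) (W.ε i * f), W.φ e i * W.φ x i * W.φ f i = W.φ x i := by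
    intro x hx
    have h1 : W.ε i * e * x * (W.ε i * f) = x := hx
    have h2 : W.φ (W.ε i * e * x * (W.ε i * f)) i = W.φ x i := congrArg (fun y => W.φ y i) h1
    rwa [map_mul, Pi.mul_apply, hεf, map_mul, Pi.mul_apply, hεe] at h2
  have hN'f : N' * W.φ f i = W.φ f i * N' := by
    calc N' * W.φ f i = N' * W.φ f i * (N * N') := by rw [hN', mul_one]
      _ = N' * (W.φ f i * N) * N' := by simp only [mul_assoc]
      _ = N' * (N * W.φ f i) * N' := by rw [hNf]
      _ = W.φ f i * N' := by rw [← mul_assoc N', hN1, one_mul]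
  have key := mu_hom hc M N N' hM hN hN' (W.φ e i) (W.φ f i) hEe hFf hMe hNf Φ' (fun x => rfl) U' hU' c
  rw [← key]
  symm
  refine mu_equiv Φ Φ' (cnr K (W.ε i * e) (W.ε i * f)) U' r (fun x hx => hr x hx) ?_ (fun x _ => (hΦ x).symm) ?_ ?_
    (fpc K hc c)
  · intro x hx
    have h1 : W.ε i * Φ x = Φ x := by rw [← hΦε, hcm x hx]
    have h2 := hsand (Φ x)
    show W.ε i * e * Φ x * (W.ε i * f) = Φ x
    rw [← w13_L_eps W i h2, ← w13_L_eps W i h1]
    refine congrArg (w13_L W i) ?_
    rw [w13_L_eps W i h1, map_mul, Pi.mul_apply, hεf, map_mul, Pi.mul_apply, hεe, hΦ]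
    calc W.φ e i * (M * W.φ x i * N') * W.φ f i = (W.φ e i * M) * W.φ x i * (N' * W.φ f i) := by
          simp only [mul_assoc]
      _ = (M * W.φ e i) * W.φ x i * (W.φ f i * N') := by rw [hMe, hN'f]
      _ = M * (W.φ e i * W.φ x i * W.φ f i) * N' := by simp only [mul_assoc]
      _ = M * W.φ x i * N' := by rw [hr x hx]
  · intro x hx h0
    have h1 : W.φ x i = 0 := h0
    rw [← w13_L_eps W i (hcm x hx), h1, map_zero]
  · intro y hy
    refine ⟨w13_L W i y, ?_, w13_L_phi W i y⟩
    show W.ε i * e * w13_L W i y * (W.ε i * f) = w13_L W i y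
    rw [w13_L_sand, hεe, hεf, (hU' y).1 hy]
-- END mu_comp

-- BEGIN alt_pos
/-- idempotent matrices of the same rank are equivalent -/
private theorem alt_pos_equiv {n : ℕ} (P Q : Matrix (Fin n) (Fin n) K) (hP : P * P = P)
    (hQ : Q * Q = Q) (h : P.rank = Q.rank) :
    ∃ A B : Matrix (Fin n) (Fin n) K, A * B = P ∧ B * A = Q := by
  have e : LinearMap.range Q.mulVecLin ≃ₗ[K] LinearMap.range P.mulVecLin :=
    LinearEquiv.ofFinrankEq _ _ h.symm
  have hPr : ∀ w : LinearMap.range P.mulVecLin, P.mulVecLin.rangeRestrict (w : Fin n → K) = w := by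
    rintro ⟨_, v, rfl⟩
    apply Subtype.ext
    show P.mulVec (P.mulVec v) = P.mulVec v
    rw [Matrix.mulVec_mulVec, hP]
  have hQr : ∀ w : LinearMap.range Q.mulVecLin, Q.mulVecLin.rangeRestrict (w : Fin n → K) = w := by
    rintro ⟨_, v, rfl⟩
    apply Subtype.ext
    show Q.mulVec (Q.mulVec v) = Q.mulVec v
    rw [Matrix.mulVec_mulVec, hQ]
  let a : (Fin n → K) →ₗ[K] (Fin n → K) :=
    (LinearMap.range P.mulVecLin).subtype ∘ₗ e.toLinearMap ∘ₗ Q.mulVecLin.rangeRestrict
  let b : (Fin n → K) →ₗ[K] (Fin n → K) :=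
    (LinearMap.range Q.mulVecLin).subtype ∘ₗ e.symm.toLinearMap ∘ₗ P.mulVecLin.rangeRestrict
  refine ⟨LinearMap.toMatrix' a, LinearMap.toMatrix' b, ?_, ?_⟩
  · rw [← LinearMap.toMatrix'_comp]
    have h1 : a ∘ₗ b = P.mulVecLin := by
      apply LinearMap.ext
      intro v
      show ((e (Q.mulVecLin.rangeRestrict
        ((e.symm (P.mulVecLin.rangeRestrict v) : LinearMap.range Q.mulVecLin) : Fin n → K)) :
          LinearMap.range P.mulVecLin) : Fin n → K) = P.mulVecLin v
      rw [hQr, e.apply_symm_apply]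
      rfl
    rw [h1]
    exact LinearMap.toMatrix'_toLin' P
  · rw [← LinearMap.toMatrix'_comp]
    have h1 : b ∘ₗ a = Q.mulVecLin := by
      apply LinearMap.ext
      intro v
      show ((e.symm (P.mulVecLin.rangeRestrict
        ((e (Q.mulVecLin.rangeRestrict v) : LinearMap.range P.mulVecLin) : Fin n → K)) :
          LinearMap.range Q.mulVecLin) : Fin n → K) = Q.mulVecLin v
      rw [hPr, e.symm_apply_apply]
      rfl
    rw [h1]
    exact LinearMap.toMatrix'_toLin' Q

private theorem alt_pos_key {n : ℕ} (P Q M N : Matrix (Fin n) (Fin n) K) (hP : P * P = P) (hM : P = M * N)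
    (hN : Q = N * M) : P.rank ≤ Q.rank := by
  have h6 : P = M * (Q * N) := by
    conv_lhs => rw [← hP, hM]
    rw [hN]
    simp only [Matrix.mul_assoc]
  rw [h6]
  exact (Matrix.rank_mul_le_right _ _).trans (Matrix.rank_mul_le_left _ _)

private theorem alt_pos_fcn (κ : R ≃ₐ[K] R) (B : Subalgebra K R) (hB : ∀ x, x ∈ B ↔ κ x = x) (e f : B) :
    Module.finrank K (fcn κ (e : R) (f : R)) = Module.finrank K (cnr K e f) := by
  refine LinearEquiv.finrank_eq
    { toFun := fun x => ⟨⟨(x : R), (hB _).2 (mem_fcn.1 x.2).2⟩, by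
        rw [mem_cnr]
        exact Subtype.ext (mem_fcn.1 x.2).1⟩
      invFun := fun x => ⟨((x : B) : R), by
        rw [mem_fcn]
        exact ⟨congrArg (fun t : B => (t : R)) (mem_cnr.1 x.2), (hB _).1 (x : B).2⟩⟩
      map_add' := fun a b => rfl
      map_smul' := fun c a => rfl
      left_inv := fun z => rfl
      right_inv := fun z => rfl }

/-- the fixed algebra of an automorphism of finite order prime to the characteristic -/
private theorem alt_pos_ss [FiniteDimensional K R] (W : WM K R) (κ : R ≃ₐ[K] R) {s : ℕ} (hs : (s : K) ≠ 0)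
    (hκ : ∀ x, κ^[s] x = x) (B : Subalgebra K R) (hB : ∀ x, x ∈ B ↔ κ x = x) : IsSemisimpleRing B := by
  have hs0 : 0 < s := Nat.pos_of_ne_zero (by
    rintro rfl
    exact hs Nat.cast_zero)
  have hpow : ∀ (n : ℕ) (x : R), (κ ^ n) x = κ^[n] x := by
    intro n
    induction n with
    | zero => exact fun x => rfl
    | succ n ih =>
      intro x
      rw [pow_succ, Function.iterate_succ_apply, ← ih]
      rfl
  have hks : κ ^ s = 1 := AlgEquiv.ext fun x => by
    rw [hpow, hκ]
    rfl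
  have hfin : Finite (Subgroup.zpowers κ) := by
    have h1 : IsOfFinOrder κ := isOfFinOrder_iff_pow_eq_one.2 ⟨s, hs0, hks⟩
    exact (finite_zpowers.2 h1).to_subtype
  have : Fintype (Subgroup.zpowers κ) := Fintype.ofFinite _
  have hcard : (Fintype.card (Subgroup.zpowers κ) : K) ≠ 0 := by
    rw [← Nat.card_eq_fintype_card, Nat.card_zpowers]
    obtain ⟨t, ht⟩ := orderOf_dvd_of_pow_eq_one hks
    intro h0
    apply hs
    rw [ht, Nat.cast_mul, h0, zero_mul]
  refine fix_ss W hcard (Subgroup.zpowers κ).subtype B fun x => ?_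
  rw [hB]
  constructor
  · intro hx h
    have h1 : Subgroup.zpowers κ ≤ MulAction.stabilizer (R ≃ₐ[K] R) x := by
      rw [Subgroup.zpowers_le, MulAction.mem_stabilizer_iff]
      exact hx
    exact MulAction.mem_stabilizer_iff.1 (h1 h.2)
  · intro h
    exact h ⟨κ, Subgroup.mem_zpowers κ⟩

/-- (alt_pos) As `Evn.alt_nonneg`, with a strict inequality. `B` = fixed algebra of `κ`, semisimple (`Lrg.fix_ss` for the group `Multiplicative (ZMod s)` or
the cyclic group generated by `κ`, or copy the private `w12_ss`), `V : WM K B` (`exists_WM`), the alternating sum is `∑_z (rk_z e - rk_z f) ^ 2`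
(see the beginning of the proof of `Lrg.gcount`, which is this for a group `H`: `gcount_fcn`, `V.finrank_cnr`). If it is `0` then all the ranks
agree, so `e = a b`, `f = b a` in `B` (matrices of the same rank in every component, compare the private lemma `gcount_equiv` of `Lrg/Fix.lean`), and
`a, b` are in `R`: the ranks of `e` and `f` in all components of `W` agree (`e = a f b`, `f = b e a`, `Matrix.rank_mul_le`). -/
theorem alt_pos [IsAlgClosed K] [FiniteDimensional K R] (W : WM K R) (κ : R ≃ₐ[K] R) {s : ℕ} (hs : (s : K) ≠ 0)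
    (hκ : ∀ x, κ^[s] x = x) (e f : R) (he : e * e = e) (hf : f * f = f) (hke : κ e = e) (hkf : κ f = f)
    (hne : ∃ i, W.rk i e ≠ W.rk i f) :
    (1 : ℤ) ≤ Module.finrank K (fcn κ e e) - Module.finrank K (fcn κ e f) - Module.finrank K (fcn κ f e) +
      Module.finrank K (fcn κ f f) := by
  classical
  obtain ⟨B, hB⟩ : ∃ B : Subalgebra K R, ∀ x, x ∈ B ↔ κ x = x :=
    ⟨{ carrier := {x | κ x = x}
       mul_mem' := fun {a b} ha hb => by
         show κ (a * b) = a * b
         rw [map_mul, ha, hb]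
       add_mem' := fun {a b} ha hb => by
         show κ (a + b) = a + b
         rw [map_add, ha, hb]
       algebraMap_mem' := fun r => AlgEquiv.commutes _ r }, fun x => Iff.rfl⟩
  obtain ⟨V⟩ := exists_WM (K := K) (R := B) (alt_pos_ss W κ hs hκ B hB)
  obtain ⟨e', he'⟩ : ∃ e' : B, (e' : R) = e := ⟨⟨e, (hB e).2 hke⟩, rfl⟩
  obtain ⟨f', hf'⟩ : ∃ f' : B, (f' : R) = f := ⟨⟨f, (hB f).2 hkf⟩, rfl⟩
  have hee : e' * e' = e' := Subtype.ext (by
    show (e' : R) * e' = e'
    rw [he', he])
  have hff : f' * f' = f' := Subtype.ext (by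
    show (f' : R) * f' = f'
    rw [hf', hf])
  have hR : (Module.finrank K (fcn κ e e) : ℤ) - Module.finrank K (fcn κ e f) -
      Module.finrank K (fcn κ f e) + Module.finrank K (fcn κ f f) =
        ∑ z, ((V.rk z e' : ℤ) - V.rk z f') ^ 2 := by
    have h1 := alt_pos_fcn κ B hB e' e'
    have h2 := alt_pos_fcn κ B hB e' f'
    have h3 := alt_pos_fcn κ B hB f' e'
    have h4 := alt_pos_fcn κ B hB f' f'
    rw [he'] at h1
    rw [he', hf'] at h2
    rw [he', hf'] at h3
    rw [hf'] at h4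
    rw [h1, h2, h3, h4, V.finrank_cnr hee hee, V.finrank_cnr hee hff, V.finrank_cnr hff hee,
      V.finrank_cnr hff hff]
    push_cast
    rw [← Finset.sum_sub_distrib, ← Finset.sum_sub_distrib, ← Finset.sum_add_distrib]
    exact Finset.sum_congr rfl fun z _ => by ring
  rw [hR]
  by_contra hlt
  have h0 : ∑ z, ((V.rk z e' : ℤ) - V.rk z f') ^ 2 = 0 :=
    le_antisymm (by omega) (Finset.sum_nonneg fun z _ => sq_nonneg _)
  have hz : ∀ z, V.rk z e' = V.rk z f' := by
    intro z
    have h1 := (Finset.sum_eq_zero_iff_of_nonneg fun z _ => sq_nonneg _).1 h0 z (Finset.mem_univ z)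
    have h2 := sub_eq_zero.1 (pow_eq_zero_iff two_ne_zero |>.1 h1)
    exact_mod_cast h2
  have hrk : ∀ z, ∃ A A' : Matrix (Fin (V.d z)) (Fin (V.d z)) K,
      A * A' = V.φ e' z ∧ A' * A = V.φ f' z := by
    intro z
    refine alt_pos_equiv _ _ ?_ ?_ (hz z)
    · rw [← Pi.mul_apply, ← map_mul, hee]
    · rw [← Pi.mul_apply, ← map_mul, hff]
  choose A A' hA hA' using hrk
  have h1 : V.φ.symm A * V.φ.symm A' = e' := by
    apply V.φ.injective
    rw [map_mul, AlgEquiv.apply_symm_apply, AlgEquiv.apply_symm_apply]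
    exact funext hA
  have h2 : V.φ.symm A' * V.φ.symm A = f' := by
    apply V.φ.injective
    rw [map_mul, AlgEquiv.apply_symm_apply, AlgEquiv.apply_symm_apply]
    exact funext hA'
  obtain ⟨i, hi⟩ := hne
  have h4 : W.φ e i = W.φ (V.φ.symm A : R) i * W.φ (V.φ.symm A' : R) i := by
    have h6 : (V.φ.symm A : R) * (V.φ.symm A' : R) = (e' : R) := congrArg Subtype.val h1
    rw [← he', ← h6, map_mul, Pi.mul_apply]
  have h5 : W.φ f i = W.φ (V.φ.symm A' : R) i * W.φ (V.φ.symm A : R) i := by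
    have h6 : (V.φ.symm A' : R) * (V.φ.symm A : R) = (f' : R) := congrArg Subtype.val h2
    rw [← hf', ← h6, map_mul, Pi.mul_apply]
  refine hi (le_antisymm ?_ ?_)
  · exact alt_pos_key _ _ _ _ (by rw [← Pi.mul_apply, ← map_mul, he]) h4 h5
  · exact alt_pos_key _ _ _ _ (by rw [← Pi.mul_apply, ← map_mul, hf]) h5 h4
-- END alt_pos

end Pool.Agent.Two
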