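import Pool.Agent.Two.PairDef
import Pool.Agent.Two.PairA
import Pool.Agent.Lrg.FcnG

/-!
# The pair identity and the comparison of the points of the two parts
-/

set_option autoImplicit false
set_option linter.unusedSectionVars false

namespace Pool.Agent.Two

open Pool.Agent.Sig Pool.Agent.K9 Pool.Agent.Sqf Pool.Agent.Fdf Pool.Agent.Evn Pool.Agent.Lrg Pool.Agent.SigO

variable {K P E A T : Type} [Field K] [CommGroup P] [Fintype P] [Group E] [Fintype E] {act : E →* MulAut P}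
  [Fintype T] {p : ℕ} {hp : p.Prime} {hc : CharP K p} {D : TP K act T p} [Ring A] [Algebra K A]
  {S : StEq K P E act A} (d : Dat hp hc D S) [DecidableEq (D.L1 hp hc).Y]

-- BEGIN fx
/-- (fx) `Φ g h τ` on the idempotents: if `κ = (g, τ)` fixes `a` then `g Ψ_τ(e_a) = e_a g`; `Z.gy_ey X γ y : gy γ * ey y * gy γ⁻¹ = ey (sm γ y)`,
`Ps_ey`; `Z.gy_inv`, `Z.gy_inv'`. The last one: `Φ^(p-1) = 1`: `Φ^j x = g^j Ψ_(τ^j)(x) h^(-j)` (induction), `τ ^ (p - 1) = 1` in `Tor p`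
(`Fin 2 → (ZMod p)ˣ`, Fermat: `ZMod.units_pow_card_sub_one_eq_one`). -/
theorem fx_mul (g h : E) (τ : Tor p) (x y : d.Z.DA.Al) : d.Φ g h τ (x * y) = d.Φ g g τ x * d.Φ g h τ y := by
  rw [Dat.Φ_apply, Dat.Φ_apply, Dat.Φ_apply, map_mul]
  have h1 := d.Z.gy_inv' g
  calc d.Z.gy g * (d.Ps τ x * d.Ps τ y) * d.Z.gy h⁻¹
      = d.Z.gy g * d.Ps τ x * 1 * d.Ps τ y * d.Z.gy h⁻¹ := by simp only [mul_one, mul_assoc]
    _ = d.Z.gy g * d.Ps τ x * (d.Z.gy g⁻¹ * d.Z.gy g) * d.Ps τ y * d.Z.gy h⁻¹ := by rw [h1]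
    _ = d.Z.gy g * d.Ps τ x * d.Z.gy g⁻¹ * (d.Z.gy g * d.Ps τ y * d.Z.gy h⁻¹) := by simp only [mul_assoc]

theorem fx_mul' (g h : E) (τ : Tor p) (x y : d.Z.DA.Al) : d.Φ g h τ (x * y) = d.Φ g h τ x * d.Φ h h τ y := by
  rw [Dat.Φ_apply, Dat.Φ_apply, Dat.Φ_apply, map_mul]
  have h1 := d.Z.gy_inv' h
  calc d.Z.gy g * (d.Ps τ x * d.Ps τ y) * d.Z.gy h⁻¹
      = d.Z.gy g * d.Ps τ x * 1 * d.Ps τ y * d.Z.gy h⁻¹ := by simp only [mul_one, mul_assoc]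
    _ = d.Z.gy g * d.Ps τ x * (d.Z.gy h⁻¹ * d.Z.gy h) * d.Ps τ y * d.Z.gy h⁻¹ := by rw [h1]
    _ = d.Z.gy g * d.Ps τ x * d.Z.gy h⁻¹ * (d.Z.gy h * d.Ps τ y * d.Z.gy h⁻¹) := by simp only [mul_assoc]

theorem fx_ey (g : E) (τ : Tor p) (a : (D.L1 hp hc).Y) (ha : Fx D hp hc g τ a) :
    d.Φ g g τ (d.Z.ey d.X a) = d.Z.ey d.X a := by
  rw [Dat.Φ_apply, d.Ps_ey, d.Z.gy_ey]
  congr 1

theorem fx_y0 (g : E) (τ : Tor p) : Fx D hp hc g τ (D.y0 hp hc) := by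
  unfold Fx
  rw [tY_y0, TP.sm_y0]

/-- `Φ g g τ` as an automorphism -/
theorem fx_aut (g : E) (τ : Tor p) : ∃ κ : d.Z.DA.Al ≃ₐ[K] d.Z.DA.Al, ∀ x, κ x = d.Φ g g τ x := by
  let cg : d.Z.DA.Al →ₐ[K] d.Z.DA.Al :=
    { toFun := fun x => d.Z.gy g * x * d.Z.gy g⁻¹
      map_one' := by rw [mul_one, d.Z.gy_inv]
      map_mul' := fun x y => by
        have h1 := d.Z.gy_inv' g
        calc d.Z.gy g * (x * y) * d.Z.gy g⁻¹ = d.Z.gy g * x * 1 * y * d.Z.gy g⁻¹ := by simp only [mul_one, mul_assoc]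
          _ = d.Z.gy g * x * (d.Z.gy g⁻¹ * d.Z.gy g) * y * d.Z.gy g⁻¹ := by rw [h1]
          _ = d.Z.gy g * x * d.Z.gy g⁻¹ * (d.Z.gy g * y * d.Z.gy g⁻¹) := by simp only [mul_assoc]
      map_zero' := by rw [mul_zero, zero_mul]
      map_add' := fun x y => by rw [mul_add, add_mul]
      commutes' := fun r => by
        rw [← Algebra.commutes r (d.Z.gy g), mul_assoc, d.Z.gy_inv, mul_one] }
  let ci : d.Z.DA.Al →ₐ[K] d.Z.DA.Al :=
    { toFun := fun x => d.Z.gy g⁻¹ * x * d.Z.gy g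
      map_one' := by rw [mul_one, d.Z.gy_inv']
      map_mul' := fun x y => by
        have h1 := d.Z.gy_inv g
        calc d.Z.gy g⁻¹ * (x * y) * d.Z.gy g = d.Z.gy g⁻¹ * x * 1 * y * d.Z.gy g := by simp only [mul_one, mul_assoc]
          _ = d.Z.gy g⁻¹ * x * (d.Z.gy g * d.Z.gy g⁻¹) * y * d.Z.gy g := by rw [h1]
          _ = d.Z.gy g⁻¹ * x * d.Z.gy g * (d.Z.gy g⁻¹ * y * d.Z.gy g) := by simp only [mul_assoc]
      map_zero' := by rw [mul_zero, zero_mul]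
      map_add' := fun x y => by rw [mul_add, add_mul]
      commutes' := fun r => by
        rw [← Algebra.commutes r (d.Z.gy g⁻¹), mul_assoc, d.Z.gy_inv', mul_one] }
  have h12 : cg.comp ci = AlgHom.id K d.Z.DA.Al := by
    apply AlgHom.ext
    intro x
    show d.Z.gy g * (d.Z.gy g⁻¹ * x * d.Z.gy g) * d.Z.gy g⁻¹ = x
    have h1 := d.Z.gy_inv g
    calc d.Z.gy g * (d.Z.gy g⁻¹ * x * d.Z.gy g) * d.Z.gy g⁻¹
        = (d.Z.gy g * d.Z.gy g⁻¹) * x * (d.Z.gy g * d.Z.gy g⁻¹) := by simp only [mul_assoc]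
      _ = x := by rw [h1, one_mul, mul_one]
  have h21 : ci.comp cg = AlgHom.id K d.Z.DA.Al := by
    apply AlgHom.ext
    intro x
    show d.Z.gy g⁻¹ * (d.Z.gy g * x * d.Z.gy g⁻¹) * d.Z.gy g = x
    have h1 := d.Z.gy_inv' g
    calc d.Z.gy g⁻¹ * (d.Z.gy g * x * d.Z.gy g⁻¹) * d.Z.gy g
        = (d.Z.gy g⁻¹ * d.Z.gy g) * x * (d.Z.gy g⁻¹ * d.Z.gy g) := by simp only [mul_assoc]
      _ = x := by rw [h1, one_mul, mul_one]
  exact ⟨(d.Ps τ).trans (AlgEquiv.ofAlgHom cg ci h12 h21), fun x => rfl⟩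

theorem fx_pow [Fact p.Prime] (hexp : ∀ x : E, x ^ (p - 1) = 1) (g h : E) (τ : Tor p) (x : d.Z.DA.Al) :
    (d.Φ g h τ)^[p - 1] x = x := by
  have hj : ∀ j : ℕ, (d.Φ g h τ)^[j] x = d.Z.gy (g ^ j) * d.Ps (τ ^ j) x * d.Z.gy (h⁻¹ ^ j) := by
    intro j
    induction j with
    | zero =>
      rw [Function.iterate_zero, id, pow_zero, pow_zero, pow_zero, d.Z.gy_one, map_one, one_mul, mul_one]
      rfl
    | succ j ih =>
      rw [Function.iterate_succ_apply', ih, Dat.Φ_apply, map_mul, map_mul, Dat.Ps_gy, Dat.Ps_gy]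
      have h1 : d.Ps τ (d.Ps (τ ^ j) x) = d.Ps (τ ^ (j + 1)) x := by
        rw [pow_succ', map_mul]
        rfl
      have h2 : d.Z.gy (h⁻¹ ^ j) * d.Z.gy h⁻¹ = d.Z.gy (h⁻¹ ^ (j + 1)) := by
        rw [d.Z.gy_mul, pow_succ]
      have h3 : d.Z.gy g * d.Z.gy (g ^ j) = d.Z.gy (g ^ (j + 1)) := by
        rw [d.Z.gy_mul, pow_succ']
      rw [h1, ← h2, ← h3]
      simp only [mul_assoc]
  have hτ : τ ^ (p - 1) = 1 := by
    funext i
    rw [Pi.pow_apply, Pi.one_apply]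
    exact ZMod.units_pow_card_sub_one_eq_one p (τ i)
  rw [hj, hexp, hexp, hτ, d.Z.gy_one, map_one, one_mul, mul_one]
  rfl
-- END fx

-- BEGIN mu_corner
section

variable {𝒜 : ℚ → Submodule K A} {L : LinW K act T} {DS : Dfm L.gr (L.n : ℚ)}

open Classical in
/-- the component `γ` of an element of `K[P ⋊ E]` -/
private noncomputable def mc_pr (K : Type) {P E : Type} [Field K] [CommGroup P] [Group E]
    (act : E →* MulAut P) (γ : E) : cAlg K act →ₗ[K] MonoidAlgebra K P :=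
  (MonoidAlgebra.basis (P ⋊[act] E) K).constr K fun g => if g.right = γ then MonoidAlgebra.of K P g.left else 0

open Classical in
private theorem mc_pr_of (γ : E) (g : P ⋊[act] E) :
    mc_pr K act γ (MonoidAlgebra.of K _ g) = if g.right = γ then MonoidAlgebra.of K P g.left else 0 := by
  have h : (MonoidAlgebra.of K (P ⋊[act] E) g : cAlg K act) = (MonoidAlgebra.basis (P ⋊[act] E) K) g := by
    simp [MonoidAlgebra.of_apply]
  rw [h]
  unfold mc_pr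
  rw [Module.Basis.constr_basis]

open Classical in
private theorem mc_pr_mul (s : MonoidAlgebra K P) (γ y : E) :
    mc_pr K act γ (inlK act s * MonoidAlgebra.of K _ (SemidirectProduct.inr y)) = if y = γ then s else 0 := by
  induction s using MonoidAlgebra.induction_linear with
  | zero => rw [map_zero, zero_mul, map_zero, ite_self]
  | add f g hf hg =>
    rw [map_add, add_mul, map_add, hf, hg]
    split_ifs
    · rfl
    · rw [add_zero]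
  | single u c =>
    have h1 : (MonoidAlgebra.single u c : MonoidAlgebra K P) = c • MonoidAlgebra.of K P u := by
      simp [MonoidAlgebra.of_apply]
    rw [h1, map_smul, smul_mul_assoc, map_smul, inlK_of, ← map_mul, mc_pr_of]
    have h2 : (SemidirectProduct.inl u * SemidirectProduct.inr y : P ⋊[act] E).right = y := by
      simp
    have h3 : (SemidirectProduct.inl u * SemidirectProduct.inr y : P ⋊[act] E).left = u := by
      simp
    rw [h2, h3]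
    split_ifs
    · rfl
    · rw [smul_zero]

open Classical in
private theorem mc_exp (a : cAlg K act) :
    a = ∑ γ : E, inlK act (mc_pr K act γ a) * MonoidAlgebra.of K _ (SemidirectProduct.inr γ) := by
  induction a using MonoidAlgebra.induction_linear with
  | zero => simp only [map_zero, zero_mul, Finset.sum_const_zero]
  | add f g hf hg =>
    simp only [map_add, add_mul, Finset.sum_add_distrib]
    rw [← hf, ← hg]
  | single g c =>
    have h1 : (MonoidAlgebra.single g c : MonoidAlgebra K (P ⋊[act] E)) = c • MonoidAlgebra.of K _ g := by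
      simp [MonoidAlgebra.of_apply]
    rw [h1]
    have h2 : ∀ γ : E, inlK act (mc_pr K act γ (c • MonoidAlgebra.of K _ g)) *
        MonoidAlgebra.of K _ (SemidirectProduct.inr γ) =
        if g.right = γ then c • MonoidAlgebra.of K _ g else 0 := by
      intro γ
      rw [map_smul, map_smul, smul_mul_assoc, mc_pr_of]
      by_cases h : g.right = γ
      · rw [if_pos h, if_pos h, ← h, ← of_eq_mulK]
      · rw [if_neg h, if_neg h, map_zero, zero_mul, smul_zero]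
    simp only [h2]
    rw [Finset.sum_ite_eq, if_pos (Finset.mem_univ _)]

private theorem mc_io (S : StEq K P E act A) (g : P ⋊[act] E) : S.io (MonoidAlgebra.of K _ g) = S.ρ g := by
  rw [K9.StEq.io, MonoidAlgebra.lift_of]

private theorem mc_dm (X : Tht L DS) [DecidableEq L.Y] (y : L.Y) (t : MonoidAlgebra K P) :
    DS.m (X.Θ.symm (Pi.single y 1)) t = X.Θ t y • X.Θ.symm (Pi.single y 1) := by
  apply X.Θ.injective
  rw [X.mul, map_smul, LinearEquiv.apply_symm_apply]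
  funext z
  by_cases hz : z = y
  · subst hz
    rw [Pi.mul_apply, Pi.smul_apply, Pi.single_eq_same, one_mul, smul_eq_mul, mul_one]
  · rw [Pi.mul_apply, Pi.smul_apply, Pi.single_eq_of_ne hz, zero_mul, smul_zero]

private theorem mc_dm' (X : Tht L DS) [DecidableEq L.Y] (y : L.Y) (t : MonoidAlgebra K P) :
    DS.m t (X.Θ.symm (Pi.single y 1)) = X.Θ t y • X.Θ.symm (Pi.single y 1) := by
  apply X.Θ.injective
  rw [X.mul, map_smul, LinearEquiv.apply_symm_apply]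
  funext z
  by_cases hz : z = y
  · subst hz
    rw [Pi.mul_apply, Pi.smul_apply, Pi.single_eq_same, mul_one, smul_eq_mul, mul_one]
  · rw [Pi.mul_apply, Pi.smul_apply, Pi.single_eq_of_ne hz, mul_zero, smul_zero]

private theorem mc_th (X : Tht L DS) [DecidableEq L.Y] (y : L.Y) :
    X.Θ (X.Θ.symm (Pi.single y 1)) y = 1 := by
  rw [LinearEquiv.apply_symm_apply, Pi.single_eq_same]

/-- the elements `e_y γ` -/
private theorem mc_eg (Z : Al1 S 𝒜 DS) (X : Tht L DS) [DecidableEq L.Y] (y : L.Y) (γ : E) :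
    Z.ey X y * Z.gy γ = Z.DA.tl (Z.F.Φ (inlK act (X.Θ.symm (Pi.single y 1)) *
      MonoidAlgebra.of K _ (SemidirectProduct.inr γ), 0)) := by
  unfold Al1.ey Al1.gy
  have h1 : S.io (inlK act (X.Θ.symm (Pi.single y 1)) * MonoidAlgebra.of K _ (SemidirectProduct.inr γ)) =
      sA S (X.Θ.symm (Pi.single y 1)) * S.ρ (.inr γ) := by
    rw [map_mul, mc_io]
    rfl
  rw [Dfm.tl_mul, Z.R_y, Z.F.Φ_c, h1]

open TensorProduct in
/-- the elements `e_y u e_y'` -/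
private theorem mc_eu (Z : Al1 S 𝒜 DS) (X : Tht L DS) [DecidableEq L.Y] (y y' : L.Y)
    (s : MonoidAlgebra K P) (u : Z.F.U) (t : MonoidAlgebra K P) :
    Z.ey X y * Z.DA.tl (sA S s * (u : A) * sA S t) * Z.ey X y' =
      (X.Θ s y * X.Θ t y') • Z.DA.tl (Z.F.Φ (0, X.Θ.symm (Pi.single y 1) ⊗ₜ (u ⊗ₜ X.Θ.symm (Pi.single y' 1)))) := by
  unfold Al1.ey
  rw [Dfm.tl_mul, Z.L_s, mc_dm, Dfm.tl_mul, Z.R_s, mc_dm', Z.F.Φ_m, map_smul, map_smul, smul_mul_assoc,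
    smul_mul_assoc, mul_smul_comm, smul_smul, map_smul]

/-- the map `(f, u) ↦ ∑ f γ e_y γ + e_y u e_y'` -/
private noncomputable def mc_psi (Z : Al1 S 𝒜 DS) (X : Tht L DS) [DecidableEq L.Y] (y y' : L.Y) :
    ((E → K) × Z.F.U) →ₗ[K] Z.DA.Al where
  toFun p := ∑ γ, p.1 γ • (Z.ey X y * Z.gy γ) + Z.ey X y * Z.DA.tl (p.2 : A) * Z.ey X y'
  map_add' p q := by
    simp only [Prod.fst_add, Prod.snd_add, Pi.add_apply, add_smul, Finset.sum_add_distrib, Submodule.coe_add,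
      map_add, mul_add, add_mul]
    abel
  map_smul' c p := by
    simp only [Prod.smul_fst, Prod.smul_snd, Pi.smul_apply, smul_eq_mul, mul_smul, Submodule.coe_smul,
      map_smul, mul_smul_comm, smul_mul_assoc, RingHom.id_apply, smul_add, Finset.smul_sum]

open TensorProduct in
private theorem mc_psi_eq (Z : Al1 S 𝒜 DS) (X : Tht L DS) [DecidableEq L.Y] (y y' : L.Y)
    (p : (E → K) × Z.F.U) : mc_psi Z X y y' p = Z.DA.tl (Z.F.Φ
      (∑ γ, p.1 γ • (inlK act (X.Θ.symm (Pi.single y 1)) * MonoidAlgebra.of K _ (SemidirectProduct.inr γ)),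
        X.Θ.symm (Pi.single y 1) ⊗ₜ (p.2 ⊗ₜ X.Θ.symm (Pi.single y' 1)))) := by
  have h1 := mc_eu Z X y y' 1 p.2 1
  have h2 : X.Θ 1 y * X.Θ 1 y' = 1 := by
    rw [X.one, Pi.one_apply, Pi.one_apply, mul_one]
  rw [h2, one_smul, map_one, one_mul, mul_one] at h1
  show ∑ γ, p.1 γ • (Z.ey X y * Z.gy γ) + Z.ey X y * Z.DA.tl (p.2 : A) * Z.ey X y' = _
  rw [h1]
  simp only [mc_eg]
  have h3 : ∀ (a : cAlg K act) (b : MonoidAlgebra K P ⊗[K] (Z.F.U ⊗[K] MonoidAlgebra K P)),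
      Z.DA.tl (Z.F.Φ (a, b)) = Z.DA.tl (Z.F.Φ (a, 0)) + Z.DA.tl (Z.F.Φ (0, b)) := by
    intro a b
    rw [← map_add, ← map_add, Prod.mk_add_mk, add_zero, zero_add]
  refine Eq.trans ?_ (h3 _ _).symm
  congr 1
  have h4 : ∀ a : cAlg K act, Z.DA.tl (Z.F.Φ (a, 0)) =
      (Z.DA.tl.toLinearMap ∘ₗ Z.F.Φ.toLinearMap ∘ₗ LinearMap.inl K (cAlg K act)
        (MonoidAlgebra K P ⊗[K] (Z.F.U ⊗[K] MonoidAlgebra K P))) a := fun _ => rfl
  simp only [h4]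
  rw [map_sum]
  simp only [map_smul]

private theorem mc_inj (Z : Al1 S 𝒜 DS) (X : Tht L DS) [DecidableEq L.Y] (y y' : L.Y)
    (p : (E → K) × Z.F.U) (h : mc_psi Z X y y' p = 0) : p = 0 := by
  classical
  rw [mc_psi_eq, LinearEquiv.map_eq_zero_iff, LinearEquiv.map_eq_zero_iff] at h
  obtain ⟨ha, hb⟩ := Prod.mk_eq_zero.1 h
  apply Prod.ext
  · funext γ
    have h1 := congrArg (fun x => X.Θ (mc_pr K act γ x) y) ha
    simp only [map_sum, map_smul, mc_pr_mul, map_zero, Finset.sum_apply, Pi.smul_apply, Pi.zero_apply] at h1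
    rw [Finset.sum_eq_single γ] at h1
    · rw [if_pos rfl, mc_th, smul_eq_mul, mul_one] at h1
      exact h1
    · intro b _ hb
      rw [if_neg hb, map_zero, Pi.zero_apply, smul_zero]
    · intro h
      exact absurd (Finset.mem_univ γ) h
  · have h1 := congrArg ((TensorProduct.lid K Z.F.U).toLinearMap ∘ₗ TensorProduct.map ((LinearMap.proj y) ∘ₗ X.Θ.toLinearMap)
      ((TensorProduct.rid K Z.F.U).toLinearMap ∘ₗ TensorProduct.map LinearMap.id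
        ((LinearMap.proj y') ∘ₗ X.Θ.toLinearMap))) hb
    rw [map_zero] at h1
    simp only [LinearMap.comp_apply, LinearEquiv.coe_coe, TensorProduct.map_tmul, LinearMap.id_apply,
      LinearMap.proj_apply, TensorProduct.lid_tmul, TensorProduct.rid_tmul, mc_th, one_smul] at h1
    exact h1

/-- multiplication with `e_y'` on the right -/
private theorem mc_ge (Z : Al1 S 𝒜 DS) (X : Tht L DS) [DecidableEq L.Y] (γ : E) (y y' : L.Y) :
    Z.ey X y * Z.gy γ * Z.ey X y' = if sm L γ y' = y then Z.ey X y * Z.gy γ else 0 := by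
  have h1 : Z.gy γ * Z.ey X y' = Z.ey X (sm L γ y') * Z.gy γ := by
    rw [← Z.gy_ey X γ y', mul_assoc (Z.gy γ * Z.ey X y'), Z.gy_mul, inv_mul_cancel, Z.gy_one, mul_one]
  rw [mul_assoc, h1, ← mul_assoc, Z.ey_mul]
  by_cases h : sm L γ y' = y
  · rw [if_pos h, if_pos h.symm]
  · rw [if_neg h, if_neg (fun h2 => h h2.symm), zero_mul]

private theorem mc_ee (Z : Al1 S 𝒜 DS) (X : Tht L DS) [DecidableEq L.Y] (y : L.Y) :
    Z.ey X y * Z.ey X y = Z.ey X y := by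
  rw [Z.ey_mul, if_pos rfl]

private theorem mc_cpsi (Z : Al1 S 𝒜 DS) (X : Tht L DS) [DecidableEq L.Y] (y y' : L.Y)
    (p : (E → K) × Z.F.U) (hp : ∀ γ, ¬ sm L γ y' = y → p.1 γ = 0) :
    Z.ey X y * mc_psi Z X y y' p * Z.ey X y' = mc_psi Z X y y' p := by
  show Z.ey X y * (∑ γ, p.1 γ • (Z.ey X y * Z.gy γ) + Z.ey X y * Z.DA.tl (p.2 : A) * Z.ey X y') * Z.ey X y' =
    ∑ γ, p.1 γ • (Z.ey X y * Z.gy γ) + Z.ey X y * Z.DA.tl (p.2 : A) * Z.ey X y'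
  rw [mul_add, add_mul]
  congr 1
  · rw [Finset.mul_sum, Finset.sum_mul]
    refine Finset.sum_congr rfl fun γ _ => ?_
    rw [mul_smul_comm, smul_mul_assoc, ← mul_assoc, mc_ee, mc_ge]
    by_cases h : sm L γ y' = y
    · rw [if_pos h]
    · rw [if_neg h, hp γ h, zero_smul, zero_smul]
  · rw [← mul_assoc, ← mul_assoc, mc_ee, mul_assoc _ (Z.ey X y'), mc_ee]

open TensorProduct in
private theorem mc_surj (Z : Al1 S 𝒜 DS) (X : Tht L DS) [DecidableEq L.Y] (y y' : L.Y) (x : Z.DA.Al) :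
    ∃ p : (E → K) × Z.F.U, (∀ γ, ¬ sm L γ y' = y → p.1 γ = 0) ∧
      Z.ey X y * x * Z.ey X y' = mc_psi Z X y y' p := by
  classical
  obtain ⟨⟨a, b⟩, hab⟩ : ∃ q, Z.DA.tl (Z.F.Φ q) = x :=
    ⟨Z.F.Φ.symm (Z.DA.tl.symm x), by rw [LinearEquiv.apply_symm_apply, LinearEquiv.apply_symm_apply]⟩
  have h0 : x = Z.DA.tl (Z.F.Φ (a, 0)) + Z.DA.tl (Z.F.Φ (0, b)) := by
    rw [← map_add, ← map_add, Prod.mk_add_mk, add_zero, zero_add, hab]
  -- the part in `c`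
  have hA : ∃ p : (E → K) × Z.F.U, (∀ γ, ¬ sm L γ y' = y → p.1 γ = 0) ∧
      Z.ey X y * Z.DA.tl (Z.F.Φ (a, 0)) * Z.ey X y' = mc_psi Z X y y' p := by
    refine ⟨(fun γ => if sm L γ y' = y then X.Θ (mc_pr K act γ a) y else 0, 0), fun γ h => if_neg h, ?_⟩
    have h1 : Z.DA.tl (Z.F.Φ (a, 0)) = ∑ γ : E, Z.DA.tl (sA S (mc_pr K act γ a)) * Z.gy γ := by
      conv_lhs => rw [mc_exp a]
      rw [Z.F.Φ_c, map_sum, map_sum]
      refine Finset.sum_congr rfl fun γ _ => ?_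
      unfold Al1.gy
      rw [Dfm.tl_mul, Z.R_y, map_mul S.io, mc_io]
      rfl
    have h2 : ∀ s, Z.ey X y * Z.DA.tl (sA S s) = X.Θ s y • Z.ey X y := by
      intro s
      unfold Al1.ey
      rw [Dfm.tl_mul, Z.B.sub, mc_dm, map_smul, map_smul]
    show Z.ey X y * Z.DA.tl (Z.F.Φ (a, 0)) * Z.ey X y' =
      ∑ γ, (if sm L γ y' = y then X.Θ (mc_pr K act γ a) y else 0) • (Z.ey X y * Z.gy γ) +
        Z.ey X y * Z.DA.tl ((0 : Z.F.U) : A) * Z.ey X y'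
    rw [h1, Submodule.coe_zero, map_zero, mul_zero, zero_mul, add_zero, Finset.mul_sum, Finset.sum_mul]
    refine Finset.sum_congr rfl fun γ _ => ?_
    rw [← mul_assoc, h2, smul_mul_assoc, smul_mul_assoc, mc_ge]
    by_cases h : sm L γ y' = y
    · rw [if_pos h, if_pos h]
    · rw [if_neg h, if_neg h, smul_zero, zero_smul]
  -- the part in `S U S`
  have hB : ∃ p : (E → K) × Z.F.U, (∀ γ, ¬ sm L γ y' = y → p.1 γ = 0) ∧
      Z.ey X y * Z.DA.tl (Z.F.Φ (0, b)) * Z.ey X y' = mc_psi Z X y y' p := by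
    clear h0 hab
    induction b using TensorProduct.induction_on with
    | zero =>
      refine ⟨0, fun _ _ => rfl, ?_⟩
      have h5 : ((0, 0) : cAlg K act × (MonoidAlgebra K P ⊗[K] (Z.F.U ⊗[K] MonoidAlgebra K P))) = 0 := rfl
      rw [h5, map_zero, map_zero, map_zero, mul_zero, zero_mul]
    | add b b' hb hb' =>
      obtain ⟨p, hp1, hp2⟩ := hb
      obtain ⟨p', hp1', hp2'⟩ := hb'
      refine ⟨p + p', fun γ h => ?_, ?_⟩
      · rw [Prod.fst_add, Pi.add_apply, hp1 γ h, hp1' γ h, add_zero]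
      · have h5 : ((0, b + b') : cAlg K act × (MonoidAlgebra K P ⊗[K] (Z.F.U ⊗[K] MonoidAlgebra K P))) =
            (0, b) + (0, b') := by rw [Prod.mk_add_mk, add_zero]
        rw [h5, map_add, map_add, mul_add, add_mul, hp2, hp2', map_add]
    | tmul s c =>
      induction c using TensorProduct.induction_on with
      | zero =>
        refine ⟨0, fun _ _ => rfl, ?_⟩
        have h5 : ((0, s ⊗ₜ[K] 0) : cAlg K act × (MonoidAlgebra K P ⊗[K] (Z.F.U ⊗[K] MonoidAlgebra K P))) = 0 := by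
          rw [TensorProduct.tmul_zero]
          rfl
        rw [h5, map_zero, map_zero, map_zero, mul_zero, zero_mul]
      | add c c' hc hc' =>
        obtain ⟨p, hp1, hp2⟩ := hc
        obtain ⟨p', hp1', hp2'⟩ := hc'
        refine ⟨p + p', fun γ h => ?_, ?_⟩
        · rw [Prod.fst_add, Pi.add_apply, hp1 γ h, hp1' γ h, add_zero]
        · have h5 : ((0, s ⊗ₜ[K] (c + c')) :
              cAlg K act × (MonoidAlgebra K P ⊗[K] (Z.F.U ⊗[K] MonoidAlgebra K P))) =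
              (0, s ⊗ₜ[K] c) + (0, s ⊗ₜ[K] c') := by rw [Prod.mk_add_mk, add_zero, TensorProduct.tmul_add]
          rw [h5, map_add, map_add, mul_add, add_mul, hp2, hp2', map_add]
      | tmul u t =>
        refine ⟨(0, (X.Θ s y * X.Θ t y') • u), fun _ _ => rfl, ?_⟩
        rw [Z.F.Φ_m, mc_eu]
        have h6 := mc_eu Z X y y' 1 u 1
        have h7 : X.Θ 1 y * X.Θ 1 y' = 1 := by
          rw [X.one, Pi.one_apply, Pi.one_apply, mul_one]
        rw [h7, one_smul, map_one, one_mul, mul_one] at h6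
        rw [← h6]
        show _ = ∑ γ, (0 : E → K) γ • (Z.ey X y * Z.gy γ) +
          Z.ey X y * Z.DA.tl (((X.Θ s y * X.Θ t y') • u : Z.F.U) : A) * Z.ey X y'
        simp only [Pi.zero_apply, zero_smul, Finset.sum_const_zero, zero_add]
        rw [Submodule.coe_smul, map_smul, mul_smul_comm, smul_mul_assoc]
  obtain ⟨p, hp1, hp2⟩ := hA
  obtain ⟨p', hp1', hp2'⟩ := hB
  refine ⟨p + p', fun γ h => ?_, ?_⟩
  · rw [Prod.fst_add, Pi.add_apply, hp1 γ h, hp1' γ h, add_zero]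
  · rw [h0, mul_add, add_mul, hp2, hp2', map_add]

end

private noncomputable def mc_om (d : Dat hp hc D S) (g h : E) (τ : Tor p) : A →ₗ[K] A :=
  LinearMap.mulRight K (S.ρ (.inr h⁻¹)) ∘ₗ LinearMap.mulLeft K (S.ρ (.inr g)) ∘ₗ (d.Ψ τ).toLinearMap

private theorem mc_om_U (g h : E) (τ : Tor p) (u : A) (hu : u ∈ d.Z.F.U) : mc_om d g h τ u ∈ d.Z.F.U :=
  d.Z.F.right _ _ (d.Z.F.left _ _ (d.ΨU τ u hu))

private theorem mc_phi_tl (g h : E) (τ : Tor p) (u : A) :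
    d.Φ g h τ (d.Z.DA.tl u) = d.Z.DA.tl (mc_om d g h τ u) := by
  rw [Dat.Φ_apply, Dat.Ps_tl]
  show d.Z.DA.tl (S.ρ (.inr g)) * d.Z.DA.tl (d.Ψ τ u) * d.Z.DA.tl (S.ρ (.inr h⁻¹)) =
    d.Z.DA.tl (S.ρ (.inr g) * d.Ψ τ u * S.ρ (.inr h⁻¹))
  rw [Dfm.tl_mul, d.Z.L_y, Dfm.tl_mul, d.Z.R_y]

private theorem mc_phi_gy (g h : E) (τ : Tor p) (γ : E) :
    d.Φ g h τ (d.Z.gy γ) = d.Z.gy (g * γ * h⁻¹) := by
  rw [Dat.Φ_apply, Dat.Ps_gy, d.Z.gy_mul, d.Z.gy_mul]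

private theorem mc_kpsi (g h : E) (τ : Tor p) (a b : (D.L1 hp hc).Y) (ha : Fx D hp hc g τ a) (hb : Fx D hp hc h τ b)
    (q : (E → K) × d.Z.F.U) :
    d.Φ g h τ (mc_psi d.Z d.X a b q) =
      mc_psi d.Z d.X a b (fun γ => q.1 (g⁻¹ * γ * h), ⟨mc_om d g h τ (q.2 : A), mc_om_U d g h τ _ q.2.2⟩) := by
  show d.Φ g h τ (∑ γ, q.1 γ • (d.Z.ey d.X a * d.Z.gy γ) + d.Z.ey d.X a * d.Z.DA.tl (q.2 : A) * d.Z.ey d.X b) =
    ∑ γ, q.1 (g⁻¹ * γ * h) • (d.Z.ey d.X a * d.Z.gy γ) + d.Z.ey d.X a * d.Z.DA.tl (mc_om d g h τ (q.2 : A)) * d.Z.ey d.X b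
  rw [map_add, map_sum, fx_mul', fx_ey d h τ b hb, fx_mul, fx_ey d g τ a ha, mc_phi_tl]
  congr 1
  rw [← Equiv.sum_comp ((Equiv.mulLeft g).trans (Equiv.mulRight h⁻¹))
    (fun γ => q.1 (g⁻¹ * γ * h) • (d.Z.ey d.X a * d.Z.gy γ))]
  refine Finset.sum_congr rfl fun γ _ => ?_
  show d.Φ g h τ (q.1 γ • (d.Z.ey d.X a * d.Z.gy γ)) =
    q.1 (g⁻¹ * (g * γ * h⁻¹) * h) • (d.Z.ey d.X a * d.Z.gy (g * γ * h⁻¹))
  rw [map_smul, fx_mul, fx_ey d g τ a ha, mc_phi_gy]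
  congr 2
  group

/-- (mu_corner) THE STRUCTURE. `e_a A_1 e_b = ⟨e_a γ : γ b = a⟩ ⊕ e_a U e_b`, and `Φ(e_a γ) = e_a g γ h⁻¹`, `Φ (e_a u e_b) = e_a Φ(u) e_b` if
`(g, τ)` fixes `a` and `(h, τ)` fixes `b`; `u ↦ e_a u e_b` is injective on `U`. So the multiplicity of `z` on `e_a A_1 e_b` is the dimension of `cfn` plus the
multiplicity of `z` on `U` for `u ↦ g Ψ_τ(u) h⁻¹`, which does not depend on `a`, `b`. Copy the private lemmas `fg_pr .. fg_surj` of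
`Lrg/FcnG.lean` (they are about the map `fg_psi : (f, u) ↦ ∑ f(γ) e_a γ + e_a u e_b`), `fg_kpsi` has to be replaced by the version with `g` on the
left and `h⁻¹` on the right; then as in `finrank_fcnG`. -/
theorem mu_corner [FiniteDimensional K A] (g h : E) (τ : Tor p) : ∃ m : K → ℕ, ∀ a b : (D.L1 hp hc).Y,
    Fx D hp hc g τ a → Fx D hp hc h τ b → ∀ z, mu (d.Φ g h τ) (cnr K (d.Z.ey d.X a) (d.Z.ey d.X b)) z =
      Module.finrank K (cfn K g h (fun γ => sm (D.L1 hp hc) γ b = a) z) + m z := by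
  refine ⟨fun z => Module.finrank K ↥(d.Z.F.U ⊓ Module.End.eigenspace (mc_om d g h τ) z), fun a b ha hb z => ?_⟩
  let ψ : (cfn K g h (fun γ => sm (D.L1 hp hc) γ b = a) z ×
      ↥(d.Z.F.U ⊓ Module.End.eigenspace (mc_om d g h τ) z)) →ₗ[K]
      d.Z.DA.Al := mc_psi d.Z d.X a b ∘ₗ LinearMap.prodMap (cfn K g h (fun γ => sm (D.L1 hp hc) γ b = a) z).subtype
        (Submodule.inclusion inf_le_left)
  have hψ : ∀ f u, ψ (f, u) = mc_psi d.Z d.X a b ((f : E → K), ⟨(u : A), u.2.1⟩) := fun _ _ => rfl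
  have hinj : Function.Injective ψ := by
    rw [injective_iff_map_eq_zero]
    rintro ⟨f, u⟩ h0
    rw [hψ] at h0
    have h4 := mc_inj d.Z d.X a b _ h0
    obtain ⟨h5, h6⟩ := Prod.mk_eq_zero.1 h4
    apply Prod.ext
    · exact Subtype.ext h5
    · exact Subtype.ext (congrArg (fun z : d.Z.F.U => (z : A)) h6)
  have hran : LinearMap.range ψ = cnr K (d.Z.ey d.X a) (d.Z.ey d.X b) ⊓ Module.End.eigenspace (d.Φ g h τ) z := by
    apply le_antisymm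
    · rintro x ⟨⟨f, u⟩, rfl⟩
      rw [hψ, Submodule.mem_inf, mem_cnr, Module.End.mem_eigenspace_iff]
      refine ⟨mc_cpsi d.Z d.X a b _ f.2.2, ?_⟩
      rw [mc_kpsi d g h τ a b ha hb, ← map_smul]
      congr 1
      apply Prod.ext
      · funext γ
        exact f.2.1 γ
      · exact Subtype.ext (Module.End.mem_eigenspace_iff.1 u.2.2)
    · intro x hx
      rw [Submodule.mem_inf, mem_cnr, Module.End.mem_eigenspace_iff] at hx
      obtain ⟨⟨f, u⟩, hp1, hp2⟩ := mc_surj d.Z d.X a b x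
      rw [hx.1] at hp2
      have h5 := hx.2
      rw [hp2, mc_kpsi d g h τ a b ha hb, ← map_smul, ← sub_eq_zero, ← map_sub] at h5
      have h6 := mc_inj d.Z d.X a b _ h5
      rw [sub_eq_zero] at h6
      obtain ⟨h7, h8⟩ := Prod.mk.inj h6
      refine ⟨(⟨f, fun γ => congrFun h7 γ, hp1⟩, ⟨(u : A), u.2, Module.End.mem_eigenspace_iff.2 (congrArg Subtype.val h8)⟩), ?_⟩
      rw [hψ, hp2]
  rw [mu, ← hran, LinearMap.finrank_range_of_inj hinj, Module.finrank_prod]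
-- END mu_corner

-- BEGIN cfn_rows
/-- (cfn_rows) No function if `Q` is empty. `cfn` for one `γ₀` with `g⁻¹ γ₀ h = γ₀`: dimension `1` for `z = 1` (and `0` else). -/
theorem cfn_none (g h : E) (Q : E → Prop) (hQ : ∀ γ, ¬ Q γ) (z : K) : Module.finrank K (cfn K g h Q z) = 0 := by
  have h0 : cfn K g h Q z = ⊥ := by
    rw [eq_bot_iff]
    intro f hf
    rw [mem_cfn] at hf
    rw [Submodule.mem_bot]
    funext γ
    exact hf.2 γ (hQ γ)
  rw [h0, finrank_bot]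

theorem cfn_uniq (g h : E) (Q : E → Prop) (γ₀ : E) (hQ : ∀ γ, Q γ ↔ γ = γ₀) (hγ : g⁻¹ * γ₀ * h = γ₀) :
    Module.finrank K (cfn K g h Q 1) = 1 := by
  classical
  have h0 : cfn K g h Q 1 = Submodule.span K {(Pi.single γ₀ 1 : E → K)} := by
    apply le_antisymm
    · intro f hf
      rw [mem_cfn] at hf
      rw [Submodule.mem_span_singleton]
      refine ⟨f γ₀, ?_⟩
      funext γ
      rw [Pi.smul_apply, smul_eq_mul]
      by_cases hg : γ = γ₀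
      · rw [hg, Pi.single_eq_same, mul_one]
      · rw [Pi.single_eq_of_ne hg, mul_zero]
        exact (hf.2 γ fun h1 => hg ((hQ γ).1 h1)).symm
    · rw [Submodule.span_singleton_le_iff_mem, mem_cfn]
      refine ⟨fun γ => ?_, fun γ h1 => ?_⟩
      · rw [one_mul]
        by_cases hg : γ = γ₀
        · rw [hg, hγ]
        · rw [Pi.single_eq_of_ne hg]
          refine Pi.single_eq_of_ne (fun h1 => hg ?_) _
          have h2 : g⁻¹ * γ * h = g⁻¹ * γ₀ * h := h1.trans hγ.symm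
          exact mul_left_cancel (mul_right_cancel h2)
      · exact Pi.single_eq_of_ne (fun h2 => h1 ((hQ γ).2 h2)) _
  rw [h0]
  refine finrank_span_singleton fun h1 => ?_
  have h2 := congrFun h1 γ₀
  rw [Pi.single_eq_same, Pi.zero_apply] at h2
  exact one_ne_zero h2
-- END cfn_rows

-- BEGIN mu_cpt
/-- (mu_cpt) ON A COMPONENT `X ∈ J`: `W.φ (Φ x) X = V(g, τ) (W.φ x X) V(h, τ)⁻¹` (from `V_g`, `V_c`, `V` is a homomorphism: `V (g, τ) = V (g, 1) V (1, τ)`,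
`V(h, τ)⁻¹ = V (h⁻¹, τ⁻¹)`), `V(g, τ)^(p-1) = 1`. Use `mu_comp`. `Ps` fixes `ε_X` (`Js`). -/
theorem mu_cpt [Fact p.Prime] (hexp : ∀ x : E, x ^ (p - 1) = 1) {W : WM K d.Z.DA.Al} (c : Cpt d W) (X : W.ι) (hX : X ∈ c.J)
    (g h : E) (τ : Tor p) (a b : (D.L1 hp hc).Y) (ha : Fx D hp hc g τ a) (hb : Fx D hp hc h τ b) (x : (ZMod p)ˣ) :
    mu (d.Φ g h τ) (cnr K (W.ε X * d.Z.ey d.X a) (W.ε X * d.Z.ey d.X b)) (fpc K hc x) =
      ∑ y : (ZMod p)ˣ, c.mt X a g τ (fpc K hc (x * y)) * c.mt X b h τ (fpc K hc y) := by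
  have hpw : ∀ g : E, (c.V X (g, τ)) ^ (p - 1) = 1 := by
    intro g
    rw [← map_pow]
    have h1 : ((g, τ) : E × Tor p) ^ (p - 1) = 1 := by
      rw [Prod.pow_def]
      apply Prod.ext
      · exact hexp g
      · funext i
        show (τ ^ (p - 1)) i = 1
        rw [Pi.pow_apply]
        exact ZMod.units_pow_card_sub_one_eq_one p (τ i)
    rw [h1, map_one]
  have hinv : c.V X (h, τ) * c.V X (h⁻¹, τ⁻¹) = 1 := by
    rw [← map_mul, Prod.mk_mul_mk, mul_inv_cancel, mul_inv_cancel]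
    exact map_one _
  have hVm : ∀ (g : E) (σ : Tor p), c.V X (g, σ) = c.V X (g, 1) * c.V X (1, σ) := by
    intro g σ
    rw [← map_mul, Prod.mk_mul_mk, mul_one, one_mul]
  have hVm' : ∀ (g : E) (σ : Tor p), c.V X (g, σ) = c.V X (1, σ) * c.V X (g, 1) := by
    intro g σ
    rw [← map_mul, Prod.mk_mul_mk, mul_one, one_mul]
  have hφ : ∀ y, W.φ (d.Φ g h τ y) X = c.V X (g, τ) * W.φ y X * c.V X (h⁻¹, τ⁻¹) := by
    intro y
    have h1 : W.φ (d.Ps τ y) X = c.V X (1, τ) * W.φ y X * c.V X (1, τ⁻¹) := by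
      rw [c.V_c X hX, mul_assoc, ← map_mul, Prod.mk_mul_mk, mul_one, mul_inv_cancel]
      have h2 : c.V X ((1 : E), (1 : Tor p)) = 1 := map_one _
      rw [h2, mul_one]
    rw [Dat.Φ_apply, map_mul, map_mul, Pi.mul_apply, Pi.mul_apply, h1, ← c.V_g X hX, ← c.V_g X hX, hVm g τ, hVm' h⁻¹ τ⁻¹]
    simp only [mul_assoc]
  have hce : ∀ y, W.ε X * y = y * W.ε X := by
    intro y
    apply W.φ.injective
    rw [map_mul, map_mul]
    have h1 : W.φ (W.ε X) = Pi.single X 1 := W.φ.apply_symm_apply _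
    rw [h1]
    funext j
    rw [Pi.mul_apply, Pi.mul_apply]
    by_cases hj : j = X
    · subst hj
      rw [Pi.single_eq_same, one_mul, mul_one]
    · rw [Pi.single_eq_of_ne hj, zero_mul, mul_zero]
  have hΦε : ∀ y, d.Φ g h τ (W.ε X * y) = W.ε X * d.Φ g h τ y := by
    intro y
    rw [Dat.Φ_apply, Dat.Φ_apply, map_mul, c.Js X hX, ← mul_assoc, ← hce (d.Z.gy g)]
    simp only [mul_assoc]
  have hfix : ∀ (g : E) (a : (D.L1 hp hc).Y), Fx D hp hc g τ a →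
      c.V X (g, τ) * W.φ (d.Z.ey d.X a) X = W.φ (d.Z.ey d.X a) X * c.V X (g, τ) := by
    intro g a ha
    have h1 : W.φ (d.Ps τ (d.Z.ey d.X a)) X = c.V X (1, τ) * W.φ (d.Z.ey d.X a) X * c.V X (1, τ⁻¹) := by
      rw [c.V_c X hX, mul_assoc, ← map_mul, Prod.mk_mul_mk, mul_one, mul_inv_cancel]
      have h2 : c.V X ((1 : E), (1 : Tor p)) = 1 := map_one _
      rw [h2, mul_one]
    have h2 := fx_ey d g τ a ha
    rw [Dat.Φ_apply] at h2
    have h3 : W.φ (d.Z.ey d.X a) X = c.V X (g, τ) * W.φ (d.Z.ey d.X a) X * c.V X (g⁻¹, τ⁻¹) := by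
      conv_lhs => rw [← h2]
      rw [map_mul, map_mul, Pi.mul_apply, Pi.mul_apply, h1, ← c.V_g X hX, ← c.V_g X hX, hVm g τ, hVm' g⁻¹ τ⁻¹]
      simp only [mul_assoc]
    have h4 : c.V X (g⁻¹, τ⁻¹) * c.V X (g, τ) = 1 := by
      rw [← map_mul, Prod.mk_mul_mk, inv_mul_cancel, inv_mul_cancel]
      exact map_one _
    conv_rhs => rw [h3]
    rw [mul_assoc, mul_assoc, h4, mul_one]
  exact mu_comp hc W (d.Φ g h τ) X (c.V X (g, τ)) (c.V X (h, τ)) (c.V X (h⁻¹, τ⁻¹)) (hpw g) (hpw h) hinv hφ hΦε _ _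
    (d.Z.ey_idem d.X a) (d.Z.ey_idem d.X b) (hfix g a ha) (hfix h b hb) x
-- END mu_cpt

-- BEGIN mu_can
private theorem mu_can_eps {W : WM K d.Z.DA.Al} (c : Cpt d W) (i : Fin 2) (g : E) (τ : Tor p) :
    d.Φ g g τ (∑ X ∈ c.C i, W.ε X) = ∑ X ∈ c.C i, W.ε X := by
  rw [Dat.Φ_apply, c.Cs, ← w13_sc W (c.C i) (d.Z.gy g), mul_assoc, d.Z.gy_inv, mul_one]

private theorem mu_can_fix {W : WM K d.Z.DA.Al} (c : Cpt d W) (i : Fin 2) (g : E) (τ : Tor p)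
    (a : (D.L1 hp hc).Y) (ha : Fx D hp hc g τ a) :
    d.Φ g g τ ((∑ X ∈ c.C i, W.ε X) * d.Z.ey d.X a) = (∑ X ∈ c.C i, W.ε X) * d.Z.ey d.X a := by
  rw [fx_mul, mu_can_eps, fx_ey d g τ a ha]

private theorem mu_can_st {W : WM K d.Z.DA.Al} (c : Cpt d W) (i : Fin 2) (g h : E) (τ : Tor p)
    (a b : (D.L1 hp hc).Y) (ha : Fx D hp hc g τ a) (hb : Fx D hp hc h τ b) (x : d.Z.DA.Al)
    (hx : x ∈ cnr K ((∑ X ∈ c.C i, W.ε X) * d.Z.ey d.X a) ((∑ X ∈ c.C i, W.ε X) * d.Z.ey d.X b)) :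
    d.Φ g h τ x ∈ cnr K ((∑ X ∈ c.C i, W.ε X) * d.Z.ey d.X a) ((∑ X ∈ c.C i, W.ε X) * d.Z.ey d.X b) := by
  rw [mem_cnr] at hx ⊢
  have h1 := fx_mul' d g h τ (((∑ X ∈ c.C i, W.ε X) * d.Z.ey d.X a) * x) ((∑ X ∈ c.C i, W.ε X) * d.Z.ey d.X b)
  rw [fx_mul d g h τ ((∑ X ∈ c.C i, W.ε X) * d.Z.ey d.X a) x, mu_can_fix d c i g τ a ha,
    mu_can_fix d c i h τ b hb, hx] at h1
  exact h1.symm

private theorem mu_can_idem {B : Type} [Ring B] {e r r' : B} (h1 : r * r' = e) (h3 : e * r = r) : e * e = e := by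
  calc e * e = e * (r * r') := by rw [h1]
    _ = (e * r) * r' := (mul_assoc _ _ _).symm
    _ = r * r' := by rw [h3]
    _ = e := h1

/-- (mu_can) CANCELLATION, step 1. Let `εi = ∑ X ∈ C i, ε_X`. `y_i = 0`, `(h, τ)` fixes `y`: for every `a` fixed by `(g, τ)` the multiplicities on
`εi e_a A_1 εi e_y` and on `εi e_a A_1 εi e_0` are equal (`mu_right` with `r, r'` from `c.eqv`; `Φ (x r) = Φ x r` by `fx_mul'`), and in the same way on the
left (`mu_left`). -/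
theorem mu_can [FiniteDimensional K A] {W : WM K d.Z.DA.Al} (c : Cpt d W) (i : Fin 2) (g h : E) (τ : Tor p)
    (a y : (D.L1 hp hc).Y) (hy : Pz D hp hc i y) (ha : Fx D hp hc g τ a) (hfy : Fx D hp hc h τ y) (z : K) :
    mu (d.Φ g h τ) (cnr K ((∑ X ∈ c.C i, W.ε X) * d.Z.ey d.X a) ((∑ X ∈ c.C i, W.ε X) * d.Z.ey d.X y)) z =
    mu (d.Φ g h τ) (cnr K ((∑ X ∈ c.C i, W.ε X) * d.Z.ey d.X a) ((∑ X ∈ c.C i, W.ε X) * d.Z.ey d.X (D.y0 hp hc))) z := by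
  obtain ⟨r, r', h1, h2, h3, h4, h5, h6, h7⟩ := c.eqv i y hy
  refine mu_right (d.Φ g h τ) _ _ _ r r' (mu_can_idem h1 h3) (mu_can_idem h2 h5) h1 h2 h3 h4 h5 h6
    (fun x => ?_) (fun x hx => ?_) z
  · rw [fx_mul', (h7 h τ hfy).1]
  · exact mu_can_st d c i g h τ a (D.y0 hp hc) ha (fx_y0 h τ) x hx

theorem mu_can' [FiniteDimensional K A] {W : WM K d.Z.DA.Al} (c : Cpt d W) (i : Fin 2) (g h : E) (τ : Tor p)
    (a y : (D.L1 hp hc).Y) (hy : Pz D hp hc i y) (ha : Fx D hp hc h τ a) (hfy : Fx D hp hc g τ y) (z : K) :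
    mu (d.Φ g h τ) (cnr K ((∑ X ∈ c.C i, W.ε X) * d.Z.ey d.X y) ((∑ X ∈ c.C i, W.ε X) * d.Z.ey d.X a)) z =
    mu (d.Φ g h τ) (cnr K ((∑ X ∈ c.C i, W.ε X) * d.Z.ey d.X (D.y0 hp hc)) ((∑ X ∈ c.C i, W.ε X) * d.Z.ey d.X a)) z := by
  obtain ⟨r, r', h1, h2, h3, h4, h5, h6, h7⟩ := c.eqv i y hy
  refine mu_left (d.Φ g h τ) _ _ _ r r' (mu_can_idem h1 h3) (mu_can_idem h2 h5) h1 h2 h3 h4 h5 h6
    (fun x => ?_) (fun x hx => ?_) z
  · rw [fx_mul, (h7 g τ hfy).2]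
  · exact mu_can_st d c i g h τ (D.y0 hp hc) a (fx_y0 g τ) ha x hx
-- END mu_can

-- BEGIN mu_rest
private theorem mu_rest_ecnr (g h : E) (τ : Tor p) (q : d.Z.DA.Al) (hq : ∀ x, q * x = x * q) (hPs : d.Ps τ q = q) (x : d.Z.DA.Al) :
    d.Φ g h τ (q * x) = q * d.Φ g h τ x := by
  rw [Dat.Φ_apply, Dat.Φ_apply, map_mul, hPs, ← mul_assoc, ← mul_assoc, ← mul_assoc, hq (d.Z.gy g)]

/-- (mu_rest) CANCELLATION, step 2. Let `e' = 1 - ∑ X ∈ J, ε_X` (the components not in `J` are in `C 0` or in `C 1`), `n(a, b)` the multiplicity of `z` on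
`e' e_a A_1 e' e_b`. For `y` with `y_1 = 0` fixed by `(g, τ)` and `y'` with `y'_0 = 0` fixed by `(h, τ)`: `n(0,0) - n(y,0) - n(0,y') + n(y,y') = 0`.
Split `e'` by the central idempotent `c0 = ∑ X ∈ C 0, ε_X` (`mu_cen`; `e' c0 = c0`, `(1 - c0) e' = (1 - c0) c1 e'` with `c1 = ∑ X ∈ C 1, ε_X`, so this
is a part of `c1`: multiply the `r, r'` of `c.eqv 1` by `1 - c0`, or split once more). On the part `c0` the differences in the second variable vanish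
(`mu_can` for `i = 0`), on the part in `c1` those in the first variable (`mu_can'` for `i = 1`, or directly `mu_left`). -/
theorem mu_rest [FiniteDimensional K A] {W : WM K d.Z.DA.Al} (c : Cpt d W) (g h : E) (τ : Tor p)
    (y y' : (D.L1 hp hc).Y) (hy : Pz D hp hc 1 y) (hy' : Pz D hp hc 0 y') (hfy : Fx D hp hc g τ y)
    (hfy' : Fx D hp hc h τ y') (z : K) (n : (D.L1 hp hc).Y → (D.L1 hp hc).Y → ℕ)
    (hn : ∀ a b, n a b = mu (d.Φ g h τ) (cnr K ((1 - ∑ X ∈ c.J, W.ε X) * d.Z.ey d.X a)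
      ((1 - ∑ X ∈ c.J, W.ε X) * d.Z.ey d.X b)) z) :
    (n (D.y0 hp hc) (D.y0 hp hc) : ℤ) - n y (D.y0 hp hc) - n (D.y0 hp hc) y' + n y y' = 0 := by
  have : FiniteDimensional K d.Z.DA.Al := d.Z.DA.tl.finiteDimensional
  set c0 : d.Z.DA.Al := ∑ X ∈ c.C 0, W.ε X with hc0
  set c1 : d.Z.DA.Al := ∑ X ∈ c.C 1, W.ε X with hc1
  set cJ : d.Z.DA.Al := ∑ X ∈ c.J, W.ε X with hcJ
  have s0 : ∀ x : d.Z.DA.Al, c0 * x = x * c0 := w13_sc W _
  have s1 : ∀ x : d.Z.DA.Al, c1 * x = x * c1 := w13_sc W _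
  have sJ : ∀ x : d.Z.DA.Al, cJ * x = x * cJ := w13_sc W _
  have q0 : c0 * c0 = c0 := w13_ss W _
  have q1 : c1 * c1 = c1 := w13_ss W _
  have qJ : cJ * cJ = cJ := w13_ss W _
  have P0 : d.Ps τ c0 = c0 := c.Cs 0 τ
  have P1 : d.Ps τ c1 = c1 := c.Cs 1 τ
  -- the product of two sums of the central idempotents
  have hprod : ∀ A B : Finset W.ι, (∑ X ∈ A, W.ε X) * (∑ X ∈ B, W.ε X) = ∑ X ∈ A ∩ B, W.ε X := by
    intro A B
    rw [Finset.sum_mul, ← Finset.sum_ite_mem]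
    refine Finset.sum_congr rfl fun X _ => ?_
    split_ifs with hX
    · rw [Finset.mul_sum, Finset.sum_eq_single X (fun j _ hj => w13_en W (Ne.symm hj)), w13_ee]
      exact fun hh => absurd hX hh
    · exact w13_es W B hX
  have hone : ∑ X, W.ε X = (1 : d.Z.DA.Al) := by
    apply W.φ.injective
    rw [map_sum, map_one]
    funext i
    rw [Finset.sum_apply, Finset.sum_eq_single i]
    · show W.φ (W.φ.symm (Pi.single i 1)) i = 1
      rw [AlgEquiv.apply_symm_apply, Pi.single_eq_same]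
    · intro j _ hj
      show W.φ (W.φ.symm (Pi.single j 1)) i = 0
      rw [AlgEquiv.apply_symm_apply, Pi.single_eq_of_ne (Ne.symm hj)]
    · intro hh
      exact absurd (Finset.mem_univ i) hh
  have hcompl : ∀ A : Finset W.ι, (1 : d.Z.DA.Al) - ∑ X ∈ A, W.ε X = ∑ X ∈ Aᶜ, W.ε X := by
    intro A
    rw [← hone, ← Finset.sum_add_sum_compl A, add_sub_cancel_left]
  have hk1 : c0 * (1 - cJ) = c0 := by
    rw [hcJ, hcompl, hprod, hc0]
    congr 1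
    ext X
    rw [Finset.mem_inter, Finset.mem_compl, and_iff_left_iff_imp]
    intro hX hJ
    exact ((c.CJ X).1 hJ 0) hX
  have hk2 : (1 - c0) * (1 - cJ) = (1 - c0) * c1 := by
    rw [hc0, hcJ, hc1, hcompl, hcompl, hprod, hprod]
    congr 1
    ext X
    simp only [Finset.mem_inter, Finset.mem_compl]
    refine and_congr_right fun hX => ?_
    rw [c.CJ X, Fin.forall_fin_two]
    tauto
  -- the split
  have hsplit : ∀ a b, n a b = mu (d.Φ g h τ) (cnr K (c0 * d.Z.ey d.X a) (c0 * d.Z.ey d.X b)) z +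
      mu (d.Φ g h τ) (cnr K (((1 - c0) * c1) * d.Z.ey d.X a) (((1 - c0) * c1) * d.Z.ey d.X b)) z := by
    intro a b
    rw [hn, mu_cen (d.Φ g h τ) c0 _ _ q0 s0 (mu_rest_ecnr d g h τ c0 s0 P0) z, ← mul_assoc, ← mul_assoc, ← mul_assoc,
      ← mul_assoc, hk1, hk2]
  have hf0g : Fx D hp hc g τ (D.y0 hp hc) := fx_y0 g τ
  have hf0h : Fx D hp hc h τ (D.y0 hp hc) := fx_y0 h τ
  have hA : ∀ a, Fx D hp hc g τ a →
      mu (d.Φ g h τ) (cnr K (c0 * d.Z.ey d.X a) (c0 * d.Z.ey d.X y')) z =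
      mu (d.Φ g h τ) (cnr K (c0 * d.Z.ey d.X a) (c0 * d.Z.ey d.X (D.y0 hp hc))) z := fun a ha =>
    mu_can d c 0 g h τ a y' hy' ha hfy' z
  obtain ⟨r, r', e1, e2, e3, e4, e5, e6, e7⟩ := c.eqv 1 y hy
  obtain ⟨-, e8⟩ := e7 g τ hfy
  rw [← hc1] at e1 e2 e3 e4 e5 e6
  have t0 : ∀ x : d.Z.DA.Al, (1 - c0) * x = x * (1 - c0) := fun x => by rw [sub_mul, mul_sub, one_mul, mul_one, s0]
  have tt : (1 - c0) * (1 - c0) = (1 - c0 : d.Z.DA.Al) := by rw [mul_sub, mul_one, sub_mul, one_mul, q0]; abel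
  have hPt : d.Ps τ (1 - c0) = 1 - c0 := by rw [map_sub, map_one, P0]
  have hPq : d.Ps τ ((1 - c0) * c1) = (1 - c0) * c1 := by rw [map_mul, hPt, P1]
  have sq : ∀ x : d.Z.DA.Al, ((1 - c0) * c1) * x = x * ((1 - c0) * c1) := fun x => by
    rw [mul_assoc, s1, ← mul_assoc, t0, mul_assoc]
  have qq : ((1 - c0) * c1) * ((1 - c0) * c1) = ((1 - c0) * c1 : d.Z.DA.Al) := by
    rw [mul_assoc, ← mul_assoc c1, ← t0 c1, mul_assoc (1 - c0) c1 c1, q1, ← mul_assoc, tt]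
  have hy2 : ∀ a, d.Z.ey d.X a * d.Z.ey d.X a = d.Z.ey d.X a := fun a => by rw [d.Z.ey_mul, if_pos rfl]
  have hid : ∀ a, ((1 - c0) * c1 * d.Z.ey d.X a) * ((1 - c0) * c1 * d.Z.ey d.X a) = (1 - c0) * c1 * d.Z.ey d.X a := by
    intro a
    rw [mul_assoc ((1 - c0) * c1) (d.Z.ey d.X a), ← mul_assoc (d.Z.ey d.X a), ← sq (d.Z.ey d.X a),
      mul_assoc ((1 - c0) * c1) (d.Z.ey d.X a) (d.Z.ey d.X a), hy2, ← mul_assoc, qq]
  have hB : ∀ b, Fx D hp hc h τ b →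
      mu (d.Φ g h τ) (cnr K (((1 - c0) * c1) * d.Z.ey d.X y) (((1 - c0) * c1) * d.Z.ey d.X b)) z =
      mu (d.Φ g h τ) (cnr K (((1 - c0) * c1) * d.Z.ey d.X (D.y0 hp hc)) (((1 - c0) * c1) * d.Z.ey d.X b)) z := by
    intro b hb
    refine mu_left (d.Φ g h τ) (((1 - c0) * c1) * d.Z.ey d.X (D.y0 hp hc)) (((1 - c0) * c1) * d.Z.ey d.X y)
      (((1 - c0) * c1) * d.Z.ey d.X b) ((1 - c0) * r) ((1 - c0) * r') (hid _) (hid _) ?_ ?_ ?_ ?_ ?_ ?_ ?_ ?_ z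
    · rw [mul_assoc, ← mul_assoc r, ← t0 r, mul_assoc (1 - c0) r r', ← mul_assoc, tt, e1, mul_assoc]
    · rw [mul_assoc, ← mul_assoc r', ← t0 r', mul_assoc (1 - c0) r' r, ← mul_assoc, tt, e2, mul_assoc]
    · rw [mul_assoc (1 - c0) c1, mul_assoc, ← mul_assoc (c1 * _) (1 - c0) r, ← t0 (c1 * _), mul_assoc (1 - c0) (c1 * _) r, e3,
        ← mul_assoc, tt]
    · rw [mul_assoc (1 - c0) c1, mul_assoc, ← mul_assoc r (1 - c0), ← t0 r, mul_assoc (1 - c0) r, e4, ← mul_assoc, tt]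
    · rw [mul_assoc (1 - c0) c1, mul_assoc, ← mul_assoc (c1 * _) (1 - c0) r', ← t0 (c1 * _), mul_assoc (1 - c0) (c1 * _) r', e5,
        ← mul_assoc, tt]
    · rw [mul_assoc (1 - c0) c1, mul_assoc, ← mul_assoc r' (1 - c0), ← t0 r', mul_assoc (1 - c0) r', e6, ← mul_assoc, tt]
    · intro x
      rw [mul_assoc, mul_assoc, mu_rest_ecnr d g h τ (1 - c0) t0 hPt, fx_mul, e8]
    · intro x hx
      rw [mem_cnr] at hx ⊢
      conv_rhs => rw [← hx]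
      rw [fx_mul', mul_assoc ((1 - c0) * c1) (d.Z.ey d.X (D.y0 hp hc)) x, mu_rest_ecnr d g h τ _ sq hPq,
        fx_mul, fx_ey d g τ _ hf0g, mu_rest_ecnr d h h τ _ sq hPq, fx_ey d h τ _ hb, mul_assoc ((1 - c0) * c1)]
  have k1 := hsplit (D.y0 hp hc) (D.y0 hp hc)
  have k2 := hsplit y (D.y0 hp hc)
  have k3 := hsplit (D.y0 hp hc) y'
  have k4 := hsplit y y'
  rw [hB _ hf0h] at k2
  rw [hA _ hf0g] at k3
  rw [hA _ hfy, hB _ hfy'] at k4
  rw [k1, k2, k3, k4]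
  push_cast
  ring
-- END mu_rest

-- BEGIN mu_all
private theorem mu_all_pz (γ : E) (i : Fin 2) (y : (D.L1 hp hc).Y) (hy : Pz D hp hc i y) :
    Pz D hp hc i (sm (D.L1 hp hc) γ y) := by
  intro t ht
  rw [TP.sm_apply]
  refine Finset.sum_eq_zero fun s _ => ?_
  by_cases h0 : D.M γ⁻¹ t s = 0
  · rw [h0, zero_mul]
  · rw [hy s (by rw [← (D.blk _ _ _ h0).2, ht]), mul_zero]

private theorem mu_all_zero (y : (D.L1 hp hc).Y) (h0 : Pz D hp hc 0 y) (h1 : Pz D hp hc 1 y) : y = D.y0 hp hc := by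
  apply Subtype.ext
  funext t
  have h2 : ∀ i : Fin 2, i = 0 ∨ i = 1 := by decide
  rcases h2 (D.c t) with h3 | h3
  · exact h0 t h3
  · exact h1 t h3

private theorem mu_all_one [FiniteDimensional K A] [Fact p.Prime] (hexp : ∀ x : E, x ^ (p - 1) = 1) {W : WM K d.Z.DA.Al}
    (c : Cpt d W) (g h : E) (τ : Tor p) (a b : (D.L1 hp hc).Y) (ha : Fx D hp hc g τ a) (hb : Fx D hp hc h τ b)
    (x : (ZMod p)ˣ) : mu (d.Φ g h τ) (cnr K (d.Z.ey d.X a) (d.Z.ey d.X b)) (fpc K hc x) =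
      ∑ X ∈ c.J, ∑ v : (ZMod p)ˣ, c.mt X a g τ (fpc K hc (x * v)) * c.mt X b h τ (fpc K hc v) +
      mu (d.Φ g h τ) (cnr K ((1 - ∑ X ∈ c.J, W.ε X) * d.Z.ey d.X a) ((1 - ∑ X ∈ c.J, W.ε X) * d.Z.ey d.X b))
        (fpc K hc x) := by
  have hfd : FiniteDimensional K d.Z.DA.Al := LinearEquiv.finiteDimensional d.Z.DA.tl
  have h1 : ∀ X ∈ c.J, ∀ u, d.Φ g h τ (W.ε X * u) = W.ε X * d.Φ g h τ u := by
    intro X hX u
    rw [d.Φ_apply, d.Φ_apply, map_mul, c.Js X hX τ, ← mul_assoc, ← w13_ec W X (d.Z.gy g), mul_assoc, mul_assoc,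
      mul_assoc]
  rw [mu_dec W (d.Φ g h τ) (d.Z.ey d.X a) (d.Z.ey d.X b) c.J h1 (fpc K hc x)]
  congr 1
  exact Finset.sum_congr rfl fun X hX => mu_cpt d hexp c X hX g h τ a b ha hb x

/-- (mu_all) THE PAIR IDENTITY FOR EVERY EIGENVALUE. `y ≠ 0`, `y_1 = 0`, `y' ≠ 0`, `y'_0 = 0`: they are not in one orbit of `E` (the matrices are block
diagonal, `D.blkc`; see `TP.sm_apply`; a point of the orbit of `y` has part `1` zero). With `mu_dec` for `J`, `mu_corner`, `mu_rest`, `mu_cpt` and `cfn_none`: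
`∑_(X ∈ J) ∑_v (mt 0 (x v) - mt y (x v)) (mt 0 v - mt y' v) = dim cfn(all) + dim cfn(γ y' = y) = dim cfn(all)`. -/
theorem mu_all [FiniteDimensional K A] [Fact p.Prime] (hexp : ∀ x : E, x ^ (p - 1) = 1) {W : WM K d.Z.DA.Al} (c : Cpt d W)
    (g h : E) (τ : Tor p) (y y' : (D.L1 hp hc).Y) (h0 : y ≠ D.y0 hp hc) (h0' : y' ≠ D.y0 hp hc)
    (hy : Pz D hp hc 1 y) (hy' : Pz D hp hc 0 y') (hfy : Fx D hp hc g τ y) (hfy' : Fx D hp hc h τ y')
    (x : (ZMod p)ˣ) :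
    ∑ X ∈ c.J, ∑ v : (ZMod p)ˣ,
      ((c.mt X (D.y0 hp hc) g τ (fpc K hc (x * v)) : ℤ) - c.mt X y g τ (fpc K hc (x * v))) *
      ((c.mt X (D.y0 hp hc) h τ (fpc K hc v) : ℤ) - c.mt X y' h τ (fpc K hc v)) =
      Module.finrank K (cfn K g h (fun _ => True) (fpc K hc x)) := by
  obtain ⟨m, hm⟩ := mu_corner d g h τ
  have hg0 := fx_y0 (D := D) (hp := hp) (hc := hc) g τ
  have hh0 := fx_y0 (D := D) (hp := hp) (hc := hc) h τ
  have key : ∀ a b : (D.L1 hp hc).Y, Fx D hp hc g τ a → Fx D hp hc h τ b →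
      (∑ X ∈ c.J, ∑ v : (ZMod p)ˣ, (c.mt X a g τ (fpc K hc (x * v)) : ℤ) * c.mt X b h τ (fpc K hc v)) =
      (Module.finrank K (cfn K g h (fun γ => sm (D.L1 hp hc) γ b = a) (fpc K hc x)) : ℤ) + m (fpc K hc x) -
      (mu (d.Φ g h τ) (cnr K ((1 - ∑ X ∈ c.J, W.ε X) * d.Z.ey d.X a) ((1 - ∑ X ∈ c.J, W.ε X) * d.Z.ey d.X b))
        (fpc K hc x) : ℤ) := by
    intro a b ha hb
    have h1 := mu_all_one d hexp c g h τ a b ha hb x
    rw [hm a b ha hb] at h1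
    have h2 := congrArg (fun n : ℕ => (n : ℤ)) h1
    simp only [Nat.cast_add, Nat.cast_sum, Nat.cast_mul] at h2
    linarith
  have k1 : Module.finrank K (cfn K g h (fun γ => sm (D.L1 hp hc) γ (D.y0 hp hc) = y) (fpc K hc x)) = 0 :=
    cfn_none g h _ (fun γ hγ => h0 (by rw [← hγ, TP.sm_y0])) _
  have k2 : Module.finrank K (cfn K g h (fun γ => sm (D.L1 hp hc) γ y' = D.y0 hp hc) (fpc K hc x)) = 0 := by
    refine cfn_none g h _ (fun γ hγ => h0' ?_) _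
    rw [← d.X.sm_one y', ← inv_mul_cancel γ, ← d.X.sm_sm, hγ, TP.sm_y0]
  have k3 : Module.finrank K (cfn K g h (fun γ => sm (D.L1 hp hc) γ y' = y) (fpc K hc x)) = 0 := by
    refine cfn_none g h _ (fun γ hγ => h0 ?_) _
    have h1 := mu_all_pz γ 0 y' hy'
    rw [hγ] at h1
    exact mu_all_zero y h1 hy
  have k4 : cfn K g h (fun γ => sm (D.L1 hp hc) γ (D.y0 hp hc) = D.y0 hp hc) (fpc K hc x) =
      cfn K g h (fun _ => True) (fpc K hc x) := by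
    congr 1
    funext γ
    rw [TP.sm_y0]
    exact eq_self _
  have e1 := key _ _ hg0 hh0
  have e2 := key _ _ hfy hh0
  have e3 := key _ _ hg0 hfy'
  have e4 := key _ _ hfy hfy'
  rw [k4] at e1
  rw [k1] at e2
  rw [k2] at e3
  rw [k3] at e4
  have e5 := mu_rest d c g h τ y y' hy hy' hfy hfy' (fpc K hc x) (fun a b => mu (d.Φ g h τ)
    (cnr K ((1 - ∑ X ∈ c.J, W.ε X) * d.Z.ey d.X a) ((1 - ∑ X ∈ c.J, W.ε X) * d.Z.ey d.X b)) (fpc K hc x))
    (fun _ _ => rfl)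
  have e6 : (∑ X ∈ c.J, ∑ v : (ZMod p)ˣ,
      ((c.mt X (D.y0 hp hc) g τ (fpc K hc (x * v)) : ℤ) - c.mt X y g τ (fpc K hc (x * v))) *
      ((c.mt X (D.y0 hp hc) h τ (fpc K hc v) : ℤ) - c.mt X y' h τ (fpc K hc v))) =
      (∑ X ∈ c.J, ∑ v : (ZMod p)ˣ, (c.mt X (D.y0 hp hc) g τ (fpc K hc (x * v)) : ℤ) *
        c.mt X (D.y0 hp hc) h τ (fpc K hc v)) -
      (∑ X ∈ c.J, ∑ v : (ZMod p)ˣ, (c.mt X y g τ (fpc K hc (x * v)) : ℤ) * c.mt X (D.y0 hp hc) h τ (fpc K hc v)) -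
      (∑ X ∈ c.J, ∑ v : (ZMod p)ˣ, (c.mt X (D.y0 hp hc) g τ (fpc K hc (x * v)) : ℤ) * c.mt X y' h τ (fpc K hc v)) +
      (∑ X ∈ c.J, ∑ v : (ZMod p)ˣ, (c.mt X y g τ (fpc K hc (x * v)) : ℤ) * c.mt X y' h τ (fpc K hc v)) := by
    rw [← Finset.sum_sub_distrib, ← Finset.sum_sub_distrib, ← Finset.sum_add_distrib]
    refine Finset.sum_congr rfl fun X _ => ?_
    rw [← Finset.sum_sub_distrib, ← Finset.sum_sub_distrib, ← Finset.sum_add_distrib]
    exact Finset.sum_congr rfl fun v _ => by ring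
  rw [e6, e1, e2, e3, e4]
  push_cast
  linarith
-- END mu_all

-- BEGIN pair
private theorem pair_perm {E : Type} [Group E] [Fintype E] {p : ℕ} (hexp : ∀ x : E, x ^ (p - 1) = 1) (g h : E) :
    ∃ π : Equiv.Perm E, (∀ γ, π γ = g⁻¹ * γ * h) ∧ π ^ (p - 1) = 1 := by
  refine ⟨(Equiv.mulLeft g⁻¹).trans (Equiv.mulRight h), fun γ => rfl, ?_⟩
  have h1 : ∀ (n : ℕ) (γ : E), (((Equiv.mulLeft g⁻¹).trans (Equiv.mulRight h) : Equiv.Perm E) ^ n) γ =
      (g ^ n)⁻¹ * γ * h ^ n := by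
    intro n
    induction n with
    | zero => intro γ; simp
    | succ n ih =>
      intro γ
      rw [pow_succ', Equiv.Perm.mul_apply, ih]
      show g⁻¹ * ((g ^ n)⁻¹ * γ * h ^ n) * h = (g ^ (n + 1))⁻¹ * γ * h ^ (n + 1)
      rw [pow_succ, pow_succ, mul_inv_rev]
      simp only [mul_assoc]
  refine Equiv.ext fun γ => ?_
  rw [h1, hexp, hexp]
  simp

private theorem pair_conv {p : ℕ} [Fact p.Prime] (a b : (ZMod p)ˣ → ℂ) (hb : ∀ v, (starRingEnd ℂ) (b v) = b v) :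
    (∑ u, a u * tei p u) * (starRingEnd ℂ) (∑ v, b v * tei p v) = ∑ x, (∑ v, a (x * v) * b v) * tei p x := by
  rw [map_sum, Finset.sum_mul_sum, Finset.sum_comm]
  have h1 : ∀ v, ∑ u, a u * tei p u * (starRingEnd ℂ) (b v * tei p v) = ∑ x, a (x * v) * b v * tei p x := by
    intro v
    rw [← Equiv.sum_comp (Equiv.mulRight v)]
    refine Finset.sum_congr rfl fun x _ => ?_
    show a (x * v) * tei p (x * v) * (starRingEnd ℂ) (b v * tei p v) = _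
    rw [map_mul (starRingEnd ℂ), hb, tei_conj, map_mul]
    have h2 : tei p v * tei p v⁻¹ = 1 := by rw [← map_mul, mul_inv_cancel, map_one]
    linear_combination (a (x * v) * b v * tei p x) * h2
  rw [Finset.sum_congr rfl fun v _ => h1 v, Finset.sum_comm]
  refine Finset.sum_congr rfl fun x _ => ?_
  rw [Finset.sum_mul]

/-- (pair) THE PAIR IDENTITY. Multiply `mu_all` by `tei x`, sum over `x`; `tei (x v) conj (tei v) = tei x` (`tei_conj`); the right side is the number of the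
`γ` with `g⁻¹ γ h = γ` by `perm_tr` (`π γ = g⁻¹ γ h`, `Q = True`, `π ^ (p - 1) = 1` from `hexp`). -/
theorem pair [FiniteDimensional K A] [Fact p.Prime] (hexp : ∀ x : E, x ^ (p - 1) = 1) {W : WM K d.Z.DA.Al} (c : Cpt d W)
    (g h : E) (τ : Tor p) (y y' : (D.L1 hp hc).Y) (h0 : y ≠ D.y0 hp hc) (h0' : y' ≠ D.y0 hp hc)
    (hy : Pz D hp hc 1 y) (hy' : Pz D hp hc 0 y') (hfy : Fx D hp hc g τ y) (hfy' : Fx D hp hc h τ y') :
    ∑ X ∈ c.J, c.DX X y g τ * (starRingEnd ℂ) (c.DX X y' h τ) = (Nat.card {γ : E // g * γ = γ * h} : ℂ) := by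
  classical
  obtain ⟨π, hπ, hπ1⟩ := pair_perm (p := p) hexp g h
  have h1 : ∀ X ∈ c.J, c.DX X y g τ * (starRingEnd ℂ) (c.DX X y' h τ) = ∑ x : (ZMod p)ˣ, (∑ v : (ZMod p)ˣ,
      (((c.mt X (D.y0 hp hc) g τ (fpc K hc (x * v)) : ℤ) - c.mt X y g τ (fpc K hc (x * v)) : ℤ) : ℂ) *
      (((c.mt X (D.y0 hp hc) h τ (fpc K hc v) : ℤ) - c.mt X y' h τ (fpc K hc v) : ℤ) : ℂ)) * tei p x := by
    intro X _
    have h2 := pair_conv (p := p)
      (fun u => (((c.mt X (D.y0 hp hc) g τ (fpc K hc u) : ℤ) - c.mt X y g τ (fpc K hc u) : ℤ) : ℂ))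
      (fun v => (((c.mt X (D.y0 hp hc) h τ (fpc K hc v) : ℤ) - c.mt X y' h τ (fpc K hc v) : ℤ) : ℂ))
      (fun v => map_intCast (starRingEnd ℂ) _)
    rw [← h2]
    unfold Cpt.DX
    push_cast
    rfl
  rw [Finset.sum_congr rfl h1, Finset.sum_comm]
  have h3 : ∀ x : (ZMod p)ˣ, ∑ X ∈ c.J, (∑ v : (ZMod p)ˣ,
      (((c.mt X (D.y0 hp hc) g τ (fpc K hc (x * v)) : ℤ) - c.mt X y g τ (fpc K hc (x * v)) : ℤ) : ℂ) *
      (((c.mt X (D.y0 hp hc) h τ (fpc K hc v) : ℤ) - c.mt X y' h τ (fpc K hc v) : ℤ) : ℂ)) * tei p x =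
      (Module.finrank K (cfn K g h (fun _ => True) (fpc K hc x)) : ℂ) * tei p x := by
    intro x
    rw [← Finset.sum_mul]
    congr 1
    have h4 := mu_all d hexp c g h τ y y' h0 h0' hy hy' hfy hfy' x
    have h5 := congrArg (Int.cast : ℤ → ℂ) h4
    push_cast at h5 ⊢
    exact h5
  rw [Finset.sum_congr rfl fun x _ => h3 x]
  have h6 := perm_tr (K := K) hc π hπ1 (fun _ => True) (fun _ _ => trivial)
    (fun u => cfn K g h (fun _ => True) u) (fun u f => by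
      rw [mem_cfn]
      simp only [hπ])
  rw [h6]
  congr 1
  rw [Nat.card_eq_fintype_card, Fintype.card_subtype]
  congr 1
  refine Finset.filter_congr fun γ _ => ?_
  rw [hπ, true_and]
  constructor
  · intro h7
    rw [mul_assoc, inv_mul_eq_iff_eq_mul] at h7
    exact h7.symm
  · intro h7
    rw [mul_assoc, inv_mul_eq_iff_eq_mul]
    exact h7.symm
-- END pair

-- BEGIN norm_le
omit [DecidableEq (D.L1 hp hc).Y] in
private theorem norm_le_Φ (g : E) (τ : Tor p) (ε x : d.Z.DA.Al) (hε : ∀ z, ε * z = z * ε) (hP : d.Ps τ ε = ε) :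
    d.Φ g g τ (ε * x) = ε * d.Φ g g τ x := by
  rw [Dat.Φ_apply, Dat.Φ_apply, map_mul, hP, ← mul_assoc (d.Z.gy g) ε, ← hε (d.Z.gy g)]
  simp only [mul_assoc]

omit [DecidableEq (D.L1 hp hc).Y] in
private theorem norm_le_rk {W : WM K d.Z.DA.Al} (J : Finset W.ι) (X : W.ι) (hX : X ∉ J) (u : d.Z.DA.Al) :
    W.rk X ((1 - ∑ i ∈ J, W.ε i) * u) = W.rk X u := by
  have h1 : W.φ (W.ε X) X = 1 := by
    unfold WM.ε
    rw [W.φ.apply_symm_apply, Pi.single_eq_same]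
  have h2 : W.φ (∑ i ∈ J, W.ε i) X = 0 := by
    have h3 := congrArg (fun z => W.φ z X) (w13_es W J hX)
    simp only [map_mul, Pi.mul_apply, map_zero, Pi.zero_apply] at h3
    rw [h1, one_mul] at h3
    exact h3
  unfold WM.rk
  rw [map_mul, Pi.mul_apply, map_sub, map_one, Pi.sub_apply, h2, Pi.one_apply, sub_zero, one_mul]

/-- (norm_le) THE NORM. `κ = (g, τ)` fixes `y ≠ 0`. The alternating dimension of the fixed points of `κ` on `(e_0, e_y)` is `r + 1`,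
`r = dim cfn(all, 1)` (`mu_corner`, `cfn_none`, `cfn_uniq`: the only `γ` with `γ y = y` is `1`, by `TP.free`); the part of `1 - ∑ X ∈ J, ε_X` is
at least `1` by `alt_pos` (with `c.oth`, the idempotents `(1 - ∑ ε_X) e_0`, `(1 - ∑ ε_X) e_y`, `mu_fcn`, `fx_aut`, `fx_pow`), the part of `J` is the left side
by `mu_dec` and `mu_cpt` for `x = 1`. -/
theorem norm_le [FiniteDimensional K A] [IsAlgClosed K] [Fact p.Prime] (hexp : ∀ x : E, x ^ (p - 1) = 1) {W : WM K d.Z.DA.Al}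
    (c : Cpt d W) (g : E) (τ : Tor p) (y : (D.L1 hp hc).Y) (h0 : y ≠ D.y0 hp hc) (hfy : Fx D hp hc g τ y) :
    ∑ X ∈ c.J, ∑ v : (ZMod p)ˣ, ((c.mt X (D.y0 hp hc) g τ (fpc K hc v) : ℤ) - c.mt X y g τ (fpc K hc v)) ^ 2 ≤
      Module.finrank K (cfn K g g (fun _ => True) 1) := by
  classical
  obtain ⟨κ, hκ⟩ := fx_aut d g τ
  obtain ⟨m, hm⟩ := mu_corner d g g τ
  have hf0 : Fx D hp hc g τ (D.y0 hp hc) := fx_y0 (hp := hp) (hc := hc) (D := D) g τ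
  have hJ : ∀ i ∈ c.J, ∀ x, d.Φ g g τ (W.ε i * x) = W.ε i * d.Φ g g τ x := fun i hi x =>
    norm_le_Φ d g τ (W.ε i) x (w13_ec W i) (c.Js i hi τ)
  have hκJ : ∀ i ∈ c.J, κ (W.ε i) = W.ε i := by
    intro i hi
    have h1 := hJ i hi 1
    rw [mul_one, ← hκ, ← hκ, map_one, mul_one] at h1
    exact h1
  have hκs : κ (1 - ∑ i ∈ c.J, W.ε i) = 1 - ∑ i ∈ c.J, W.ε i := by
    rw [map_sub, map_one, map_sum]
    congr 1
    exact Finset.sum_congr rfl hκJ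
  have hsc : ∀ x, (1 - ∑ i ∈ c.J, W.ε i) * x = x * (1 - ∑ i ∈ c.J, W.ε i) := fun x => by
    rw [sub_mul, mul_sub, one_mul, mul_one, w13_sc]
  have hss : (1 - ∑ i ∈ c.J, W.ε i) * (1 - ∑ i ∈ c.J, W.ε i) = 1 - ∑ i ∈ c.J, W.ε i := by
    rw [sub_mul, mul_sub, mul_sub, w13_ss, one_mul, one_mul, mul_one, sub_self, sub_zero]
  have hid : ∀ a, ((1 - ∑ i ∈ c.J, W.ε i) * d.Z.ey d.X a) * ((1 - ∑ i ∈ c.J, W.ε i) * d.Z.ey d.X a) =
      (1 - ∑ i ∈ c.J, W.ε i) * d.Z.ey d.X a := by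
    intro a
    calc ((1 - ∑ i ∈ c.J, W.ε i) * d.Z.ey d.X a) * ((1 - ∑ i ∈ c.J, W.ε i) * d.Z.ey d.X a)
        = (1 - ∑ i ∈ c.J, W.ε i) * (d.Z.ey d.X a * (1 - ∑ i ∈ c.J, W.ε i)) * d.Z.ey d.X a := by
          simp only [mul_assoc]
      _ = ((1 - ∑ i ∈ c.J, W.ε i) * (1 - ∑ i ∈ c.J, W.ε i)) * (d.Z.ey d.X a * d.Z.ey d.X a) := by
          rw [← hsc]
          simp only [mul_assoc]
      _ = _ := by rw [hss, d.Z.ey_mul, if_pos rfl]
  have hfix : ∀ a, Fx D hp hc g τ a → κ ((1 - ∑ i ∈ c.J, W.ε i) * d.Z.ey d.X a) =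
      (1 - ∑ i ∈ c.J, W.ε i) * d.Z.ey d.X a := by
    intro a ha
    rw [map_mul, hκs, hκ, fx_ey d g τ a ha]
  have hs : ((p - 1 : ℕ) : K) ≠ 0 := by
    intro h
    have h1 := (CharP.cast_eq_zero_iff K p (p - 1)).1 h
    have h2 := hp.two_le
    have h3 := Nat.le_of_dvd (by omega) h1
    omega
  have hpow : ∀ x, κ^[p - 1] x = x := by
    intro x
    have h1 : (κ : d.Z.DA.Al → d.Z.DA.Al) = d.Φ g g τ := funext hκ
    rw [h1]
    exact fx_pow d hexp g g τ x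
  have halt := alt_pos W κ hs hpow _ _ (hid (D.y0 hp hc)) (hid y) (hfix _ hf0) (hfix _ hfy) (by
    obtain ⟨X, hX, hr⟩ := c.oth y h0
    exact ⟨X, by rw [norm_le_rk d c.J X hX, norm_le_rk d c.J X hX]; exact hr⟩)
  have hN : ∀ a b, Fx D hp hc g τ a → Fx D hp hc g τ b →
      (Module.finrank K (cfn K g g (fun γ => sm (D.L1 hp hc) γ b = a) 1) : ℤ) + m 1 =
      ∑ X ∈ c.J, ∑ v : (ZMod p)ˣ, (c.mt X a g τ (fpc K hc v) : ℤ) * c.mt X b g τ (fpc K hc v) +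
      Module.finrank K (fcn κ ((1 - ∑ i ∈ c.J, W.ε i) * d.Z.ey d.X a) ((1 - ∑ i ∈ c.J, W.ε i) * d.Z.ey d.X b)) := by
    intro a b ha hb
    have h1 := hm a b ha hb 1
    rw [mu_dec W (d.Φ g g τ) (d.Z.ey d.X a) (d.Z.ey d.X b) c.J hJ 1,
      mu_fcn κ (d.Φ g g τ) (fun x => (hκ x).symm)] at h1
    have h2 : ∀ X ∈ c.J, mu (d.Φ g g τ) (cnr K (W.ε X * d.Z.ey d.X a) (W.ε X * d.Z.ey d.X b)) 1 =
        ∑ v : (ZMod p)ˣ, c.mt X a g τ (fpc K hc v) * c.mt X b g τ (fpc K hc v) := by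
      intro X hX
      have h3 := mu_cpt d hexp c X hX g g τ a b ha hb 1
      simp only [fpc_one, one_mul] at h3
      exact h3
    rw [Finset.sum_congr rfl h2] at h1
    have h4 := congrArg (Nat.cast (R := ℤ)) h1
    push_cast at h4
    exact h4.symm
  have hne : ∀ γ : E, ¬ sm (D.L1 hp hc) γ y = D.y0 hp hc := by
    intro γ h
    apply h0
    have h1 := d.X.sm_sm γ⁻¹ γ y
    rw [h, inv_mul_cancel, d.X.sm_one, TP.sm_y0] at h1
    exact h1.symm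
  have hne' : ∀ γ : E, ¬ sm (D.L1 hp hc) γ (D.y0 hp hc) = y := by
    intro γ h
    rw [TP.sm_y0] at h
    exact h0 h.symm
  have q00 := hN _ _ hf0 hf0
  have q0y := hN _ _ hf0 hfy
  have qy0 := hN _ _ hfy hf0
  have qyy := hN _ _ hfy hfy
  have e00 : (fun γ : E => sm (D.L1 hp hc) γ (D.y0 hp hc) = D.y0 hp hc) = fun _ => True := by
    funext γ
    rw [TP.sm_y0]
    exact eq_self _
  rw [e00] at q00
  rw [cfn_none g g _ hne 1] at q0y
  rw [cfn_none g g _ hne' 1] at qy0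
  rw [cfn_uniq g g _ 1 (fun γ => ⟨fun h => D.free hp hc γ y h0 h, fun h => by rw [h, d.X.sm_one]⟩)
    (by rw [mul_one, inv_mul_cancel])] at qyy
  have hS : ∑ X ∈ c.J, ∑ v : (ZMod p)ˣ, ((c.mt X (D.y0 hp hc) g τ (fpc K hc v) : ℤ) - c.mt X y g τ (fpc K hc v)) ^ 2 =
      ∑ X ∈ c.J, ∑ v : (ZMod p)ˣ, (c.mt X (D.y0 hp hc) g τ (fpc K hc v) : ℤ) * c.mt X (D.y0 hp hc) g τ (fpc K hc v) -
      ∑ X ∈ c.J, ∑ v : (ZMod p)ˣ, (c.mt X (D.y0 hp hc) g τ (fpc K hc v) : ℤ) * c.mt X y g τ (fpc K hc v) -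
      ∑ X ∈ c.J, ∑ v : (ZMod p)ˣ, (c.mt X y g τ (fpc K hc v) : ℤ) * c.mt X (D.y0 hp hc) g τ (fpc K hc v) +
      ∑ X ∈ c.J, ∑ v : (ZMod p)ˣ, (c.mt X y g τ (fpc K hc v) : ℤ) * c.mt X y g τ (fpc K hc v) := by
    rw [← Finset.sum_sub_distrib, ← Finset.sum_sub_distrib, ← Finset.sum_add_distrib]
    refine Finset.sum_congr rfl fun X _ => ?_
    rw [← Finset.sum_sub_distrib, ← Finset.sum_sub_distrib, ← Finset.sum_add_distrib]
    exact Finset.sum_congr rfl fun v _ => by ring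
  push_cast at q0y qy0 qyy
  linarith
-- END norm_le

-- BEGIN eq3
private theorem eq3_fin {ι κ : Type} [Fintype κ] (J : Finset ι) (a b : ι → κ → ℤ) (r : ℤ)
    (h1 : ∑ X ∈ J, ∑ v, a X v * b X v = r) (h2 : ∑ X ∈ J, ∑ v, a X v ^ 2 ≤ r)
    (h3 : ∑ X ∈ J, ∑ v, b X v ^ 2 ≤ r) : ∀ X ∈ J, ∀ v, a X v = b X v := by
  have h4 : ∑ X ∈ J, ∑ v, (a X v - b X v) ^ 2 =
      ∑ X ∈ J, ∑ v, a X v ^ 2 - 2 * ∑ X ∈ J, ∑ v, a X v * b X v + ∑ X ∈ J, ∑ v, b X v ^ 2 := by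
    rw [Finset.mul_sum, ← Finset.sum_sub_distrib, ← Finset.sum_add_distrib]
    refine Finset.sum_congr rfl fun X _ => ?_
    rw [Finset.mul_sum, ← Finset.sum_sub_distrib, ← Finset.sum_add_distrib]
    refine Finset.sum_congr rfl fun v _ => ?_
    ring
  have h5 : ∑ X ∈ J, ∑ v, (a X v - b X v) ^ 2 ≤ 0 := by
    rw [h4, h1]
    linarith
  have h6 : ∑ X ∈ J, ∑ v, (a X v - b X v) ^ 2 = 0 :=
    le_antisymm h5 (Finset.sum_nonneg fun X _ => Finset.sum_nonneg fun v _ => sq_nonneg _)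
  intro X hX v
  have h7 := (Finset.sum_eq_zero_iff_of_nonneg
    (fun X _ => Finset.sum_nonneg fun v _ => sq_nonneg (a X v - b X v))).1 h6 X hX
  have h8 := (Finset.sum_eq_zero_iff_of_nonneg (fun v _ => sq_nonneg (a X v - b X v))).1 h7 v (Finset.mem_univ v)
  exact sub_eq_zero.1 (pow_eq_zero_iff (two_ne_zero) |>.1 h8)

/-- (eq3) EQUALITY. `κ = (g, τ)` fixes `y`, `y_1 = 0`, and `y'`, `y'_0 = 0`. By `mu_all` (`h = g`, `x = 1`) the mixed sum is `r = dim cfn(all, 1)`,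
both squares are `≤ r` by `norm_le`: `∑ (a - b) ^ 2 ≤ r + r - 2 r = 0`. -/
theorem eq3 [FiniteDimensional K A] [IsAlgClosed K] [Fact p.Prime] (hexp : ∀ x : E, x ^ (p - 1) = 1) {W : WM K d.Z.DA.Al}
    (c : Cpt d W) (g : E) (τ : Tor p) (y y' : (D.L1 hp hc).Y) (h0 : y ≠ D.y0 hp hc) (h0' : y' ≠ D.y0 hp hc)
    (hy : Pz D hp hc 1 y) (hy' : Pz D hp hc 0 y') (hfy : Fx D hp hc g τ y) (hfy' : Fx D hp hc g τ y') :
    ∀ X ∈ c.J, ∀ v : (ZMod p)ˣ, c.mt X y g τ (fpc K hc v) = c.mt X y' g τ (fpc K hc v) := by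
  intro X hX v
  have h1 := mu_all d hexp c g g τ y y' h0 h0' hy hy' hfy hfy' 1
  simp only [one_mul] at h1
  rw [fpc_one] at h1
  have h2 := norm_le d hexp c g τ y h0 hfy
  have h3 := norm_le d hexp c g τ y' h0' hfy'
  have h4 := eq3_fin c.J
    (fun X v => (c.mt X (D.y0 hp hc) g τ (fpc K hc v) : ℤ) - c.mt X y g τ (fpc K hc v))
    (fun X v => (c.mt X (D.y0 hp hc) g τ (fpc K hc v) : ℤ) - c.mt X y' g τ (fpc K hc v))
    _ h1 h2 h3 X hX v
  have h5 : (c.mt X y g τ (fpc K hc v) : ℤ) = c.mt X y' g τ (fpc K hc v) := sub_right_inj.1 h4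
  exact_mod_cast h5
-- END eq3

end Pool.Agent.Two
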