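import Pool.Agent.Two.DatDef
import Pool.Agent.Two.Sym

/-!
# Functions of bounded partial degree on the points
-/

set_option autoImplicit false

namespace Pool.Agent.Two

open Pool.Agent.Sig Pool.Agent.K9 Pool.Agent.Sqf Pool.Agent.Fdf Pool.Agent.Evn Pool.Agent.Lrg

section Pf

variable {K T : Type} [Field K] [Fintype T] {Y : Set (T → K)} {c : T → Fin 2} {i : Fin 2}

/-- the functions on `Y` spanned by the monomials of degree at most `d` in the part `i` -/
def PF (Y : Set (T → K)) (c : T → Fin 2) (i : Fin 2) (d : ℚ) : Submodule K (Y → K) :=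
  Submodule.span K {f | ∃ e : T → ℕ, ((LinW.dgc c i e : ℕ) : ℚ) ≤ d ∧ f = fun y : Y => ∏ t, (y : T → K) t ^ e t}

theorem PF_mono {d d' : ℚ} (h : d ≤ d') : PF Y c i d ≤ PF Y c i d' := by
  refine Submodule.span_mono ?_
  rintro _ ⟨e, he, rfl⟩
  exact ⟨e, he.trans h, rfl⟩

theorem PF_one : (1 : Y → K) ∈ PF Y c i 0 :=
  Submodule.subset_span ⟨fun _ => 0, by simp [LinW.dgc], by funext y; simp⟩

theorem PF_const (a : K) : (fun _ => a : Y → K) ∈ PF Y c i 0 := by
  have h : (fun _ => a : Y → K) = a • 1 := by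
    funext y
    simp
  rw [h]
  exact Submodule.smul_mem _ _ PF_one

theorem PF_mul {d d' : ℚ} {f g : Y → K} (hf : f ∈ PF Y c i d) (hg : g ∈ PF Y c i d') :
    f * g ∈ PF Y c i (d + d') := by
  have h : PF Y c i d * PF Y c i d' ≤ PF Y c i (d + d') := by
    unfold PF
    rw [Submodule.span_mul_span, Submodule.span_le]
    rintro _ ⟨_, ⟨e1, h1, rfl⟩, _, ⟨e2, h2, rfl⟩, rfl⟩
    refine Submodule.subset_span ⟨fun t => e1 t + e2 t, ?_, ?_⟩
    · have h3 : LinW.dgc c i (fun t => e1 t + e2 t) = LinW.dgc c i e1 + LinW.dgc c i e2 := by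
        unfold LinW.dgc
        rw [← Finset.sum_add_distrib]
        exact Finset.sum_congr rfl fun t _ => mul_add _ _ _
      rw [h3, Nat.cast_add]
      exact add_le_add h1 h2
    · funext y
      show (∏ t, (y : T → K) t ^ e1 t) * ∏ t, (y : T → K) t ^ e2 t = _
      rw [← Finset.prod_mul_distrib]
      exact Finset.prod_congr rfl fun t _ => (pow_add _ _ _).symm
  exact h (Submodule.mul_mem_mul hf hg)

theorem PF_pow {d : ℚ} {f : Y → K} (hf : f ∈ PF Y c i d) (n : ℕ) : f ^ n ∈ PF Y c i (n * d) := by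
  induction n with
  | zero =>
    rw [pow_zero, Nat.cast_zero, zero_mul]
    exact PF_one
  | succ n ih =>
    rw [pow_succ, Nat.cast_succ, add_mul, one_mul]
    exact PF_mul ih hf

theorem PF_coord (t : T) : (fun y : Y => (y : T → K) t) ∈ PF Y c i (if c t = i then 1 else 0) := by
  classical
  refine Submodule.subset_span ⟨Pi.single t 1, ?_, ?_⟩
  · have h : LinW.dgc c i (Pi.single t 1) = if c t = i then 1 else 0 := by
      unfold LinW.dgc
      rw [Finset.sum_eq_single t]
      · simp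
      · intro s _ hs
        simp [Pi.single_eq_of_ne hs]
      · intro h
        exact absurd (Finset.mem_univ _) h
    rw [h]
    split_ifs <;> simp
  · funext y
    rw [Finset.prod_eq_single t]
    · simp
    · intro s _ hs
      simp [Pi.single_eq_of_ne hs]
    · intro h
      exact absurd (Finset.mem_univ _) h

theorem PF_prod (s : Finset T) (f : T → Y → K) (n : T → ℚ) (h : ∀ t ∈ s, f t ∈ PF Y c i (n t)) :
    ∏ t ∈ s, f t ∈ PF Y c i (∑ t ∈ s, n t) := by
  classical
  induction s using Finset.induction_on with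
  | empty =>
    rw [Finset.prod_empty, Finset.sum_empty]
    exact PF_one
  | insert a s ha ih =>
    rw [Finset.prod_insert ha, Finset.sum_insert ha]
    exact PF_mul (h a (Finset.mem_insert_self a s)) (ih fun t ht => h t (Finset.mem_insert_of_mem ht))

theorem PF_prod_sub (s : Finset T) (f g : T → Y → K) (n : T → ℚ) (hf : ∀ t ∈ s, f t ∈ PF Y c i (n t))
    (hg : ∀ t ∈ s, g t ∈ PF Y c i (n t)) (hfg : ∀ t ∈ s, f t - g t ∈ PF Y c i (n t - 1)) :
    ∏ t ∈ s, f t - ∏ t ∈ s, g t ∈ PF Y c i (∑ t ∈ s, n t - 1) := by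
  classical
  induction s using Finset.induction_on with
  | empty =>
    rw [Finset.prod_empty, Finset.prod_empty, sub_self]
    exact zero_mem _
  | insert a s ha ih =>
    rw [Finset.prod_insert ha, Finset.prod_insert ha, Finset.sum_insert ha]
    have e1 : f a * ∏ t ∈ s, f t - g a * ∏ t ∈ s, g t =
        (f a - g a) * ∏ t ∈ s, f t + g a * (∏ t ∈ s, f t - ∏ t ∈ s, g t) := by ring
    rw [e1]
    refine add_mem ?_ ?_
    · have h1 := PF_mul (hfg a (Finset.mem_insert_self a s))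
        (PF_prod s f n fun t ht => hf t (Finset.mem_insert_of_mem ht))
      have e2 : n a - 1 + ∑ t ∈ s, n t = n a + ∑ t ∈ s, n t - 1 := by ring
      rwa [e2] at h1
    · have h1 := PF_mul (hg a (Finset.mem_insert_self a s))
        (ih (fun t ht => hf t (Finset.mem_insert_of_mem ht)) (fun t ht => hg t (Finset.mem_insert_of_mem ht))
          fun t ht => hfg t (Finset.mem_insert_of_mem ht))
      have e2 : n a + (∑ t ∈ s, n t - 1) = n a + ∑ t ∈ s, n t - 1 := by ring
      rwa [e2] at h1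

/-- the factor of the indicator function of `y` in the coordinate `t` -/
def fac (Y : Set (T → K)) (q : T → ℕ) (y : T → K) (t : T) : Y → K :=
  1 - ((fun z : Y => (z : T → K) t) - fun _ => y t) ^ (q t - 1)

theorem lin_mem (y : T → K) (t : T) :
    ((fun z : Y => (z : T → K) t) - fun _ => y t : Y → K) ∈ PF Y c i (if c t = i then 1 else 0) := by
  refine sub_mem (PF_coord t) (PF_mono ?_ (PF_const (y t)))
  split_ifs <;> simp

theorem fac_mem (q : T → ℕ) (y : T → K) (t : T) :
    fac Y q y t ∈ PF Y c i (if c t = i then ((q t - 1 : ℕ) : ℚ) else 0) := by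
  unfold fac
  refine sub_mem (PF_mono ?_ PF_one) ?_
  · split_ifs
    · exact Nat.cast_nonneg _
    · exact le_rfl
  · have h := PF_pow (lin_mem (Y := Y) (c := c) (i := i) y t) (q t - 1)
    have e : ((q t - 1 : ℕ) : ℚ) * (if c t = i then 1 else 0) = if c t = i then ((q t - 1 : ℕ) : ℚ) else 0 := by
      split_ifs <;> simp
    rwa [e] at h

theorem fac_sub (q : T → ℕ) (y y' : T → K) (t : T) (h : c t = i ∨ y t = y' t) :
    fac Y q y t - fac Y q y' t ∈ PF Y c i ((if c t = i then ((q t - 1 : ℕ) : ℚ) else 0) - 1) := by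
  by_cases hy : y t = y' t
  · unfold fac
    rw [hy, sub_self]
    exact zero_mem _
  have hct : c t = i := h.resolve_right hy
  rw [if_pos hct]
  unfold fac
  set a : Y → K := (fun z : Y => (z : T → K) t) - fun _ => y t with ha
  set b : Y → K := (fun z : Y => (z : T → K) t) - fun _ => y' t with hb
  have hac : a ∈ PF Y c i 1 := by
    have h := lin_mem (Y := Y) (c := c) (i := i) y t
    rwa [if_pos hct] at h
  have hbc : b ∈ PF Y c i 1 := by
    have h := lin_mem (Y := Y) (c := c) (i := i) y' t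
    rwa [if_pos hct] at h
  have e1 : 1 - a ^ (q t - 1) - (1 - b ^ (q t - 1)) =
      (∑ k ∈ Finset.range (q t - 1), b ^ k * a ^ (q t - 1 - 1 - k)) * (b - a) := by
    rw [Commute.geom_sum₂_mul (Commute.all b a)]
    ring
  have e2 : b - a ∈ PF Y c i 0 := by
    have e3 : b - a = fun _ => y t - y' t := by
      funext z
      show ((z : T → K) t - y' t) - ((z : T → K) t - y t) = y t - y' t
      ring
    rw [e3]
    exact PF_const _
  rw [e1]
  have e3 : (((q t - 1 : ℕ) : ℚ) - 1) = ((q t - 1 : ℕ) : ℚ) - 1 + 0 := by ring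
  rw [e3]
  refine PF_mul (Submodule.sum_mem _ fun k hk => ?_) e2
  have hk' := Finset.mem_range.1 hk
  have h5 := PF_mul (PF_pow hbc k) (PF_pow hac (q t - 1 - 1 - k))
  have e4 : (k : ℚ) * 1 + ((q t - 1 - 1 - k : ℕ) : ℚ) * 1 = ((q t - 1 : ℕ) : ℚ) - 1 := by
    rw [mul_one, mul_one, ← Nat.cast_add]
    have e5 : k + (q t - 1 - 1 - k) = q t - 1 - 1 := by omega
    rw [e5, Nat.cast_sub (show 1 ≤ q t - 1 by omega), Nat.cast_one]
  rwa [e4] at h5

theorem fac_apply (q : T → ℕ) (y : T → K) (t : T) (z : Y) :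
    fac Y q y t z = 1 - ((z : T → K) t - y t) ^ (q t - 1) := rfl

/-- the factors take the values `0` and `1` -/
theorem fac_val {p : ℕ} [Fact p.Prime] [CharP K p] {q a : T → ℕ} (hq : ∀ t, q t = p ^ a t) (ha : ∀ t, 0 < a t)
    (hY : ∀ y ∈ Y, ∀ t, y t ^ q t = y t) {y : T → K} (hy : y ∈ Y) (t : T) (z : Y) [Decidable ((z : T → K) t = y t)] :
    fac Y q y t z = if (z : T → K) t = y t then 1 else 0 := by
  have hq1 : 1 < q t := by
    rw [hq]
    exact Nat.one_lt_pow (ha t).ne' (Fact.out : p.Prime).one_lt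
  rw [fac_apply]
  by_cases h : (z : T → K) t = y t
  · rw [if_pos h, h, sub_self, zero_pow (by omega), sub_zero]
  · rw [if_neg h]
    have h1 : ((z : T → K) t - y t) ^ q t = (z : T → K) t - y t := by
      have h2 := hY z z.2 t
      have h3 := hY y hy t
      rw [hq] at h2 h3 ⊢
      rw [sub_pow_char_pow, h2, h3]
    have h2 : (z : T → K) t - y t ≠ 0 := sub_ne_zero.2 h
    have h3 : ((z : T → K) t - y t) ^ (q t - 1) * ((z : T → K) t - y t) = 1 * ((z : T → K) t - y t) := by
      rw [← pow_succ, show q t - 1 + 1 = q t by omega, h1, one_mul]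
    rw [mul_right_cancel₀ h2 h3, sub_self]

/-- reduced monomials are enough -/
theorem PF_red {q : T → ℕ} (hq : ∀ t, 1 < q t) (hY : ∀ y ∈ Y, ∀ t, y t ^ q t = y t) (d : ℚ) :
    PF Y c i d = Submodule.span K {f : Y → K | ∃ e : T → ℕ, (∀ t, e t < q t) ∧ ((LinW.dgc c i e : ℕ) : ℚ) ≤ d ∧
      f = fun y : Y => ∏ t, (y : T → K) t ^ e t} := by
  classical
  refine le_antisymm (Submodule.span_le.2 ?_) (Submodule.span_mono ?_)
  · rintro _ ⟨e, he, rfl⟩
    obtain ⟨n, hn⟩ : ∃ n, ∑ t, e t = n := ⟨_, rfl⟩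
    induction n using Nat.strong_induction_on generalizing e with
    | _ n ih =>
      by_cases h : ∀ t, e t < q t
      · exact Submodule.subset_span ⟨e, h, he, rfl⟩
      push Not at h
      obtain ⟨t, ht⟩ := h
      have hqt := hq t
      let e' : T → ℕ := Function.update e t (e t - (q t - 1))
      have hle : ∀ s, e' s ≤ e s := by
        intro s
        by_cases hs : s = t
        · rw [hs]
          show Function.update e t (e t - (q t - 1)) t ≤ e t
          rw [Function.update_self]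
          omega
        · show Function.update e t (e t - (q t - 1)) s ≤ e s
          rw [Function.update_of_ne hs]
      have hlt : ∑ s, e' s < ∑ s, e s := by
        refine Finset.sum_lt_sum (fun s _ => hle s) ⟨t, Finset.mem_univ t, ?_⟩
        show Function.update e t (e t - (q t - 1)) t < e t
        rw [Function.update_self]
        omega
      have hd : LinW.dgc c i e' ≤ LinW.dgc c i e := Finset.sum_le_sum fun s _ => Nat.mul_le_mul_left _ (hle s)
      have hmo : (fun y : Y => ∏ t, (y : T → K) t ^ e t) = fun y : Y => ∏ t, (y : T → K) t ^ e' t := by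
        funext y
        refine Finset.prod_congr rfl fun s _ => ?_
        by_cases hs : s = t
        · rw [hs]
          show (y : T → K) t ^ e t = (y : T → K) t ^ (Function.update e t (e t - (q t - 1)) t)
          rw [Function.update_self]
          have e1 : e t = q t + (e t - q t) := by omega
          have e2 : e t - (q t - 1) = 1 + (e t - q t) := by omega
          rw [e2]
          nth_rewrite 1 [e1]
          rw [pow_add, pow_add, hY y y.2 t, pow_one]
        · show (y : T → K) s ^ e s = (y : T → K) s ^ (Function.update e t (e t - (q t - 1)) s)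
          rw [Function.update_of_ne hs]
      rw [hmo]
      exact ih _ (hn ▸ hlt) e' (le_trans (by exact_mod_cast hd) he) rfl
  · rintro _ ⟨e, -, he, rfl⟩
    exact ⟨e, he, rfl⟩

end Pf

variable {K P E T : Type} [Field K] [CommGroup P] [Fintype P] [Group E] [Fintype E] {act : E →* MulAut P} [Fintype T]
  {p : ℕ}

/-- the degree of the socle in the part `j` -/
def TP.Nj (D : TP K act T p) (j : Fin 2) : ℕ := LinW.dgc D.c j fun t => D.q t - 1

section

variable {D : TP K act T p} {hp : p.Prime} {hc : CharP K p} {DS : Dfm (D.L1 hp hc).gr ((D.L1 hp hc).n : ℚ)}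
  (X : Tht (D.L1 hp hc) DS)

/-- the functions of degree at most `d` in the part `i` (field `pol` of `Dat`) -/
def Pol (X : Tht (D.L1 hp hc) DS) : Prop :=
  ∀ (i : Fin 2) (d : ℚ) s, s ∈ Fl ((D.L1 hp hc).grc D.c i) d ↔
    X.Θ s ∈ Submodule.span K {f : (D.L1 hp hc).Y → K | ∃ e : T → ℕ, (∀ t, e t < (D.L1 hp hc).q t) ∧
      ((LinW.dgc D.c i e : ℕ) : ℚ) ≤ d ∧ f = fun y : (D.L1 hp hc).Y => ∏ t, (y : T → K) t ^ e t}

theorem TP.one_lt_q (D : TP K act T p) (hp : p.Prime) (t : T) : 1 < D.q t := by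
  rw [D.qa]
  exact Nat.one_lt_pow (D.apos t).ne' hp.one_lt

theorem TP.Y_pow (D : TP K act T p) (hp : p.Prime) (hc : CharP K p) : ∀ y ∈ (D.L1 hp hc).Y, ∀ t, y t ^ D.q t = y t :=
  fun _ hy t => hy t

variable {X}

theorem Pol.iff (h : Pol X) (i : Fin 2) (d : ℚ) (s : MonoidAlgebra K P) :
    s ∈ Fl ((D.L1 hp hc).grc D.c i) d ↔ X.Θ s ∈ PF (D.L1 hp hc).Y D.c i d := by
  rw [PF_red (q := D.q) (D.one_lt_q hp) (D.Y_pow hp hc)]
  exact h i d s

/-- (P2) -/
theorem Pol.const (h : Pol X) {i j : Fin 2} (hij : i ≠ j) {s : MonoidAlgebra K P}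
    (hs : s ∈ Fl ((D.L1 hp hc).grc D.c j) 0) {y y' : (D.L1 hp hc).Y}
    (hy : ∀ t, D.c t = i → (y : T → K) t = (y' : T → K) t) : X.Θ s y = X.Θ s y' := by
  rw [h.iff] at hs
  unfold PF at hs
  generalize X.Θ s = g at hs ⊢
  induction hs using Submodule.span_induction with
  | mem f hf =>
    obtain ⟨e, he, rfl⟩ := hf
    refine Finset.prod_congr rfl fun t _ => ?_
    by_cases ht : D.c t = i
    · rw [hy t ht]
    · have hj : D.c t = j := by omega
      have h0 : LinW.dgc D.c j e = 0 := by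
        have h1 : ((LinW.dgc D.c j e : ℕ) : ℚ) ≤ ((0 : ℕ) : ℚ) := by rwa [Nat.cast_zero]
        exact Nat.le_zero.1 (Nat.cast_le.1 h1)
      have h2 : e t = 0 := by
        have h3 := Finset.sum_eq_zero_iff.1 h0 t (Finset.mem_univ t)
        rw [if_pos hj, one_mul] at h3
        exact h3
      rw [h2, pow_zero, pow_zero]
  | zero => rfl
  | add f g _ _ hf hg => rw [Pi.add_apply, Pi.add_apply, hf, hg]
  | smul a f _ hf => rw [Pi.smul_apply, Pi.smul_apply, hf]

theorem prod_fac [DecidableEq (D.L1 hp hc).Y] (y : (D.L1 hp hc).Y) :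
    ∏ t, fac (D.L1 hp hc).Y D.q y t = Pi.single y 1 := by
  classical
  have : Fact p.Prime := ⟨hp⟩
  funext z
  rw [Finset.prod_apply]
  by_cases h : z = y
  · subst h
    rw [Pi.single_eq_same]
    refine Finset.prod_eq_one fun t _ => ?_
    rw [fac_val D.qa D.apos (D.Y_pow hp hc) z.2 t z, if_pos rfl]
  · rw [Pi.single_eq_of_ne h]
    obtain ⟨t, ht⟩ : ∃ t, (z : T → K) t ≠ (y : T → K) t := by
      by_contra h1
      push Not at h1
      exact h (Subtype.ext (funext h1))
    refine Finset.prod_eq_zero (Finset.mem_univ t) ?_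
    rw [fac_val D.qa D.apos (D.Y_pow hp hc) y.2 t z, if_neg ht]

private theorem Nj_eq {c : T → Fin 2} {q : T → ℕ} (j : Fin 2) :
    ((LinW.dgc c j (fun t => q t - 1) : ℕ) : ℚ) = ∑ t, (if c t = j then ((q t - 1 : ℕ) : ℚ) else 0) := by
  unfold LinW.dgc
  push_cast
  refine Finset.sum_congr rfl fun t _ => ?_
  split_ifs <;> simp

/-- (P3) -/
theorem Pol.single (h : Pol X) [DecidableEq (D.L1 hp hc).Y] (j : Fin 2) (y : (D.L1 hp hc).Y) :
    X.Θ.symm (Pi.single y 1) ∈ Fl ((D.L1 hp hc).grc D.c j) (D.Nj j) := by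
  rw [h.iff, LinearEquiv.apply_symm_apply, ← prod_fac, TP.Nj, Nj_eq]
  exact PF_prod _ _ _ fun t _ => fac_mem _ _ _

/-- (P4) -/
theorem Pol.single_sub (h : Pol X) [DecidableEq (D.L1 hp hc).Y] {i j : Fin 2} (hij : i ≠ j) {y y' : (D.L1 hp hc).Y}
    (hy : ∀ t, D.c t = i → (y : T → K) t = (y' : T → K) t) :
    X.Θ.symm (Pi.single y 1) - X.Θ.symm (Pi.single y' 1) ∈ Fs ((D.L1 hp hc).grc D.c j) (D.Nj j) := by
  have h1 : X.Θ.symm (Pi.single y 1) - X.Θ.symm (Pi.single y' 1) ∈
      Fl ((D.L1 hp hc).grc D.c j) ((D.Nj j : ℚ) - 1) := by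
    rw [h.iff, map_sub, LinearEquiv.apply_symm_apply, LinearEquiv.apply_symm_apply, ← prod_fac, ← prod_fac,
      TP.Nj, Nj_eq]
    refine PF_prod_sub _ _ _ _ (fun t _ => fac_mem _ _ _) (fun t _ => fac_mem _ _ _) fun t _ => fac_sub _ _ _ _ ?_
    by_cases ht : D.c t = i
    · exact Or.inr (hy t ht)
    · exact Or.inl (by omega)
  exact Fl_le_Fs (by linarith) h1

open Classical in
/-- (P5) -/
theorem Pol.fib (h : Pol X) {i j : Fin 2} (hij : i ≠ j) (y0 : (D.L1 hp hc).Y) :
    X.Θ.symm (fun y => if ∀ t, D.c t = i → (y : T → K) t = (y0 : T → K) t then 1 else 0) ∈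
      Fl ((D.L1 hp hc).grc D.c j) 0 := by
  have : Fact p.Prime := ⟨hp⟩
  have h1 : (fun y : (D.L1 hp hc).Y => if ∀ t, D.c t = i → (y : T → K) t = (y0 : T → K) t then (1 : K) else 0) =
      ∏ t ∈ Finset.univ.filter fun t => D.c t = i, fac (D.L1 hp hc).Y D.q y0 t := by
    funext z
    rw [Finset.prod_apply]
    by_cases hz : ∀ t, D.c t = i → (z : T → K) t = (y0 : T → K) t
    · rw [if_pos hz]
      refine (Finset.prod_eq_one fun t ht => ?_).symm
      rw [fac_val D.qa D.apos (D.Y_pow hp hc) y0.2 t z, if_pos (hz t (Finset.mem_filter.1 ht).2)]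
    · rw [if_neg hz]
      push Not at hz
      obtain ⟨t, ht, hne⟩ := hz
      refine (Finset.prod_eq_zero (Finset.mem_filter.2 ⟨Finset.mem_univ t, ht⟩) ?_).symm
      rw [fac_val D.qa D.apos (D.Y_pow hp hc) y0.2 t z, if_neg hne]
  rw [h.iff, LinearEquiv.apply_symm_apply, h1]
  have h2 : (0 : ℚ) = ∑ t ∈ Finset.univ.filter fun t => D.c t = i, (0 : ℚ) := by rw [Finset.sum_const_zero]
  rw [h2]
  refine PF_prod _ _ _ fun t ht => ?_
  have h3 := fac_mem (Y := (D.L1 hp hc).Y) (c := D.c) (i := j) D.q y0 t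
  rwa [if_neg (by rw [(Finset.mem_filter.1 ht).2]; exact hij)] at h3

/-- the form kills the partial degrees different from that of the socle -/
theorem lam_grc (hE : (Fintype.card E : K) ≠ 0) [Nontrivial P] {N : ℚ} {lam : MonoidAlgebra K P →ₗ[K] K}
    (G : GP act (D.L1 hp hc).gr N lam) (j : Fin 2) {q : ℚ} (hq : q ≠ D.Nj j) {s : MonoidAlgebra K P}
    (hs : s ∈ (D.L1 hp hc).grc D.c j q) : lam s = 0 := by
  obtain ⟨lam', G'⟩ := (D.L1 hp hc).exists_GP hE
  have hN : N = ((D.L1 hp hc).N : ℚ) := by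
    by_contra hne
    have hd := G.grd.ind.pairwiseDisjoint hne
    have h0 : sigS K P = 0 := (Submodule.disjoint_def.1 hd) _ G.sig G'.sig
    apply G.sig_ne
    rw [h0, map_zero]
  unfold LinW.grc at hs
  induction hs using Submodule.span_induction with
  | mem f hf =>
    obtain ⟨e, he, rfl⟩ := hf
    by_cases h1 : ∃ t, D.q t ≤ e t
    · obtain ⟨t, ht⟩ := h1
      have h2 : ∏ t, (D.L1 hp hc).x t ^ e t = 0 := by
        refine Finset.prod_eq_zero (Finset.mem_univ t) ?_
        obtain ⟨m, hm⟩ := Nat.exists_eq_add_of_le ht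
        rw [hm, pow_add]
        have h3 : (D.L1 hp hc).x t ^ D.q t = 0 := D.nil t
        rw [h3, zero_mul]
      rw [h2, map_zero]
    · push Not at h1
      refine G.lam_deg ((∑ t, (D.L1 hp hc).w t * e t : ℕ) : ℚ) ?_ _ (Submodule.subset_span ⟨e, rfl, rfl⟩)
      intro h2
      apply hq
      rw [hN, Nat.cast_inj] at h2
      have h3 : ∑ t, e t = ∑ t, (D.q t - 1) := by
        have h4 : ∑ t, (D.L1 hp hc).w t * e t = ∑ t, e t := Finset.sum_congr rfl fun t _ => one_mul _
        have h5 : (D.L1 hp hc).N = ∑ t, (D.q t - 1) := Finset.sum_congr rfl fun t _ => one_mul _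
        rw [← h4, h2, h5]
      have h6 : ∀ t ∈ Finset.univ, e t = D.q t - 1 :=
        (Finset.sum_eq_sum_iff_of_le fun t _ => by have := h1 t; omega).1 h3
      have h7 : e = fun t => D.q t - 1 := funext fun t => h6 t (Finset.mem_univ t)
      rw [← he, h7]
      rfl
  | zero => exact map_zero _
  | add a b _ _ ha hb => rw [map_add, ha, hb, add_zero]
  | smul a b _ hb => rw [map_smul, hb, smul_zero]

theorem lam_Fl (hE : (Fintype.card E : K) ≠ 0) [Nontrivial P] {N : ℚ} {lam : MonoidAlgebra K P →ₗ[K] K}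
    (G : GP act (D.L1 hp hc).gr N lam) (j : Fin 2) {d : ℚ} (hd : d < D.Nj j) {s : MonoidAlgebra K P}
    (hs : s ∈ Fl ((D.L1 hp hc).grc D.c j) d) : lam s = 0 := by
  refine Fl_ind (P := fun s => lam s = 0) (map_zero _) (fun a b h h' => by rw [map_add, h, h', add_zero]) ?_ hs
  intro q hq a ha
  exact lam_grc hE G j (lt_of_le_of_lt hq hd).ne ha

theorem lam_Fs (hE : (Fintype.card E : K) ≠ 0) [Nontrivial P] {N : ℚ} {lam : MonoidAlgebra K P →ₗ[K] K}
    (G : GP act (D.L1 hp hc).gr N lam) (j : Fin 2) {s : MonoidAlgebra K P}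
    (hs : s ∈ Fs ((D.L1 hp hc).grc D.c j) (D.Nj j)) : lam s = 0 := by
  refine Fs_ind (P := fun s => lam s = 0) (map_zero _) (fun a b h h' => by rw [map_add, h, h', add_zero]) ?_ hs
  intro q hq a ha
  exact lam_grc hE G j hq.ne ha

/-- (P6) -/
theorem Pol.lam (h : Pol X) (hE : (Fintype.card E : K) ≠ 0) [Nontrivial P] {N : ℚ} {lam : MonoidAlgebra K P →ₗ[K] K}
    (G : GP act (D.L1 hp hc).gr N lam) [Fintype (D.L1 hp hc).Y] :
    ∃ l : K, l ≠ 0 ∧ ∀ s, lam s = l * ∑ y, X.Θ s y := by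
  classical
  -- `lam (e_y)` does not depend on `y`
  have h1 : ∀ y y' : (D.L1 hp hc).Y, (∃ i : Fin 2, ∀ t, D.c t = i → (y : T → K) t = (y' : T → K) t) →
      lam (X.Θ.symm (Pi.single y 1)) = lam (X.Θ.symm (Pi.single y' 1)) := by
    rintro y y' ⟨i, hi⟩
    obtain ⟨j, hij⟩ : ∃ j : Fin 2, i ≠ j := by
      fin_cases i
      · exact ⟨1, by decide⟩
      · exact ⟨0, by decide⟩
    have h2 := lam_Fs hE G j (h.single_sub hij hi)
    rwa [map_sub, sub_eq_zero] at h2
  have h2 : ∀ y y' : (D.L1 hp hc).Y, lam (X.Θ.symm (Pi.single y 1)) = lam (X.Θ.symm (Pi.single y' 1)) := by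
    intro y y'
    let z : (D.L1 hp hc).Y := ⟨fun t => if D.c t = 0 then (y : T → K) t else (y' : T → K) t, fun t => by
      by_cases ht : D.c t = 0
      · have h3 := y.2 t
        simp only [if_pos ht, TP.L1_φ, Equiv.Perm.one_apply]
        exact h3
      · have h3 := y'.2 t
        simp only [if_neg ht, TP.L1_φ, Equiv.Perm.one_apply]
        exact h3⟩
    rw [h1 y z ⟨0, fun t ht => by
      show _ = if D.c t = 0 then (y : T → K) t else (y' : T → K) t
      rw [if_pos ht]⟩]
    refine h1 z y' ⟨1, fun t ht => ?_⟩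
    show (if D.c t = 0 then (y : T → K) t else (y' : T → K) t) = _
    rw [if_neg (by rw [ht]; decide)]
  have h3 : ∀ s, s = ∑ y, X.Θ s y • X.Θ.symm (Pi.single y 1) := by
    intro s
    apply X.Θ.injective
    rw [map_sum]
    funext z
    rw [Finset.sum_apply, Finset.sum_eq_single z]
    · rw [map_smul, LinearEquiv.apply_symm_apply, Pi.smul_apply, Pi.single_eq_same, smul_eq_mul, mul_one]
    · intro y _ hy
      rw [map_smul, LinearEquiv.apply_symm_apply, Pi.smul_apply, Pi.single_eq_of_ne (Ne.symm hy), smul_zero]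
    · intro hz
      exact absurd (Finset.mem_univ z) hz
  have h4 : ∀ s, lam s = lam (X.Θ.symm (Pi.single (D.y0 hp hc) 1)) * ∑ y, X.Θ s y := by
    intro s
    conv_lhs => rw [h3 s]
    rw [map_sum, Finset.mul_sum]
    refine Finset.sum_congr rfl fun y _ => ?_
    rw [map_smul, smul_eq_mul, h2 y (D.y0 hp hc), mul_comm]
  refine ⟨_, fun h0 => ?_, h4⟩
  have h5 : ∀ s, lam s = 0 := fun s => by rw [h4, h0, zero_mul]
  exact one_ne_zero (G.lam_nd 1 fun t => h5 _)

open Classical in
/-- (P1) -/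
theorem Pol.fib_sum (h : Pol X) (hE : (Fintype.card E : K) ≠ 0) [Nontrivial P] {N : ℚ}
    {lam : MonoidAlgebra K P →ₗ[K] K} (G : GP act (D.L1 hp hc).gr N lam) [Fintype (D.L1 hp hc).Y] {i j : Fin 2}
    (hij : i ≠ j) {d : ℚ} (hd : d < D.Nj j) {s : MonoidAlgebra K P} (hs : s ∈ Fl ((D.L1 hp hc).grc D.c j) d)
    (y0 : (D.L1 hp hc).Y) :
    ∑ y ∈ Finset.univ.filter (fun y : (D.L1 hp hc).Y => ∀ t, D.c t = i → (y : T → K) t = (y0 : T → K) t),
      X.Θ s y = 0 := by
  obtain ⟨l, hl, hlam⟩ := h.lam hE G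
  have h1 := h.fib hij y0
  rw [h.iff, LinearEquiv.apply_symm_apply] at h1
  rw [h.iff] at hs
  have h2 := PF_mul hs h1
  rw [add_zero] at h2
  have h3 : X.Θ.symm (X.Θ s * fun y : (D.L1 hp hc).Y =>
      if ∀ t, D.c t = i → (y : T → K) t = (y0 : T → K) t then (1 : K) else 0) ∈ Fl ((D.L1 hp hc).grc D.c j) d := by
    rw [h.iff, LinearEquiv.apply_symm_apply]
    exact h2
  have h4 := lam_Fl hE G j hd h3
  rw [hlam, LinearEquiv.apply_symm_apply] at h4
  have h5 := (mul_eq_zero.1 h4).resolve_left hl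
  rw [Finset.sum_filter]
  refine Eq.trans (Finset.sum_congr rfl fun y _ => ?_) h5
  rw [Pi.mul_apply]
  split_ifs
  · rw [mul_one]
  · rw [mul_zero]

end

end Pool.Agent.Two
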