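import Pool.Agent.Two.Wd
import Pool.Agent.Two.Grc

/-!
# The twisted trace and the element `w`
-/

set_option autoImplicit false
set_option linter.unusedSectionVars false

namespace Pool.Agent.Two

open Pool.Agent.Sig Pool.Agent.K9 Pool.Agent.Sqf Pool.Agent.Fdf Pool.Agent.Evn Pool.Agent.Lrg

variable {K P E A T : Type} [Field K] [CommGroup P] [Fintype P] [Group E] [Fintype E] {act : E →* MulAut P} [Fintype T]
  {p : ℕ} {hp : p.Prime} {hc : CharP K p} {D : TP K act T p} [Ring A] [Algebra K A] {S : StEq K P E act A}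

-- BEGIN dual0
/-- the dimension of the orthogonal of `W` for a nondegenerate form -/
private theorem dual0_dim {V : Type} [AddCommGroup V] [Module K V] [FiniteDimensional K V]
    (B : V →ₗ[K] V →ₗ[K] K) (n : ∀ a, (∀ b, B a b = 0) → a = 0) (S : Submodule K (Module.Dual K V)) :
    Module.finrank K (S.comap (B : V →ₗ[K] Module.Dual K V)) = Module.finrank K S := by
  have hinj : Function.Injective (B : V →ₗ[K] Module.Dual K V) := by
    rw [← LinearMap.ker_eq_bot, LinearMap.ker_eq_bot']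
    intro m hm
    exact n m fun b => by
      have h := LinearMap.congr_fun hm b
      exact h
  let e : V ≃ₗ[K] Module.Dual K V :=
    LinearEquiv.ofInjectiveOfFinrankEq (B : V →ₗ[K] Module.Dual K V) hinj Subspace.dual_finrank_eq.symm
  have he : S.comap (B : V →ₗ[K] Module.Dual K V) = S.map (e.symm : Module.Dual K V →ₗ[K] V) := by
    rw [← Submodule.comap_equiv_eq_map_symm]
    rfl
  rw [he]
  exact LinearEquiv.finrank_map_eq e.symm S

/-- FILTERED DUALITY. Two nondegenerate bilinear forms on a graded space, `B0` homogeneous of degree `-N`, `B1` filtered of degree `-N`: what is orthogonal for `B1` to the elements of degree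
`< N` is of degree `≤ 0`. PROOF. `Fl 𝒱 0 ⊆ (Fs 𝒱 N)^⊥1` by `h1`; dimensions: for a nondegenerate form (injective `V → Dual V`, so surjective) `dim W^⊥ = dim V - dim W`; and `(Fs 𝒱 N)^⊥0 = Fl 𝒱 0`: a component `v_q` of `v` with `q > 0` has
`B0 v_q b = B0 v b = 0` for `b ∈ 𝒱 (N - q)`, and `B0 v_q b = 0` for `b` of another degree, so `v_q = 0`. -/
theorem dual0 {V : Type} [AddCommGroup V] [Module K V] [FiniteDimensional K V] {𝒱 : ℚ → Submodule K V}
    (hi : iSupIndep 𝒱) (ht : ⨆ q, 𝒱 q = ⊤) (N : ℚ) (B0 B1 : V →ₗ[K] V →ₗ[K] K)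
    (n0 : ∀ a, (∀ b, B0 a b = 0) → a = 0) (n1 : ∀ a, (∀ b, B1 a b = 0) → a = 0)
    (h0 : ∀ q r a b, q + r ≠ N → a ∈ 𝒱 q → b ∈ 𝒱 r → B0 a b = 0)
    (h1 : ∀ q r a b, q + r < N → a ∈ Fl 𝒱 q → b ∈ Fl 𝒱 r → B1 a b = 0)
    {v : V} (hv : ∀ b ∈ Fs 𝒱 N, B1 v b = 0) : v ∈ Fl 𝒱 0 := by
  classical
  set S : Submodule K (Module.Dual K V) := (Fs 𝒱 N).dualAnnihilator with hS
  have hO1 : Fl 𝒱 0 ≤ S.comap (B1 : V →ₗ[K] Module.Dual K V) := by
    intro a ha
    rw [Submodule.mem_comap, hS, Submodule.mem_dualAnnihilator]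
    intro b hb
    exact Fs_ind (P := fun b => B1 a b = 0) (map_zero _) (fun x y hx hy => by rw [map_add, hx, hy, add_zero])
      (fun q hq b hb => h1 0 q a b (by rw [zero_add]; exact hq) ha (mem_Fl le_rfl hb)) hb
  have hO0 : S.comap (B0 : V →ₗ[K] Module.Dual K V) ≤ Fl 𝒱 0 := by
    intro a ha
    rw [Submodule.mem_comap, hS, Submodule.mem_dualAnnihilator] at ha
    have hat : a ∈ ⨆ q, 𝒱 q := by rw [ht]; exact Submodule.mem_top
    obtain ⟨f, hf, hfa⟩ := (Submodule.mem_iSup_iff_exists_finsupp 𝒱 a).mp hat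
    rw [← hfa]
    refine Submodule.sum_mem _ fun q _ => ?_
    rcases le_or_gt q 0 with hq | hq
    · exact mem_Fl hq (hf q)
    have hz : f q = 0 := by
      refine n0 _ fun b => ?_
      have hbt : b ∈ ⨆ q, 𝒱 q := by rw [ht]; exact Submodule.mem_top
      refine Submodule.iSup_induction 𝒱 (motive := fun b => B0 (f q) b = 0) hbt ?_ (map_zero _)
        (fun x y hx hy => by rw [map_add, hx, hy, add_zero])
      intro r b hb
      rcases eq_or_ne (q + r) N with hqr | hqr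
      · have h2 : B0 a b = 0 := ha b (mem_Fs (by linarith) hb)
        rw [← hfa] at h2
        rw [Finsupp.sum, map_sum, LinearMap.sum_apply] at h2
        by_cases hqs : q ∈ f.support
        · rw [Finset.sum_eq_single_of_mem q hqs] at h2
          · exact h2
          · intro t _ htq
            exact h0 t r _ _ (fun h => htq (by linarith)) (hf t) hb
        · rw [Finsupp.notMem_support_iff.mp hqs, map_zero, LinearMap.zero_apply]
      · exact h0 q r _ _ hqr (hf q) hb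
    rw [hz]
    exact Submodule.zero_mem _
  have hd0 := dual0_dim B0 n0 S
  have hd1 := dual0_dim B1 n1 S
  have hle : Module.finrank K (S.comap (B1 : V →ₗ[K] Module.Dual K V)) ≤ Module.finrank K (Fl 𝒱 0) := by
    rw [hd1, ← hd0]
    exact Submodule.finrank_mono hO0
  have heq := Submodule.eq_of_le_of_finrank_le hO1 hle
  rw [heq, Submodule.mem_comap, hS, Submodule.mem_dualAnnihilator]
  exact hv
-- END dual0

-- BEGIN trgen
/-- The trace by a generating family with coordinate functionals. PROOF. `F = ∑ φ_i(·) F(v_i)` and the trace of `x ↦ φ x • u` is `φ u`. -/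
theorem tr_gen {V ι : Type} [AddCommGroup V] [Module K V] [FiniteDimensional K V] [Fintype ι] (v : ι → V)
    (φ : ι → V →ₗ[K] K) (h : ∀ x, ∑ i, φ i x • v i = x) (F : V →ₗ[K] V) :
    LinearMap.trace K V F = ∑ i, φ i (F (v i)) := by
  have hF : F = ∑ i, dualTensorHom K V V (φ i ⊗ₜ[K] F (v i)) := by
    refine LinearMap.ext fun x => ?_
    rw [LinearMap.sum_apply]
    calc F x = F (∑ i, φ i x • v i) := by rw [h x]
      _ = ∑ i, φ i x • F (v i) := by rw [map_sum]; simp only [map_smul]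
      _ = ∑ i, dualTensorHom K V V (φ i ⊗ₜ[K] F (v i)) x := by
        simp only [dualTensorHom_apply]
  calc LinearMap.trace K V F
      = LinearMap.trace K V (∑ i, dualTensorHom K V V (φ i ⊗ₜ[K] F (v i))) := congrArg _ hF
    _ = ∑ i, LinearMap.trace K V (dualTensorHom K V V (φ i ⊗ₜ[K] F (v i))) := map_sum _ _ _
    _ = ∑ i, φ i (F (v i)) := by
      refine Finset.sum_congr rfl fun i _ => ?_
      rw [LinearMap.trace_eq_contract_apply, contractLeft_apply]
-- END trgen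

namespace Dat

variable (d : Dat hp hc D S) [Fintype (D.L1 hp hc).Y] [DecidableEq (D.L1 hp hc).Y]

/-- the idempotent of the points which are zero in the part `i` -/
noncomputable def ei (i : Fin 2) : d.R :=
  ∑ y : (D.L1 hp hc).Y, if agr D hp hc i y (D.y0 hp hc) then d.Z.ey d.X y else 0

/-- the map `x ↦ a ψ(x) e_i` -/
noncomputable def twm (i : Fin 2) (h : Tor p) (a : d.R) : d.R →ₗ[K] d.R :=
  LinearMap.mulLeft K a ∘ₗ LinearMap.mulRight K (d.ei i) ∘ₗ (d.psi h).toLinearMap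

/-- the twisted trace -/
noncomputable def tw (i : Fin 2) (h : Tor p) : d.R →ₗ[K] K where
  toFun a := LinearMap.trace K d.R (d.twm i h a)
  map_add' a b := by
    rw [← map_add]
    congr 1
    ext x
    show (a + b) * (d.psi h x * d.ei i) = a * (d.psi h x * d.ei i) + b * (d.psi h x * d.ei i)
    rw [add_mul]
  map_smul' c a := by
    rw [RingHom.id_apply, ← map_smul]
    congr 1
    ext x
    show (c • a) * (d.psi h x * d.ei i) = c • (a * (d.psi h x * d.ei i))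
    rw [smul_mul_assoc]

-- BEGIN psi_ei
/-- PROOF. `psi_ey`, `tY` permutes the points which are zero in the part `i`. -/
theorem psi_ei (i : Fin 2) (h : Tor p) : d.psi h (d.ei i) = d.ei i := by
  have hiff : ∀ y : (D.L1 hp hc).Y, agr D hp hc i (tY D hp hc h y) (D.y0 hp hc) ↔ agr D hp hc i y (D.y0 hp hc) := by
    intro y
    have h1 : ∀ (h : Tor p) (y : (D.L1 hp hc).Y), agr D hp hc i y (D.y0 hp hc) →
        agr D hp hc i (tY D hp hc h y) (D.y0 hp hc) := by
      intro h y hy t ht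
      rw [tY_apply, hy t ht, TP.y0_apply, mul_zero]
    refine ⟨fun h2 => ?_, h1 h y⟩
    have h3 := h1 h⁻¹ _ h2
    rwa [tY_tY, inv_mul_cancel, tY_one] at h3
  let e : (D.L1 hp hc).Y ≃ (D.L1 hp hc).Y :=
    ⟨tY D hp hc h, tY D hp hc h⁻¹, fun y => by rw [tY_tY, inv_mul_cancel, tY_one],
      fun y => by rw [tY_tY, mul_inv_cancel, tY_one]⟩
  unfold ei
  rw [map_sum]
  refine Eq.trans (Finset.sum_congr rfl fun y _ => ?_) (Equiv.sum_comp e fun y =>
    if agr D hp hc i y (D.y0 hp hc) then d.Z.ey d.X y else 0)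
  show d.psi h (if agr D hp hc i y (D.y0 hp hc) then d.Z.ey d.X y else 0) =
    if agr D hp hc i (tY D hp hc h y) (D.y0 hp hc) then d.Z.ey d.X (tY D hp hc h y) else 0
  by_cases hy : agr D hp hc i y (D.y0 hp hc)
  · rw [if_pos hy, if_pos ((hiff y).2 hy), d.psi_ey]
  · rw [if_neg hy, if_neg fun h2 => hy ((hiff y).1 h2), map_zero]
-- END psi_ei

-- BEGIN tw_mul
/-- PROOF. `x ↦ a b ψ(x) e` is `L_a (L_b M)`, `M x = ψ(x) e`; `trace (L_a (L_b M)) = trace ((L_b M) L_a)`, `M (a x) = ψ(a) M x`. -/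
theorem tw_mul [FiniteDimensional K A] (i : Fin 2) (h : Tor p) (a b : d.R) :
    d.tw i h (a * b) = d.tw i h (b * d.psi h a) := by
  show LinearMap.trace K d.R (d.twm i h (a * b)) = LinearMap.trace K d.R (d.twm i h (b * d.psi h a))
  have h1 : d.twm i h (a * b) = LinearMap.mulLeft K a * d.twm i h b := by
    refine LinearMap.ext fun x => ?_
    show a * b * (d.psi h x * d.ei i) = a * (b * (d.psi h x * d.ei i))
    rw [mul_assoc]
  have h2 : d.twm i h (b * d.psi h a) = d.twm i h b * LinearMap.mulLeft K a := by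
    refine LinearMap.ext fun x => ?_
    show b * d.psi h a * (d.psi h x * d.ei i) = b * (d.psi h (a * x) * d.ei i)
    rw [map_mul, mul_assoc, mul_assoc]
  rw [h1, h2, LinearMap.trace_mul_comm]
-- END tw_mul

-- BEGIN tw_psi
/-- The trace of `x ↦ a φ(x) e` does not change when `a` is replaced by `ψ(a)`, for `ψ` which commutes with `φ` and fixes `e`. -/
theorem tw_psi_aux {K R : Type} [Field K] [Ring R] [Algebra K R] (φ ψ : R ≃ₐ[K] R) (e : R)
    (hc : ∀ x, φ (ψ x) = ψ (φ x)) (he : ψ e = e) (a : R) :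
    LinearMap.trace K R (LinearMap.mulLeft K (ψ a) ∘ₗ LinearMap.mulRight K e ∘ₗ φ.toLinearMap)
      = LinearMap.trace K R (LinearMap.mulLeft K a ∘ₗ LinearMap.mulRight K e ∘ₗ φ.toLinearMap) := by
  rw [← LinearMap.trace_conj' (LinearMap.mulLeft K a ∘ₗ LinearMap.mulRight K e ∘ₗ φ.toLinearMap) ψ.toLinearEquiv]
  congr 1
  apply LinearMap.ext
  intro x
  show ψ a * (φ x * e) = ψ (a * (φ (ψ.symm x) * e))
  rw [map_mul, map_mul, ← hc, he, AlgEquiv.apply_symm_apply]

/-- PROOF. conjugation with the linear automorphism `psi h'` (`LinearMap.trace_conj'`), `psi_comm`, `psi_ei`. -/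
theorem tw_psi [FiniteDimensional K A] (i : Fin 2) (h h' : Tor p) (a : d.R) : d.tw i h (d.psi h' a) = d.tw i h a :=
  tw_psi_aux (d.psi h) (d.psi h') (d.ei i) (fun x => d.psi_comm h h' x) (d.psi_ei i h') a
-- END tw_psi

-- BEGIN tr_bas
/-- The trace by the basis `b_k e_y`. PROOF. `tr_gen` with the coordinates `x ↦ Θ (co_k x) y`: `d.Z.B.exp`, `s = ∑ Θ(s)(y) Θ⁻¹(y)`, `d.Z.B.act`. -/
theorem tr_bas [FiniteDimensional K A] (F : d.R →ₗ[K] d.R) : LinearMap.trace K d.R F =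
    ∑ k : d.Z.B.ι, ∑ y : (D.L1 hp hc).Y,
      d.X.Θ (d.Z.B.co k (d.Z.DA.tl.symm (F (d.Z.DA.tl (d.Z.B.b k) * d.Z.ey d.X y)))) y := by
  have : FiniteDimensional K d.R := Module.Finite.equiv d.Z.DA.tl
  have hs : ∀ s : MonoidAlgebra K P,
      ∑ y : (D.L1 hp hc).Y, d.X.Θ s y • d.X.Θ.symm (Pi.single y 1) = s := by
    intro s
    apply d.X.Θ.injective
    rw [map_sum]
    funext z
    rw [Finset.sum_apply, Finset.sum_eq_single z]
    · rw [map_smul, LinearEquiv.apply_symm_apply, Pi.smul_apply, Pi.single_eq_same, smul_eq_mul, mul_one]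
    · intro y _ hy
      rw [map_smul, LinearEquiv.apply_symm_apply, Pi.smul_apply, Pi.single_eq_of_ne (Ne.symm hy), smul_zero]
    · intro h
      exact absurd (Finset.mem_univ z) h
  have hx : ∀ x : d.R, ∑ ky : d.Z.B.ι × (D.L1 hp hc).Y,
      (LinearMap.proj ky.2 ∘ₗ d.X.Θ.toLinearMap ∘ₗ d.Z.B.co ky.1 ∘ₗ d.Z.DA.tl.symm.toLinearMap : d.R →ₗ[K] K) x •
        (d.Z.DA.tl (d.Z.B.b ky.1) * d.Z.ey d.X ky.2) = x := by
    intro x
    obtain ⟨a, rfl⟩ := d.Z.DA.tl.surjective x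
    rw [Fintype.sum_prod_type]
    have h1 : ∀ k : d.Z.B.ι, ∑ y : (D.L1 hp hc).Y,
        (LinearMap.proj y ∘ₗ d.X.Θ.toLinearMap ∘ₗ d.Z.B.co k ∘ₗ d.Z.DA.tl.symm.toLinearMap : d.R →ₗ[K] K)
          (d.Z.DA.tl a) • (d.Z.DA.tl (d.Z.B.b k) * d.Z.ey d.X y) =
        d.Z.DA.tl (d.Z.B.b k * sA S (d.Z.B.co k a)) := by
      intro k
      rw [← d.Z.B.act]
      conv_rhs => rw [← hs (d.Z.B.co k a)]
      rw [map_sum, map_sum, map_sum]
      apply Finset.sum_congr rfl
      intro y _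
      rw [map_smul, map_smul, map_smul]
      rfl
    rw [Finset.sum_congr rfl fun k _ => h1 k, ← map_sum, d.Z.B.exp]
  rw [tr_gen (fun ky : d.Z.B.ι × (D.L1 hp hc).Y => d.Z.DA.tl (d.Z.B.b ky.1) * d.Z.ey d.X ky.2)
    (fun ky => (LinearMap.proj ky.2 ∘ₗ d.X.Θ.toLinearMap ∘ₗ d.Z.B.co ky.1 ∘ₗ d.Z.DA.tl.symm.toLinearMap :
      d.R →ₗ[K] K)) hx F, Fintype.sum_prod_type]
  rfl
-- END tr_bas

-- BEGIN co_deg2
private theorem co_deg2_pr {K V : Type} [Field K] [AddCommGroup V] [Module K V] {𝒱 : ℚ → Submodule K V}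
    (ind : iSupIndep 𝒱) (sup : ⨆ q, 𝒱 q = ⊤) :
    ∃ pr : ℚ → V →ₗ[K] V, (∀ q a, pr q a ∈ 𝒱 q) ∧ (∀ q, ∀ a ∈ 𝒱 q, pr q a = a) ∧
      ∀ q r, q ≠ r → ∀ a ∈ 𝒱 q, pr r a = 0 := by
  classical
  have h := DirectSum.isInternal_submodule_of_iSupIndep_of_iSup_eq_top ind sup
  let _ : DirectSum.Decomposition 𝒱 := h.chooseDecomposition
  refine ⟨fun q => (𝒱 q).subtype ∘ₗ (DirectSum.component K ℚ (fun q => 𝒱 q) q) ∘ₗ
    (DirectSum.decomposeLinearEquiv 𝒱).toLinearMap, ?_, ?_, ?_⟩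
  · intro q a
    exact Submodule.coe_mem _
  · intro q a ha
    exact DirectSum.decompose_of_mem_same 𝒱 ha
  · intro q r hqr a ha
    exact DirectSum.decompose_of_mem_ne 𝒱 ha hqr

private theorem co_deg2_gen {K S A : Type} [Field K] [Ring S] [Algebra K S] [Ring A] [Algebra K A] {σ : S →ₐ[K] A}
    {𝒮' : ℚ → Submodule K S} {𝒜' : ℚ → Submodule K A} {n : ℚ} {DS : Dfm 𝒮' n} {DA : Dfm 𝒜' n}
    (B : RB σ DS DA) {𝒮 : ℚ → Submodule K S} {𝒜 : ℚ → Submodule K A} (hS : Grd K 𝒮) (hA : Grd K 𝒜)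
    (hσ : ∀ q, ∀ s ∈ 𝒮 q, σ s ∈ 𝒜 q) (dd : B.ι → ℚ) (hd : ∀ i, B.b i ∈ 𝒜 (dd i)) (i : B.ι) (q : ℚ)
    (a : A) (ha : a ∈ 𝒜 q) : B.co i a ∈ 𝒮 (q - dd i) := by
  obtain ⟨pS, s1, s2, s3⟩ := co_deg2_pr hS.ind hS.sup
  obtain ⟨pA, a1, a2, a3⟩ := co_deg2_pr hA.ind hA.sup
  have key : ∀ (j : B.ι) (s : S), pA q (B.b j * σ s) = B.b j * σ (pS (q - dd j) s) := by
    intro j s
    refine Submodule.iSup_induction 𝒮
      (motive := fun s => pA q (B.b j * σ s) = B.b j * σ (pS (q - dd j) s)) (x := s)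
      (by rw [hS.sup]; trivial) ?_ ?_ ?_
    · intro r s hs
      have h1 : B.b j * σ s ∈ 𝒜 (dd j + r) := hA.mul (hd j) (hσ r s hs)
      by_cases hr : r = q - dd j
      · subst hr
        rw [s2 _ s hs]
        refine a2 q _ ?_
        have h2 : dd j + (q - dd j) = q := by ring
        rwa [h2] at h1
      · rw [s3 r _ hr s hs, map_zero, mul_zero]
        refine a3 _ q ?_ _ h1
        intro h2
        apply hr
        rw [← h2]
        ring
    · rw [map_zero, mul_zero, map_zero, map_zero, map_zero, mul_zero]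
    · intro s t hs ht
      rw [map_add, mul_add, map_add, hs, ht, map_add, map_add, mul_add]
  have h1 : a = ∑ j, B.b j * σ (pS (q - dd j) (B.co j a)) := by
    calc a = pA q a := (a2 q a ha).symm
      _ = pA q (∑ j, B.b j * σ (B.co j a)) := by rw [B.exp]
      _ = ∑ j, pA q (B.b j * σ (B.co j a)) := map_sum _ _ _
      _ = _ := Finset.sum_congr rfl fun j _ => key j _
  have h2 : B.co i a = pS (q - dd i) (B.co i a) := by
    calc B.co i a = B.co i (∑ j, B.b j * σ (pS (q - dd j) (B.co j a))) := by rw [← h1]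
      _ = ∑ j, B.co i (B.b j * σ (pS (q - dd j) (B.co j a))) := map_sum _ _ _
      _ = ∑ j, (if i = j then pS (q - dd j) (B.co j a) else 0) :=
        Finset.sum_congr rfl fun j _ => B.co_b i j _
      _ = _ := by rw [Finset.sum_ite_eq Finset.univ i]; simp
  rw [h2]
  exact s1 _ _

/-- The coordinates are homogeneous in each part. PROOF. as `RB.co_deg` (Fdf). -/
theorem co_deg2 [FiniteDimensional K A] (j : Fin 2) (k : d.Z.B.ι) (r q : ℚ) (hk : d.Z.B.b k ∈ d.𝒟 j r) (a : A) (ha : a ∈ d.𝒟 j q) :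
    d.Z.B.co k a ∈ (D.L1 hp hc).grc D.c j (q - r) := by
  have hS : Grd K ((D.L1 hp hc).grc D.c j) :=
    gw_grd (D.L1 hp hc).toLinG (fun t => if D.c t = j then 1 else 0)
  have hσ : ∀ q, ∀ s ∈ (D.L1 hp hc).grc D.c j q, sA S s ∈ d.𝒟 j q := by
    intro q s hs
    refine d.hioD j q _ (Submodule.subset_span ⟨s, hs, 1, ?_⟩)
    rw [map_one, map_one, mul_one]
    rfl
  choose dd hd using d.homB j
  have h1 := co_deg2_gen d.Z.B hS (d.hD j) hσ (Function.update dd k r) (by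
    intro i
    by_cases h : i = k
    · subst h
      rwa [Function.update_self]
    · rw [Function.update_of_ne h]
      exact hd i) k q a ha
  rwa [Function.update_self] at h1
-- END co_deg2

-- BEGIN tw_low
/-- the coordinates are right linear over the deformed `K P` -/
private theorem tw_low_co {K S A : Type} [Field K] [Ring S] [Algebra K S] [Ring A] [Algebra K A] {σ : S →ₐ[K] A}
    {𝒮 : ℚ → Submodule K S} {𝒜 : ℚ → Submodule K A} {n : ℚ} {DS : Dfm 𝒮 n} {DA : Dfm 𝒜 n} (B : RB σ DS DA)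
    (i : B.ι) (x : A) (s : S) : B.co i (DA.m x (σ s)) = DS.m (B.co i x) s := by
  have h1 : DA.m x (σ s) = ∑ l, B.b l * σ (DS.m (B.co l x) s) := by
    conv_lhs => rw [← B.exp x]
    rw [map_sum, LinearMap.sum_apply]
    refine Finset.sum_congr rfl fun l _ => ?_
    rw [← B.act, DA.assoc, B.sub, B.act]
  rw [h1, map_sum, Finset.sum_eq_single i]
  · rw [B.co_b, if_pos rfl]
  · intro l _ hl
    rw [B.co_b, if_neg (fun h => hl h.symm)]
  · intro h
    exact absurd (Finset.mem_univ i) h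

/-- the products with the idempotent `e_i` -/
private theorem tw_low_ei (i : Fin 2) (y : (D.L1 hp hc).Y) : d.Z.ey d.X y * d.ei i =
    if agr D hp hc i y (D.y0 hp hc) then d.Z.ey d.X y else 0 := by
  unfold ei
  rw [Finset.mul_sum, Finset.sum_eq_single y]
  · split_ifs
    · rw [d.Z.ey_mul, if_pos rfl]
    · rw [mul_zero]
  · intro z _ hz
    split_ifs
    · rw [d.Z.ey_mul, if_neg (Ne.symm hz)]
    · rw [mul_zero]
  · intro h
    exact absurd (Finset.mem_univ y) h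

/-- the value of the twisted map on the basis -/
private theorem tw_low_val {i j : Fin 2} (hij : i ≠ j) (h : Tor p) (hj : h j = 1) (a : A) (k : d.Z.B.ι)
    (y : (D.L1 hp hc).Y) :
    d.X.Θ (d.Z.B.co k (d.Z.DA.tl.symm (d.twm i h (d.Z.DA.tl a) (d.Z.DA.tl (d.Z.B.b k) * d.Z.ey d.X y)))) y =
      if agr D hp hc i y (D.y0 hp hc) then d.X.Θ (d.Z.B.co k (d.Z.DA.m a (d.Ψ h (d.Z.B.b k)))) y else 0 := by
  have h1 : d.twm i h (d.Z.DA.tl a) (d.Z.DA.tl (d.Z.B.b k) * d.Z.ey d.X y) =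
      d.Z.DA.tl a * (d.Z.DA.tl (d.Ψ h (d.Z.B.b k)) * (d.Z.ey d.X (tY D hp hc h y) * d.ei i)) := by
    show d.Z.DA.tl a * (d.psi h (d.Z.DA.tl (d.Z.B.b k) * d.Z.ey d.X y) * d.ei i) = _
    rw [map_mul, d.psi_tl, d.psi_ey, mul_assoc]
  rw [h1, d.tw_low_ei]
  by_cases hy : agr D hp hc i y (D.y0 hp hc)
  · have h2 : tY D hp hc h y = y := by
      apply Subtype.ext
      funext t
      rw [tY_apply]
      by_cases ht : D.c t = i
      · rw [hy t ht, TP.y0_apply, mul_zero]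
      · have hj' : D.c t = j := by omega
        have h3 : tsc K hc h (D.c t) = 1 := by
          unfold tsc
          rw [hj', hj, Units.val_one, map_one]
        rw [h3, one_mul]
    rw [h2, if_pos hy, if_pos hy]
    have h3 : d.Z.DA.tl.symm (d.Z.DA.tl a * (d.Z.DA.tl (d.Ψ h (d.Z.B.b k)) * d.Z.ey d.X y)) =
        d.Z.DA.m (d.Z.DA.m a (d.Ψ h (d.Z.B.b k))) (sA S (d.X.Θ.symm (Pi.single y 1))) := by
      rw [← mul_assoc]
      rfl
    rw [h3, tw_low_co, d.X.mul, LinearEquiv.apply_symm_apply, Pi.mul_apply, Pi.single_eq_same, mul_one]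
  · have h2 : ¬ agr D hp hc i (tY D hp hc h y) (D.y0 hp hc) := by
      intro h3
      apply hy
      intro t ht
      have h4 := h3 t ht
      rw [tY_apply, TP.y0_apply] at h4
      rw [TP.y0_apply]
      refine (mul_eq_zero.1 h4).resolve_left ?_
      have : Fact p.Prime := ⟨hp⟩
      unfold tsc
      exact (map_ne_zero _).2 (Units.ne_zero _)
    rw [if_neg h2, if_neg hy, mul_zero, mul_zero, map_zero, map_zero, map_zero, Pi.zero_apply]

/-- The twisted trace is zero on the elements of degree `< N_j`. PROOF. `tr_bas`: `F(b_k e_y) = a ψ(b_k) e_(σ y) e_i`, its `k`-th coordinate at `y` is `Θ(co_k(a ψ(b_k)))(y)` for `y_i = 0` (then `σ y = y` as `h j = 1`) and `0` for `y_i ≠ 0`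
(`co_k (x * s) = DS.m (co_k x) s`, see `th1_co` in Fdf/Th1; if `y_i ≠ 0` then `(σ y)_i ≠ 0`). `ψ(b_k) ∈ 𝒟 j r`, `filA`, `co_deg2`: `co_k(a ψ(b_k)) ∈ Fl (grc j) q`, `q < N_j`. `Pol.fib_sum`. -/
theorem tw_low [FiniteDimensional K A] [Nontrivial P] (hE : (Fintype.card E : K) ≠ 0) {i j : Fin 2} (hij : i ≠ j) (h : Tor p)
    (hj : h j = 1) {a : d.R} (ha : a ∈ d.F' j (D.Nj j)) : d.tw i h a = 0 := by
  obtain ⟨a, ha, rfl⟩ := ha
  show LinearMap.trace K d.R (d.twm i h (d.Z.DA.tl a)) = 0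
  rw [d.tr_bas]
  refine Finset.sum_eq_zero fun k _ => ?_
  rw [Finset.sum_congr rfl fun y _ => d.tw_low_val hij h hj a k y]
  obtain ⟨r, hr⟩ := d.homB j k
  have h1 : d.Z.DA.m a (d.Ψ h (d.Z.B.b k)) ∈ Fs (d.𝒟 j) (D.Nj j + r) :=
    Fs_bil d.Z.DA.m (fun q r a b ha hb => d.filA j q r a b ha hb) ha
      (mem_Fl le_rfl (d.ΨD j h r _ hr))
  refine Fs_ind (P := fun x => ∑ y : (D.L1 hp hc).Y,
    (if agr D hp hc i y (D.y0 hp hc) then d.X.Θ (d.Z.B.co k x) y else 0) = 0) ?_ ?_ ?_ h1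
  · refine Finset.sum_eq_zero fun y _ => ?_
    rw [map_zero, map_zero, Pi.zero_apply, ite_self]
  · intro x x' hx hx'
    have e : ∑ y : (D.L1 hp hc).Y,
        (if agr D hp hc i y (D.y0 hp hc) then d.X.Θ (d.Z.B.co k (x + x')) y else 0) =
        ∑ y : (D.L1 hp hc).Y, (if agr D hp hc i y (D.y0 hp hc) then d.X.Θ (d.Z.B.co k x) y else 0) +
        ∑ y : (D.L1 hp hc).Y, (if agr D hp hc i y (D.y0 hp hc) then d.X.Θ (d.Z.B.co k x') y else 0) := by
      rw [← Finset.sum_add_distrib]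
      refine Finset.sum_congr rfl fun y _ => ?_
      rw [map_add, map_add, Pi.add_apply]
      split_ifs
      · rfl
      · rw [add_zero]
    rw [e, hx, hx', add_zero]
  · intro q hq x hx
    have h2 := d.co_deg2 j k r q hr x hx
    have h3 := Pol.fib_sum (X := d.X) d.pol hE d.G hij (d := q - r) (by linarith)
      (mem_Fl le_rfl h2) (D.y0 hp hc)
    rw [Finset.sum_filter] at h3
    refine Eq.trans (Finset.sum_congr rfl fun y _ => ?_) h3
    by_cases hy : agr D hp hc i y (D.y0 hp hc)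
    · rw [if_pos hy]
      exact (if_pos hy).symm
    · rw [if_neg hy]
      exact (if_neg hy).symm
-- END tw_low

-- BEGIN th1_low
private theorem th1_low_exp (a : A) : d.Z.B.th1 d.Z.lam (d.Z.DA.tl a) =
    ∑ k, d.Z.lam (d.Z.B.co k (d.Z.DA.m a (d.Z.B.b k))) := by
  show (∑ k, d.Z.lam ∘ₗ d.Z.B.co k ∘ₗ d.Z.DA.m.flip (d.Z.B.b k) : A →ₗ[K] K) a = _
  rw [LinearMap.sum_apply]
  rfl

/-- PROOF. `th1 lam a = ∑ k, lam (co_k (a b_k))`, `filA`, `co_deg2`, `lam_Fl` (and `d.hZ`). -/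
theorem th1_low [FiniteDimensional K A] [Nontrivial P] (hE : (Fintype.card E : K) ≠ 0) (j : Fin 2)
    {a : d.R} (ha : a ∈ d.F' j (D.Nj j)) : d.Z.B.th1 d.Z.lam a = 0 := by
  obtain ⟨a, ha, rfl⟩ := ha
  show d.Z.B.th1 d.Z.lam (d.Z.DA.tl a) = 0
  rw [d.th1_low_exp]
  refine Finset.sum_eq_zero fun k _ => ?_
  obtain ⟨r, hr⟩ := d.homB j k
  rw [d.hZ]
  refine lam_Fs hE d.G j ?_
  have h1 : d.Z.DA.m a (d.Z.B.b k) ∈ Fs (d.𝒟 j) (D.Nj j + r) :=
    Fs_bil d.Z.DA.m (fun q r a b ha hb => d.filA j q r a b ha hb) ha (mem_Fl le_rfl hr)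
  refine Fs_ind (P := fun x => d.Z.B.co k x ∈ Fs ((D.L1 hp hc).grc D.c j) (D.Nj j)) ?_ ?_ ?_ h1
  · rw [map_zero]
    exact Submodule.zero_mem _
  · intro x y hx hy
    rw [map_add]
    exact Submodule.add_mem _ hx hy
  · intro q hq x hx
    exact mem_Fs (by linarith) (d.co_deg2 j k r q hr x hx)
-- END th1_low

-- BEGIN th1_tr
private theorem th1_tr_co (k : d.Z.B.ι) (x : A) (s : MonoidAlgebra K P) :
    d.Z.B.co k (d.Z.DA.m x (sA S s)) = d.DS.m (d.Z.B.co k x) s := by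
  have h1 : d.Z.DA.m x (sA S s) = ∑ l, d.Z.B.b l * sA S (d.DS.m (d.Z.B.co l x) s) := by
    conv_lhs => rw [← d.Z.B.exp x]
    rw [map_sum, LinearMap.sum_apply]
    refine Finset.sum_congr rfl fun l _ => ?_
    rw [← d.Z.B.act, d.Z.DA.assoc, d.Z.B.sub, d.Z.B.act]
  rw [h1, map_sum, Finset.sum_eq_single k]
  · rw [d.Z.B.co_b, if_pos rfl]
  · intro l _ hl
    rw [d.Z.B.co_b, if_neg (fun h => hl h.symm)]
  · intro h
    exact absurd (Finset.mem_univ k) h

/-- PROOF. `tr_bas` for the left multiplication by `a`, `Pol.lam` (and `d.hZ`). -/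
theorem th1_tr [FiniteDimensional K A] [Nontrivial P] (hE : (Fintype.card E : K) ≠ 0) :
    ∃ l : K, l ≠ 0 ∧ ∀ a, d.Z.B.th1 d.Z.lam a = l * LinearMap.trace K d.R (LinearMap.mulLeft K a) := by
  obtain ⟨l, hl, h⟩ := Pol.lam (X := d.X) d.pol hE d.G
  refine ⟨l, hl, fun a => ?_⟩
  obtain ⟨a, rfl⟩ := d.Z.DA.tl.surjective a
  have h1 : d.Z.B.th1 d.Z.lam (d.Z.DA.tl a) = ∑ k, d.Z.lam (d.Z.B.co k (d.Z.DA.m a (d.Z.B.b k))) := by
    show (∑ k, d.Z.lam ∘ₗ d.Z.B.co k ∘ₗ d.Z.DA.m.flip (d.Z.B.b k) : A →ₗ[K] K) a = _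
    rw [LinearMap.sum_apply]
    rfl
  rw [h1, d.tr_bas, Finset.mul_sum]
  refine Finset.sum_congr rfl fun k _ => ?_
  rw [d.hZ, h]
  congr 1
  refine Finset.sum_congr rfl fun y _ => ?_
  have h2 : d.Z.DA.tl.symm (LinearMap.mulLeft K (d.Z.DA.tl a) (d.Z.DA.tl (d.Z.B.b k) * d.Z.ey d.X y)) =
      d.Z.DA.m (d.Z.DA.m a (d.Z.B.b k)) (sA S (d.X.Θ.symm (Pi.single y 1))) := by
    rw [LinearMap.mulLeft_apply, ← mul_assoc]
    rfl
  rw [h2, d.th1_tr_co, d.X.mul, Pi.mul_apply, LinearEquiv.apply_symm_apply, Pi.single_eq_same, mul_one]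
-- END th1_tr

-- BEGIN th1_psi
/-- PROOF. `th1_tr` and conjugation with `psi h`. -/
theorem th1_psi [FiniteDimensional K A] [Nontrivial P] (hE : (Fintype.card E : K) ≠ 0) (h : Tor p) (a : d.R) :
    d.Z.B.th1 d.Z.lam (d.psi h a) = d.Z.B.th1 d.Z.lam a := by
  obtain ⟨l, -, hl⟩ := d.th1_tr hE
  rw [hl, hl, ← LinearMap.trace_conj' (LinearMap.mulLeft K a) (d.psi h).toLinearEquiv]
  congr 2
  refine LinearMap.ext fun x => ?_
  show d.psi h a * x = d.psi h (a * (d.psi h).symm x)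
  rw [map_mul, AlgEquiv.apply_symm_apply]
-- END th1_psi

-- BEGIN tw_ey
open Classical in
/-- the component `γ` of an element of `K[P ⋊ E]` -/
private noncomputable def tw_ey_pr (K : Type) {P E : Type} [Field K] [CommGroup P] [Group E]
    (act : E →* MulAut P) (γ : E) : cAlg K act →ₗ[K] MonoidAlgebra K P :=
  (MonoidAlgebra.basis (P ⋊[act] E) K).constr K fun g => if g.right = γ then MonoidAlgebra.of K P g.left else 0

open Classical in
private theorem tw_ey_pr_of (γ : E) (g : P ⋊[act] E) :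
    tw_ey_pr K act γ (MonoidAlgebra.of K _ g) = if g.right = γ then MonoidAlgebra.of K P g.left else 0 := by
  have h : (MonoidAlgebra.of K (P ⋊[act] E) g : cAlg K act) = (MonoidAlgebra.basis (P ⋊[act] E) K) g := by
    simp [MonoidAlgebra.of_apply]
  rw [h]
  unfold tw_ey_pr
  rw [Module.Basis.constr_basis]

open Classical in
private theorem tw_ey_pr_mul (s : MonoidAlgebra K P) (γ y : E) :
    tw_ey_pr K act γ (inlK act s * MonoidAlgebra.of K _ (SemidirectProduct.inr y)) = if y = γ then s else 0 := by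
  induction s using MonoidAlgebra.induction_linear with
  | zero => rw [map_zero, zero_mul, map_zero, ite_self]
  | add f g hf hg =>
    rw [map_add, add_mul, map_add, hf, hg]
    split_ifs
    · rfl
    · rw [add_zero]
  | single u c =>
    have h1 : (MonoidAlgebra.single u c : MonoidAlgebra K P) = c • MonoidAlgebra.of K P u := by
      simp [MonoidAlgebra.of_apply]
    rw [h1, map_smul, smul_mul_assoc, map_smul, inlK_of, ← map_mul, tw_ey_pr_of]
    have h2 : (SemidirectProduct.inl u * SemidirectProduct.inr y : P ⋊[act] E).right = y := by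
      simp
    have h3 : (SemidirectProduct.inl u * SemidirectProduct.inr y : P ⋊[act] E).left = u := by
      simp
    rw [h2, h3]
    split_ifs
    · rfl
    · rw [smul_zero]

open Classical in
private theorem tw_ey_exp (a : cAlg K act) :
    a = ∑ γ : E, inlK act (tw_ey_pr K act γ a) * MonoidAlgebra.of K _ (SemidirectProduct.inr γ) := by
  induction a using MonoidAlgebra.induction_linear with
  | zero => simp only [map_zero, zero_mul, Finset.sum_const_zero]
  | add f g hf hg =>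
    simp only [map_add, add_mul, Finset.sum_add_distrib]
    rw [← hf, ← hg]
  | single g c =>
    have h1 : (MonoidAlgebra.single g c : MonoidAlgebra K (P ⋊[act] E)) = c • MonoidAlgebra.of K _ g := by
      simp [MonoidAlgebra.of_apply]
    rw [h1]
    have h2 : ∀ γ : E, inlK act (tw_ey_pr K act γ (c • MonoidAlgebra.of K _ g)) *
        MonoidAlgebra.of K _ (SemidirectProduct.inr γ) =
        if g.right = γ then c • MonoidAlgebra.of K _ g else 0 := by
      intro γ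
      rw [map_smul, map_smul, smul_mul_assoc, tw_ey_pr_of]
      by_cases h : g.right = γ
      · rw [if_pos h, if_pos h, ← h, ← of_eq_mulK]
      · rw [if_neg h, if_neg h, map_zero, zero_mul, smul_zero]
    simp only [h2]
    rw [Finset.sum_ite_eq, if_pos (Finset.mem_univ _)]

private theorem tw_ey_io (g : P ⋊[act] E) : S.io (MonoidAlgebra.of K _ g) = S.ρ g := by
  rw [K9.StEq.io, MonoidAlgebra.lift_of]

/-- the left factor -/
private noncomputable def tw_ey_f1 (h : Tor p) : MonoidAlgebra K P →ₗ[K] MonoidAlgebra K P :=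
  d.DS.m (d.X.Θ.symm (Pi.single (D.y0 hp hc) 1)) ∘ₗ (d.β h).toLinearMap

/-- the right factor -/
private noncomputable def tw_ey_f2 (i : Fin 2) (h : Tor p) : MonoidAlgebra K P →ₗ[K] MonoidAlgebra K P :=
  d.DS.m.flip (d.X.Θ.symm fun y => if agr D hp hc i y (D.y0 hp hc) then 1 else 0) ∘ₗ (d.β h).toLinearMap

private theorem tw_ey_f1_eq (h : Tor p) (s : MonoidAlgebra K P) :
    tw_ey_f1 d h s = d.X.Θ s (D.y0 hp hc) • d.X.Θ.symm (Pi.single (D.y0 hp hc) 1) := by
  apply d.X.Θ.injective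
  show d.X.Θ (d.DS.m _ (d.β h s)) = _
  rw [d.X.mul, map_smul, LinearEquiv.apply_symm_apply]
  funext z
  by_cases hz : z = D.y0 hp hc
  · subst hz
    rw [Pi.mul_apply, Pi.smul_apply, Pi.single_eq_same, one_mul, smul_eq_mul, mul_one, d.Θβ, tY_y0]
  · rw [Pi.mul_apply, Pi.smul_apply, Pi.single_eq_of_ne hz, zero_mul, smul_zero]

private theorem tw_ey_ei (i : Fin 2) :
    d.ei i = d.Z.DA.tl (sA S (d.X.Θ.symm fun y => if agr D hp hc i y (D.y0 hp hc) then 1 else 0)) := by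
  have h1 : (d.X.Θ.symm fun y => if agr D hp hc i y (D.y0 hp hc) then (1 : K) else 0) =
      ∑ y : (D.L1 hp hc).Y, if agr D hp hc i y (D.y0 hp hc) then d.X.Θ.symm (Pi.single y 1) else 0 := by
    apply d.X.Θ.injective
    rw [LinearEquiv.apply_symm_apply, map_sum]
    funext z
    rw [Finset.sum_apply, Finset.sum_eq_single z]
    · split_ifs
      · rw [LinearEquiv.apply_symm_apply, Pi.single_eq_same]
      · rw [map_zero, Pi.zero_apply]
    · intro y _ hy
      split_ifs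
      · rw [LinearEquiv.apply_symm_apply, Pi.single_eq_of_ne hy.symm]
      · rw [map_zero, Pi.zero_apply]
    · intro hz
      exact absurd (Finset.mem_univ z) hz
  rw [h1, map_sum, map_sum]
  unfold ei
  refine Finset.sum_congr rfl fun y _ => ?_
  split_ifs
  · rfl
  · rw [map_zero, map_zero]

private theorem tw_ey_ey_ei (i : Fin 2) : d.Z.ey d.X (D.y0 hp hc) * d.ei i = d.Z.ey d.X (D.y0 hp hc) := by
  unfold ei
  rw [Finset.mul_sum, Finset.sum_eq_single (D.y0 hp hc)]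
  · rw [if_pos (show agr D hp hc i (D.y0 hp hc) (D.y0 hp hc) from fun _ _ => rfl), Al1.ey_mul, if_pos rfl]
  · intro y _ hy
    split_ifs
    · rw [Al1.ey_mul, if_neg hy.symm]
    · rw [mul_zero]
  · intro hz
    exact absurd (Finset.mem_univ _) hz

private theorem tw_ey_comm (γ : E) :
    d.Z.ey d.X (D.y0 hp hc) * d.Z.gy γ = d.Z.gy γ * d.Z.ey d.X (D.y0 hp hc) := by
  have h1 : sm (D.L1 hp hc) γ (D.y0 hp hc) = D.y0 hp hc := by
    apply Subtype.ext
    funext s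
    rw [TP.sm_apply, TP.y0_apply]
    exact Finset.sum_eq_zero fun t _ => by rw [TP.y0_apply, mul_zero]
  have h2 := d.Z.gy_ey d.X γ (D.y0 hp hc)
  rw [h1] at h2
  calc d.Z.ey d.X (D.y0 hp hc) * d.Z.gy γ
      = d.Z.gy γ * d.Z.ey d.X (D.y0 hp hc) * d.Z.gy γ⁻¹ * d.Z.gy γ := by rw [h2]
    _ = d.Z.gy γ * d.Z.ey d.X (D.y0 hp hc) * (d.Z.gy γ⁻¹ * d.Z.gy γ) := by rw [mul_assoc _ (d.Z.gy γ⁻¹)]
    _ = d.Z.gy γ * d.Z.ey d.X (D.y0 hp hc) := by rw [d.Z.gy_mul, inv_mul_cancel, d.Z.gy_one, mul_one]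

private theorem tw_ey_c (i : Fin 2) (h : Tor p) (s : MonoidAlgebra K P) (γ : E) :
    d.twm i h (d.Z.ey d.X (D.y0 hp hc)) (d.Z.DA.tl (d.Z.F.Φ (inlK act s *
      MonoidAlgebra.of K _ (SemidirectProduct.inr γ), 0))) =
    d.Z.DA.tl (d.Z.F.Φ (inlK act (tw_ey_f1 d h s) * MonoidAlgebra.of K _ (SemidirectProduct.inr γ), 0)) := by
  have h1 : ∀ s : MonoidAlgebra K P, d.Z.DA.tl (d.Z.F.Φ (inlK act s *
      MonoidAlgebra.of K _ (SemidirectProduct.inr γ), 0)) = d.Z.DA.tl (sA S s) * d.Z.gy γ := by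
    intro s
    unfold Al1.gy
    rw [Dfm.tl_mul, d.Z.R_y, d.Z.F.Φ_c, map_mul, tw_ey_io]
    rfl
  rw [h1, h1]
  show d.Z.ey d.X (D.y0 hp hc) * (d.psi h (d.Z.DA.tl (sA S s) * d.Z.gy γ) * d.ei i) = _
  rw [map_mul, psi_gy, psi_tl, (d.cmp h).s, ← mul_assoc, ← mul_assoc]
  have h2 : d.Z.ey d.X (D.y0 hp hc) * d.Z.DA.tl (sA S (d.β h s)) = d.Z.DA.tl (sA S (tw_ey_f1 d h s)) := by
    unfold Al1.ey
    rw [Dfm.tl_mul, d.Z.B.sub]
    rfl
  rw [h2, tw_ey_f1_eq, map_smul, map_smul, smul_mul_assoc, smul_mul_assoc]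
  congr 1
  show d.Z.ey d.X (D.y0 hp hc) * d.Z.gy γ * d.ei i = d.Z.ey d.X (D.y0 hp hc) * d.Z.gy γ
  rw [tw_ey_comm, mul_assoc, tw_ey_ey_ei]

/-- the factor in the middle -/
private noncomputable def tw_ey_U (h : Tor p) : d.Z.F.U →ₗ[K] d.Z.F.U :=
  (d.Ψ h).toLinearMap.restrict fun u hu => d.ΨU h u hu

private theorem tw_ey_U_coe (h : Tor p) (u : d.Z.F.U) : ((tw_ey_U d h u : d.Z.F.U) : A) = d.Ψ h u := rfl

open TensorProduct in
private theorem tw_ey_m (i : Fin 2) (h : Tor p) (s : MonoidAlgebra K P) (u : d.Z.F.U) (t : MonoidAlgebra K P) :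
    d.twm i h (d.Z.ey d.X (D.y0 hp hc)) (d.Z.DA.tl (d.Z.F.Φ (0, s ⊗ₜ (u ⊗ₜ t)))) =
    d.Z.DA.tl (d.Z.F.Φ (0, tw_ey_f1 d h s ⊗ₜ
      (tw_ey_U d h u ⊗ₜ tw_ey_f2 d i h t))) := by
  rw [d.Z.F.Φ_m, d.Z.F.Φ_m]
  show d.Z.ey d.X (D.y0 hp hc) * (d.psi h (d.Z.DA.tl (sA S s * (u : A) * sA S t)) * d.ei i) = _
  have h4 : d.Ψ h (sA S s * (u : A) * sA S t) = sA S (d.β h s) * d.Ψ h u * sA S (d.β h t) := by
    rw [map_mul, map_mul, (d.cmp h).s, (d.cmp h).s]
  rw [psi_tl, h4, tw_ey_ei, Dfm.tl_mul]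
  have h1 := d.Z.R_s (d.X.Θ.symm fun y => if agr D hp hc i y (D.y0 hp hc) then 1 else 0) (d.β h s)
    (tw_ey_U d h u) (d.β h t)
  rw [tw_ey_U_coe] at h1
  rw [h1]
  unfold Al1.ey
  rw [Dfm.tl_mul]
  have h3 := d.Z.L_s (d.X.Θ.symm (Pi.single (D.y0 hp hc) 1)) (d.β h s)
    (tw_ey_U d h u)
    (d.DS.m (d.β h t) (d.X.Θ.symm fun y => if agr D hp hc i y (D.y0 hp hc) then 1 else 0))
  rw [tw_ey_U_coe] at h3
  rw [h3]
  rfl

/-- the trace on `S_1` -/
private theorem tw_ey_trS [FiniteDimensional K (MonoidAlgebra K P)] (F : MonoidAlgebra K P →ₗ[K] MonoidAlgebra K P) :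
    LinearMap.trace K _ F = ∑ z : (D.L1 hp hc).Y, d.X.Θ (F (d.X.Θ.symm (Pi.single z 1))) z := by
  refine tr_gen (fun z : (D.L1 hp hc).Y => d.X.Θ.symm (Pi.single z 1))
    (fun z => LinearMap.proj z ∘ₗ d.X.Θ.toLinearMap) (fun x => ?_) F
  apply d.X.Θ.injective
  rw [map_sum]
  funext z
  rw [Finset.sum_apply, Finset.sum_eq_single z]
  · rw [map_smul, LinearEquiv.apply_symm_apply, Pi.smul_apply, Pi.single_eq_same, smul_eq_mul, mul_one]
    rfl
  · intro y _ hy
    rw [map_smul, LinearEquiv.apply_symm_apply, Pi.smul_apply, Pi.single_eq_of_ne hy.symm, smul_zero]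
  · intro hz
    exact absurd (Finset.mem_univ z) hz

private theorem tw_ey_tr1 [FiniteDimensional K (MonoidAlgebra K P)] (h : Tor p) :
    LinearMap.trace K _ (tw_ey_f1 d h) = 1 := by
  rw [tw_ey_trS d, Finset.sum_eq_single (D.y0 hp hc)]
  · rw [tw_ey_f1_eq, map_smul, LinearEquiv.apply_symm_apply, Pi.smul_apply, Pi.single_eq_same, smul_eq_mul, mul_one]
  · intro z _ hz
    rw [tw_ey_f1_eq, LinearEquiv.apply_symm_apply, Pi.single_eq_of_ne hz.symm, zero_smul, map_zero, Pi.zero_apply]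
  · intro hz
    exact absurd (Finset.mem_univ _) hz

private theorem tw_ey_fix {i j : Fin 2} (hij : i ≠ j) {h : Tor p} (hj : h j = 1) {z : (D.L1 hp hc).Y}
    (hz : agr D hp hc i z (D.y0 hp hc)) : tY D hp hc h⁻¹ z = z := by
  apply Subtype.ext
  funext t
  rw [tY_apply]
  by_cases ht : D.c t = i
  · rw [hz t ht, TP.y0_apply, mul_zero]
  · have h1 : D.c t = j := by
      have h2 : ∀ a b c : Fin 2, a ≠ b → a ≠ c → c = b := by decide
      exact h2 i j (D.c t) hij (Ne.symm ht)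
    have h3 := tsc_inv hc h j
    have h4 : tsc K hc h j = 1 := by
      unfold tsc
      rw [hj, Units.val_one, map_one]
    rw [h4, mul_one] at h3
    rw [h1, h3, one_mul]

private theorem tw_ey_tr2 [FiniteDimensional K (MonoidAlgebra K P)] [Nontrivial P]
    (hE : (Fintype.card E : K) ≠ 0) {i j : Fin 2} (hij : i ≠ j) {h : Tor p} (hj : h j = 1) :
    LinearMap.trace K _ (tw_ey_f2 d i h) = 0 := by
  rw [tw_ey_trS d]
  have hN : (0 : ℚ) < D.Nj j := by
    obtain ⟨l, v, hl, hlp, hv, hvp, hvi, hvM⟩ := D.eig j 1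
    obtain ⟨t, ht⟩ : ∃ t, v t ≠ 0 := by
      by_contra hcon
      push Not at hcon
      exact hv (funext hcon)
    have hct : D.c t = j := by
      by_contra hcon
      exact ht (hvi t hcon)
    have h1 : 0 < D.Nj j := by
      unfold TP.Nj LinW.dgc
      refine Finset.sum_pos' (fun _ _ => Nat.zero_le _) ⟨t, ?_, ?_⟩
      · exact Finset.mem_univ t
      · have h2 := D.one_lt_q hp t
        rw [if_pos hct, one_mul]
        show 0 < D.q t - 1
        omega
    exact_mod_cast h1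
  have h0 : (1 : MonoidAlgebra K P) ∈ Fl ((D.L1 hp hc).grc D.c j) 0 := by
    rw [Pol.iff (X := d.X) d.pol, d.X.one]
    exact PF_one
  have h2 := Pol.fib_sum (X := d.X) d.pol hE d.G hij hN h0 (D.y0 hp hc)
  rw [Finset.sum_filter] at h2
  rw [← h2]
  refine Finset.sum_congr rfl fun z _ => ?_
  show d.X.Θ (d.DS.m (d.β h (d.X.Θ.symm (Pi.single z 1))) _) z = _
  rw [d.X.mul, Pi.mul_apply, LinearEquiv.apply_symm_apply, d.Θβ, LinearEquiv.apply_symm_apply, d.X.one]
  by_cases hz : agr D hp hc i z (D.y0 hp hc)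
  · have hz' : ∀ t, D.c t = i → (z : T → K) t = (D.y0 hp hc : T → K) t := hz
    rw [tw_ey_fix hij hj hz, Pi.single_eq_same, if_pos hz, if_pos hz', mul_one]
    rfl
  · have hz' : ¬ ∀ t, D.c t = i → (z : T → K) t = (D.y0 hp hc : T → K) t := hz
    rw [if_neg hz, if_neg hz', mul_zero]

/-- the trace of a tensor product of three maps -/
private theorem tw_ey_tr3 {M N L : Type} [AddCommGroup M] [Module K M] [AddCommGroup N] [Module K N] [AddCommGroup L]
    [Module K L] [FiniteDimensional K M] [FiniteDimensional K N] [FiniteDimensional K L]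
    (f : M →ₗ[K] M) (g : N →ₗ[K] N) (k : L →ₗ[K] L) :
    LinearMap.trace K (TensorProduct K M (TensorProduct K N L)) (TensorProduct.map f (TensorProduct.map g k)) =
      LinearMap.trace K M f * (LinearMap.trace K N g * LinearMap.trace K L k) := by
  rw [LinearMap.trace_tensorProduct', LinearMap.trace_tensorProduct']

/-- the trace of a transported pair of maps -/
private theorem tw_ey_tr4 {M N L : Type} [AddCommGroup M] [Module K M] [AddCommGroup N] [Module K N] [AddCommGroup L]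
    [Module K L] [FiniteDimensional K M] [FiniteDimensional K N] (e : (M × N) ≃ₗ[K] L)
    (f : M →ₗ[K] M) (g : N →ₗ[K] N) (F : L →ₗ[K] L) (h1 : ∀ a, F (e (a, 0)) = e (f a, 0))
    (h2 : ∀ m, F (e (0, m)) = e (0, g m)) :
    LinearMap.trace K L F = LinearMap.trace K M f + LinearMap.trace K N g := by
  have hF : F = e.conj (LinearMap.prodMap f g) := by
    refine LinearMap.ext fun x => ?_
    obtain ⟨⟨a, m⟩, rfl⟩ := e.surjective x
    rw [LinearEquiv.conj_apply_apply, LinearEquiv.symm_apply_apply, LinearMap.prodMap_apply]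
    show F (e (a, m)) = e (f a, g m)
    have h3 : ((a, m) : M × N) = (a, 0) + (0, m) := by rw [Prod.mk_add_mk, add_zero, zero_add]
    rw [h3, map_add, map_add, h1, h2, ← map_add, Prod.mk_add_mk, add_zero, zero_add]
  rw [hF, LinearMap.trace_conj', LinearMap.trace_prodMap']

private theorem tw_ey_tr5 {M N : Type} [AddCommGroup M] [Module K M] [AddCommGroup N] [Module K N]
    [FiniteDimensional K M] [FiniteDimensional K N] (f : M →ₗ[K] N) (g : N →ₗ[K] M) (k : M →ₗ[K] M)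
    (hk : ∀ x, g (f x) = k x) : LinearMap.trace K N (f ∘ₗ g) = LinearMap.trace K M k := by
  have h : g ∘ₗ f = k := LinearMap.ext hk
  rw [LinearMap.trace_comp_comm', h]

/-- the left multiplication on `c` -/
private noncomputable def tw_ey_Gc (h : Tor p) : cAlg K act →ₗ[K] cAlg K act :=
  ∑ γ : E, (LinearMap.mulRight K (MonoidAlgebra.of K _
    (SemidirectProduct.inr γ) : cAlg K act) ∘ₗ (inlK act).toLinearMap) ∘ₗ (tw_ey_f1 d h ∘ₗ tw_ey_pr K act γ)

private theorem tw_ey_Gc_eq (h : Tor p) (a : cAlg K act) : tw_ey_Gc d h a = ∑ γ : E,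
    inlK act (tw_ey_f1 d h (tw_ey_pr K act γ a)) * MonoidAlgebra.of K _ (SemidirectProduct.inr γ) := by
  unfold tw_ey_Gc
  rw [LinearMap.sum_apply]
  rfl

private theorem tw_ey_trc [FiniteDimensional K (MonoidAlgebra K P)] [FiniteDimensional K (cAlg K act)] (h : Tor p) :
    LinearMap.trace K (cAlg K act) (tw_ey_Gc d h) = Fintype.card E := by
  classical
  have h3 : ∀ γ : E, LinearMap.trace K (cAlg K act) ((LinearMap.mulRight K (MonoidAlgebra.of K _
      (SemidirectProduct.inr γ) : cAlg K act) ∘ₗ (inlK act).toLinearMap) ∘ₗ (tw_ey_f1 d h ∘ₗ tw_ey_pr K act γ)) = 1 := by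
    intro γ
    rw [tw_ey_tr5 _ _ (tw_ey_f1 d h), tw_ey_tr1 d h]
    intro s
    have h4 : (LinearMap.mulRight K (MonoidAlgebra.of K _
      (SemidirectProduct.inr γ) : cAlg K act) ∘ₗ (inlK act).toLinearMap) s =
        inlK act s * MonoidAlgebra.of K _ (SemidirectProduct.inr γ) := rfl
    rw [h4, LinearMap.comp_apply, tw_ey_pr_mul, if_pos rfl]
  unfold tw_ey_Gc
  rw [map_sum, Finset.sum_congr rfl fun γ _ => h3 γ, Finset.sum_const, Finset.card_univ, nsmul_eq_mul, mul_one]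

private theorem tw_ey_hc (i : Fin 2) (h : Tor p) (a : cAlg K act) :
    d.twm i h (d.Z.ey d.X (D.y0 hp hc)) ((d.Z.F.Φ ≪≫ₗ d.Z.DA.tl) (a, 0)) =
      (d.Z.F.Φ ≪≫ₗ d.Z.DA.tl) (tw_ey_Gc d h a, 0) := by
  have h1 : ∀ a, (d.Z.F.Φ ≪≫ₗ d.Z.DA.tl) (a, 0) =
      ((d.Z.F.Φ ≪≫ₗ d.Z.DA.tl).toLinearMap ∘ₗ LinearMap.inl K (cAlg K act)
        (TensorProduct K (MonoidAlgebra K P) (TensorProduct K d.Z.F.U (MonoidAlgebra K P)))) a := fun _ => rfl
  conv_lhs => rw [tw_ey_exp a]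
  rw [h1, h1, map_sum, map_sum, tw_ey_Gc_eq, map_sum]
  exact Finset.sum_congr rfl fun γ _ => tw_ey_c d i h (tw_ey_pr K act γ a) γ

private theorem tw_ey_hm (i : Fin 2) (h : Tor p)
    (m : TensorProduct K (MonoidAlgebra K P) (TensorProduct K d.Z.F.U (MonoidAlgebra K P))) :
    d.twm i h (d.Z.ey d.X (D.y0 hp hc)) ((d.Z.F.Φ ≪≫ₗ d.Z.DA.tl) (0, m)) =
      (d.Z.F.Φ ≪≫ₗ d.Z.DA.tl) (0, TensorProduct.map (tw_ey_f1 d h)
        (TensorProduct.map (tw_ey_U d h) (tw_ey_f2 d i h)) m) := by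
  have h1 : (d.twm i h (d.Z.ey d.X (D.y0 hp hc)) ∘ₗ (d.Z.F.Φ ≪≫ₗ d.Z.DA.tl).toLinearMap ∘ₗ LinearMap.inr K (cAlg K act)
        (TensorProduct K (MonoidAlgebra K P) (TensorProduct K d.Z.F.U (MonoidAlgebra K P)))) =
      ((d.Z.F.Φ ≪≫ₗ d.Z.DA.tl).toLinearMap ∘ₗ LinearMap.inr K (cAlg K act)
        (TensorProduct K (MonoidAlgebra K P) (TensorProduct K d.Z.F.U (MonoidAlgebra K P)))) ∘ₗ
        TensorProduct.map (tw_ey_f1 d h) (TensorProduct.map (tw_ey_U d h) (tw_ey_f2 d i h)) := by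
    refine TensorProduct.ext' fun s v => ?_
    induction v using TensorProduct.induction_on with
    | zero => rw [TensorProduct.tmul_zero, map_zero, map_zero]
    | add x y hx hy => rw [TensorProduct.tmul_add, map_add, map_add, hx, hy]
    | tmul u t => exact tw_ey_m d i h s u t
  exact LinearMap.congr_fun h1 m

/-- PROOF. `R = C ⊕ M` (`d.Z.F.Φ`), both parts stable under `F x = e_y ψ(x) e_i`. On `M = S ⊗ (U ⊗ S)` it is the tensor product of `s ↦ e_y β(s)`, `Ψ`, `s ↦ β(s) e_i` on `S_1`; the trace of the last one is the number of the points `z`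
with `z_i = 0` (`σ z = z`), zero in `K` (`Pol.fib_sum` for `1`, `0 < N_j`). On `C = ⊕_γ S γ` (`γ e_i = e_i γ`) it is `s γ ↦ e_y e_i β(s) γ`, of trace `|E|` (`y_i = 0`, `σ y = y`). -/
theorem tw_ey [FiniteDimensional K A] [Nontrivial P] (hE : (Fintype.card E : K) ≠ 0) {i j : Fin 2} (hij : i ≠ j) (h : Tor p)
    (hj : h j = 1) : d.tw i h (d.Z.ey d.X (D.y0 hp hc)) = Fintype.card E := by
  classical
  have hS : FiniteDimensional K (MonoidAlgebra K P) := LinearEquiv.finiteDimensional d.X.Θ.symm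
  have hVc : FiniteDimensional K (cAlg K act) := by
    have h1 : FiniteDimensional K (cAlg K act × (TensorProduct K (MonoidAlgebra K P) (TensorProduct K d.Z.F.U (MonoidAlgebra K P)))) :=
      LinearEquiv.finiteDimensional d.Z.F.Φ.symm
    exact Module.Finite.of_surjective (LinearMap.fst K (cAlg K act)
      (TensorProduct K (MonoidAlgebra K P) (TensorProduct K d.Z.F.U (MonoidAlgebra K P)))) LinearMap.fst_surjective
  refine (tw_ey_tr4 (d.Z.F.Φ ≪≫ₗ d.Z.DA.tl) (tw_ey_Gc d h) _ (d.twm i h (d.Z.ey d.X (D.y0 hp hc)))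
    (tw_ey_hc d i h) (tw_ey_hm d i h)).trans ?_
  rw [tw_ey_tr3, tw_ey_tr2 d hE hij hj, mul_zero, mul_zero, add_zero, tw_ey_trc]
-- END tw_ey

-- BEGIN exists_w0
/-- PROOF. `a ↦ th1 (v a)` is onto the dual (`d.Z.nd`, `d.Z.sym`): `v` with `th1 (v a) = tw a`. (1) `th1 (v a b) = tw (a b) = tw (b ψ(a)) = th1 (v b ψ(a)) = th1 (ψ(a) v b)`, `nd`. (2) `th1 (ψ'(v) a) = th1 (ψ'(v ψ'⁻¹ a)) = th1 (v ψ'⁻¹ a) = tw (ψ'⁻¹ a) = tw a`.
(3) `dual0` for `𝒟 j`, `N_j`, `B0 a b = th0 (a * b)`, `B1 a b = th1 (a b)` and `tw_low`. -/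
theorem exists_w0 [FiniteDimensional K A] [Nontrivial P] (hE : (Fintype.card E : K) ≠ 0) {i j : Fin 2} (hij : i ≠ j) (h : Tor p)
    (hj : h j = 1) : ∃ v : d.R, (∀ a, v * a = d.psi h a * v) ∧ (∀ h', d.psi h' v = v) ∧ v ∈ d.F j 0 ∧
      ∀ a, d.Z.B.th1 d.Z.lam (v * a) = d.tw i h a := by
  let B1 : d.R →ₗ[K] Module.Dual K d.R := (LinearMap.mul K d.R).compr₂ (d.Z.B.th1 d.Z.lam)
  have hB1 : ∀ x y, B1 x y = d.Z.B.th1 d.Z.lam (x * y) := fun x y => rfl
  have hinj : Function.Injective B1 := by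
    rw [← LinearMap.ker_eq_bot, LinearMap.ker_eq_bot']
    intro x hx
    refine d.Z.nd x fun y => ?_
    have h1 : B1 x y = (0 : Module.Dual K d.R) y := by rw [hx]
    exact h1
  have hsur : Function.Surjective B1 :=
    (LinearMap.injective_iff_surjective_of_finrank_eq_finrank (Subspace.dual_finrank_eq).symm).1 hinj
  obtain ⟨v, hv⟩ := hsur (d.tw i h)
  have hv' : ∀ a, d.Z.B.th1 d.Z.lam (v * a) = d.tw i h a := fun a => by
    rw [← hB1, hv]
  have eqn : ∀ x y : d.R, (∀ b, d.Z.B.th1 d.Z.lam (x * b) = d.Z.B.th1 d.Z.lam (y * b)) → x = y := by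
    intro x y hxy
    refine sub_eq_zero.1 (d.Z.nd _ fun b => ?_)
    rw [sub_mul, map_sub, hxy, sub_self]
  refine ⟨v, fun a => eqn _ _ fun b => ?_, fun h' => eqn _ _ fun b => ?_, ?_, hv'⟩
  · rw [mul_assoc, hv', d.tw_mul, ← hv', ← mul_assoc, d.Z.sym, mul_assoc]
  · have e1 : d.psi h' v * b = d.psi h' (v * d.psi h'⁻¹ b) := by
      rw [map_mul, d.psi_psi, mul_inv_cancel, d.psi_one]
    rw [e1, d.th1_psi hE, hv', d.tw_psi, hv']
  · have hN : ∀ q, q ≠ (D.Nj j : ℚ) → ∀ a ∈ d.𝒟 j q, d.Z.B.th0 d.lam a = 0 := by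
      intro q hq a ha
      unfold RB.th0
      rw [LinearMap.sum_apply]
      refine Finset.sum_eq_zero fun k _ => ?_
      rw [LinearMap.comp_apply, LinearMap.comp_apply, LinearMap.mulRight_apply]
      obtain ⟨r, hr⟩ := d.homB j k
      have h1 : a * d.Z.B.b k ∈ d.𝒟 j (q + r) := (d.hD j).mul ha hr
      have h2 := d.co_deg2 j k r (q + r) hr _ h1
      rw [add_sub_cancel_right] at h2
      exact lam_grc hE d.G j hq h2
    have key : d.Z.DA.tl.symm v ∈ Fl (d.𝒟 j) 0 := by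
      refine dual0 (d.hD j).ind (d.hD j).sup (D.Nj j : ℚ)
        ((LinearMap.mul K A).compr₂ (d.Z.B.th0 d.lam))
        (B1.compl₁₂ d.Z.DA.tl.toLinearMap d.Z.DA.tl.toLinearMap) ?_ ?_ ?_ ?_ ?_
      · intro a ha
        exact d.nd0 a ha
      · intro a ha
        refine d.Z.DA.tl.map_eq_zero_iff.1 (d.Z.nd _ fun b => ?_)
        exact ha (d.Z.DA.tl.symm b)
      · intro q r a b hqr ha hb
        exact hN _ hqr _ ((d.hD j).mul ha hb)
      · intro q r a b hqr ha hb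
        have h1 : d.Z.DA.tl a * d.Z.DA.tl b ∈ d.F j (q + r) := d.F_mul (d.tl_F.2 ha) (d.tl_F.2 hb)
        exact d.th1_low hE j (d.F_lt j hqr h1)
      · intro b hb
        have h1 : d.Z.B.th1 d.Z.lam (v * d.Z.DA.tl b) = 0 := by
          rw [hv', d.tw_low hE hij h hj (d.tl_F'.2 hb)]
        exact h1
    exact ⟨_, key, rfl⟩
-- END exists_w0

end Dat

end Pool.Agent.Two
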