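import Pool.Agent.Two.Pol
import Pool.Agent.Two.J
import Pool.Agent.Evn.Tt

/-!
# The deformed algebra `A_1` with the torus and its two filtrations: definitions and basic rules
-/

set_option autoImplicit false
set_option linter.unusedSectionVars false

namespace Pool.Agent.Two

open Pool.Agent.Sig Pool.Agent.K9 Pool.Agent.Sqf Pool.Agent.Fdf Pool.Agent.Evn Pool.Agent.Lrg

variable {K P E A T : Type} [Field K] [CommGroup P] [Fintype P] [Group E] [Fintype E] {act : E →* MulAut P} [Fintype T]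
  {p : ℕ} {hp : p.Prime} {hc : CharP K p} {D : TP K act T p} [Ring A] [Algebra K A] {S : StEq K P E act A}

/-- the points `y`, `y'` agree in the part `i` -/
def agr (D : TP K act T p) (hp : p.Prime) (hc : CharP K p) (i : Fin 2) (y y' : (D.L1 hp hc).Y) : Prop :=
  ∀ t, D.c t = i → (y : T → K) t = (y' : T → K) t

noncomputable instance agr_dec (i : Fin 2) (y y' : (D.L1 hp hc).Y) : Decidable (agr D hp hc i y y') := Classical.dec _

/-- the strict filtration is a two-sided ideal for the filtration -/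
theorem Fs_bil {V V' V'' : Type} [AddCommGroup V] [Module K V] [AddCommGroup V'] [Module K V'] [AddCommGroup V'']
    [Module K V''] {𝒱 : ℚ → Submodule K V} {𝒱' : ℚ → Submodule K V'} {W : ℚ → Submodule K V''}
    (μ : V →ₗ[K] V' →ₗ[K] V'')
    (h : ∀ q r a b, a ∈ Fl 𝒱 q → b ∈ Fl 𝒱' r → μ a b ∈ Fl W (q + r)) {e f : ℚ} {a : V} {b : V'} (ha : a ∈ Fs 𝒱 e)
    (hb : b ∈ Fl 𝒱' f) : μ a b ∈ Fs W (e + f) := by
  refine Fs_ind (P := fun a => μ a b ∈ Fs W (e + f)) (by simp) ?_ ?_ ha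
  · intro a a' h h'
    rw [map_add, LinearMap.add_apply]
    exact Submodule.add_mem _ h h'
  intro q hq a ha
  exact Fl_le_Fs (by linarith) (h q f a b (mem_Fl le_rfl ha) hb)

theorem Fs_bil' {V V' V'' : Type} [AddCommGroup V] [Module K V] [AddCommGroup V'] [Module K V'] [AddCommGroup V'']
    [Module K V''] {𝒱 : ℚ → Submodule K V} {𝒱' : ℚ → Submodule K V'} {W : ℚ → Submodule K V''}
    (μ : V →ₗ[K] V' →ₗ[K] V'')
    (h : ∀ q r a b, a ∈ Fl 𝒱 q → b ∈ Fl 𝒱' r → μ a b ∈ Fl W (q + r)) {e f : ℚ} {a : V} {b : V'} (ha : a ∈ Fl 𝒱 e)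
    (hb : b ∈ Fs 𝒱' f) : μ a b ∈ Fs W (e + f) := by
  have h1 := Fs_bil (W := W) μ.flip (fun q r a b ha hb => by
    rw [LinearMap.flip_apply, add_comm]
    exact h r q b a hb ha) hb ha
  rwa [LinearMap.flip_apply, add_comm] at h1

namespace Dat

variable (d : Dat hp hc D S)

/-- the deformed algebra `A_1` -/
abbrev R : Type := d.Z.DA.Al

/-- the action of the torus on `A_1` -/
noncomputable def psi (h : Tor p) : d.R ≃ₐ[K] d.R :=
  AlgEquiv.ofLinearEquiv (d.Z.DA.tl.symm ≪≫ₗ (d.Ψ h).toLinearEquiv ≪≫ₗ d.Z.DA.tl)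
    (by
      show d.Z.DA.tl (d.Ψ h 1) = 1
      rw [map_one]
      rfl)
    (fun a b => (d.Ψm h a b).symm)

theorem psi_tl (h : Tor p) (a : A) : d.psi h (d.Z.DA.tl a) = d.Z.DA.tl (d.Ψ h a) := rfl

theorem psi_one (x : d.R) : d.psi 1 x = x := by
  show d.Z.DA.tl (d.Ψ 1 x) = x
  rw [map_one]
  rfl

theorem psi_psi (h h' : Tor p) (x : d.R) : d.psi h (d.psi h' x) = d.psi (h * h') x := by
  show d.Z.DA.tl (d.Ψ h (d.Ψ h' x)) = d.Z.DA.tl (d.Ψ (h * h') x)
  rw [map_mul]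
  rfl

theorem psi_comm (h h' : Tor p) (x : d.R) : d.psi h (d.psi h' x) = d.psi h' (d.psi h x) := by
  rw [psi_psi, psi_psi, mul_comm]

theorem psi_gy (h : Tor p) (γ : E) : d.psi h (d.Z.gy γ) = d.Z.gy γ := by
  unfold Al1.gy
  rw [psi_tl, (d.cmp h).y]

theorem psi_ey [DecidableEq (D.L1 hp hc).Y] (h : Tor p) (y : (D.L1 hp hc).Y) :
    d.psi h (d.Z.ey d.X y) = d.Z.ey d.X (tY D hp hc h y) := by
  unfold Al1.ey
  rw [psi_tl, (d.cmp h).s]
  congr 2
  apply d.X.Θ.injective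
  rw [LinearEquiv.apply_symm_apply]
  funext z
  rw [d.Θβ, LinearEquiv.apply_symm_apply]
  by_cases hz : z = tY D hp hc h y
  · rw [hz, tY_tY, inv_mul_cancel, tY_one, Pi.single_eq_same, Pi.single_eq_same]
  · rw [Pi.single_eq_of_ne hz, Pi.single_eq_of_ne]
    intro h1
    apply hz
    rw [← h1, tY_tY, mul_inv_cancel, tY_one]

/-- the filtration of `A_1` in the direction `j` -/
def F (j : Fin 2) (e : ℚ) : Submodule K d.R := (Fl (d.𝒟 j) e).map d.Z.DA.tl.toLinearMap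

/-- the strict filtration of `A_1` in the direction `j` -/
def F' (j : Fin 2) (e : ℚ) : Submodule K d.R := (Fs (d.𝒟 j) e).map d.Z.DA.tl.toLinearMap

theorem tl_F {j : Fin 2} {e : ℚ} {a : A} : d.Z.DA.tl a ∈ d.F j e ↔ a ∈ Fl (d.𝒟 j) e := by
  constructor
  · rintro ⟨b, hb, h⟩
    have h' : b = a := h
    rwa [← h']
  · intro h
    exact ⟨a, h, rfl⟩

theorem tl_F' {j : Fin 2} {e : ℚ} {a : A} : d.Z.DA.tl a ∈ d.F' j e ↔ a ∈ Fs (d.𝒟 j) e := by
  constructor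
  · rintro ⟨b, hb, h⟩
    have h' : b = a := h
    rwa [← h']
  · intro h
    exact ⟨a, h, rfl⟩

theorem F_mono (j : Fin 2) {e f : ℚ} (h : e ≤ f) : d.F j e ≤ d.F j f := Submodule.map_mono (Fl_mono h)

theorem F'_mono (j : Fin 2) {e f : ℚ} (h : e ≤ f) : d.F' j e ≤ d.F' j f := Submodule.map_mono (Fs_mono h)

theorem F'_le (j : Fin 2) (e : ℚ) : d.F' j e ≤ d.F j e := Submodule.map_mono (Fs_le_Fl e)

theorem F_lt (j : Fin 2) {e f : ℚ} (h : e < f) : d.F j e ≤ d.F' j f := Submodule.map_mono (Fl_le_Fs h)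

theorem F_mul {j : Fin 2} {e f : ℚ} {a b : d.R} (ha : a ∈ d.F j e) (hb : b ∈ d.F j f) : a * b ∈ d.F j (e + f) := by
  obtain ⟨a, ha, rfl⟩ := ha
  obtain ⟨b, hb, rfl⟩ := hb
  exact ⟨_, d.filA j e f a b ha hb, rfl⟩

theorem F'_mul {j : Fin 2} {e f : ℚ} {a b : d.R} (ha : a ∈ d.F' j e) (hb : b ∈ d.F j f) : a * b ∈ d.F' j (e + f) := by
  obtain ⟨a, ha, rfl⟩ := ha
  obtain ⟨b, hb, rfl⟩ := hb
  exact ⟨_, Fs_bil d.Z.DA.m (fun q r a b ha hb => d.filA j q r a b ha hb) ha hb, rfl⟩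

theorem F_mul' {j : Fin 2} {e f : ℚ} {a b : d.R} (ha : a ∈ d.F j e) (hb : b ∈ d.F' j f) : a * b ∈ d.F' j (e + f) := by
  obtain ⟨a, ha, rfl⟩ := ha
  obtain ⟨b, hb, rfl⟩ := hb
  exact ⟨_, Fs_bil' d.Z.DA.m (fun q r a b ha hb => d.filA j q r a b ha hb) ha hb, rfl⟩

theorem F_one (j : Fin 2) : (1 : d.R) ∈ d.F j 0 :=
  ⟨1, mem_Fl le_rfl (d.hD j).one, rfl⟩

theorem F_mul0 {j : Fin 2} {a b : d.R} (ha : a ∈ d.F j 0) (hb : b ∈ d.F j 0) : a * b ∈ d.F j 0 := by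
  have h := d.F_mul ha hb
  rwa [add_zero] at h

theorem F_pow0 {j : Fin 2} {a : d.R} (ha : a ∈ d.F j 0) (n : ℕ) : a ^ n ∈ d.F j 0 := by
  induction n with
  | zero =>
    rw [pow_zero]
    exact d.F_one j
  | succ n ih =>
    rw [pow_succ]
    exact d.F_mul0 ih ha

theorem psi_F {j : Fin 2} {e : ℚ} (h : Tor p) {a : d.R} (ha : a ∈ d.F j e) : d.psi h a ∈ d.F j e := by
  obtain ⟨a, ha, rfl⟩ := ha
  refine ⟨d.Ψ h a, ?_, rfl⟩
  refine Fl_ind (P := fun a => d.Ψ h a ∈ Fl (d.𝒟 j) e) ?_ ?_ ?_ ha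
  · rw [map_zero]
    exact Submodule.zero_mem _
  · intro a b ha hb
    rw [map_add]
    exact Submodule.add_mem _ ha hb
  · intro q hq a ha
    exact mem_Fl hq (d.ΨD j h q a ha)

theorem psi_F' {j : Fin 2} {e : ℚ} (h : Tor p) {a : d.R} (ha : a ∈ d.F' j e) : d.psi h a ∈ d.F' j e := by
  obtain ⟨a, ha, rfl⟩ := ha
  refine ⟨d.Ψ h a, ?_, rfl⟩
  refine Fs_ind (P := fun a => d.Ψ h a ∈ Fs (d.𝒟 j) e) ?_ ?_ ?_ ha
  · rw [map_zero]
    exact Submodule.zero_mem _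
  · intro a b ha hb
    rw [map_add]
    exact Submodule.add_mem _ ha hb
  · intro q hq a ha
    exact mem_Fs hq (d.ΨD j h q a ha)

/-- `sA` maps the filtration of `k P` into that of `A_1` -/
theorem sA_F {j : Fin 2} {e : ℚ} {s : MonoidAlgebra K P} (hs : s ∈ Fl ((D.L1 hp hc).grc D.c j) e) :
    d.Z.DA.tl (sA S s) ∈ d.F j e := by
  rw [tl_F]
  refine Fl_ind (P := fun s => sA S s ∈ Fl (d.𝒟 j) e) ?_ ?_ ?_ hs
  · rw [map_zero]
    exact Submodule.zero_mem _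
  · intro a b ha hb
    rw [map_add]
    exact Submodule.add_mem _ ha hb
  · intro q hq a ha
    exact mem_Fl hq (d.hioD j q _ (Submodule.subset_span ⟨a, ha, 1, by rw [map_one, map_one, mul_one]; rfl⟩))

theorem sA_F' {j : Fin 2} {e : ℚ} {s : MonoidAlgebra K P} (hs : s ∈ Fs ((D.L1 hp hc).grc D.c j) e) :
    d.Z.DA.tl (sA S s) ∈ d.F' j e := by
  rw [tl_F']
  refine Fs_ind (P := fun s => sA S s ∈ Fs (d.𝒟 j) e) ?_ ?_ ?_ hs
  · rw [map_zero]
    exact Submodule.zero_mem _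
  · intro a b ha hb
    rw [map_add]
    exact Submodule.add_mem _ ha hb
  · intro q hq a ha
    exact mem_Fs hq (d.hioD j q _ (Submodule.subset_span ⟨a, ha, 1, by rw [map_one, map_one, mul_one]; rfl⟩))

theorem ey_F [DecidableEq (D.L1 hp hc).Y] (j : Fin 2) (y : (D.L1 hp hc).Y) : d.Z.ey d.X y ∈ d.F j (D.Nj j) :=
  d.sA_F (Pol.single (X := d.X) d.pol j y)

theorem ey_sub [DecidableEq (D.L1 hp hc).Y] {i j : Fin 2} (hij : i ≠ j) {y y' : (D.L1 hp hc).Y}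
    (h : agr D hp hc i y y') : d.Z.ey d.X y - d.Z.ey d.X y' ∈ d.F' j (D.Nj j) := by
  have h1 := d.sA_F' (Pol.single_sub (X := d.X) d.pol hij h)
  rw [map_sub, map_sub] at h1
  exact h1

/-- an element of negative degree is nilpotent -/
theorem F'_nil [FiniteDimensional K A] {j : Fin 2} {x : d.R} (hx : x ∈ d.F' j 0) : IsNilpotent x := by
  classical
  obtain ⟨s, hs⟩ := exists_fin (d.hD j).ind
  obtain ⟨δ, hδ, h1⟩ : ∃ δ : ℚ, 0 < δ ∧ ∀ q < 0, q ∈ s → q ≤ -δ := by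
    rcases (s.filter fun q => q < 0).eq_empty_or_nonempty with h | h
    · refine ⟨1, one_pos, fun q hq hqs => ?_⟩
      have h2 : q ∈ s.filter fun q => q < 0 := Finset.mem_filter.2 ⟨hqs, hq⟩
      rw [h] at h2
      exact absurd h2 (Finset.notMem_empty q)
    · refine ⟨-(s.filter fun q => q < 0).max' h, ?_, fun q hq hqs => ?_⟩
      · have h2 := (Finset.mem_filter.1 ((s.filter fun q => q < 0).max'_mem h)).2
        linarith
      · rw [neg_neg]
        exact Finset.le_max' _ _ (Finset.mem_filter.2 ⟨hqs, hq⟩)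
  obtain ⟨B, hB⟩ : ∃ B : ℚ, ∀ q ∈ s, B ≤ q := by
    rcases s.eq_empty_or_nonempty with h | h
    · exact ⟨0, by simp [h]⟩
    · exact ⟨s.min' h, fun q hq => s.min'_le q hq⟩
  have h2 : x ∈ d.F j (-δ) := by
    obtain ⟨a, ha, rfl⟩ := hx
    refine ⟨a, ?_, rfl⟩
    refine Fs_ind (P := fun a => a ∈ Fl (d.𝒟 j) (-δ)) (Submodule.zero_mem _) (fun a b ha hb => Submodule.add_mem _ ha hb)
      (fun q hq a ha => ?_) ha
    by_cases hqs : q ∈ s
    · exact mem_Fl (h1 q hq hqs) ha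
    · rw [hs q hqs, Submodule.mem_bot] at ha
      rw [ha]
      exact Submodule.zero_mem _
  have h3 : ∀ n : ℕ, x ^ n ∈ d.F j (n * -δ) := by
    intro n
    induction n with
    | zero =>
      rw [pow_zero, Nat.cast_zero, zero_mul]
      exact d.F_one j
    | succ n ih =>
      have h4 := d.F_mul ih h2
      rw [pow_succ, Nat.cast_succ, add_mul, one_mul]
      exact h4
  obtain ⟨n, hn⟩ := exists_nat_gt ((-B) / δ)
  refine ⟨n, ?_⟩
  obtain ⟨a, ha, h4⟩ := h3 n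
  have h5 : a = 0 := by
    refine Fl_ind (P := fun a : A => a = (0 : A)) rfl (fun (a b : A) (ha : a = 0) (hb : b = 0) => by
      rw [ha, hb]
      exact add_zero (0 : A)) (fun q hq a ha => ?_) ha
    have hqs : q ∉ s := by
      intro hqs
      have h6 := hB q hqs
      rw [div_lt_iff₀ hδ] at hn
      have h7 : (n : ℚ) * -δ = -(n * δ) := by ring
      rw [h7] at hq
      linarith
    rw [hs q hqs, Submodule.mem_bot] at ha
    exact ha
  rw [← h4, h5, map_zero]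

end Dat

end Pool.Agent.Two
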